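import Pool.Agent.Work.MP_4eca41_an.Defs

/-!
# T2: separately (semi)convex or (semi)concave functions are locally Lipschitz

PROOFS.  One variable: `φ` convex on the line with `|φ| ≤ B` on `[-2R, 2R]` satisfies
`|φ x - φ x'| ≤ (2 B / R) |x - x'|` for `x, x'` in `[-R, R]` (compare the slope with the slopes over
`[x', x' ± R]`; Mathlib: monotonicity of slopes, `ConvexOn.secant_mono` etc.).  For a function with
`SC C φ`, apply this to `φ + C x^2` (resp. `-(φ - C x^2)`), bounded by `B + 4 C R^2`, and add the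
Lipschitz constant `2 C R` of `C x^2`.  Two variables: `|g y - g y'| ≤ |g (y.1, y.2) - g (y'.1, y.2)|
+ |g (y'.1, y.2) - g (y'.1, y'.2)|`.  Continuity: local Lipschitz.
-/

set_option autoImplicit false

open Set MeasureTheory

namespace Pool.Agent.MP_4eca41

/-- `φ + C x^2` is convex or `φ - C x^2` is concave. -/
def SC (C : ℝ) (φ : ℝ → ℝ) : Prop :=
  ConvexOn ℝ univ (fun x => φ x + C * x ^ 2) ∨ ConcaveOn ℝ univ fun x => φ x - C * x ^ 2


private theorem lip1 {φ : ℝ → ℝ} (hφ : ConvexOn ℝ univ φ) {R B : ℝ} (hR : 0 < R)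
    (hB : ∀ x, |x| ≤ 2 * R → |φ x| ≤ B) {x x' : ℝ} (hx : |x| ≤ R) (hx' : |x'| ≤ R) (hlt : x < x') :
    |φ x - φ x'| ≤ 2 * B / R * (x' - x) := by
  obtain ⟨h1, h2⟩ := abs_le.mp hx
  obtain ⟨h3, h4⟩ := abs_le.mp hx'
  set h := x' - x with hh
  have hpos : 0 < h := by rw [hh]; linarith
  have hRh : 0 < R + h := by linarith
  have c1 := hφ.2 (mem_univ x) (mem_univ (x' + R)) (show (0 : ℝ) ≤ R / (R + h) by positivity)
    (show (0 : ℝ) ≤ h / (R + h) by positivity) (by field_simp)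
  have e1 : (R / (R + h)) • x + (h / (R + h)) • (x' + R) = x' := by
    simp only [smul_eq_mul]
    field_simp
    rw [hh]; ring
  rw [e1] at c1
  simp only [smul_eq_mul] at c1
  have c1' : (R + h) * φ x' ≤ R * φ x + h * φ (x' + R) := by
    have := mul_le_mul_of_nonneg_left c1 hRh.le
    have e : (R + h) * (R / (R + h) * φ x + h / (R + h) * φ (x' + R))
        = R * φ x + h * φ (x' + R) := by field_simp
    linarith
  have c2 := hφ.2 (mem_univ (x - R)) (mem_univ x') (show (0 : ℝ) ≤ h / (R + h) by positivity)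
    (show (0 : ℝ) ≤ R / (R + h) by positivity) (by field_simp; ring)
  have e2 : (h / (R + h)) • (x - R) + (R / (R + h)) • x' = x := by
    simp only [smul_eq_mul]
    field_simp
    rw [hh]; ring
  rw [e2] at c2
  simp only [smul_eq_mul] at c2
  have c2' : (R + h) * φ x ≤ h * φ (x - R) + R * φ x' := by
    have := mul_le_mul_of_nonneg_left c2 hRh.le
    have e : (R + h) * (h / (R + h) * φ (x - R) + R / (R + h) * φ x')
        = h * φ (x - R) + R * φ x' := by field_simp
    linarith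
  have b1 := abs_le.mp (hB (x' + R) (by rw [abs_le]; constructor <;> linarith))
  have b2 := abs_le.mp (hB (x - R) (by rw [abs_le]; constructor <;> linarith))
  have b3 := abs_le.mp (hB x (by rw [abs_le]; constructor <;> linarith))
  have b4 := abs_le.mp (hB x' (by rw [abs_le]; constructor <;> linarith))
  have k1 : R * (φ x' - φ x) ≤ 2 * B * h := by nlinarith [b1.2, b4.1]
  have k2 : R * (φ x - φ x') ≤ 2 * B * h := by nlinarith [b2.2, b3.1]
  have e3 : 2 * B / R * h = (2 * B * h) / R := by ring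
  rw [e3, abs_le]
  constructor
  · rw [neg_le, le_div_iff₀ hR]; linarith
  · rw [le_div_iff₀ hR]; linarith

private theorem lip1' {φ : ℝ → ℝ} (hφ : ConvexOn ℝ univ φ) {R B : ℝ} (hR : 0 < R)
    (hB : ∀ x, |x| ≤ 2 * R → |φ x| ≤ B) {x x' : ℝ} (hx : |x| ≤ R) (hx' : |x'| ≤ R) :
    |φ x - φ x'| ≤ 2 * B / R * |x - x'| := by
  rcases lt_trichotomy x x' with h | h | h
  · have := lip1 hφ hR hB hx hx' h
    rwa [abs_sub_comm x x', abs_of_pos (by linarith : 0 < x' - x)]
  · subst h; simp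
  · have := lip1 hφ hR hB hx' hx h
    rwa [abs_sub_comm (φ x), abs_of_pos (by linarith : 0 < x - x')]

private theorem sc_lip {C : ℝ} (hC : 0 ≤ C) {φ : ℝ → ℝ} (hφ : SC C φ) {R B : ℝ} (hR : 0 < R)
    (hB : ∀ x, |x| ≤ 2 * R → |φ x| ≤ B) {x x' : ℝ} (hx : |x| ≤ R) (hx' : |x'| ≤ R) :
    |φ x - φ x'| ≤ (2 * (|B| + C * (2 * R) ^ 2) / R + C * (2 * R)) * |x - x'| := by
  have hq : ∀ z : ℝ, |z| ≤ 2 * R → C * z ^ 2 ≤ C * (2 * R) ^ 2 := by
    intro z hz
    refine mul_le_mul_of_nonneg_left ?_ hC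
    rw [← sq_abs z]
    exact pow_le_pow_left₀ (abs_nonneg z) hz 2
  have hq0 : ∀ z : ℝ, 0 ≤ C * z ^ 2 := fun z => by positivity
  have hsq : |C * x ^ 2 - C * x' ^ 2| ≤ C * (2 * R) * |x - x'| := by
    have e : C * x ^ 2 - C * x' ^ 2 = C * (x + x') * (x - x') := by ring
    rw [e, abs_mul, abs_mul, abs_of_nonneg hC]
    refine mul_le_mul_of_nonneg_right (mul_le_mul_of_nonneg_left ?_ hC) (abs_nonneg _)
    exact (abs_add_le x x').trans (by linarith)
  rcases hφ with h | h
  · have hb : ∀ z, |z| ≤ 2 * R → |φ z + C * z ^ 2| ≤ |B| + C * (2 * R) ^ 2 := by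
      intro z hz
      refine (abs_add_le _ _).trans (add_le_add ((hB z hz).trans (le_abs_self B)) ?_)
      rw [abs_of_nonneg (hq0 z)]
      exact hq z hz
    have k := lip1' h hR hb hx hx'
    have e : φ x - φ x' = ((φ x + C * x ^ 2) - (φ x' + C * x' ^ 2)) - (C * x ^ 2 - C * x' ^ 2) := by
      ring
    rw [e]
    refine (abs_sub _ _).trans ?_
    rw [add_mul]
    exact add_le_add k hsq
  · have h' : ConvexOn ℝ univ fun z => -(φ z - C * z ^ 2) := h.neg
    have hb : ∀ z, |z| ≤ 2 * R → |(-(φ z - C * z ^ 2))| ≤ |B| + C * (2 * R) ^ 2 := by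
      intro z hz
      rw [abs_neg]
      refine (abs_sub _ _).trans (add_le_add ((hB z hz).trans (le_abs_self B)) ?_)
      rw [abs_of_nonneg (hq0 z)]
      exact hq z hz
    have k := lip1' h' hR hb hx hx'
    have e : φ x - φ x' = -((-(φ x - C * x ^ 2)) - (-(φ x' - C * x' ^ 2)))
        + (C * x ^ 2 - C * x' ^ 2) := by
      ring
    rw [e]
    refine (abs_add_le _ _).trans ?_
    rw [add_mul, abs_neg]
    exact add_le_add k hsq

theorem t2_lip (C R B : ℝ) (hC : 0 ≤ C) (hR : 0 < R) :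
    ∃ L : ℝ, 0 ≤ L ∧ ∀ g : ℝ × ℝ → ℝ, (∀ t, SC C fun p => g (p, t)) → (∀ p, SC C fun t => g (p, t)) →
      (∀ y : ℝ × ℝ, |y.1| ≤ 2 * R → |y.2| ≤ 2 * R → |g y| ≤ B) →
      ∀ y y' : ℝ × ℝ, |y.1| ≤ R → |y.2| ≤ R → |y'.1| ≤ R → |y'.2| ≤ R →
        |g y - g y'| ≤ L * (|y.1 - y'.1| + |y.2 - y'.2|) := by
  refine ⟨2 * (|B| + C * (2 * R) ^ 2) / R + C * (2 * R), by positivity, ?_⟩
  intro g hp ht hb y y' h1 h2 h3 h4
  have k1 := sc_lip hC (hp y.2) hR (B := B)
    (fun x hx => hb (x, y.2) hx (by linarith)) h1 h3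
  have k2 := sc_lip hC (ht y'.1) hR (B := B)
    (fun x hx => hb (y'.1, x) (by simpa using (by linarith : |y'.1| ≤ 2 * R)) hx) h2 h4
  have e : g y - g y' = (g (y.1, y.2) - g (y'.1, y.2)) + (g (y'.1, y.2) - g (y'.1, y'.2)) := by
    simp
  rw [e, mul_add]
  exact (abs_add_le _ _).trans (add_le_add k1 k2)

theorem t2_continuous (C : ℝ) (hC : 0 ≤ C) (g : ℝ × ℝ → ℝ) (hp : ∀ t, SC C fun p => g (p, t))
    (ht : ∀ p, SC C fun t => g (p, t))
    (hb : ∀ R : ℝ, ∃ B : ℝ, ∀ y : ℝ × ℝ, |y.1| ≤ R → |y.2| ≤ R → |g y| ≤ B) : Continuous g := by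
  rw [continuous_iff_continuousAt]
  intro y0
  set R : ℝ := |y0.1| + |y0.2| + 1 with hRd
  have hR : 0 < R := by positivity
  obtain ⟨B, hB⟩ := hb (2 * R)
  obtain ⟨L, hL, hlip⟩ := t2_lip C R B hC hR
  have hl := hlip g hp ht hB
  have h01 : |y0.1| ≤ R := by
    have := abs_nonneg y0.2
    rw [hRd]; linarith
  have h02 : |y0.2| ≤ R := by
    have := abs_nonneg y0.1
    rw [hRd]; linarith
  have hev : ∀ᶠ y : ℝ × ℝ in nhds y0, |y.1| ≤ R ∧ |y.2| ≤ R := by
    have c1 : Continuous fun y : ℝ × ℝ => |y.1| := by fun_prop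
    have c2 : Continuous fun y : ℝ × ℝ => |y.2| := by fun_prop
    have l1 : |y0.1| < R := by
      have := abs_nonneg y0.2
      rw [hRd]; linarith
    have l2 : |y0.2| < R := by
      have := abs_nonneg y0.1
      rw [hRd]; linarith
    filter_upwards [c1.continuousAt.eventually_lt_const l1, c2.continuousAt.eventually_lt_const l2]
      with y h1 h2
    exact ⟨h1.le, h2.le⟩
  rw [ContinuousAt, tendsto_iff_norm_sub_tendsto_zero]
  have hz : Filter.Tendsto (fun y : ℝ × ℝ => L * (|y.1 - y0.1| + |y.2 - y0.2|)) (nhds y0)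
      (nhds 0) := by
    have c : Continuous fun y : ℝ × ℝ => L * (|y.1 - y0.1| + |y.2 - y0.2|) := by fun_prop
    have := c.tendsto y0
    simpa using this
  refine squeeze_zero' (Filter.Eventually.of_forall fun y => norm_nonneg _) ?_ hz
  filter_upwards [hev] with y hy
  rw [Real.norm_eq_abs]
  exact hl y y0 hy.1 hy.2 h01 h02

private theorem convex_of_mid {ψ : ℝ → ℝ} (hc : Continuous ψ)
    (hm : ∀ x h, 2 * ψ x ≤ ψ (x + h) + ψ (x - h)) : ConvexOn ℝ univ ψ := by
  refine LinearOrder.convexOn_of_lt convex_univ ?_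
  intro a _ b _ hab u v hu hv huv
  simp only [smul_eq_mul]
  have hba : 0 < b - a := by linarith
  set m : ℝ := (ψ b - ψ a) / (b - a) with hmd
  set g : ℝ → ℝ := fun x => ψ x - (ψ a + m * (x - a)) with hg
  have gc : Continuous g := by
    rw [hg]; fun_prop
  have ga : g a = 0 := by simp [hg]
  have gb : g b = 0 := by
    simp only [hg, hmd]
    field_simp
    ring
  have gm : ∀ x h, 2 * g x ≤ g (x + h) + g (x - h) := by
    intro x h
    have := hm x h
    simp only [hg]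
    linarith
  obtain ⟨c0, hc0, hmax⟩ := isCompact_Icc.exists_isMaxOn (nonempty_Icc.mpr hab.le) gc.continuousOn
  have hK : IsCompact (Icc a b ∩ g ⁻¹' {g c0}) :=
    isCompact_Icc.inter_right (isClosed_singleton.preimage gc)
  obtain ⟨c, ⟨hcI, hcg⟩, hleast⟩ := hK.exists_isLeast ⟨c0, hc0, rfl⟩
  have hcg' : g c = g c0 := hcg
  have hgc : g c ≤ 0 := by
    by_contra hpos
    push Not at hpos
    have hac : a < c := lt_of_le_of_ne hcI.1 (by rintro rfl; linarith)
    have hcb : c < b := lt_of_le_of_ne hcI.2 (by rintro rfl; linarith)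
    set h : ℝ := min (c - a) (b - c) with hh
    have hh0 : 0 < h := lt_min (by linarith) (by linarith)
    have hh1 : h ≤ c - a := min_le_left _ _
    have hh2 : h ≤ b - c := min_le_right _ _
    have i1 : g (c + h) ≤ g c0 := hmax (show c + h ∈ Icc a b from ⟨by linarith, by linarith⟩)
    have i2 : g (c - h) ≤ g c0 := hmax (show c - h ∈ Icc a b from ⟨by linarith, by linarith⟩)
    have i3 : g (c - h) ≠ g c0 := by
      intro he
      have := hleast (show c - h ∈ Icc a b ∩ g ⁻¹' {g c0} from ⟨⟨by linarith, by linarith⟩, he⟩)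
      linarith
    have i4 := lt_of_le_of_ne i2 i3
    have := gm c h
    linarith
  have hz : u * a + v * b ∈ Icc a b := by
    have hu1 : u = 1 - v := by linarith
    constructor
    · rw [hu1]; nlinarith
    · rw [hu1]; nlinarith
  have k := hmax hz
  have k2 : g (u * a + v * b) ≤ 0 := by
    have : g (u * a + v * b) ≤ g c0 := k
    linarith
  have k3 : u * a + v * b - a = v * (b - a) := by
    have hu1 : u = 1 - v := by linarith
    rw [hu1]; ring
  simp only [hg] at k2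
  rw [k3] at k2
  have k4 : m * (v * (b - a)) = v * (ψ b - ψ a) := by
    rw [hmd]; field_simp
  have hu1 : u = 1 - v := by linarith
  rw [k4] at k2
  rw [hu1] at k2 ⊢
  linarith

/-- Convexity of `φ + C x^2` from second differences `≥ -2 C h^2` (continuous function: midpoint convexity). -/
theorem sc_of_d2 (C : ℝ) (φ : ℝ → ℝ) (hφ : Continuous φ) (h : ∀ x h : ℝ, -(2 * C) * h ^ 2 ≤ d2 φ h x) :
    ConvexOn ℝ univ fun x => φ x + C * x ^ 2 := by
  refine convex_of_mid (by fun_prop) ?_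
  intro x t
  have := h x t
  unfold d2 at this
  nlinarith

theorem d2_of_sc (C : ℝ) (φ : ℝ → ℝ) (h : ConvexOn ℝ univ fun x => φ x + C * x ^ 2) (x h : ℝ) :
    -(2 * C) * h ^ 2 ≤ d2 φ h x := by
  rename_i hcv
  unfold d2
  have k := hcv.2 (mem_univ (x + h)) (mem_univ (x - h)) (show (0 : ℝ) ≤ 1 / 2 by norm_num)
    (show (0 : ℝ) ≤ 1 / 2 by norm_num) (by norm_num)
  have e : (1 / 2 : ℝ) • (x + h) + (1 / 2 : ℝ) • (x - h) = x := by
    simp only [smul_eq_mul]; ring
  rw [e] at k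
  simp only [smul_eq_mul] at k
  nlinarith

end Pool.Agent.MP_4eca41
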