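import Pool.Agent.Work.MP_4eca41_an.Defs

/-!
# T1: pointwise criterion for convexity; the class `Cls β`

PROOFS.
(t1_convex_Ioo) Let `a' < b'` in the interval and let `c` be the affine function with `c a' = g a'`,
`c b' = g b'`; we must show `g ≤ c` on `[a', b']`.  Otherwise `g x - c x > 0` for some `x`; for
`e > 0` small the function `G u = g u - c u + e (u - a') (u - b')` is still positive somewhere in
`(a', b')`, and `G a' = G b' = 0`.  Let `x0` in `(a', b')` be a maximum point of `G` on `[a', b']`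
(compactness).  For small `h > 0`: `G (x0+h) + G (x0-h) - 2 G x0 ≤ 0`, i.e. `d2 g h x0 + 2 e h^2 ≤ 0`;
the hypothesis with `κ = e` gives `d2 g h x0 ≥ - e h^2`: contradiction.
(t1_convex) is the case of the whole line (or use all intervals `Ioo (-n) n`).
(bb_d2) `BB β` satisfies `d2 (fun p => BB β (p, t)) h p = ∫ s in (-h)..h, (h - |s|) β (p + s, t)`
for `h ≥ 0`.  Proof: `BB β (p+h,t) - BB β (p,t) = ∫ s in 0..h, (h - s) β (p+s,t) + h ∫_0^p β(s,t) ds` and
the same for `-h` (or: both sides are C^2 in `h`, agree at `h = 0` together with the first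
derivative, and have the same second derivative `β (p+h,t) + β (p-h,t)`).
(cls_of_pointwise) apply `t1_convex` in `t` directly; in `p` to `q (p,t) - BB β (p,t)`: by `bb_d2` and
continuity of `β`, `d2 BB h p ≤ (β (p,t) + κ) h^2` for small `h`.
(cls_pointwise), (cls_lower): `d2 (q - BB β) ≥ 0` by convexity and `bb_d2`;
`∫ s in (-h)..h, (h - |s|) m = m h^2`.
-/

set_option autoImplicit false

open Set MeasureTheory

namespace Pool.Agent.MP_4eca41

theorem t1_convex_Ioo (g : ℝ → ℝ) (a b : ℝ) (hg : ContinuousOn g (Ioo a b))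
    (h : ∀ x ∈ Ioo a b, ∀ κ : ℝ, 0 < κ → ∃ h0 : ℝ, 0 < h0 ∧ ∀ h : ℝ, 0 < h → h < h0 →
      -κ * h ^ 2 ≤ d2 g h x) : ConvexOn ℝ (Ioo a b) g := by
  refine LinearOrder.convexOn_of_lt (convex_Ioo a b) ?_
  intro x hx y hy hxy α β hα hβ hαβ
  by_contra hcon
  push Not at hcon
  simp only [smul_eq_mul] at hcon
  set z : ℝ := α * x + β * y with hz
  have hβ' : β = 1 - α := by linarith
  have hxz : 0 < z - x := by
    have : z - x = β * (y - x) := by rw [hz, hβ']; ring
    rw [this]; exact mul_pos hβ (by linarith)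
  have hzy : 0 < y - z := by
    have : y - z = α * (y - x) := by rw [hz, hβ']; ring
    rw [this]; exact mul_pos hα (by linarith)
  set m : ℝ := (g y - g x) / (y - x) with hm
  have hyx : y - x ≠ 0 := by linarith
  have hmy : m * (y - x) = g y - g x := by rw [hm]; field_simp
  have hcz : g x + m * (z - x) = α * g x + β * g y := by
    have : z - x = β * (y - x) := by rw [hz, hβ']; ring
    rw [this]
    have h2 : m * (β * (y - x)) = β * (m * (y - x)) := by ring
    rw [h2, hmy, hβ']; ring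
  set w : ℝ := g z - (g x + m * (z - x)) with hw
  have hwpos : 0 < w := by rw [hw, hcz]; linarith
  set e : ℝ := w / (2 * ((z - x) * (y - z))) with he
  have hD : 0 < (z - x) * (y - z) := mul_pos hxz hzy
  have hepos : 0 < e := by rw [he]; positivity
  have heD : e * ((z - x) * (y - z)) = w / 2 := by
    rw [he]; field_simp
  let G : ℝ → ℝ := fun u => g u - (g x + m * (u - x)) + e * ((u - x) * (u - y))
  have hsub : Icc x y ⊆ Ioo a b := fun u hu => ⟨lt_of_lt_of_le hx.1 hu.1, lt_of_le_of_lt hu.2 hy.2⟩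
  have hGc : ContinuousOn G (Icc x y) := by
    refine ((hg.mono hsub).sub (by fun_prop)).add (by fun_prop)
  obtain ⟨x0, hx0, hmax⟩ := isCompact_Icc.exists_isMaxOn ⟨x, le_refl x, hxy.le⟩ hGc
  have hmax' : ∀ u ∈ Icc x y, G u ≤ G x0 := fun u hu => hmax hu
  have hGz : G z = w / 2 := by
    show g z - (g x + m * (z - x)) + e * ((z - x) * (z - y)) = w / 2
    have h2 : e * ((z - x) * (z - y)) = - (e * ((z - x) * (y - z))) := by ring
    rw [h2, heD, ← hw]; ring
  have hGx : G x = 0 := by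
    show g x - (g x + m * (x - x)) + e * ((x - x) * (x - y)) = 0
    ring
  have hGy : G y = 0 := by
    show g y - (g x + m * (y - x)) + e * ((y - x) * (y - y)) = 0
    rw [hmy]; ring
  have hG0 : 0 < G x0 := by
    have := hmax' z ⟨by linarith, by linarith⟩
    rw [hGz] at this
    linarith
  have hx0x : x < x0 := by
    rcases hx0.1.lt_or_eq with h1 | h1
    · exact h1
    · rw [← h1, hGx] at hG0; exact absurd hG0 (lt_irrefl _)
  have hx0y : x0 < y := by
    rcases hx0.2.lt_or_eq with h1 | h1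
    · exact h1
    · rw [h1, hGy] at hG0; exact absurd hG0 (lt_irrefl _)
  obtain ⟨h0, hh0, hh⟩ := h x0 (hsub hx0) e hepos
  obtain ⟨k, hk0, hk1⟩ : ∃ k : ℝ, 0 < k ∧ k < min h0 (min (x0 - x) (y - x0)) :=
    exists_between (lt_min hh0 (lt_min (by linarith) (by linarith)))
  have hk2 := lt_min_iff.1 hk1
  have hk3 := lt_min_iff.1 hk2.2
  have h1 := hh k hk0 hk2.1
  have h2 := hmax' (x0 + k) ⟨by linarith, by linarith [hk3.2]⟩
  have h3 := hmax' (x0 - k) ⟨by linarith [hk3.1], by linarith⟩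
  have h4 : G (x0 + k) + G (x0 - k) - 2 * G x0 = d2 g k x0 + 2 * (e * k ^ 2) := by
    show (g (x0 + k) - (g x + m * (x0 + k - x)) + e * ((x0 + k - x) * (x0 + k - y))) +
      (g (x0 - k) - (g x + m * (x0 - k - x)) + e * ((x0 - k - x) * (x0 - k - y))) -
      2 * (g x0 - (g x + m * (x0 - x)) + e * ((x0 - x) * (x0 - y))) = _
    unfold d2
    ring
  have h5 : 0 < e * k ^ 2 := by positivity
  linarith

theorem t1_convex (g : ℝ → ℝ) (hg : Continuous g)
    (h : ∀ x κ : ℝ, 0 < κ → ∃ h0 : ℝ, 0 < h0 ∧ ∀ h : ℝ, 0 < h → h < h0 →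
      -κ * h ^ 2 ≤ d2 g h x) : ConvexOn ℝ univ g := by
  refine LinearOrder.convexOn_of_lt convex_univ ?_
  intro x _ y _ hxy α β hα hβ hαβ
  have h1 := t1_convex_Ioo g (x - 1) (y + 1) hg.continuousOn (fun u _ κ hκ => h u κ hκ)
  exact h1.2 ⟨by linarith, by linarith⟩ ⟨by linarith, by linarith⟩ hα.le hβ.le hαβ

private theorem t1_d2_nonneg {g : ℝ → ℝ} (hg : ConvexOn ℝ univ g) (h x : ℝ) : 0 ≤ d2 g h x := by
  have h1 := hg.2 (mem_univ (x + h)) (mem_univ (x - h)) (show (0 : ℝ) ≤ 1 / 2 by norm_num)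
    (show (0 : ℝ) ≤ 1 / 2 by norm_num) (by norm_num)
  simp only [smul_eq_mul] at h1
  have h2 : 1 / 2 * (x + h) + 1 / 2 * (x - h) = x := by ring
  rw [h2] at h1
  unfold d2
  linarith

theorem bb_continuous (β : ℝ × ℝ → ℝ) (hβ : Continuous β) : Continuous (BB β) := by
  unfold BB
  refine intervalIntegral.continuous_parametric_intervalIntegral_of_continuous
    (f := fun (y : ℝ × ℝ) (s : ℝ) => (y.1 - s) * β (s, y.2)) ?_ continuous_fst
  show Continuous (fun z : (ℝ × ℝ) × ℝ => (z.1.1 - z.2) * β (z.2, z.1.2))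
  exact ((continuous_fst.comp continuous_fst).sub continuous_snd).mul
    (hβ.comp (continuous_snd.prodMk (continuous_snd.comp continuous_fst)))

theorem bb_d2 (β : ℝ × ℝ → ℝ) (hβ : Continuous β) (p t h : ℝ) (hh : 0 ≤ h) :
    D2 (BB β) (h, 0) (p, t) = ∫ s in (-h)..h, (h - |s|) * β (p + s, t) := by
  set φ : ℝ → ℝ := fun s => β (s, t) with hφ
  have hφc : Continuous φ := hβ.comp (continuous_id.prodMk continuous_const)
  have hBB : ∀ x : ℝ, BB β (x, t) = ∫ s in (0 : ℝ)..x, (x - s) * φ s := fun x => rfl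
  have key : ∀ k : ℝ, BB β (p + k, t) = BB β (p, t) + k * (∫ s in (0 : ℝ)..p, φ s) +
      ∫ s in (0 : ℝ)..k, (k - s) * φ (p + s) := by
    intro k
    rw [hBB, hBB]
    have i1 : ∀ u v : ℝ, IntervalIntegrable (fun s => (p + k - s) * φ s) volume u v := fun u v =>
      (by fun_prop : Continuous fun s => (p + k - s) * φ s).intervalIntegrable u v
    rw [← intervalIntegral.integral_add_adjacent_intervals (i1 0 p) (i1 p (p + k))]
    have e1 : (∫ s in (0 : ℝ)..p, (p + k - s) * φ s) =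
        (∫ s in (0 : ℝ)..p, (p - s) * φ s) + k * ∫ s in (0 : ℝ)..p, φ s := by
      rw [← intervalIntegral.integral_const_mul, ← intervalIntegral.integral_add]
      · refine intervalIntegral.integral_congr fun s _ => ?_
        show (p + k - s) * φ s = (p - s) * φ s + k * φ s
        ring
      · exact (by fun_prop : Continuous fun s => (p - s) * φ s).intervalIntegrable _ _
      · exact (by fun_prop : Continuous fun s => k * φ s).intervalIntegrable _ _
    have e2 : (∫ s in p..(p + k), (p + k - s) * φ s) =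
        ∫ s in (0 : ℝ)..k, (k - s) * φ (p + s) := by
      have := intervalIntegral.integral_comp_add_left (a := (0 : ℝ)) (b := k)
        (fun s => (p + k - s) * φ s) p
      rw [add_zero] at this
      rw [← this]
      refine intervalIntegral.integral_congr fun s _ => ?_
      show (p + k - (p + s)) * φ (p + s) = (k - s) * φ (p + s)
      ring
    rw [e1, e2]
  have hD : D2 (BB β) (h, 0) (p, t) = BB β (p + h, t) + BB β (p + -h, t) - 2 * BB β (p, t) := by
    unfold D2
    have e1 : ((p, t) : ℝ × ℝ) + (h, 0) = (p + h, t) := by ext <;> simp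
    have e2 : ((p, t) : ℝ × ℝ) - (h, 0) = (p + -h, t) := by ext <;> simp [sub_eq_add_neg]
    rw [e1, e2]
  rw [hD, key h, key (-h)]
  have c1 : Continuous fun s => (h - |s|) * β (p + s, t) :=
    (continuous_const.sub continuous_abs).mul
      (hβ.comp ((continuous_const.add continuous_id).prodMk continuous_const))
  rw [← intervalIntegral.integral_add_adjacent_intervals (c1.intervalIntegrable (-h) 0)
    (c1.intervalIntegrable 0 h)]
  have f1 : (∫ s in (0 : ℝ)..h, (h - |s|) * β (p + s, t)) =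
      ∫ s in (0 : ℝ)..h, (h - s) * φ (p + s) := by
    refine intervalIntegral.integral_congr fun s hs => ?_
    rw [uIcc_of_le hh] at hs
    show (h - |s|) * β (p + s, t) = (h - s) * φ (p + s)
    rw [abs_of_nonneg hs.1]
  have f2 : (∫ s in (-h)..(0 : ℝ), (h - |s|) * β (p + s, t)) =
      ∫ s in (0 : ℝ)..(-h), (-h - s) * φ (p + s) := by
    rw [intervalIntegral.integral_symm 0 (-h), ← intervalIntegral.integral_neg]
    refine intervalIntegral.integral_congr fun s hs => ?_
    rw [uIcc_of_ge (by linarith)] at hs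
    show -((h - |s|) * β (p + s, t)) = (-h - s) * φ (p + s)
    rw [abs_of_nonpos hs.2]
    show -((h - -s) * φ (p + s)) = (-h - s) * φ (p + s)
    ring
  rw [f1, f2]
  ring

private theorem t1_tri (h : ℝ) (hh : 0 ≤ h) : (∫ s in (-h)..h, (h - |s|)) = h ^ 2 := by
  have c1 : Continuous fun s : ℝ => h - |s| := continuous_const.sub continuous_abs
  rw [← intervalIntegral.integral_add_adjacent_intervals (c1.intervalIntegrable (-h) 0)
    (c1.intervalIntegrable 0 h)]
  have f1 : (∫ s in (0 : ℝ)..h, (h - |s|)) = ∫ s in (0 : ℝ)..h, (h - s) := by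
    refine intervalIntegral.integral_congr fun s hs => ?_
    rw [uIcc_of_le hh] at hs
    show h - |s| = h - s
    rw [abs_of_nonneg hs.1]
  have f2 : (∫ s in (-h)..(0 : ℝ), (h - |s|)) = ∫ s in (-h)..(0 : ℝ), (h + s) := by
    refine intervalIntegral.integral_congr fun s hs => ?_
    rw [uIcc_of_le (by linarith)] at hs
    show h - |s| = h + s
    rw [abs_of_nonpos hs.2]; ring
  have hi : ∀ u v : ℝ, IntervalIntegrable (fun s : ℝ => s) volume u v := fun u v =>
    continuous_id.intervalIntegrable u v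
  rw [f1, f2, intervalIntegral.integral_add (continuous_const.intervalIntegrable _ _) (hi _ _),
    intervalIntegral.integral_sub (continuous_const.intervalIntegrable _ _)
    (hi _ _), intervalIntegral.integral_const,
    intervalIntegral.integral_const, integral_id, integral_id]
  simp only [smul_eq_mul]
  ring

private theorem t1_bb_lower (β : ℝ × ℝ → ℝ) (hβ : Continuous β) (p t h m : ℝ) (hh : 0 ≤ h)
    (hm : ∀ s : ℝ, |s| ≤ h → m ≤ β (p + s, t)) : m * h ^ 2 ≤ D2 (BB β) (h, 0) (p, t) := by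
  rw [bb_d2 β hβ p t h hh, ← t1_tri h hh, ← intervalIntegral.integral_const_mul]
  refine intervalIntegral.integral_mono_on (by linarith) ?_ ?_ ?_
  · exact (by fun_prop : Continuous fun s : ℝ => m * (h - |s|)).intervalIntegrable _ _
  · exact ((continuous_const.sub continuous_abs).mul
      (hβ.comp ((continuous_const.add continuous_id).prodMk continuous_const)) :
      Continuous fun s => (h - |s|) * β (p + s, t)).intervalIntegrable _ _
  · intro s hs
    have h1 : |s| ≤ h := abs_le.2 ⟨hs.1, hs.2⟩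
    have h2 := hm s h1
    nlinarith

private theorem t1_bb_upper (β : ℝ × ℝ → ℝ) (hβ : Continuous β) (p t h m : ℝ) (hh : 0 ≤ h)
    (hm : ∀ s : ℝ, |s| ≤ h → β (p + s, t) ≤ m) : D2 (BB β) (h, 0) (p, t) ≤ m * h ^ 2 := by
  rw [bb_d2 β hβ p t h hh, ← t1_tri h hh, ← intervalIntegral.integral_const_mul]
  refine intervalIntegral.integral_mono_on (by linarith) ?_ ?_ ?_
  · exact ((continuous_const.sub continuous_abs).mul
      (hβ.comp ((continuous_const.add continuous_id).prodMk continuous_const)) :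
      Continuous fun s => (h - |s|) * β (p + s, t)).intervalIntegrable _ _
  · exact (by fun_prop : Continuous fun s : ℝ => m * (h - |s|)).intervalIntegrable _ _
  · intro s hs
    have h1 : |s| ≤ h := abs_le.2 ⟨hs.1, hs.2⟩
    have h2 := hm s h1
    nlinarith

private theorem t1_near (β : ℝ × ℝ → ℝ) (hβ : Continuous β) (p t κ : ℝ) (hκ : 0 < κ) :
    ∃ h0 : ℝ, 0 < h0 ∧ ∀ s : ℝ, |s| < h0 → |β (p + s, t) - β (p, t)| < κ := by
  have hc : Continuous fun s : ℝ => β (p + s, t) :=
    hβ.comp ((continuous_const.add continuous_id).prodMk continuous_const)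
  obtain ⟨δ, hδ, h⟩ := Metric.continuousAt_iff.1 (hc.continuousAt (x := 0)) κ hκ
  refine ⟨δ, hδ, fun s hs => ?_⟩
  have := h (x := s) (by rw [Real.dist_eq, sub_zero]; exact hs)
  rw [Real.dist_eq] at this
  simpa using this

private theorem t1_D2x (q : ℝ × ℝ → ℝ) (p t h : ℝ) :
    D2 q (h, 0) (p, t) = d2 (fun x => q (x, t)) h p := by
  unfold D2 d2
  have e1 : ((p, t) : ℝ × ℝ) + (h, 0) = (p + h, t) := by ext <;> simp
  have e2 : ((p, t) : ℝ × ℝ) - (h, 0) = (p - h, t) := by ext <;> simp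
  rw [e1, e2]

private theorem t1_D2t (q : ℝ × ℝ → ℝ) (p t h : ℝ) :
    D2 q (0, h) (p, t) = d2 (fun x => q (p, x)) h t := by
  unfold D2 d2
  have e1 : ((p, t) : ℝ × ℝ) + (0, h) = (p, t + h) := by ext <;> simp
  have e2 : ((p, t) : ℝ × ℝ) - (0, h) = (p, t - h) := by ext <;> simp
  rw [e1, e2]

theorem cls_of_pointwise (β q : ℝ × ℝ → ℝ) (hβ : Continuous β) (hq : Continuous q)
    (hp : ∀ (y : ℝ × ℝ) (κ : ℝ), 0 < κ → ∃ h0 : ℝ, 0 < h0 ∧ ∀ h : ℝ, 0 < h → h < h0 →
      (β y - κ) * h ^ 2 ≤ D2 q (h, 0) y)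
    (ht : ∀ (y : ℝ × ℝ) (κ : ℝ), 0 < κ → ∃ h0 : ℝ, 0 < h0 ∧ ∀ h : ℝ, 0 < h → h < h0 →
      -κ * h ^ 2 ≤ D2 q (0, h) y) : Cls β q := by
  refine ⟨fun p => ?_, fun t => ?_⟩
  · refine t1_convex _ (hq.comp (continuous_const.prodMk continuous_id)) ?_
    intro t κ hκ
    obtain ⟨h0, hh0, h1⟩ := ht (p, t) κ hκ
    refine ⟨h0, hh0, fun h ha hb => ?_⟩
    have := h1 h ha hb
    rwa [t1_D2t] at this
  · refine t1_convex _ ?_ ?_
    · exact (hq.comp (continuous_id.prodMk continuous_const)).sub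
        ((bb_continuous β hβ).comp (continuous_id.prodMk continuous_const))
    intro p κ hκ
    obtain ⟨h0, hh0, h1⟩ := hp (p, t) (κ / 2) (by linarith)
    obtain ⟨h0', hh0', h2⟩ := t1_near β hβ p t (κ / 2) (by linarith)
    refine ⟨min h0 h0', lt_min hh0 hh0', fun h ha hb => ?_⟩
    obtain ⟨hb1, hb2⟩ := lt_min_iff.1 hb
    have h3 := h1 h ha hb1
    have h4 := t1_bb_upper β hβ p t h (β (p, t) + κ / 2) ha.le (fun s hs => by
      have := h2 s (lt_of_le_of_lt hs hb2)
      have := (abs_lt.1 this).2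
      linarith)
    rw [t1_D2x] at h3 h4
    have h5 : d2 (fun p => q (p, t) - BB β (p, t)) h p =
        d2 (fun x => q (x, t)) h p - d2 (fun x => BB β (x, t)) h p := by
      unfold d2; ring
    rw [h5]
    nlinarith

private theorem t1_cls_ge (β q : ℝ × ℝ → ℝ) (hq : Cls β q) (p t h : ℝ) :
    D2 (BB β) (h, 0) (p, t) ≤ D2 q (h, 0) (p, t) := by
  have h1 := t1_d2_nonneg (hq.2 t) h p
  rw [t1_D2x, t1_D2x]
  have h5 : d2 (fun p => q (p, t) - BB β (p, t)) h p =
      d2 (fun x => q (x, t)) h p - d2 (fun x => BB β (x, t)) h p := by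
    unfold d2; ring
  rw [h5] at h1
  linarith

theorem cls_pointwise (β q : ℝ × ℝ → ℝ) (hβ : Continuous β) (hq : Cls β q) (y : ℝ × ℝ) (κ : ℝ)
    (hκ : 0 < κ) : ∃ h0 : ℝ, 0 < h0 ∧ ∀ h : ℝ, 0 < h → h < h0 →
      (β y - κ) * h ^ 2 ≤ D2 q (h, 0) y := by
  obtain ⟨p, t⟩ := y
  obtain ⟨h0, hh0, h2⟩ := t1_near β hβ p t κ hκ
  refine ⟨h0, hh0, fun h ha hb => ?_⟩
  refine le_trans ?_ (t1_cls_ge β q hq p t h)
  refine t1_bb_lower β hβ p t h _ ha.le (fun s hs => ?_)
  have := h2 s (lt_of_le_of_lt hs hb)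
  have := (abs_lt.1 this).1
  linarith

theorem cls_lower (β q : ℝ × ℝ → ℝ) (hβ : Continuous β) (hq : Cls β q) (m : ℝ) (y : ℝ × ℝ) (h : ℝ)
    (hm : ∀ s : ℝ, |s| ≤ |h| → m ≤ β (y.1 + s, y.2)) : m * h ^ 2 ≤ D2 q (h, 0) y := by
  obtain ⟨p, t⟩ := y
  have key : m * |h| ^ 2 ≤ D2 q (|h|, 0) (p, t) :=
    le_trans (t1_bb_lower β hβ p t |h| m (abs_nonneg h) hm) (t1_cls_ge β q hq p t |h|)
  rw [sq_abs] at key
  rcases abs_choice h with h1 | h1
  · rwa [h1] at key
  · rw [h1, t1_D2x] at key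
    rw [t1_D2x]
    refine le_trans key (le_of_eq ?_)
    unfold d2
    rw [sub_neg_eq_add, ← sub_eq_add_neg]
    ring

/-- If every point has second difference at least `m h^2` for small `h` (pointwise, with error `κ`), then
`D2 q (h, 0) y ≥ m h^2` for all `h`. -/
theorem lower_of_pointwise (q : ℝ × ℝ → ℝ) (hq : Continuous q) (m : ℝ)
    (hp : ∀ (y : ℝ × ℝ) (κ : ℝ), 0 < κ → ∃ h0 : ℝ, 0 < h0 ∧ ∀ h : ℝ, 0 < h → h < h0 →
      (m - κ) * h ^ 2 ≤ D2 q (h, 0) y) (y : ℝ × ℝ) (h : ℝ) : m * h ^ 2 ≤ D2 q (h, 0) y := by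
  obtain ⟨p, t⟩ := y
  have hd : ∀ k x : ℝ, d2 (fun x => q (x, t) - m / 2 * x ^ 2) k x =
      d2 (fun x => q (x, t)) k x - m * k ^ 2 := by
    intro k x
    unfold d2
    ring
  have hc : ConvexOn ℝ univ fun x => q (x, t) - m / 2 * x ^ 2 := by
    refine t1_convex _ ((hq.comp (continuous_id.prodMk continuous_const)).sub (by fun_prop)) ?_
    intro x κ hκ
    obtain ⟨h0, hh0, h1⟩ := hp (x, t) κ hκ
    refine ⟨h0, hh0, fun k ha hb => ?_⟩
    have h3 := h1 k ha hb
    rw [t1_D2x] at h3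
    rw [hd]
    nlinarith
  have := t1_d2_nonneg hc h p
  rw [hd] at this
  rw [t1_D2x]
  linarith

end Pool.Agent.MP_4eca41
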