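import Pool.Agent.Work.MP_4eca41_an.T.Rad

/-!
# T4 on the line, with ordinary derivatives

STATEMENT FIXED (helper49).  PROOF: `radius ℝ`; `‖fderiv ℝ r x‖ = |deriv r x|` (`norm_deriv_eq_norm_fderiv`),
`‖iteratedFDeriv ℝ 2 r x‖ = |iteratedDeriv 2 r x|` (`norm_iteratedFDeriv_eq_norm_iteratedDeriv`), `iteratedDeriv 2 r = deriv (deriv r)`.
-/

set_option autoImplicit false

open Set Metric
open scoped ContDiff

namespace Pool.Agent.MP_4eca41.T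

theorem radiusR : ∃ C : ℝ, 0 < C ∧ ∀ Z : Set ℝ, IsClosed Z → Z.Nonempty → ∀ e : ℕ → ℝ, Antitone e →
      (∀ k, 0 < e k) → e 0 ≤ 1 →
      ∃ r : ℝ → ℝ, Continuous r ∧ ContDiffOn ℝ ∞ r Zᶜ ∧ (∀ x ∈ Z, r x = 0) ∧
        (∀ x, x ∉ Z → 0 < r x) ∧ (∀ x, r x ≤ 2 * e 0) ∧
        (∀ (k : ℕ) (x : ℝ), (1 / 2 : ℝ) ^ (k + 1) ≤ infDist x Z → infDist x Z ≤ (1 / 2 : ℝ) ^ k →
          e (k + 1) / 2 * infDist x Z ≤ r x ∧ r x ≤ 4 * e k * infDist x Z ∧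
          |deriv r x| ≤ C * e k ∧ |deriv (deriv r) x| ≤ C * e k * 2 ^ k) ∧
        (∀ x, 1 ≤ infDist x Z → e 0 ≤ r x ∧ deriv r x = 0 ∧ deriv (deriv r) x = 0) := by
  obtain ⟨C, hC, H⟩ := radius ℝ
  refine ⟨C, hC, fun Z hZ hZn e he hp h1 => ?_⟩
  obtain ⟨r, hr1, hr2, hr3, hr4, hr5, hr6, hr7⟩ := H Z hZ hZn e he hp h1
  have e2 : ∀ x : ℝ, ‖iteratedFDeriv ℝ 2 r x‖ = |deriv (deriv r) x| := by
    intro x
    rw [norm_iteratedFDeriv_eq_norm_iteratedDeriv, Real.norm_eq_abs, iteratedDeriv_succ,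
      iteratedDeriv_one]
  have e1 : ∀ x : ℝ, ‖fderiv ℝ r x‖ = |deriv r x| := by
    intro x
    rw [← norm_deriv_eq_norm_fderiv, Real.norm_eq_abs]
  refine ⟨r, hr1, hr2, hr3, hr4, hr5, ?_, ?_⟩
  · intro k x ha hb
    obtain ⟨a1, a2, a3, a4⟩ := hr6 k x ha hb
    rw [e1] at a3
    rw [e2] at a4
    exact ⟨a1, a2, a3, a4⟩
  · intro x hx
    obtain ⟨a1, a2, a3⟩ := hr7 x hx
    refine ⟨a1, ?_, ?_⟩
    · have h3 := e1 x
      rw [a2, norm_zero] at h3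
      exact abs_eq_zero.mp h3.symm
    · have h3 := e2 x
      rw [a3, norm_zero] at h3
      exact abs_eq_zero.mp h3.symm

end Pool.Agent.MP_4eca41.T
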