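import Mathlib

/-!
# A slowly decreasing sequence

STATEMENT FIXED (helper49).  `M k ε` is to be thought of as: the modulus at the scale number `k` is at most `ε`.

PROOF.  Choose `N : ℕ → ℕ` strictly increasing such that `M k (ψ (c * (1/2)^j))` holds for all `k ≥ N j` (recursion: `N (j+1) = max (N j + 1) (number from hM)`).  Let
`J k = ` the number of `j ≥ 1` with `N j + 1 ≤ k` (finite because `N` is strictly increasing, `N j ≥ j`; `J` is monotone and tends to infinity since `J k ≥ j` for `k ≥ N j + 1`)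
and `e k = c * (1/2)^(J k)`.  Antitone, positive, `e 0 = c`, tends to `0`.  `k0 = N 0`.  For `k ≥ N 0`: let `j = J (k+1)`.  If `j = 0`: `M k (ψ c)` as `k ≥ N 0`.  If `j ≥ 1`: the `j` numbers counted are `1, …, j` (monotonicity of `N`), so
`N j + 1 ≤ k + 1`, `k ≥ N j` and `M k (ψ (e (k+1)))`.
-/

set_option autoImplicit false

open Filter

namespace Pool.Agent.MP_4eca41.T

theorem slow_seq (M : ℕ → ℝ → Prop) (hM : ∀ ε : ℝ, 0 < ε → ∃ N : ℕ, ∀ k, N ≤ k → M k ε)
    (ψ : ℝ → ℝ) (hψ : ∀ t : ℝ, 0 < t → 0 < ψ t) (c : ℝ) (hc : 0 < c) :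
    ∃ e : ℕ → ℝ, Antitone e ∧ (∀ k, 0 < e k) ∧ e 0 ≤ c ∧ Tendsto e atTop (nhds 0) ∧
      ∃ k0 : ℕ, ∀ k, k0 ≤ k → M k (ψ (e (k + 1))) := by
  classical
  have hp : ∀ j : ℕ, 0 < c * (1 / 2 : ℝ) ^ j := fun j => by positivity
  choose Nf hNf using fun j : ℕ => hM (ψ (c * (1 / 2 : ℝ) ^ j)) (hψ _ (hp j))
  set N : ℕ → ℕ := fun j => ∑ i ∈ Finset.range (j + 1), (Nf i + 1) with hN
  have hNge : ∀ j, Nf j + j ≤ N j := by
    intro j
    have h1 : N j = ∑ i ∈ Finset.range j, (Nf i + 1) + (Nf j + 1) := Finset.sum_range_succ _ _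
    have h2 : j ≤ ∑ i ∈ Finset.range j, (Nf i + 1) := by
      calc j = ∑ i ∈ Finset.range j, 1 := by simp
        _ ≤ _ := Finset.sum_le_sum fun i _ => Nat.le_add_left 1 (Nf i)
    omega
  set J : ℕ → ℕ := fun k => Nat.findGreatest (fun j => j = 0 ∨ N j + 1 ≤ k) k with hJ
  have hJs : ∀ k, J k = 0 ∨ N (J k) + 1 ≤ k := by
    intro k
    exact Nat.findGreatest_spec (P := fun j => j = 0 ∨ N j + 1 ≤ k) (Nat.zero_le k) (Or.inl rfl)
  have hJm : Monotone J := by
    intro a b hab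
    refine Nat.findGreatest_mono ?_ hab
    intro j hj
    rcases hj with h | h
    · exact Or.inl h
    · exact Or.inr (h.trans hab)
  have hJg : ∀ j k, N j + 1 ≤ k → j ≤ J k := by
    intro j k hk
    refine Nat.le_findGreatest ?_ (Or.inr hk)
    have := hNge j
    omega
  have hJt : Tendsto J atTop atTop := by
    refine tendsto_atTop.2 fun j => ?_
    filter_upwards [eventually_ge_atTop (N j + 1)] with k hk
    exact hJg j k hk
  refine ⟨fun k => c * (1 / 2 : ℝ) ^ J k, ?_, fun k => hp (J k), ?_, ?_, N 0, ?_⟩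
  · intro a b hab
    exact mul_le_mul_of_nonneg_left
      (pow_le_pow_of_le_one (by norm_num) (by norm_num) (hJm hab)) hc.le
  · have h1 : (1 / 2 : ℝ) ^ J 0 ≤ 1 := pow_le_one₀ (by norm_num) (by norm_num)
    show c * (1 / 2 : ℝ) ^ J 0 ≤ c
    nlinarith
  · have h1 : Tendsto (fun n : ℕ => (1 / 2 : ℝ) ^ n) atTop (nhds 0) :=
      tendsto_pow_atTop_nhds_zero_of_lt_one (by norm_num) (by norm_num)
    have h2 := (h1.comp hJt).const_mul c
    rw [mul_zero] at h2
    exact h2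
  · intro k hk
    show M k (ψ (c * (1 / 2 : ℝ) ^ J (k + 1)))
    rcases hJs (k + 1) with h | h
    · rw [h]
      have := hNge 0
      exact hNf 0 k (by omega)
    · have := hNge (J (k + 1))
      exact hNf _ k (by omega)

end Pool.Agent.MP_4eca41.T
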