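import Pool.Agent.Work.MP_4eca41_an.T.Ind

/-!
# T4: radius functions

STATEMENT FIXED (helper49).  `d z = infDist z Z` in the norm of `E` (for `E = ℝ × ℝ` this is the sup norm).

PROOF.  `C₁` from `ind E`.  For `j : ℕ` let `q j = (1/2)^j`, `S j = {z | 3/4 * q j ≤ d z}` (closed) and `χ j` the function of `ind` for
`δ = q (j + 3) = q j / 8` and `S j`.  Since `d` is 1-Lipschitz: `χ j z = 0` if `d z < 5/8 * q j` and `χ j z = 1` if `7/8 * q j < d z`.
`r z = ∑' j, e j * q j * χ j z` (summable, terms in `[0, e 0 * q j]`), so `0 ≤ r z ≤ 2 * e 0`.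
On `Z`: `d = 0`, all `χ j = 0` (here `5/8 * q j > 0`), so `r = 0`.
Let `z` be a point and `k` with `q (k+1) ≤ d z ≤ q k`.  For `z'` near `z` (open set `7/8 * q (k+1) < d z' < 5/4 * q k`): `χ j z' = 1` for
`j ≥ k + 1` and `χ j z' = 0` for `j ≤ k - 1` (as `5/8 * q j ≥ 5/4 * q k`).  So near `z`: `r = A + e k * q k * χ k` with the constant
`A = ∑' j, e (k + 1 + j) * q (k + 1 + j)`, `e (k+1) * q (k+1) ≤ A ≤ 2 * e (k+1) * q (k+1) ≤ e k * q k`.
Consequences at `z`: `r z ≥ A ≥ e (k+1) * q (k+1) ≥ e (k+1) / 2 * d z`;  `r z ≤ 2 * e k * q k ≤ 4 * e k * d z`;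
`‖fderiv r z‖ = e k * q k * ‖fderiv (χ k) z‖ ≤ e k * q k * C₁ * 8 / q k`;  `‖iteratedFDeriv ℝ 2 r z‖ ≤ e k * q k * C₁ * 64 / (q k)^2 = 64 * C₁ * e k * 2^k`.
`C = 64 * C₁`.  If `1 ≤ d z`: near `z` all `χ j = 1` (`7/8 < d`), so `r = ∑' e j * q j` near `z`: constant, `≥ e 0`.
Every `z ∉ Z` has `0 < d z` (`Z` closed, nonempty) and so is in one of the two cases: `r` is smooth near `z` and positive.
Continuity at `z ∈ Z`: for `z' ∉ Z` with `d z' < 1` we have `r z' ≤ 4 * e 0 * d z' ≤ 4 * dist z' z`.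
-/

set_option autoImplicit false

open Set Metric
open scoped ContDiff

namespace Pool.Agent.MP_4eca41.T

private lemma dist_le_add (E : Type*) [NormedAddCommGroup E] (Z : Set E) (z w : E) :
    infDist w Z ≤ infDist z Z + dist w z := by
  exact infDist_le_infDist_add_dist

private lemma sum_q : HasSum (fun j : ℕ => (1 / 2 : ℝ) ^ j) 2 := by
  have := hasSum_geometric_of_lt_one (r := (1 / 2 : ℝ)) (by norm_num) (by norm_num)
  norm_num at this ⊢
  exact this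

private lemma summ (e : ℕ → ℝ) (he : Antitone e) (hp : ∀ k, 0 < e k) (c : ℕ → ℝ)
    (hc : ∀ j, 0 ≤ c j ∧ c j ≤ 1) : Summable (fun j => e j * (1 / 2 : ℝ) ^ j * c j) := by
  refine Summable.of_nonneg_of_le (fun j => ?_) (fun j => ?_) (sum_q.summable.mul_left (e 0))
  · exact mul_nonneg (mul_nonneg (hp j).le (by positivity)) (hc j).1
  · have h1 : e j ≤ e 0 := he (Nat.zero_le j)
    have h2 : (0 : ℝ) < (1 / 2 : ℝ) ^ j := by positivity
    calc e j * (1 / 2 : ℝ) ^ j * c j ≤ e j * (1 / 2 : ℝ) ^ j * 1 :=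
          mul_le_mul_of_nonneg_left (hc j).2 (mul_nonneg (hp j).le h2.le)
      _ = e j * (1 / 2 : ℝ) ^ j := by ring
      _ ≤ e 0 * (1 / 2 : ℝ) ^ j := mul_le_mul_of_nonneg_right h1 h2.le

/-- the tail sum -/
private noncomputable def tl (e : ℕ → ℝ) (k : ℕ) : ℝ :=
  ∑' j : ℕ, e (j + k) * (1 / 2 : ℝ) ^ (j + k)

private lemma summ_tl (e : ℕ → ℝ) (he : Antitone e) (hp : ∀ k, 0 < e k) (k : ℕ) :
    Summable (fun j : ℕ => e (j + k) * (1 / 2 : ℝ) ^ (j + k)) := by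
  have h := summ e he hp (fun _ => 1) (fun _ => ⟨zero_le_one, le_refl _⟩)
  have h2 := (summable_nat_add_iff k).2 h
  simpa using h2

private lemma tl_ge (e : ℕ → ℝ) (he : Antitone e) (hp : ∀ k, 0 < e k) (k : ℕ) :
    e k * (1 / 2 : ℝ) ^ k ≤ tl e k := by
  have h := (summ_tl e he hp k).le_tsum 0 (fun j _ => mul_nonneg (hp _).le (by positivity))
  simpa [tl] using h

private lemma tl_le (e : ℕ → ℝ) (he : Antitone e) (hp : ∀ k, 0 < e k) (k : ℕ) :
    tl e k ≤ e k * (1 / 2 : ℝ) ^ k * 2 := by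
  have h2 : HasSum (fun j : ℕ => e k * (1 / 2 : ℝ) ^ k * (1 / 2 : ℝ) ^ j)
      (e k * (1 / 2 : ℝ) ^ k * 2) := sum_q.mul_left _
  rw [← h2.tsum_eq]
  refine (summ_tl e he hp k).tsum_le_tsum (fun j => ?_) h2.summable
  have h1 : e (j + k) ≤ e k := he (Nat.le_add_left k j)
  have h3 : (0 : ℝ) < (1 / 2 : ℝ) ^ (j + k) := by positivity
  calc e (j + k) * (1 / 2 : ℝ) ^ (j + k) ≤ e k * (1 / 2 : ℝ) ^ (j + k) :=
        mul_le_mul_of_nonneg_right h1 h3.le
    _ = e k * (1 / 2 : ℝ) ^ k * (1 / 2 : ℝ) ^ j := by rw [pow_add]; ring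

private lemma r_formula (e : ℕ → ℝ) (he : Antitone e) (hp : ∀ k, 0 < e k) (c : ℕ → ℝ)
    (hc : ∀ j, 0 ≤ c j ∧ c j ≤ 1) (k : ℕ) (h0 : ∀ j, j < k → c j = 0)
    (h1 : ∀ j, k < j → c j = 1) :
    ∑' j, e j * (1 / 2 : ℝ) ^ j * c j = tl e (k + 1) + e k * (1 / 2 : ℝ) ^ k * c k := by
  rw [← (summ e he hp c hc).sum_add_tsum_nat_add (k + 1), Finset.sum_range_succ]
  have h2 : ∑ j ∈ Finset.range k, e j * (1 / 2 : ℝ) ^ j * c j = 0 := by
    refine Finset.sum_eq_zero (fun j hj => ?_)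
    rw [h0 j (Finset.mem_range.1 hj), mul_zero]
  have h3 : ∑' j, e (j + (k + 1)) * (1 / 2 : ℝ) ^ (j + (k + 1)) * c (j + (k + 1)) = tl e (k + 1) := by
    unfold tl
    refine tsum_congr (fun j => ?_)
    rw [h1 (j + (k + 1)) (by omega), mul_one]
  rw [h2, h3]
  ring

private lemma r_formula' (e : ℕ → ℝ) (c : ℕ → ℝ) (h1 : ∀ j, c j = 1) :
    ∑' j, e j * (1 / 2 : ℝ) ^ j * c j = tl e 0 := by
  unfold tl
  refine tsum_congr (fun j => ?_)
  rw [h1 j, mul_one]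
  simp

private lemma q_le {i j : ℕ} (h : i ≤ j) : (1 / 2 : ℝ) ^ j ≤ (1 / 2 : ℝ) ^ i :=
  pow_le_pow_of_le_one (by norm_num) (by norm_num) h

private lemma q_half {j k : ℕ} (h : j < k) : 2 * (1 / 2 : ℝ) ^ k ≤ (1 / 2 : ℝ) ^ j := by
  have h1 := q_le (Nat.succ_le_of_lt h)
  have h2 : (1 / 2 : ℝ) ^ j.succ = (1 / 2 : ℝ) ^ j * (1 / 2) := pow_succ _ _
  rw [h2] at h1
  generalize (1 / 2 : ℝ) ^ j = x at *
  generalize (1 / 2 : ℝ) ^ k = y at *
  linarith

private lemma q_succ (k : ℕ) : 2 * (1 / 2 : ℝ) ^ (k + 1) = (1 / 2 : ℝ) ^ k := by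
  rw [pow_succ]; ring

theorem radius (E : Type*) [NormedAddCommGroup E] [NormedSpace ℝ E] [FiniteDimensional ℝ E] :
    ∃ C : ℝ, 0 < C ∧ ∀ Z : Set E, IsClosed Z → Z.Nonempty → ∀ e : ℕ → ℝ, Antitone e →
      (∀ k, 0 < e k) → e 0 ≤ 1 →
      ∃ r : E → ℝ, Continuous r ∧ ContDiffOn ℝ ∞ r Zᶜ ∧ (∀ z ∈ Z, r z = 0) ∧
        (∀ z, z ∉ Z → 0 < r z) ∧ (∀ z, r z ≤ 2 * e 0) ∧
        (∀ (k : ℕ) (z : E), (1 / 2 : ℝ) ^ (k + 1) ≤ infDist z Z → infDist z Z ≤ (1 / 2 : ℝ) ^ k →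
          e (k + 1) / 2 * infDist z Z ≤ r z ∧ r z ≤ 4 * e k * infDist z Z ∧
          ‖fderiv ℝ r z‖ ≤ C * e k ∧ ‖iteratedFDeriv ℝ 2 r z‖ ≤ C * e k * 2 ^ k) ∧
        (∀ z, 1 ≤ infDist z Z → e 0 ≤ r z ∧ fderiv ℝ r z = 0 ∧ iteratedFDeriv ℝ 2 r z = 0) := by
  obtain ⟨C₁, hC₁, hind⟩ := ind E
  refine ⟨64 * C₁, by positivity, fun Z hZ hne e he hp he1 => ?_⟩
  have hex : ∀ j : ℕ, ∃ χ : E → ℝ, ContDiff ℝ ∞ χ ∧ (∀ z, 0 ≤ χ z ∧ χ z ≤ 1) ∧
      (∀ z, 7 / 8 * (1 / 2 : ℝ) ^ j < infDist z Z → χ z = 1) ∧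
      (∀ z, infDist z Z < 5 / 8 * (1 / 2 : ℝ) ^ j → χ z = 0) ∧
      (∀ z, ‖fderiv ℝ χ z‖ ≤ C₁ / ((1 / 2 : ℝ) ^ j / 8)) ∧
        ∀ z, ‖iteratedFDeriv ℝ 2 χ z‖ ≤ C₁ / ((1 / 2 : ℝ) ^ j / 8) ^ 2 := by
    intro j
    have hq : (0 : ℝ) < (1 / 2 : ℝ) ^ j := by positivity
    obtain ⟨χ, h1, h2, h3, h4, h5, h6⟩ := hind ((1 / 2 : ℝ) ^ j / 8) (by positivity)
      {z | 3 / 4 * (1 / 2 : ℝ) ^ j ≤ infDist z Z}
      (isClosed_le continuous_const (continuous_infDist_pt Z))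
    refine ⟨χ, h1, h2, fun z hz => h3 z (fun w hw => ?_), fun z hz => h4 z ?_, h5, h6⟩
    · have h := dist_le_add E Z w z
      rw [mem_ball] at hw
      rw [dist_comm] at hw
      show 3 / 4 * (1 / 2 : ℝ) ^ j ≤ infDist w Z
      linarith
    · rw [Set.disjoint_left]
      intro w hw hS
      have h := dist_le_add E Z z w
      rw [mem_ball] at hw
      have hS' : 3 / 4 * (1 / 2 : ℝ) ^ j ≤ infDist w Z := hS
      linarith
  choose χ hχs hχ01 hχ1 hχ0 hχd hχdd using hex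
  set r : E → ℝ := fun z => ∑' j, e j * (1 / 2 : ℝ) ^ j * χ j z with hr
  have hdc : Continuous (fun z : E => infDist z Z) := continuous_infDist_pt Z
  -- local formulas
  have hloc : ∀ (k : ℕ) (z : E), 7 / 8 * (1 / 2 : ℝ) ^ (k + 1) < infDist z Z →
      infDist z Z < 5 / 4 * (1 / 2 : ℝ) ^ k →
      r z = tl e (k + 1) + e k * (1 / 2 : ℝ) ^ k * χ k z := by
    intro k z hz1 hz2
    refine r_formula e he hp (fun j => χ j z) (fun j => hχ01 j z) k (fun j hj => ?_) (fun j hj => ?_)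
    · refine hχ0 j z (lt_of_lt_of_le hz2 ?_)
      have h := q_half hj
      linarith
    · refine hχ1 j z (lt_of_le_of_lt ?_ hz1)
      have h : (1 / 2 : ℝ) ^ j ≤ (1 / 2 : ℝ) ^ (k + 1) := q_le (Nat.succ_le_of_lt hj)
      exact mul_le_mul_of_nonneg_left h (by norm_num)
  have hloc1 : ∀ z : E, 7 / 8 < infDist z Z → r z = tl e 0 := by
    intro z hz
    refine r_formula' e (fun j => χ j z) (fun j => hχ1 j z (lt_of_le_of_lt ?_ hz))
    have h := q_le (Nat.zero_le j)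
    rw [pow_zero] at h
    linarith
  have hev : ∀ (k : ℕ) (z : E), (1 / 2 : ℝ) ^ (k + 1) ≤ infDist z Z →
      infDist z Z ≤ (1 / 2 : ℝ) ^ k →
      r =ᶠ[nhds z] fun w => tl e (k + 1) + e k * (1 / 2 : ℝ) ^ k * χ k w := by
    intro k z hz1 hz2
    have hq : (0 : ℝ) < (1 / 2 : ℝ) ^ (k + 1) := by positivity
    have hq' : (0 : ℝ) < (1 / 2 : ℝ) ^ k := by positivity
    have h1 : ∀ᶠ w in nhds z, 7 / 8 * (1 / 2 : ℝ) ^ (k + 1) < infDist w Z :=
      hdc.continuousAt.eventually (lt_mem_nhds (by linarith : 7 / 8 * (1 / 2 : ℝ) ^ (k + 1) < infDist z Z))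
    have h2 : ∀ᶠ w in nhds z, infDist w Z < 5 / 4 * (1 / 2 : ℝ) ^ k :=
      hdc.continuousAt.eventually (gt_mem_nhds (by linarith : infDist z Z < 5 / 4 * (1 / 2 : ℝ) ^ k))
    filter_upwards [h1, h2] with w hw1 hw2 using hloc k w hw1 hw2
  have hev1 : ∀ z : E, 1 ≤ infDist z Z → r =ᶠ[nhds z] fun _ => tl e 0 := by
    intro z hz1
    have h1 : ∀ᶠ w in nhds z, 7 / 8 < infDist w Z :=
      hdc.continuousAt.eventually (lt_mem_nhds (by linarith : 7 / 8 < infDist z Z))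
    filter_upwards [h1] with w hw1 using hloc1 w hw1
  have hk : ∀ z : E, z ∉ Z → infDist z Z < 1 → ∃ k : ℕ, (1 / 2 : ℝ) ^ (k + 1) ≤ infDist z Z ∧
      infDist z Z ≤ (1 / 2 : ℝ) ^ k := by
    intro z hz hz1
    have hpos : 0 < infDist z Z := (hZ.notMem_iff_infDist_pos hne).1 hz
    obtain ⟨k, hk1, hk2⟩ := exists_nat_pow_near_of_lt_one hpos hz1.le
      (by norm_num : (0 : ℝ) < 1 / 2) (by norm_num : (1 / 2 : ℝ) < 1)
    exact ⟨k, hk1.le, hk2⟩
  have hsm : ∀ z : E, z ∉ Z → ContDiffAt ℝ ∞ r z := by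
    intro z hz
    rcases lt_or_ge (infDist z Z) 1 with h | h
    · obtain ⟨k, hk1, hk2⟩ := hk z hz h
      refine ContDiffAt.congr_of_eventuallyEq ?_ (hev k z hk1 hk2)
      exact contDiffAt_const.add (contDiffAt_const.mul (hχs k).contDiffAt)
    · exact ContDiffAt.congr_of_eventuallyEq contDiffAt_const (hev1 z h)
  have hZ0 : ∀ z ∈ Z, r z = 0 := by
    intro z hz
    have hd : infDist z Z = 0 := infDist_zero_of_mem hz
    have h : ∀ j, χ j z = 0 := fun j => hχ0 j z (by rw [hd]; positivity)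
    simp [hr, h]
  have hnn : ∀ z, 0 ≤ r z := fun z =>
    tsum_nonneg (fun j => mul_nonneg (mul_nonneg (hp j).le (by positivity)) (hχ01 j z).1)
  -- the estimates
  have hest : ∀ (k : ℕ) (z : E), (1 / 2 : ℝ) ^ (k + 1) ≤ infDist z Z → infDist z Z ≤ (1 / 2 : ℝ) ^ k →
      e (k + 1) / 2 * infDist z Z ≤ r z ∧ r z ≤ 4 * e k * infDist z Z ∧
      ‖fderiv ℝ r z‖ ≤ 64 * C₁ * e k ∧ ‖iteratedFDeriv ℝ 2 r z‖ ≤ 64 * C₁ * e k * 2 ^ k := by
    intro k z hz1 hz2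
    have hq : (0 : ℝ) < (1 / 2 : ℝ) ^ k := by positivity
    have hq1 : (1 / 2 : ℝ) ^ (k + 1) = (1 / 2 : ℝ) ^ k * (1 / 2) := pow_succ _ _
    have hrz : r z = tl e (k + 1) + e k * (1 / 2 : ℝ) ^ k * χ k z := (hev k z hz1 hz2).eq_of_nhds
    have hA1 := tl_ge e he hp (k + 1)
    have hA2 := tl_le e he hp (k + 1)
    have hek := hp k
    have hek1 := hp (k + 1)
    have hee : e (k + 1) ≤ e k := he (Nat.le_succ k)
    have ha : 0 < e k * (1 / 2 : ℝ) ^ k := mul_pos hek hq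
    have hb1 : 0 ≤ e k * (1 / 2 : ℝ) ^ k * χ k z := mul_nonneg ha.le (hχ01 k z).1
    have hb2 : e k * (1 / 2 : ℝ) ^ k * χ k z ≤ e k * (1 / 2 : ℝ) ^ k := by
      have := mul_le_mul_of_nonneg_left (hχ01 k z).2 ha.le
      linarith
    have hz1' := hz1
    rw [hq1] at hA1 hA2 hz1
    refine ⟨?_, ?_, ?_, ?_⟩
    · have h1 : e (k + 1) / 2 * infDist z Z ≤ e (k + 1) / 2 * (1 / 2 : ℝ) ^ k :=
        mul_le_mul_of_nonneg_left hz2 (by linarith)
      rw [hrz]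
      nlinarith
    · have h1 : 4 * e k * ((1 / 2 : ℝ) ^ k * (1 / 2)) ≤ 4 * e k * infDist z Z :=
        mul_le_mul_of_nonneg_left hz1 (by linarith)
      have h2 : e (k + 1) * (1 / 2 : ℝ) ^ k ≤ e k * (1 / 2 : ℝ) ^ k :=
        mul_le_mul_of_nonneg_right hee hq.le
      rw [hrz]
      nlinarith
    · have h1 : fderiv ℝ r z = (e k * (1 / 2 : ℝ) ^ k) • fderiv ℝ (χ k) z := by
        rw [(hev k z hz1' hz2).fderiv_eq]
        rw [fderiv_const_add, fderiv_const_mul]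
        exact ((hχs k).differentiable (by simp)).differentiableAt
      rw [h1, norm_smul, Real.norm_of_nonneg ha.le]
      have h2 := mul_le_mul_of_nonneg_left (hχd k z) ha.le
      refine h2.trans ?_
      have h3 : e k * (1 / 2 : ℝ) ^ k * (C₁ / ((1 / 2 : ℝ) ^ k / 8)) = 8 * C₁ * e k := by
        field_simp
      rw [h3]
      nlinarith [mul_pos hC₁ hek]
    · have h1 : iteratedFDeriv ℝ 2 r z = (e k * (1 / 2 : ℝ) ^ k) • iteratedFDeriv ℝ 2 (χ k) z := by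
        have h0 := ((hev k z hz1' hz2).iteratedFDeriv ℝ 2).eq_of_nhds
        rw [h0]
        have hc : ContDiffAt ℝ (2 : ℕ) (χ k) z := (contDiff_infty.1 (hχs k) 2).contDiffAt
        have hc2 : ContDiffAt ℝ (2 : ℕ) ((e k * (1 / 2 : ℝ) ^ k) • χ k) z := by
          have h3 := hc.const_smul (e k * (1 / 2 : ℝ) ^ k)
          exact h3
        have h2 : (fun w => tl e (k + 1) + e k * (1 / 2 : ℝ) ^ k * χ k w) =
            (fun _ => tl e (k + 1)) + (e k * (1 / 2 : ℝ) ^ k) • χ k := by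
          funext w; simp
        rw [h2, iteratedFDeriv_add_apply contDiffAt_const hc2,
          iteratedFDeriv_const_smul_apply hc, iteratedFDeriv_const_of_ne (by norm_num)]
        simp
      rw [h1, norm_smul, Real.norm_of_nonneg ha.le]
      have h2 := mul_le_mul_of_nonneg_left (hχdd k z) ha.le
      refine h2.trans (le_of_eq ?_)
      have h4 : (1 / 2 : ℝ) ^ k * 2 ^ k = 1 := by
        rw [← mul_pow]; norm_num
      have h5 : (2 : ℝ) ^ k = ((1 / 2 : ℝ) ^ k)⁻¹ := by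
        rw [one_div, inv_pow, inv_inv]
      rw [h5]
      field_simp
      ring
  refine ⟨r, ?_, fun z hz => (hsm z hz).contDiffWithinAt, hZ0, ?_, ?_, hest, ?_⟩
  · -- continuity
    rw [continuous_iff_continuousAt]
    intro z
    by_cases hz : z ∈ Z
    · rw [Metric.continuousAt_iff]
      intro ε hε
      refine ⟨min 1 (ε / 4), by positivity, fun {w} hw => ?_⟩
      rw [hZ0 z hz, Real.dist_0_eq_abs, abs_of_nonneg (hnn w)]
      have hw1 : dist w z < 1 := lt_of_lt_of_le hw (min_le_left _ _)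
      have hw2 : dist w z < ε / 4 := lt_of_lt_of_le hw (min_le_right _ _)
      by_cases hwZ : w ∈ Z
      · rw [hZ0 w hwZ]; exact hε
      · have hd : infDist w Z ≤ dist w z := infDist_le_dist_of_mem hz
        obtain ⟨k, hk1, hk2⟩ := hk w hwZ (lt_of_le_of_lt hd hw1)
        have h := (hest k w hk1 hk2).2.1
        have he0 : e k ≤ 1 := (he (Nat.zero_le k)).trans he1
        have h2 : 4 * e k * infDist w Z ≤ 4 * 1 * infDist w Z := by
          have := infDist_nonneg (s := Z) (x := w)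
          nlinarith
        linarith
    · exact (hsm z hz).continuousAt
  · intro z hz
    rcases lt_or_ge (infDist z Z) 1 with h | h
    · obtain ⟨k, hk1, hk2⟩ := hk z hz h
      have h1 := (hest k z hk1 hk2).1
      have hpos : 0 < infDist z Z := (hZ.notMem_iff_infDist_pos hne).1 hz
      have h2 : 0 < e (k + 1) / 2 * infDist z Z := mul_pos (by have := hp (k+1); linarith) hpos
      linarith
    · rw [(hev1 z h).eq_of_nhds]
      have := tl_ge e he hp 0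
      have h0 := hp 0
      rw [pow_zero, mul_one] at this
      linarith
  · intro z
    have h1 : HasSum (fun j : ℕ => e 0 * (1 / 2 : ℝ) ^ j) (e 0 * 2) := sum_q.mul_left _
    have h2 : r z ≤ e 0 * 2 := by
      rw [← h1.tsum_eq]
      refine (summ e he hp (fun j => χ j z) (fun j => hχ01 j z)).tsum_le_tsum (fun j => ?_) h1.summable
      have h3 : e j ≤ e 0 := he (Nat.zero_le j)
      have h4 : (0 : ℝ) < (1 / 2 : ℝ) ^ j := by positivity
      calc e j * (1 / 2 : ℝ) ^ j * χ j z ≤ e j * (1 / 2 : ℝ) ^ j * 1 :=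
            mul_le_mul_of_nonneg_left (hχ01 j z).2 (mul_nonneg (hp j).le h4.le)
        _ = e j * (1 / 2 : ℝ) ^ j := by ring
        _ ≤ e 0 * (1 / 2 : ℝ) ^ j := mul_le_mul_of_nonneg_right h3 h4.le
    linarith
  · intro z hz
    refine ⟨?_, ?_, ?_⟩
    · rw [(hev1 z hz).eq_of_nhds]
      have := tl_ge e he hp 0
      rw [pow_zero, mul_one] at this
      exact this
    · rw [(hev1 z hz).fderiv_eq]
      simp
    · rw [((hev1 z hz).iteratedFDeriv ℝ 2).eq_of_nhds, iteratedFDeriv_const_of_ne (by norm_num)]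
      rfl


end Pool.Agent.MP_4eca41.T
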