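import Pool.Agent.Work.MP_4eca41_an.Defs

/-!
# T5, part B: Whitney compatibility of the jets

PROOF.  Let `ε = κ / 6`, `δ₀` from `hE.ex ε` and `δ = δ₀ / 2`.  Let `y, y' ∈ K`, `w = y' - y`, `R ≥ 0`, `R^2 = sq w ≤ δ^2`; if `R = 0` both sides are `0`.  For `v` with `sq v ≤ R^2` (so `sq (w + v) ≤ 4 R^2 ≤ δ₀^2`):
`|g (y' + v) - g y' - J.q y' v| ≤ ε R^2` and `|g (y + (w + v)) - g y - J.q y (w + v)| ≤ 4 ε R^2`, where `y + (w + v) = y' + v`.  Take the difference of the two, then the difference for `v` and `-v`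
(the terms `g y'`, `g y` cancel): `|(J.q y' v - J.q y' (-v)) - (J.q y (w + v) - J.q y (w - v))| ≤ 10 ε R^2`.  Algebra: `J.q y' v - J.q y' (-v) = 2 (p' v1 + s' v2)`,
`J.q y (w+v) - J.q y (w-v) = 2 (p v1 + s v2) + 2 (a w1 v1 + b (w1 v2 + w2 v1) + c w2 v2)`.  So
`|(p' - p - a w1 - b w2) v1 + (s' - s - b w1 - c w2) v2| ≤ 5 ε R^2`.  With `v = (R, 0)`: `|p' - p - a w1 - b w2| ≤ 5 ε R`; with `v = (0, R)` the other one.
-/

set_option autoImplicit false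

open Set

namespace Pool.Agent.MP_4eca41.T

private theorem whit_aux (K : Set (ℝ × ℝ)) (g : ℝ × ℝ → ℝ) (J : Jets) (ε δ₀ R : ℝ)
    (hε : 0 < ε) (hR : 0 ≤ R) (hRd : 4 * R ^ 2 ≤ δ₀ ^ 2)
    (hex : ∀ z ∈ K, ∀ v : ℝ × ℝ, sq v ≤ δ₀ ^ 2 → |g (z + v) - g z - J.q z v| ≤ ε * sq v)
    (y y' : ℝ × ℝ) (hy : y ∈ K) (hy' : y' ∈ K) (hw : sq (y' - y) = R ^ 2)
    (v : ℝ × ℝ) (hv : sq v = R ^ 2) :
    |(J.p y' - J.p y - J.a y * (y'.1 - y.1) - J.b y * (y'.2 - y.2)) * v.1 +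
      (J.s y' - J.s y - J.b y * (y'.1 - y.1) - J.c y * (y'.2 - y.2)) * v.2| ≤ 5 * ε * R ^ 2 := by
  have hR2 : 0 ≤ R ^ 2 := sq_nonneg R
  have hnv : sq (-v) = R ^ 2 := by
    rw [← hv]; simp [sq]
  have key : ∀ u : ℝ × ℝ, sq u = R ^ 2 → sq ((y' - y) + u) ≤ 4 * R ^ 2 := by
    intro u hu
    simp only [sq, Prod.fst_add, Prod.snd_add, Prod.fst_sub, Prod.snd_sub] at hu hw ⊢
    nlinarith [sq_nonneg ((y'.1 - y.1) - u.1), sq_nonneg ((y'.2 - y.2) - u.2)]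
  have h1 := hex y' hy' v (by rw [hv]; linarith)
  have h2 := hex y' hy' (-v) (by rw [hnv]; linarith)
  have h3 := hex y hy ((y' - y) + v) (le_trans (key v hv) hRd)
  have h4 := hex y hy ((y' - y) + (-v)) (le_trans (key (-v) hnv) hRd)
  have k3 : ε * sq ((y' - y) + v) ≤ ε * (4 * R ^ 2) := mul_le_mul_of_nonneg_left (key v hv) hε.le
  have k4 : ε * sq ((y' - y) + (-v)) ≤ ε * (4 * R ^ 2) :=
    mul_le_mul_of_nonneg_left (key (-v) hnv) hε.le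
  have e3 : y + ((y' - y) + v) = y' + v := by
    rw [← add_assoc]; congr 1; abel
  have e4 : y + ((y' - y) + (-v)) = y' + (-v) := by
    rw [← add_assoc]; congr 1; abel
  rw [e3] at h3
  rw [e4] at h4
  rw [hv] at h1
  rw [hnv] at h2
  rw [abs_le] at h1 h2 h3 h4 ⊢
  simp only [Jets.q, Prod.fst_add, Prod.snd_add, Prod.fst_sub, Prod.snd_sub, Prod.fst_neg,
    Prod.snd_neg] at h1 h2 h3 h4
  constructor
  · nlinarith [h1.1, h1.2, h2.1, h2.2, h3.1, h3.2, h4.1, h4.2]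
  · nlinarith [h1.1, h1.2, h2.1, h2.2, h3.1, h3.2, h4.1, h4.2]

private theorem whit_fin (X ε κ R : ℝ) (hR : 0 < R) (hε : ε = κ / 6) (hκ : 0 < κ)
    (h : |X * R| ≤ 5 * ε * R ^ 2) : X ^ 2 ≤ κ ^ 2 * R ^ 2 := by
  have h1 : |X| ≤ κ * R := by
    rw [abs_mul, abs_of_pos hR] at h
    have : |X| * R ≤ (κ * R) * R := by
      subst hε
      nlinarith [mul_pos hκ (mul_pos hR hR)]
    exact le_of_mul_le_mul_right this hR
  calc X ^ 2 = |X| ^ 2 := (sq_abs X).symm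
    _ ≤ (κ * R) ^ 2 := pow_le_pow_left₀ (abs_nonneg X) h1 2
    _ = κ ^ 2 * R ^ 2 := by ring

theorem whit (K : Set (ℝ × ℝ)) (g : ℝ × ℝ → ℝ) (J : Jets) (hE : Exp2 g K J) (κ : ℝ) (hκ : 0 < κ) :
    ∃ δ : ℝ, 0 < δ ∧ ∀ y ∈ K, ∀ y' ∈ K, sq (y' - y) ≤ δ ^ 2 →
      (J.p y' - J.p y - J.a y * (y'.1 - y.1) - J.b y * (y'.2 - y.2)) ^ 2 ≤ κ ^ 2 * sq (y' - y) ∧
      (J.s y' - J.s y - J.b y * (y'.1 - y.1) - J.c y * (y'.2 - y.2)) ^ 2 ≤ κ ^ 2 * sq (y' - y) := by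
  obtain ⟨δ₀, hδ₀, hex⟩ := hE.ex (κ / 6) (by positivity)
  refine ⟨δ₀ / 2, by positivity, ?_⟩
  intro y hy y' hy' hd
  have hsq0 : 0 ≤ sq (y' - y) := by simp only [sq]; positivity
  set R : ℝ := Real.sqrt (sq (y' - y)) with hRdef
  have hR : 0 ≤ R := Real.sqrt_nonneg _
  have hw : sq (y' - y) = R ^ 2 := (Real.sq_sqrt hsq0).symm
  have hRd : 4 * R ^ 2 ≤ δ₀ ^ 2 := by
    rw [← hw]; nlinarith
  rcases hR.eq_or_lt with h0 | hpos
  · have hz : sq (y' - y) = 0 := by rw [hw, ← h0]; ring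
    have hy1 : y'.1 - y.1 = 0 := by
      simp only [sq, Prod.fst_sub, Prod.snd_sub] at hz
      nlinarith [sq_nonneg (y'.1 - y.1), sq_nonneg (y'.2 - y.2)]
    have hy2 : y'.2 - y.2 = 0 := by
      simp only [sq, Prod.fst_sub, Prod.snd_sub] at hz
      nlinarith [sq_nonneg (y'.1 - y.1), sq_nonneg (y'.2 - y.2)]
    have hyy : y' = y := Prod.ext (by linarith) (by linarith)
    rw [hz, hyy]
    constructor <;> simp
  · have hX := whit_aux K g J (κ / 6) δ₀ R (by positivity) hR hRd hex y y' hy hy' hw (R, 0)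
      (by simp [sq])
    have hY := whit_aux K g J (κ / 6) δ₀ R (by positivity) hR hRd hex y y' hy hy' hw (0, R)
      (by simp [sq])
    simp only [mul_zero, add_zero] at hX
    simp only [mul_zero, zero_add] at hY
    rw [hw]
    exact ⟨whit_fin _ (κ / 6) κ R hpos rfl hκ hX, whit_fin _ (κ / 6) κ R hpos rfl hκ hY⟩

end Pool.Agent.MP_4eca41.T
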