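import Pool.Agent.Work.MP_4eca41_an.T.Tay

/-!
# T5, part C: the gradient outside of `K`

PROOF.  Lengths are Euclidean, `|v|^2 = sq v`.  Let `ε > 0` (chosen at the end, `ε ≤ κ / 20`), `δ₁` from `hE.ex ε`, `δ₂` from `hl y0 ε`, and `δ₃` with `|J.a y - J.a y0|, |J.b y - J.b y0|, |J.c y - J.c y0| ≤ ε` for `y ∈ K`,
`|y - y0| ≤ δ₃` (continuity on `K`).  `δ = min (δ₁/2) (δ₂/2) (δ₃/2)`.  Let `z ∈ cb y0 δ`, `z ∉ K`; let `y ∈ K` minimise `sq (z - y)` over the compact set `K`; `d = |z - y| > 0`, `d ≤ |z - y0| ≤ δ`, `|y - y0| ≤ 2 δ ≤ δ₃`.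
Let `E z' = g z' - g y - J.q y (z' - y)` (a function of class `C^2` on `Kᶜ`).  Let `v` be a vector with `|v| = d / 2`.  The segment `z + t v`, `t ∈ [-1, 1]`, is outside of `K` (its points have distance `≤ d/2 < d` from `z`)
and in `cb y0 δ₂`.  By `hl` and `tay3`: `|iteratedFDeriv ℝ 2 g z' ![v, v] - H(y0)[v,v]| ≤ ε sq v` for `z'` on the segment, `H(y)[v,v] = J.a y v1^2 + 2 J.b y v1 v2 + J.c y v2^2`, `|H(y)[v,v] - H(y0)[v,v]| ≤ 2 ε sq v`.
So `φ t = E (z + t v)` is twice differentiable on `[-1, 1]` with `|φ''| ≤ 3 ε sq v`, hence `|φ 1 - φ (-1) - 2 φ' 0| ≤ 3 ε sq v`, `φ' 0 = fderiv ℝ g z v - (J.p y v1 + J.s y v2 + J.a y x1 v1 + J.b y (x1 v2 + x2 v1) + J.c y x2 v2)` with `x = z - y`.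
Also `|φ (±1)| ≤ ε |z ± v - y|^2 ≤ ε (3 d / 2)^2`.  Therefore `|φ' 0| ≤ (9/4) ε d^2 + (3/8) ε d^2 ≤ 3 ε d^2`.  With `v = (d/2, 0)`: `|fderiv ℝ g z (1,0) - J.p y - J.a y x1 - J.b y x2| ≤ 6 ε d`, and `v = (0, d/2)` gives the second estimate.
-/

set_option autoImplicit false

open Set

namespace Pool.Agent.MP_4eca41.T

private noncomputable def cx (v : ℝ × ℝ) : ℂ := ⟨v.1, v.2⟩

private theorem cx_add (v w : ℝ × ℝ) : cx (v + w) = cx v + cx w := by
  apply Complex.ext <;> simp [cx]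

/-- the Euclidean norm -/
private noncomputable def nr (v : ℝ × ℝ) : ℝ := ‖cx v‖

private theorem nr_sq (v : ℝ × ℝ) : nr v ^ 2 = sq v := by
  unfold nr sq
  rw [← Complex.normSq_eq_norm_sq, Complex.normSq_apply]
  simp only [cx]
  ring

private theorem nr_nonneg (v : ℝ × ℝ) : 0 ≤ nr v := norm_nonneg _

private theorem nr_add (v w : ℝ × ℝ) : nr (v + w) ≤ nr v + nr w := by
  unfold nr
  rw [cx_add]
  exact norm_add_le _ _

private theorem nr_le {v : ℝ × ℝ} {d : ℝ} (hd : 0 ≤ d) (h : sq v ≤ d ^ 2) : nr v ≤ d := by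
  rw [← nr_sq] at h
  exact (pow_le_pow_iff_left₀ (nr_nonneg v) hd two_ne_zero).1 h

private theorem sq_le_of {v : ℝ × ℝ} {d : ℝ} (h : nr v ≤ d) : sq v ≤ d ^ 2 := by
  rw [← nr_sq]
  exact pow_le_pow_left₀ (nr_nonneg v) h 2

private theorem sq_nn (v : ℝ × ℝ) : 0 ≤ sq v := by
  unfold sq
  positivity

private theorem sq_sm (t : ℝ) (v : ℝ × ℝ) : sq (t • v) = t ^ 2 * sq v := by
  unfold sq
  simp only [Prod.smul_fst, Prod.smul_snd, smul_eq_mul]
  ring

private theorem sq_pos {v : ℝ × ℝ} (h : v ≠ 0) : 0 < sq v := by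
  rcases eq_or_lt_of_le (sq_nn v) with h1 | h1
  · exfalso
    apply h
    unfold sq at h1
    have h2 : v.1 = 0 := by nlinarith [sq_nonneg v.1, sq_nonneg v.2]
    have h3 : v.2 = 0 := by nlinarith [sq_nonneg v.1, sq_nonneg v.2]
    exact Prod.ext h2 h3
  · exact h1

private theorem seg_ineq {g : ℝ × ℝ → ℝ} {z v : ℝ × ℝ} {m η : ℝ}
    (hc : ∀ t ∈ Icc (-1 : ℝ) 1, ContDiffAt ℝ 2 g (z + t • v))
    (hA : ∀ t ∈ Icc (-1 : ℝ) 1, |iteratedFDeriv ℝ 2 g (z + t • v) ![v, v] - m| ≤ η) :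
    |g (z + v) - g (z - v) - 2 * fderiv ℝ g z v| ≤ 2 * η := by
  have hz : ∀ t : ℝ, HasDerivAt (fun t : ℝ => z + t • v) v t := by
    intro t
    have h1 : HasDerivAt (fun t : ℝ => t • v) ((1 : ℝ) • v) t := (hasDerivAt_id t).smul_const v
    rw [one_smul] at h1
    exact h1.const_add z
  have h1 : ∀ t ∈ Icc (-1 : ℝ) 1,
      HasDerivAt (fun t : ℝ => g (z + t • v)) (fderiv ℝ g (z + t • v) v) t := by
    intro t ht
    have h2 : HasFDerivAt g (fderiv ℝ g (z + t • v)) (z + t • v) :=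
      ((hc t ht).differentiableAt (by norm_num)).hasFDerivAt
    exact h2.comp_hasDerivAt t (hz t)
  have h2 : ∀ t ∈ Icc (-1 : ℝ) 1,
      HasDerivAt (fun t : ℝ => fderiv ℝ g (z + t • v) v)
        (iteratedFDeriv ℝ 2 g (z + t • v) ![v, v]) t := by
    intro t ht
    have h3 : ContDiffAt ℝ 1 (fderiv ℝ g) (z + t • v) :=
      (hc t ht).fderiv_right (by norm_num)
    have h4 : HasFDerivAt (fderiv ℝ g) (fderiv ℝ (fderiv ℝ g) (z + t • v)) (z + t • v) :=
      (h3.differentiableAt (by norm_num)).hasFDerivAt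
    have h5 : HasDerivAt (fun t : ℝ => fderiv ℝ g (z + t • v))
        (fderiv ℝ (fderiv ℝ g) (z + t • v) v) t := h4.comp_hasDerivAt t (hz t)
    have h6 := h5.clm_apply (hasDerivAt_const t v)
    rw [iteratedFDeriv_two_apply]
    simpa using h6
  have hneg : ∀ t ∈ Icc (0 : ℝ) 1, -t ∈ Icc (-1 : ℝ) 1 := fun t ht =>
    ⟨by linarith [ht.2], by linarith [ht.1]⟩
  have hpos : ∀ t ∈ Icc (0 : ℝ) 1, t ∈ Icc (-1 : ℝ) 1 := fun t ht =>
    ⟨by linarith [ht.1], ht.2⟩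
  -- first derivative of the odd part
  set k1 : ℝ → ℝ := fun t => fderiv ℝ g (z + t • v) v + fderiv ℝ g (z + (-t) • v) v -
    2 * fderiv ℝ g z v with hk1
  have d1 : ∀ t ∈ Icc (0 : ℝ) 1, HasDerivWithinAt k1
      (iteratedFDeriv ℝ 2 g (z + t • v) ![v, v] - iteratedFDeriv ℝ 2 g (z + (-t) • v) ![v, v])
      (Icc 0 1) t := by
    intro t ht
    have a1 := h2 t (hpos t ht)
    have a2 := (h2 (-t) (hneg t ht)).scomp t (hasDerivAt_neg t)
    have a3 := (a1.add a2).sub_const (2 * fderiv ℝ g z v)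
    have a4 := a3.hasDerivWithinAt (s := Icc 0 1)
    refine (a4.congr_deriv ?_)
    simp only [smul_eq_mul]
    ring
  have b1 : ∀ t ∈ Icc (0 : ℝ) 1, |k1 t| ≤ 2 * η := by
    intro t ht
    have hη : 0 ≤ η := (abs_nonneg _).trans (hA 0 ⟨by norm_num, by norm_num⟩)
    have c1 := norm_image_sub_le_of_norm_deriv_le_segment' d1 (C := 2 * η) (fun x hx => by
      have hx' : x ∈ Icc (0 : ℝ) 1 := ⟨hx.1, hx.2.le⟩
      have e1 := abs_le.1 (hA x (hpos x hx'))
      have e2 := abs_le.1 (hA (-x) (hneg x hx'))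
      rw [Real.norm_eq_abs, abs_le]
      constructor <;> linarith [e1.1, e1.2, e2.1, e2.2]) t ht
    have c2 : k1 0 = 0 := by
      simp only [hk1, neg_zero, zero_smul, add_zero]
      ring
    rw [c2, sub_zero, sub_zero, Real.norm_eq_abs] at c1
    refine c1.trans ?_
    nlinarith [ht.1, ht.2]
  set k0 : ℝ → ℝ := fun t => g (z + t • v) - g (z + (-t) • v) - t * (2 * fderiv ℝ g z v) with hk0
  have d0 : ∀ t ∈ Icc (0 : ℝ) 1, HasDerivWithinAt k0 (k1 t) (Icc 0 1) t := by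
    intro t ht
    have a1 := h1 t (hpos t ht)
    have a2 := (h1 (-t) (hneg t ht)).scomp t (hasDerivAt_neg t)
    have a3 := (a1.sub a2).sub ((hasDerivAt_id t).mul_const (2 * fderiv ℝ g z v))
    have a4 := a3.hasDerivWithinAt (s := Icc 0 1)
    refine (a4.congr_deriv ?_)
    simp only [smul_eq_mul, hk1]
    ring
  have c1 := norm_image_sub_le_of_norm_deriv_le_segment' d0 (C := 2 * η) (fun x hx => by
    rw [Real.norm_eq_abs]
    exact b1 x ⟨hx.1, hx.2.le⟩) 1 ⟨by norm_num, le_rfl⟩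
  have c2 : k0 0 = 0 := by
    simp only [hk0, neg_zero, zero_smul, add_zero]
    ring
  rw [c2, sub_zero, sub_zero, mul_one, Real.norm_eq_abs] at c1
  have c3 : k0 1 = g (z + v) - g (z - v) - 2 * fderiv ℝ g z v := by
    simp only [hk0, one_smul, neg_smul, one_mul]
    rw [← sub_eq_add_neg]
  rw [c3] at c1
  exact c1

theorem offK (K : Set (ℝ × ℝ)) (hK : IsCompact K) (g : ℝ × ℝ → ℝ) (J : Jets) (hE : Exp2 g K J)
    (hg : ContDiffOn ℝ 2 g Kᶜ) (y0 : ℝ × ℝ) (hy : y0 ∈ K)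
    (hl : ∀ κ : ℝ, 0 < κ → ∃ δ : ℝ, 0 < δ ∧ ∀ z ∈ cb y0 δ, z ∉ K →
      ∃ ρ : ℝ, 0 < ρ ∧ ∀ v : ℝ × ℝ, sq v ≤ ρ ^ 2 →
        |D2 g v z - (J.a y0 * v.1 ^ 2 + 2 * J.b y0 * v.1 * v.2 + J.c y0 * v.2 ^ 2)| ≤ κ * sq v)
    (κ : ℝ) (hκ : 0 < κ) :
    ∃ δ : ℝ, 0 < δ ∧ ∀ z ∈ cb y0 δ, z ∉ K → ∃ y ∈ K, sq (z - y) ≤ sq (z - y0) ∧
      (fderiv ℝ g z (1, 0) - J.p y - J.a y * (z.1 - y.1) - J.b y * (z.2 - y.2)) ^ 2
        ≤ κ ^ 2 * sq (z - y) ∧
      (fderiv ℝ g z (0, 1) - J.s y - J.b y * (z.1 - y.1) - J.c y * (z.2 - y.2)) ^ 2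
        ≤ κ ^ 2 * sq (z - y) := by
  set ε : ℝ := κ / 5 with hεdef
  have hε : 0 < ε := by positivity
  obtain ⟨δ1, hδ1, hex⟩ := hE.ex ε hε
  obtain ⟨δ2, hδ2, hl2⟩ := hl ε hε
  set δ : ℝ := min (δ1 / 2) (δ2 / 2) with hδdef
  have hδ : 0 < δ := lt_min (by linarith) (by linarith)
  have hδa : 2 * δ ≤ δ1 := by linarith [min_le_left (δ1 / 2) (δ2 / 2)]
  have hδb : 2 * δ ≤ δ2 := by linarith [min_le_right (δ1 / 2) (δ2 / 2)]
  refine ⟨δ, hδ, fun z hz hzK => ?_⟩
  have hcont : Continuous fun y : ℝ × ℝ => sq (z - y) := by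
    unfold sq
    fun_prop
  obtain ⟨y, hyK, hymin⟩ := hK.exists_isMinOn ⟨y0, hy⟩ hcont.continuousOn
  have hmin : ∀ y' ∈ K, sq (z - y) ≤ sq (z - y') := fun y' hy' => hymin hy'
  have hzy : z - y ≠ 0 := by
    intro h
    rw [sub_eq_zero] at h
    rw [h] at hzK
    exact hzK hyK
  have hsq0 : 0 < sq (z - y) := sq_pos hzy
  set d : ℝ := nr (z - y) with hd
  have hd2 : d ^ 2 = sq (z - y) := nr_sq _
  have hd0 : 0 < d := by
    rcases eq_or_lt_of_le (nr_nonneg (z - y)) with h | h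
    · rw [← hd] at h
      rw [← hd2, ← h] at hsq0
      norm_num at hsq0
    · exact h
  have hz0 : nr (z - y0) ≤ δ := nr_le hδ.le hz
  have hdδ : d ≤ δ := by
    refine le_trans ?_ hz0
    refine nr_le (nr_nonneg _) ?_
    rw [nr_sq]
    exact hmin y0 hy
  refine ⟨y, hyK, hmin y0 hy, ?_⟩
  -- the main estimate
  have main : ∀ v : ℝ × ℝ, sq v = d ^ 2 / 4 →
      |fderiv ℝ g z v - (J.p y * v.1 + J.s y * v.2 + J.a y * (z.1 - y.1) * v.1 +
        J.b y * ((z.1 - y.1) * v.2 + (z.2 - y.2) * v.1) + J.c y * (z.2 - y.2) * v.2)| ≤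
        5 / 2 * ε * d ^ 2 := by
    intro v hv
    have hnv : nr v = d / 2 := by
      have h1 := nr_sq v
      rw [hv] at h1
      have h2 : (nr v - d / 2) * (nr v + d / 2) = 0 := by ring_nf; linarith
      rcases mul_eq_zero.1 h2 with h | h
      · linarith
      · have := nr_nonneg v
        linarith
    have hoff : ∀ t ∈ Icc (-1 : ℝ) 1, z + t • v ∉ K := by
      intro t ht hK'
      have h1 := hmin _ hK'
      have h2 : z - (z + t • v) = (-t) • v := by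
        rw [neg_smul]
        abel
      rw [h2, sq_sm, hv, ← hd2] at h1
      have h3 : t ^ 2 ≤ 1 := by nlinarith [ht.1, ht.2]
      nlinarith [mul_le_mul_of_nonneg_right h3 (show (0 : ℝ) ≤ d ^ 2 / 4 by positivity),
        pow_pos hd0 2]
    have hcd : ∀ t ∈ Icc (-1 : ℝ) 1, ContDiffAt ℝ 2 g (z + t • v) := fun t ht =>
      hg.contDiffAt (hK.isClosed.isOpen_compl.mem_nhds (hoff t ht))
    have hball : ∀ t ∈ Icc (-1 : ℝ) 1, z + t • v ∈ cb y0 δ2 := by
      intro t ht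
      refine sq_le_of ?_
      have h1 : z + t • v - y0 = (z - y0) + t • v := by abel
      rw [h1]
      have h2 : nr (t • v) ≤ d / 2 := by
        refine nr_le (by positivity) ?_
        rw [sq_sm, hv]
        have h3 : t ^ 2 ≤ 1 := by nlinarith [ht.1, ht.2]
        nlinarith [mul_le_mul_of_nonneg_right h3 (show (0 : ℝ) ≤ d ^ 2 / 4 by positivity)]
      have h3 := nr_add (z - y0) (t • v)
      linarith
    have hA : ∀ t ∈ Icc (-1 : ℝ) 1, |iteratedFDeriv ℝ 2 g (z + t • v) ![v, v] -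
        (J.a y0 * v.1 ^ 2 + 2 * J.b y0 * v.1 * v.2 + J.c y0 * v.2 ^ 2)| ≤ ε * sq v := by
      intro t ht
      obtain ⟨ρ, hρ, hρ'⟩ := hl2 (z + t • v) (hball t ht) (hoff t ht)
      refine tay3 g _ v (hcd t ht) _ _ ⟨ρ / (sq v + 1), ?_, ?_⟩
      · have := sq_nn v
        positivity
      · intro r hr hr'
        have hs := sq_nn v
        have h1 : sq (r • v) ≤ ρ ^ 2 := by
          rw [sq_sm]
          have h2 : r * (sq v + 1) ≤ ρ := by rwa [le_div_iff₀ (by positivity)] at hr'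
          have h3 : (r * (sq v + 1)) ^ 2 ≤ ρ ^ 2 := pow_le_pow_left₀ (by positivity) h2 2
          have h4 : r ^ 2 * sq v ≤ (r * (sq v + 1)) ^ 2 := by
            rw [mul_pow]
            refine mul_le_mul_of_nonneg_left ?_ (by positivity)
            nlinarith
          exact h4.trans h3
        have h2 := hρ' (r • v) h1
        rw [sq_sm] at h2
        simp only [Prod.smul_fst, Prod.smul_snd, smul_eq_mul] at h2
        have e1 : J.a y0 * (r * v.1) ^ 2 + 2 * J.b y0 * (r * v.1) * (r * v.2) +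
            J.c y0 * (r * v.2) ^ 2 =
            (J.a y0 * v.1 ^ 2 + 2 * J.b y0 * v.1 * v.2 + J.c y0 * v.2 ^ 2) * r ^ 2 := by ring
        rw [e1] at h2
        linarith [h2, show ε * (r ^ 2 * sq v) = ε * sq v * r ^ 2 by ring]
    have h1 := seg_ineq hcd hA
    -- the expansion at `y`
    have hx : ∀ w : ℝ × ℝ, nr w = d / 2 →
        |g (z + w) - g y - J.q y (z - y + w)| ≤ ε * (9 / 4 * d ^ 2) := by
      intro w hw
      have h2 : nr (z - y + w) ≤ 3 / 2 * d := by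
        have h3 := nr_add (z - y) w
        linarith
      have h3 : sq (z - y + w) ≤ 9 / 4 * d ^ 2 := by
        have := sq_le_of h2
        linarith [show (3 / 2 * d) ^ 2 = 9 / 4 * d ^ 2 by ring]
      have h4 : sq (z - y + w) ≤ δ1 ^ 2 := sq_le_of (h2.trans (by linarith))
      have h5 := hex y hyK (z - y + w) h4
      have e1 : y + (z - y + w) = z + w := by abel
      rw [e1] at h5
      exact h5.trans (mul_le_mul_of_nonneg_left h3 hε.le)
    have hnv' : nr (-v) = d / 2 := by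
      have h2 := nr_sq (-v)
      have h3 : sq (-v) = sq v := by
        unfold sq
        simp
      rw [h3, hv] at h2
      have h4 : (nr (-v) - d / 2) * (nr (-v) + d / 2) = 0 := by ring_nf; linarith
      rcases mul_eq_zero.1 h4 with h | h
      · linarith
      · have := nr_nonneg (-v)
        linarith
    have h2 := hx v hnv
    have h3 := hx (-v) hnv'
    rw [← sub_eq_add_neg] at h3
    have e2 : J.q y (z - y + v) - J.q y (z - y + -v) =
        2 * (J.p y * v.1 + J.s y * v.2 + J.a y * (z.1 - y.1) * v.1 +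
        J.b y * ((z.1 - y.1) * v.2 + (z.2 - y.2) * v.1) + J.c y * (z.2 - y.2) * v.2) := by
      unfold Jets.q
      simp only [Prod.fst_add, Prod.snd_add, Prod.fst_sub, Prod.snd_sub, Prod.fst_neg,
        Prod.snd_neg]
      ring
    rw [hv] at h1
    rw [abs_le] at h1 h2 h3 ⊢
    constructor
    · nlinarith [h1.1, h1.2, h2.1, h2.2, h3.1, h3.2]
    · nlinarith [h1.1, h1.2, h2.1, h2.2, h3.1, h3.2]
  have fin : ∀ A : ℝ, |d / 2 * A| ≤ 5 / 2 * ε * d ^ 2 → A ^ 2 ≤ κ ^ 2 * sq (z - y) := by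
    intro A hA
    rw [abs_mul, abs_of_pos (by linarith : (0 : ℝ) < d / 2)] at hA
    have h1 : |A| ≤ κ * d := by
      have h2 : d / 2 * |A| ≤ d / 2 * (κ * d) := by
        refine hA.trans (le_of_eq ?_)
        rw [hεdef]
        ring
      exact le_of_mul_le_mul_left h2 (by linarith)
    rw [← hd2, ← mul_pow, ← sq_abs A]
    exact pow_le_pow_left₀ (abs_nonneg _) h1 2
  have lin : ∀ a b : ℝ, fderiv ℝ g z (d / 2 * a, d / 2 * b) = d / 2 * fderiv ℝ g z (a, b) := by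
    intro a b
    have h1 : ((d / 2 * a, d / 2 * b) : ℝ × ℝ) = (d / 2) • (a, b) := by
      ext <;> simp
    rw [h1, map_smul, smul_eq_mul]
  constructor
  · apply fin
    have h1 := main (d / 2 * 1, d / 2 * 0) (by unfold sq; ring)
    rw [lin] at h1
    refine le_trans (le_of_eq ?_) h1
    congr 1
    ring
  · apply fin
    have h1 := main (d / 2 * 0, d / 2 * 1) (by unfold sq; ring)
    rw [lin] at h1
    refine le_trans (le_of_eq ?_) h1
    congr 1
    ring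

end Pool.Agent.MP_4eca41.T
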