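import Pool.Agent.Work.MP_4eca41_an.T.GlA
import Pool.Agent.Work.MP_4eca41_an.T.GlB
import Pool.Agent.Work.MP_4eca41_an.T.GlC

/-!
# T5: gluing of class C^2 in the plane

STATEMENT FIXED (helper49).  `hl`: the second derivative of `g` at points `z` outside of `K` tends to the Hessian
`(J.a y, J.b y, J.c y)` when `z` tends to `y ∈ K`; it is stated with second differences of arbitrarily small step.

PROOF.  `g` is differentiable at every `y ∈ K` with gradient `(J.p y, J.s y)` (`hE.ex` with `ε = 1`: the remainder and the quadratic terms are `O(sq v)`), and on the open set `Kᶜ` by `hg`.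
`P z = fderiv ℝ g z (1,0)`, `S z = fderiv ℝ g z (0,1)` for all `z`; on `K` they are `J.p`, `J.s`.  `a z = J.a z` for `z ∈ K`, `= iteratedFDeriv ℝ 2 g z ![(1,0),(1,0)]` for `z ∉ K`; `b` with `![(1,0),(0,1)]`, `c` with `![(0,1),(0,1)]`.
Apply `c2_of_partials`.  `h1`: clear.  `h2, h3` at `z ∉ K`: `fderiv ℝ g` is differentiable there, `iteratedFDeriv_two_apply`, symmetry of the second derivative (`ContDiffAt.isSymmSndFDerivAt`) for the entry `b`.
`h2` at `y0 ∈ K`: have to show `|P z - J.p y0 - J.a y0 (z.1-y0.1) - J.b y0 (z.2-y0.2)| ≤ κ' |z - y0|` for `z` near `y0`.  `z ∈ K`: `whit` (with `y = y0`, `y' = z`).  `z ∉ K`: take `y` from `offK`, `|z - y| ≤ |z - y0|`, `|y - y0| ≤ 2 |z - y0|`; write the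
difference as `[P z - J.p y - J.a y (z.1-y.1) - J.b y (z.2-y.2)] + [J.p y - J.p y0 - J.a y0 (y.1-y0.1) - J.b y0 (y.2-y0.2)] + [(J.a y - J.a y0)(z.1-y.1) + (J.b y - J.b y0)(z.2-y.2)]`; the three brackets are
`≤ κ |z-y|` (`offK`), `≤ κ |y-y0|` (`whit`) and `≤ 2 κ |z - y|` (continuity of `J.a`, `J.b` on `K` at `y0`).  `h3` in the same way.
Continuity of `a`, `b`, `c` at `y0 ∈ K`: for `z ∈ K` by continuity on `K`; for `z ∉ K`: `hl` and `tay3` give `|iteratedFDeriv ℝ 2 g z ![v,v] - H(y0)[v,v]| ≤ κ sq v` for all `v` (scale `v`), take `v = (1,0), (0,1), (1,1)` (the last with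
symmetry and bilinearity gives `b`).  At `z ∉ K`: continuity of `iteratedFDeriv ℝ 2 g` on the open set `Kᶜ`.
-/

set_option autoImplicit false

open Set

namespace Pool.Agent.MP_4eca41.T

private theorem hder (K : Set (ℝ × ℝ)) (F fp fa fb : ℝ × ℝ → ℝ) (y0 : ℝ × ℝ) (hy : y0 ∈ K)
    (hF : ∀ y ∈ K, F y = fp y)
    (hw : ∀ κ : ℝ, 0 < κ → ∃ δ : ℝ, 0 < δ ∧ ∀ y' ∈ K, sq (y' - y0) ≤ δ ^ 2 →
      (fp y' - fp y0 - fa y0 * (y'.1 - y0.1) - fb y0 * (y'.2 - y0.2)) ^ 2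
        ≤ κ ^ 2 * sq (y' - y0))
    (ho : ∀ κ : ℝ, 0 < κ → ∃ δ : ℝ, 0 < δ ∧ ∀ z ∈ cb y0 δ, z ∉ K →
      ∃ y ∈ K, sq (z - y) ≤ sq (z - y0) ∧
      (F z - fp y - fa y * (z.1 - y.1) - fb y * (z.2 - y.2)) ^ 2 ≤ κ ^ 2 * sq (z - y))
    (ca : ContinuousOn fa K) (cb' : ContinuousOn fb K) :
    HasFDerivAt F
      (fa y0 • ContinuousLinearMap.fst ℝ ℝ ℝ + fb y0 • ContinuousLinearMap.snd ℝ ℝ ℝ) y0 := by
  rw [hasFDerivAt_iff_isLittleO, Asymptotics.isLittleO_iff]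
  intro ε hε
  obtain ⟨κ, hκ, hκε⟩ : ∃ κ : ℝ, 0 < κ ∧ 9 * κ = ε := ⟨ε / 9, by positivity, by ring⟩
  obtain ⟨d1, hd1, H1⟩ := hw κ hκ
  obtain ⟨d2, hd2, H2⟩ := ho κ hκ
  obtain ⟨d3, hd3, H3⟩ := Metric.continuousWithinAt_iff.1 (ca y0 hy) κ hκ
  obtain ⟨d4, hd4, H4⟩ := Metric.continuousWithinAt_iff.1 (cb' y0 hy) κ hκ
  obtain ⟨r, hr, hr1, hr2, hr3, hr4⟩ : ∃ r : ℝ, 0 < r ∧ 3 * r ≤ d1 ∧ 3 * r ≤ d2 ∧
      3 * r ≤ d3 ∧ 3 * r ≤ d4 := by
    have e1 := min_le_left (min d1 d2) (min d3 d4)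
    have e2 := min_le_right (min d1 d2) (min d3 d4)
    have e3 := min_le_left d1 d2
    have e4 := min_le_right d1 d2
    have e5 := min_le_left d3 d4
    have e6 := min_le_right d3 d4
    have e7 : 0 < min (min d1 d2) (min d3 d4) := lt_min (lt_min hd1 hd2) (lt_min hd3 hd4)
    refine ⟨min (min d1 d2) (min d3 d4) / 3, by positivity, ?_, ?_, ?_, ?_⟩ <;> linarith
  filter_upwards [Metric.ball_mem_nhds y0 hr] with z hz
  rw [Metric.mem_ball, dist_eq_norm] at hz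
  obtain ⟨n, hn⟩ : ∃ n, n = ‖z - y0‖ := ⟨_, rfl⟩
  rw [← hn] at hz ⊢
  have hn0 : 0 ≤ n := by
    rw [hn]
    exact norm_nonneg _
  have hq : sq (z - y0) ≤ 2 * n ^ 2 := by
    rw [hn]
    exact sq_le_norm _
  have hn2 : n ^ 2 ≤ r ^ 2 := pow_le_pow_left₀ hn0 hz.le 2
  have hκn : 0 ≤ κ * n := mul_nonneg hκ.le hn0
  have hκ2 : 0 ≤ κ ^ 2 := sq_nonneg κ
  have hgoal : |F z - fp y0 - (fa y0 * (z.1 - y0.1) + fb y0 * (z.2 - y0.2))| ≤ 9 * (κ * n) := by
    by_cases hzK : z ∈ K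
    · rw [hF z hzK]
      have h1 := H1 z hzK (by nlinarith)
      have h2 : |fp z - fp y0 - fa y0 * (z.1 - y0.1) - fb y0 * (z.2 - y0.2)| ≤ 2 * (κ * n) := by
        refine abs_le_of_sq_le_sq ?_ (by positivity)
        have h3 := mul_le_mul_of_nonneg_left hq hκ2
        have h4 : 0 ≤ κ ^ 2 * n ^ 2 := by positivity
        nlinarith
      have e : fp z - fp y0 - (fa y0 * (z.1 - y0.1) + fb y0 * (z.2 - y0.2)) =
          fp z - fp y0 - fa y0 * (z.1 - y0.1) - fb y0 * (z.2 - y0.2) := by ring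
      rw [e]
      linarith
    · obtain ⟨y, hyK, hs, h2⟩ := H2 z (by
        show sq (z - y0) ≤ d2 ^ 2
        nlinarith) hzK
      have hyy : sq (y - y0) ≤ 8 * n ^ 2 := by
        have h3 : sq (y - y0) ≤ 2 * sq (z - y0) + 2 * sq (z - y) := by
          unfold sq
          simp only [Prod.fst_sub, Prod.snd_sub]
          nlinarith [sq_nonneg ((z.1 - y0.1) + (z.1 - y.1)), sq_nonneg ((z.2 - y0.2) + (z.2 - y.2))]
        linarith
      have h3 : |F z - fp y - fa y * (z.1 - y.1) - fb y * (z.2 - y.2)| ≤ 2 * (κ * n) := by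
        refine abs_le_of_sq_le_sq ?_ (by positivity)
        have h3 := mul_le_mul_of_nonneg_left (hs.trans hq) hκ2
        have h4 : 0 ≤ κ ^ 2 * n ^ 2 := by positivity
        nlinarith
      have h4 := H1 y hyK (by nlinarith)
      have h5 : |fp y - fp y0 - fa y0 * (y.1 - y0.1) - fb y0 * (y.2 - y0.2)| ≤ 3 * (κ * n) := by
        refine abs_le_of_sq_le_sq ?_ (by positivity)
        have h5 := mul_le_mul_of_nonneg_left hyy hκ2
        have h6 : 0 ≤ κ ^ 2 * n ^ 2 := by positivity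
        nlinarith
      have hd : dist y y0 ≤ 3 * n := by
        rw [dist_eq_norm]
        refine abs_le_of_sq_le_sq' ?_ (by positivity) |>.2
        have h6 := norm_le_sq (y - y0)
        nlinarith
      have h6 := H3 hyK (lt_of_le_of_lt hd (by linarith))
      have h7 := H4 hyK (lt_of_le_of_lt hd (by linarith))
      rw [Real.dist_eq] at h6 h7
      have hs1 : (z.1 - y.1) ^ 2 ≤ 2 * n ^ 2 := by
        have h8 := hs.trans hq
        unfold sq at h8
        simp only [Prod.fst_sub, Prod.snd_sub] at h8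
        nlinarith [sq_nonneg (z.2 - y.2)]
      have hs2 : (z.2 - y.2) ^ 2 ≤ 2 * n ^ 2 := by
        have h8 := hs.trans hq
        unfold sq at h8
        simp only [Prod.fst_sub, Prod.snd_sub] at h8
        nlinarith [sq_nonneg (z.1 - y.1)]
      have hz1 : |z.1 - y.1| ≤ 2 * n := abs_le_of_sq_le_sq (by nlinarith) (by positivity)
      have hz2 : |z.2 - y.2| ≤ 2 * n := abs_le_of_sq_le_sq (by nlinarith) (by positivity)
      have h8 : |(fa y - fa y0) * (z.1 - y.1)| ≤ κ * (2 * n) := by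
        rw [abs_mul]
        exact mul_le_mul h6.le hz1 (abs_nonneg _) hκ.le
      have h9 : |(fb y - fb y0) * (z.2 - y.2)| ≤ κ * (2 * n) := by
        rw [abs_mul]
        exact mul_le_mul h7.le hz2 (abs_nonneg _) hκ.le
      have e : F z - fp y0 - (fa y0 * (z.1 - y0.1) + fb y0 * (z.2 - y0.2)) =
          (F z - fp y - fa y * (z.1 - y.1) - fb y * (z.2 - y.2)) +
          (fp y - fp y0 - fa y0 * (y.1 - y0.1) - fb y0 * (y.2 - y0.2)) +
          ((fa y - fa y0) * (z.1 - y.1) + (fb y - fb y0) * (z.2 - y.2)) := by ring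
      rw [e]
      have h10 := abs_add_le ((F z - fp y - fa y * (z.1 - y.1) - fb y * (z.2 - y.2)) +
          (fp y - fp y0 - fa y0 * (y.1 - y0.1) - fb y0 * (y.2 - y0.2)))
          ((fa y - fa y0) * (z.1 - y.1) + (fb y - fb y0) * (z.2 - y.2))
      have h11 := abs_add_le (F z - fp y - fa y * (z.1 - y.1) - fb y * (z.2 - y.2))
          (fp y - fp y0 - fa y0 * (y.1 - y0.1) - fb y0 * (y.2 - y0.2))
      have h12 := abs_add_le ((fa y - fa y0) * (z.1 - y.1)) ((fb y - fb y0) * (z.2 - y.2))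
      linarith
  rw [Real.norm_eq_abs, hF y0 hy]
  have e : (fa y0 • ContinuousLinearMap.fst ℝ ℝ ℝ + fb y0 • ContinuousLinearMap.snd ℝ ℝ ℝ)
      (z - y0) = fa y0 * (z.1 - y0.1) + fb y0 * (z.2 - y0.2) := by
    simp
  rw [e, ← hκε]
  linarith

/-- the quadratic form of the Hessian -/
private def HQ (J : Jets) (y v : ℝ × ℝ) : ℝ :=
  J.a y * v.1 ^ 2 + 2 * J.b y * v.1 * v.2 + J.c y * v.2 ^ 2

private theorem gK (K : Set (ℝ × ℝ)) (g : ℝ × ℝ → ℝ) (J : Jets) (hE : Exp2 g K J)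
    (y : ℝ × ℝ) (hy : y ∈ K) :
    HasFDerivAt g
      (J.p y • ContinuousLinearMap.fst ℝ ℝ ℝ + J.s y • ContinuousLinearMap.snd ℝ ℝ ℝ) y := by
  rw [hasFDerivAt_iff_isLittleO_nhds_zero, Asymptotics.isLittleO_iff]
  intro ε hε
  obtain ⟨d, hd, H⟩ := hE.ex 1 one_pos
  obtain ⟨C, hC⟩ : ∃ C, C = 2 + (|J.a y| + 2 * |J.b y| + |J.c y|) / 2 := ⟨_, rfl⟩
  have hC0 : 0 < C := by
    rw [hC]
    positivity
  obtain ⟨r, hr, hr1, hr2⟩ : ∃ r : ℝ, 0 < r ∧ 2 * r ≤ d ∧ C * r ≤ ε := by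
    refine ⟨min (d / 2) (ε / C), lt_min (by positivity) (by positivity), ?_, ?_⟩
    · have := min_le_left (d / 2) (ε / C)
      linarith
    · have := min_le_right (d / 2) (ε / C)
      have h2 := mul_le_mul_of_nonneg_left this hC0.le
      rwa [mul_div_cancel₀ _ hC0.ne'] at h2
  filter_upwards [Metric.ball_mem_nhds (0 : ℝ × ℝ) hr] with v hv
  rw [Metric.mem_ball, dist_zero_right] at hv
  obtain ⟨n, hn⟩ : ∃ n, n = ‖v‖ := ⟨_, rfl⟩
  have hq : sq v ≤ 2 * n ^ 2 := by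
    rw [hn]
    exact sq_le_norm _
  have hv1 : |v.1| ≤ n := by
    rw [hn]
    exact norm_fst_le v
  have hv2 : |v.2| ≤ n := by
    rw [hn]
    exact norm_snd_le v
  rw [← hn] at hv ⊢
  have hn0 : 0 ≤ n := (abs_nonneg _).trans hv1
  have h1 := H y hy v (by nlinarith)
  have e : (J.p y • ContinuousLinearMap.fst ℝ ℝ ℝ + J.s y • ContinuousLinearMap.snd ℝ ℝ ℝ) v =
      J.p y * v.1 + J.s y * v.2 := by
    simp
  rw [e, Real.norm_eq_abs]
  have h2 : |J.a y * v.1 ^ 2| ≤ |J.a y| * n ^ 2 := by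
    rw [abs_mul, abs_pow]
    exact mul_le_mul_of_nonneg_left (pow_le_pow_left₀ (abs_nonneg _) hv1 2) (abs_nonneg _)
  have h3 : |J.c y * v.2 ^ 2| ≤ |J.c y| * n ^ 2 := by
    rw [abs_mul, abs_pow]
    exact mul_le_mul_of_nonneg_left (pow_le_pow_left₀ (abs_nonneg _) hv2 2) (abs_nonneg _)
  have h4 : |J.b y * v.1 * v.2| ≤ |J.b y| * n ^ 2 := by
    rw [abs_mul, abs_mul, mul_assoc, pow_two]
    exact mul_le_mul_of_nonneg_left (mul_le_mul hv1 hv2 (abs_nonneg _) hn0) (abs_nonneg _)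
  have h5 : C * n ^ 2 ≤ ε * n := by
    have h6 : C * n ≤ ε := le_trans (mul_le_mul_of_nonneg_left hv.le hC0.le) hr2
    have h7 := mul_le_mul_of_nonneg_right h6 hn0
    nlinarith
  refine le_trans ?_ h5
  rw [hC]
  unfold Jets.q at h1
  rw [abs_le] at h1 h2 h3 h4 ⊢
  constructor
  · nlinarith
  · nlinarith

theorem glue (K : Set (ℝ × ℝ)) (hK : IsCompact K) (g : ℝ × ℝ → ℝ) (J : Jets) (hE : Exp2 g K J)
    (hg : ContDiffOn ℝ 2 g Kᶜ)
    (hl : ∀ y ∈ K, ∀ κ : ℝ, 0 < κ → ∃ δ : ℝ, 0 < δ ∧ ∀ z ∈ cb y δ, z ∉ K →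
      ∃ ρ : ℝ, 0 < ρ ∧ ∀ v : ℝ × ℝ, sq v ≤ ρ ^ 2 →
        |D2 g v z - (J.a y * v.1 ^ 2 + 2 * J.b y * v.1 * v.2 + J.c y * v.2 ^ 2)| ≤ κ * sq v) :
    ContDiff ℝ 2 g := by
  classical
  have hKo : IsOpen Kᶜ := hK.isClosed.isOpen_compl
  have hat : ∀ z ∉ K, ContDiffAt ℝ 2 g z := fun z hz => hg.contDiffAt (hKo.mem_nhds hz)
  have hgd : ∀ z, DifferentiableAt ℝ g z := by
    intro z
    by_cases hz : z ∈ K
    · exact (gK K g J hE z hz).differentiableAt
    · exact (hat z hz).differentiableAt (by norm_num)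
  obtain ⟨P, hP⟩ : ∃ P : ℝ × ℝ → ℝ, P = fun z => fderiv ℝ g z (1, 0) := ⟨_, rfl⟩
  obtain ⟨S, hS⟩ : ∃ S : ℝ × ℝ → ℝ, S = fun z => fderiv ℝ g z (0, 1) := ⟨_, rfl⟩
  obtain ⟨H, hH⟩ : ∃ H : ℝ × ℝ → (ℝ × ℝ) →L[ℝ] (ℝ × ℝ) →L[ℝ] ℝ,
    H = fun z => fderiv ℝ (fderiv ℝ g) z := ⟨_, rfl⟩
  have hPK : ∀ y ∈ K, P y = J.p y := by
    intro y hy
    rw [hP]
    show fderiv ℝ g y (1, 0) = _
    rw [(gK K g J hE y hy).fderiv]
    simp
  have hSK : ∀ y ∈ K, S y = J.s y := by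
    intro y hy
    rw [hS]
    show fderiv ℝ g y (0, 1) = _
    rw [(gK K g J hE y hy).fderiv]
    simp
  -- the second derivative outside of `K`
  have hfd : ∀ z ∉ K, ContDiffAt ℝ 1 (fderiv ℝ g) z := fun z hz =>
    (hat z hz).fderiv_right (by norm_num)
  have hHc : ∀ z ∉ K, ContinuousAt H z := by
    intro z hz
    rw [hH]
    have h1 : ContDiffAt ℝ 0 (fderiv ℝ (fderiv ℝ g)) z := (hfd z hz).fderiv_right (by norm_num)
    exact h1.continuousAt
  have hHd : ∀ z ∉ K, HasFDerivAt (fderiv ℝ g) (H z) z := by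
    intro z hz
    rw [hH]
    exact ((hfd z hz).differentiableAt (by norm_num)).hasFDerivAt
  have hHs : ∀ z ∉ K, ∀ v w, H z v w = H z w v := by
    intro z hz v w
    rw [hH]
    exact ((hat z hz).isSymmSndFDerivAt (by simp)) v w
  have hHl : ∀ z : ℝ × ℝ, ∀ w : ℝ × ℝ, H z w = w.1 • H z (1, 0) + w.2 • H z (0, 1) := by
    intro z w
    have e : w = w.1 • ((1 : ℝ), (0 : ℝ)) + w.2 • ((0 : ℝ), (1 : ℝ)) := by
      ext <;> simp
    conv_lhs => rw [e]
    rw [map_add, map_smul, map_smul]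
  -- the Hessian near `K`
  have hnear : ∀ y0 ∈ K, ∀ κ : ℝ, 0 < κ → ∃ δ : ℝ, 0 < δ ∧ ∀ z, dist z y0 < δ → z ∉ K →
      |H z (1, 0) (1, 0) - J.a y0| ≤ κ ∧ |H z (1, 0) (0, 1) - J.b y0| ≤ κ ∧
        |H z (0, 1) (0, 1) - J.c y0| ≤ κ := by
    intro y0 hy0 κ hκ
    obtain ⟨δ, hδ, h1⟩ := hl y0 hy0 (κ / 2) (by positivity)
    refine ⟨δ / 2, by positivity, fun z hz hzK => ?_⟩
    obtain ⟨ρ, hρ, h2⟩ := h1 z (by
      show sq (z - y0) ≤ δ ^ 2
      have h3 := sq_le_norm (z - y0)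
      rw [dist_eq_norm] at hz
      have h4 := norm_nonneg (z - y0)
      nlinarith) hzK
    have h3 : ∀ v : ℝ × ℝ, sq v ≤ 2 → |H z v v - HQ J y0 v| ≤ κ / 2 * sq v := by
      intro v hv
      have h4 := tay3 g z v (hat z hzK) (HQ J y0 v) (κ / 2 * sq v) ⟨ρ / 2, by positivity,
        fun t ht htρ => by
          have h5 : sq (t • v) = t ^ 2 * sq v := by
            unfold sq
            simp only [Prod.smul_fst, Prod.smul_snd, smul_eq_mul]
            ring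
          have h6 := h2 (t • v) (by
            rw [h5]
            have h7 : 0 ≤ sq v := by
              unfold sq
              positivity
            nlinarith [mul_nonneg (sq_nonneg t) (sub_nonneg.2 hv)])
          rw [h5] at h6
          simp only [Prod.smul_fst, Prod.smul_snd, smul_eq_mul] at h6
          have e1 : HQ J y0 v * t ^ 2 = J.a y0 * (t * v.1) ^ 2 + 2 * J.b y0 * (t * v.1) * (t * v.2) +
              J.c y0 * (t * v.2) ^ 2 := by
            unfold HQ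
            ring
          rw [e1]
          have e2 : κ / 2 * sq v * t ^ 2 = κ / 2 * (t ^ 2 * sq v) := by ring
          rw [e2]
          exact h6⟩
      rw [iteratedFDeriv_two_apply] at h4
      rw [hH]
      exact h4
    have k1 := h3 (1, 0) (by unfold sq; norm_num)
    have k2 := h3 (0, 1) (by unfold sq; norm_num)
    have k3 := h3 (1, 1) (by unfold sq; norm_num)
    have k4 : H z (1, 1) (1, 1) = H z (1, 0) (1, 0) + 2 * H z (1, 0) (0, 1) + H z (0, 1) (0, 1) := by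
      have e : ((1 : ℝ), (1 : ℝ)) = ((1 : ℝ), (0 : ℝ)) + ((0 : ℝ), (1 : ℝ)) := by
        ext <;> simp
      have e5 : H z (1, 1) = H z (1, 0) + H z (0, 1) := by rw [e, map_add]
      have e6 : H z (1, 1) (1, 1) = H z (1, 0) (1, 1) + H z (0, 1) (1, 1) := by
        rw [e5]
        rfl
      have e7 : H z (1, 0) (1, 1) = H z (1, 0) (1, 0) + H z (1, 0) (0, 1) := by rw [e, map_add]
      have e8 : H z (0, 1) (1, 1) = H z (0, 1) (1, 0) + H z (0, 1) (0, 1) := by rw [e, map_add]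
      rw [e6, e7, e8, hHs z hzK (0, 1) (1, 0)]
      ring
    rw [k4] at k3
    simp only [HQ, sq] at k1 k2 k3
    rw [abs_le] at k1 k2 k3
    refine ⟨abs_le.2 ⟨by linarith, by linarith⟩, abs_le.2 ⟨by linarith, by linarith⟩,
      abs_le.2 ⟨by linarith, by linarith⟩⟩
  -- continuity of the coefficients
  have hcont : ∀ (ja : ℝ × ℝ → ℝ) (v w : ℝ × ℝ), ContinuousOn ja K →
      (∀ y0 ∈ K, ∀ κ : ℝ, 0 < κ → ∃ δ : ℝ, 0 < δ ∧ ∀ z, dist z y0 < δ → z ∉ K →
        |H z v w - ja y0| ≤ κ) →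
      Continuous fun z => if z ∈ K then ja z else H z v w := by
    intro ja v w hja hn
    rw [continuous_iff_continuousAt]
    intro y0
    by_cases hy0 : y0 ∈ K
    · rw [Metric.continuousAt_iff]
      intro ε hε
      obtain ⟨d1, hd1, h1⟩ := Metric.continuousWithinAt_iff.1 (hja y0 hy0) ε hε
      obtain ⟨d2, hd2, h2⟩ := hn y0 hy0 (ε / 2) (by positivity)
      refine ⟨min d1 d2, lt_min hd1 hd2, fun z hz => ?_⟩
      show dist (if z ∈ K then ja z else H z v w) (if y0 ∈ K then ja y0 else H y0 v w) < ε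
      rw [if_pos hy0]
      by_cases hzK : z ∈ K
      · rw [if_pos hzK]
        exact h1 hzK (lt_of_lt_of_le hz (min_le_left _ _))
      · rw [if_neg hzK, Real.dist_eq]
        have h3 := h2 z (lt_of_lt_of_le hz (min_le_right _ _)) hzK
        linarith
    · have h1 : ContinuousAt (fun z => H z v w) y0 :=
        ((hHc y0 hy0).clm_apply continuousAt_const).clm_apply continuousAt_const
      refine h1.congr ?_
      filter_upwards [hKo.mem_nhds hy0] with z hz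
      rw [if_neg hz]
  have hnb : ∀ y0 ∈ K, ∀ κ : ℝ, 0 < κ → ∃ δ : ℝ, 0 < δ ∧ ∀ z, dist z y0 < δ → z ∉ K →
      |H z (1, 0) (0, 1) - J.b y0| ≤ κ := fun y0 hy0 κ hκ => by
    obtain ⟨δ, hδ, h⟩ := hnear y0 hy0 κ hκ
    exact ⟨δ, hδ, fun z hz hzK => (h z hz hzK).2.1⟩
  refine c2_of_partials g P S (fun z => if z ∈ K then J.a z else H z (1, 0) (1, 0))
    (fun z => if z ∈ K then J.b z else H z (1, 0) (0, 1))
    (fun z => if z ∈ K then J.c z else H z (0, 1) (0, 1)) ?_ ?_ ?_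
    (hcont J.a _ _ hE.ca fun y0 hy0 κ hκ => by
      obtain ⟨δ, hδ, h⟩ := hnear y0 hy0 κ hκ
      exact ⟨δ, hδ, fun z hz hzK => (h z hz hzK).1⟩)
    (hcont J.b _ _ hE.cb hnb)
    (hcont J.c _ _ hE.cc fun y0 hy0 κ hκ => by
      obtain ⟨δ, hδ, h⟩ := hnear y0 hy0 κ hκ
      exact ⟨δ, hδ, fun z hz hzK => (h z hz hzK).2.2⟩)
  · intro z
    have e : P z • ContinuousLinearMap.fst ℝ ℝ ℝ + S z • ContinuousLinearMap.snd ℝ ℝ ℝ =
        fderiv ℝ g z := by
      rw [hP, hS]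
      ext <;> simp
    rw [e]
    exact (hgd z).hasFDerivAt
  · intro z
    by_cases hz : z ∈ K
    · show HasFDerivAt P ((if z ∈ K then J.a z else H z (1, 0) (1, 0)) • _ +
        (if z ∈ K then J.b z else H z (1, 0) (0, 1)) • _) z
      rw [if_pos hz, if_pos hz]
      refine hder K P J.p J.a J.b z hz hPK ?_ ?_ hE.ca hE.cb
      · intro κ hκ
        obtain ⟨δ, hδ, h⟩ := whit K g J hE κ hκ
        exact ⟨δ, hδ, fun y' hy' hs => (h z hz y' hy' hs).1⟩
      · intro κ hκ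
        obtain ⟨δ, hδ, h⟩ := offK K hK g J hE hg z hz (hl z hz) κ hκ
        refine ⟨δ, hδ, fun z' hz' hz'K => ?_⟩
        obtain ⟨y, hy, h1, h2, -⟩ := h z' hz' hz'K
        rw [hP]
        exact ⟨y, hy, h1, h2⟩
    · show HasFDerivAt P ((if z ∈ K then J.a z else H z (1, 0) (1, 0)) • _ +
        (if z ∈ K then J.b z else H z (1, 0) (0, 1)) • _) z
      rw [if_neg hz, if_neg hz]
      have h1 := (hHd z hz).clm_apply (hasFDerivAt_const ((1 : ℝ), (0 : ℝ)) z)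
      rw [hP]
      refine h1.congr_fderiv ?_
      ext
      · simp
      · simp [hHs z hz (0, 1) (1, 0)]
  · intro z
    by_cases hz : z ∈ K
    · show HasFDerivAt S ((if z ∈ K then J.b z else H z (1, 0) (0, 1)) • _ +
        (if z ∈ K then J.c z else H z (0, 1) (0, 1)) • _) z
      rw [if_pos hz, if_pos hz]
      refine hder K S J.s J.b J.c z hz hSK ?_ ?_ hE.cb hE.cc
      · intro κ hκ
        obtain ⟨δ, hδ, h⟩ := whit K g J hE κ hκ
        exact ⟨δ, hδ, fun y' hy' hs => (h z hz y' hy' hs).2⟩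
      · intro κ hκ
        obtain ⟨δ, hδ, h⟩ := offK K hK g J hE hg z hz (hl z hz) κ hκ
        refine ⟨δ, hδ, fun z' hz' hz'K => ?_⟩
        obtain ⟨y, hy, h1, -, h2⟩ := h z' hz' hz'K
        rw [hS]
        exact ⟨y, hy, h1, h2⟩
    · show HasFDerivAt S ((if z ∈ K then J.b z else H z (1, 0) (0, 1)) • _ +
        (if z ∈ K then J.c z else H z (0, 1) (0, 1)) • _) z
      rw [if_neg hz, if_neg hz]
      have h1 := (hHd z hz).clm_apply (hasFDerivAt_const ((0 : ℝ), (1 : ℝ)) z)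
      rw [hS]
      refine h1.congr_fderiv ?_
      ext
      · simp
      · simp

end Pool.Agent.MP_4eca41.T
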