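import Pool.Agent.Work.MP_4eca41_an.Defs

/-!
# Second differences of a function of class C^2

PROOF.  `norm_le_sq`, `sq_le_norm`: sup norm, `‖v‖ = max |v.1| |v.2|`.
`tay1`: `f` is differentiable at `z` (`ContDiffAt.differentiableAt`), `HasFDerivAt.isLittleO` gives `ρ`.
`tay2`: `f` is `C^2` on an open ball around `z` (`ContDiffAt.eventually`, `ContDiffAt ℝ 2` at all nearby points), `f' = fderiv ℝ f` is differentiable at `z` with derivative `A = fderiv ℝ (fderiv ℝ f) z`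
and `iteratedFDeriv ℝ 2 f z ![v, v] = A v v` (`iteratedFDeriv_two_apply`).  For small `v` let `φ t = f (z + t • v) + f (z - t • v) - 2 * f z - t^2 * A v v`, `t ∈ [0, 1]`: `φ 0 = 0` and
`φ' t = f' (z + t • v) v - f' (z - t • v) v - 2 t A v v`, `|φ' t| ≤ 2 * (η / 2) * ‖t • v‖ * ‖v‖` for `‖v‖ ≤ ρ` (differentiability of `f'` at `z`); so `|φ 1| ≤ η ‖v‖^2` by the
mean value inequality.
`tay3`: `tay2` for the vectors `t • v`, `t → 0+`: `D2 f (t • v) z / t^2 → A v v`, and `|D2 f (t • v) z / t^2 - m| ≤ κ`; pass to the limit.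
-/

set_option autoImplicit false

open Set

namespace Pool.Agent.MP_4eca41.T

theorem norm_le_sq (v : ℝ × ℝ) : ‖v‖ ^ 2 ≤ sq v := by
  unfold sq
  rw [Prod.norm_def]
  rcases max_choice ‖v.1‖ ‖v.2‖ with h | h
  · rw [h, Real.norm_eq_abs, sq_abs]
    nlinarith [sq_nonneg v.2]
  · rw [h, Real.norm_eq_abs, sq_abs]
    nlinarith [sq_nonneg v.1]

theorem sq_le_norm (v : ℝ × ℝ) : sq v ≤ 2 * ‖v‖ ^ 2 := by
  unfold sq
  have h1 : |v.1| ≤ ‖v‖ := by
    rw [Prod.norm_def]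
    exact le_max_left _ _
  have h2 : |v.2| ≤ ‖v‖ := by
    rw [Prod.norm_def]
    exact le_max_right _ _
  have h3 : v.1 ^ 2 ≤ ‖v‖ ^ 2 := by
    rw [← sq_abs v.1]
    exact pow_le_pow_left₀ (abs_nonneg _) h1 2
  have h4 : v.2 ^ 2 ≤ ‖v‖ ^ 2 := by
    rw [← sq_abs v.2]
    exact pow_le_pow_left₀ (abs_nonneg _) h2 2
  linarith

private theorem norm_le_of_sq {v : ℝ × ℝ} {ρ : ℝ} (hρ : 0 ≤ ρ) (h : sq v ≤ ρ ^ 2) : ‖v‖ ≤ ρ := by
  have h1 := (norm_le_sq v).trans h
  exact (sq_le_sq₀ (norm_nonneg v) hρ).1 h1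

theorem tay1 (f : ℝ × ℝ → ℝ) (z : ℝ × ℝ) (hf : ContDiffAt ℝ 2 f z) (η : ℝ) (hη : 0 < η) :
    ∃ ρ : ℝ, 0 < ρ ∧ ∀ v : ℝ × ℝ, sq v ≤ ρ ^ 2 → |f (z + v) - f z| ≤ (‖fderiv ℝ f z‖ + η) * ‖v‖ := by
  have hd : HasFDerivAt f (fderiv ℝ f z) z := (hf.differentiableAt (by norm_num)).hasFDerivAt
  have h1 := (hasFDerivAt_iff_isLittleO_nhds_zero.1 hd).def hη
  obtain ⟨r, hr, hball⟩ := Metric.eventually_nhds_iff.1 h1
  refine ⟨r / 2, by positivity, fun v hv => ?_⟩
  have hvn : ‖v‖ ≤ r / 2 := norm_le_of_sq (by positivity) hv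
  have h2 := hball (y := v) (by rw [dist_zero_right]; linarith)
  rw [Real.norm_eq_abs] at h2
  have h3 : |fderiv ℝ f z v| ≤ ‖fderiv ℝ f z‖ * ‖v‖ := (fderiv ℝ f z).le_opNorm v
  have h4 : f (z + v) - f z = (f (z + v) - f z - fderiv ℝ f z v) + fderiv ℝ f z v := by ring
  rw [h4]
  refine (abs_add_le _ _).trans ?_
  nlinarith

theorem tay2 (f : ℝ × ℝ → ℝ) (z : ℝ × ℝ) (hf : ContDiffAt ℝ 2 f z) (η : ℝ) (hη : 0 < η) :
    ∃ ρ : ℝ, 0 < ρ ∧ ∀ v : ℝ × ℝ, sq v ≤ ρ ^ 2 →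
      |D2 f v z - iteratedFDeriv ℝ 2 f z ![v, v]| ≤ η * ‖v‖ ^ 2 := by
  set A := fderiv ℝ (fderiv ℝ f) z with hA
  have hdiff : ∀ᶠ y in nhds z, DifferentiableAt ℝ f y := by
    have h0 : ∀ᶠ y in nhds z, ContDiffAt ℝ 2 f y := hf.eventually (by simp)
    filter_upwards [h0] with y hy
    exact hy.differentiableAt (by norm_num)
  have hd1 : HasFDerivAt (fderiv ℝ f) A z := by
    have h1 : ContDiffAt ℝ 1 (fderiv ℝ f) z := hf.fderiv_right (m := 1) (by norm_num)
    exact (h1.differentiableAt (by norm_num)).hasFDerivAt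
  have hη2 : 0 < η / 2 := by positivity
  have h1 := (hasFDerivAt_iff_isLittleO_nhds_zero.1 hd1).def hη2
  obtain ⟨r, hr, hball⟩ := Metric.eventually_nhds_iff.1 h1
  obtain ⟨r', hr', hball'⟩ := Metric.eventually_nhds_iff.1 hdiff
  refine ⟨min r r' / 2, by positivity, fun v hv => ?_⟩
  have hvn : ‖v‖ ≤ min r r' / 2 := norm_le_of_sq (by positivity) hv
  have hmr : min r r' ≤ r := min_le_left _ _
  have hmr' : min r r' ≤ r' := min_le_right _ _
  have hmpos : 0 < min r r' := lt_min hr hr'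
  have hit : iteratedFDeriv ℝ 2 f z ![v, v] = A v v := by
    rw [iteratedFDeriv_two_apply]
    rfl
  rw [hit]
  -- the function of `t`
  have hder : ∀ t ∈ Icc (0 : ℝ) 1, HasDerivWithinAt
      (fun t : ℝ => f (z + t • v) + f (z - t • v) - 2 * f z - t ^ 2 * A v v)
      (fderiv ℝ f (z + t • v) v - fderiv ℝ f (z - t • v) v - 2 * t * A v v) (Icc 0 1) t := by
    intro t ht
    have htn : ‖t • v‖ < r' := by
      rw [norm_smul, Real.norm_eq_abs, abs_of_nonneg ht.1]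
      have : t * ‖v‖ ≤ 1 * ‖v‖ := mul_le_mul_of_nonneg_right ht.2 (norm_nonneg v)
      linarith
    have e1 : DifferentiableAt ℝ f (z + t • v) := hball' (by
      rw [dist_eq_norm]; simpa using htn)
    have e2 : DifferentiableAt ℝ f (z - t • v) := hball' (by
      rw [dist_eq_norm]; simpa using htn)
    have l1 : HasDerivAt (fun t : ℝ => z + t • v) v t := by
      have := ((hasDerivAt_id t).smul_const v).const_add z
      simpa using this
    have l2 : HasDerivAt (fun t : ℝ => z - t • v) (-v) t := by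
      have := ((hasDerivAt_id t).smul_const v).const_sub z
      simpa using this
    have c1 := e1.hasFDerivAt.comp_hasDerivAt t l1
    have c2 := e2.hasFDerivAt.comp_hasDerivAt t l2
    have c3 : HasDerivAt (fun t : ℝ => t ^ 2 * A v v) (2 * t * A v v) t := by
      have := (hasDerivAt_pow 2 t).mul_const (A v v)
      simpa using this
    have c4 := ((c1.add c2).sub_const (2 * f z)).sub c3
    have c5 : HasDerivAt (fun t : ℝ => f (z + t • v) + f (z - t • v) - 2 * f z - t ^ 2 * A v v)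
        (fderiv ℝ f (z + t • v) v - fderiv ℝ f (z - t • v) v - 2 * t * A v v) t := by
      refine HasDerivAt.congr_deriv (f' := _) c4 ?_
      simp only [map_neg]
      ring
    exact c5.hasDerivWithinAt
  have hbd : ∀ t ∈ Ico (0 : ℝ) 1,
      ‖fderiv ℝ f (z + t • v) v - fderiv ℝ f (z - t • v) v - 2 * t * A v v‖ ≤ η * ‖v‖ ^ 2 := by
    intro t ht
    have htn : ‖t • v‖ ≤ ‖v‖ := by
      rw [norm_smul, Real.norm_eq_abs, abs_of_nonneg ht.1]
      have : t * ‖v‖ ≤ 1 * ‖v‖ := mul_le_mul_of_nonneg_right ht.2.le (norm_nonneg v)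
      linarith
    have e1 := hball (y := t • v) (by rw [dist_zero_right]; linarith)
    have e2 := hball (y := -(t • v)) (by rw [dist_zero_right, norm_neg]; linarith)
    rw [norm_neg] at e2
    have k1 : ‖(fderiv ℝ f (z + t • v) - fderiv ℝ f z - A (t • v)) v‖ ≤ η / 2 * ‖v‖ * ‖v‖ := by
      refine ((fderiv ℝ f (z + t • v) - fderiv ℝ f z - A (t • v)).le_opNorm v).trans ?_
      refine mul_le_mul_of_nonneg_right (e1.trans ?_) (norm_nonneg v)
      exact mul_le_mul_of_nonneg_left htn (by positivity)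
    have k2 : ‖(fderiv ℝ f (z + -(t • v)) - fderiv ℝ f z - A (-(t • v))) v‖ ≤ η / 2 * ‖v‖ * ‖v‖ := by
      refine ((fderiv ℝ f (z + -(t • v)) - fderiv ℝ f z - A (-(t • v))).le_opNorm v).trans ?_
      refine mul_le_mul_of_nonneg_right (e2.trans ?_) (norm_nonneg v)
      exact mul_le_mul_of_nonneg_left htn (by positivity)
    have k3 : fderiv ℝ f (z + t • v) v - fderiv ℝ f (z - t • v) v - 2 * t * A v v =
        (fderiv ℝ f (z + t • v) - fderiv ℝ f z - A (t • v)) v -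
          (fderiv ℝ f (z + -(t • v)) - fderiv ℝ f z - A (-(t • v))) v := by
      rw [sub_eq_add_neg z (t • v)]
      simp only [ContinuousLinearMap.sub_apply, map_neg, map_smul, ContinuousLinearMap.neg_apply,
        ContinuousLinearMap.smul_apply, smul_eq_mul]
      ring
    rw [k3]
    refine (norm_sub_le _ _).trans ?_
    nlinarith
  have key := norm_image_sub_le_of_norm_deriv_le_segment_01' hder hbd
  simp only [one_smul, zero_smul, add_zero, sub_zero, one_pow, one_mul] at key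
  rw [Real.norm_eq_abs] at key
  have h0 : f z + f z - 2 * f z - 0 ^ 2 * A v v = 0 := by ring
  rw [h0, sub_zero] at key
  unfold D2
  exact key

/-- Conversely, a bound of the second differences bounds the second derivative. -/
theorem tay3 (f : ℝ × ℝ → ℝ) (z v : ℝ × ℝ) (hf : ContDiffAt ℝ 2 f z) (m κ : ℝ)
    (h : ∃ ρ : ℝ, 0 < ρ ∧ ∀ t : ℝ, 0 < t → t ≤ ρ → |D2 f (t • v) z - m * t ^ 2| ≤ κ * t ^ 2) :
    |iteratedFDeriv ℝ 2 f z ![v, v] - m| ≤ κ := by
  obtain ⟨ρ, hρ, hb⟩ := h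
  refine le_of_forall_pos_le_add fun ε hε => ?_
  obtain ⟨ρ', hρ', hb'⟩ := tay2 f z hf (ε / (‖v‖ ^ 2 + 1)) (by positivity)
  obtain ⟨t, ht0, htρ, htv⟩ : ∃ t : ℝ, 0 < t ∧ t ≤ ρ ∧ sq (t • v) ≤ ρ' ^ 2 := by
    refine ⟨min ρ (ρ' / (sq v + 1)), ?_, min_le_left _ _, ?_⟩
    · have : 0 ≤ sq v := by unfold sq; positivity
      exact lt_min hρ (by positivity)
    · have hs : 0 ≤ sq v := by unfold sq; positivity
      have e0 : 0 ≤ min ρ (ρ' / (sq v + 1)) := le_min hρ.le (by positivity)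
      have e1 : min ρ (ρ' / (sq v + 1)) ≤ ρ' / (sq v + 1) := min_le_right _ _
      have e2 : sq (min ρ (ρ' / (sq v + 1)) • v) = (min ρ (ρ' / (sq v + 1))) ^ 2 * sq v := by
        unfold sq
        simp only [Prod.smul_fst, Prod.smul_snd, smul_eq_mul]
        ring
      rw [e2]
      have e3 : (min ρ (ρ' / (sq v + 1))) ^ 2 ≤ (ρ' / (sq v + 1)) ^ 2 :=
        pow_le_pow_left₀ e0 e1 2
      have e4 : (ρ' / (sq v + 1)) ^ 2 * sq v ≤ ρ' ^ 2 := by
        rw [div_pow, div_mul_eq_mul_div, div_le_iff₀ (by positivity)]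
        have : 0 ≤ ρ' ^ 2 := by positivity
        nlinarith [mul_nonneg this hs, mul_nonneg this (mul_nonneg hs hs)]
      exact (mul_le_mul_of_nonneg_right e3 hs).trans e4
  have h1 := hb t ht0 htρ
  have h2 := hb' (t • v) htv
  have h3 : iteratedFDeriv ℝ 2 f z ![t • v, t • v] = t ^ 2 * iteratedFDeriv ℝ 2 f z ![v, v] := by
    rw [iteratedFDeriv_two_apply, iteratedFDeriv_two_apply]
    simp only [Matrix.cons_val_zero, Matrix.cons_val_one, map_smul,
      ContinuousLinearMap.smul_apply, smul_eq_mul]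
    ring
  rw [h3, norm_smul, Real.norm_eq_abs, abs_of_pos ht0] at h2
  have ht2 : 0 < t ^ 2 := by positivity
  have h4 : |t ^ 2 * (iteratedFDeriv ℝ 2 f z ![v, v] - m)| ≤ t ^ 2 * (κ + ε) := by
    have e1 : t ^ 2 * (iteratedFDeriv ℝ 2 f z ![v, v] - m) =
        (D2 f (t • v) z - m * t ^ 2) - (D2 f (t • v) z - t ^ 2 * iteratedFDeriv ℝ 2 f z ![v, v]) := by
      ring
    rw [e1]
    refine (abs_sub _ _).trans ?_
    have e2 : ε / (‖v‖ ^ 2 + 1) * (t * ‖v‖) ^ 2 ≤ ε * t ^ 2 := by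
      rw [div_mul_eq_mul_div, div_le_iff₀ (by positivity)]
      have : 0 ≤ ε * t ^ 2 := by positivity
      nlinarith
    linarith
  rw [abs_mul, abs_of_pos ht2] at h4
  exact le_of_mul_le_mul_left h4 ht2

end Pool.Agent.MP_4eca41.T
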