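import Pool.Agent.Work.MP_4eca41_an.Defs

/-!
# T7: the function theta

STATEMENT FIXED (helper49, form of helper30).

PROOF.  Write `|v| = √(sq v)` (the Euclidean length; triangle inequality `|v + w| ≤ |v| + |w|` by Cauchy-Schwarz).
For `ρ > 0` let `ψ ρ v = (max (|v| - ρ) 0)^2`.  Facts:
(a) `ψ ρ` is continuous, even, `0 ≤ ψ ρ v ≤ sq v`, `ψ ρ v = 0` if `|v| ≤ ρ`, `ψ ρ v ≥ sq v / 4` if `|v| ≥ 2 ρ`.
(b) for every `b` with `|b| ≤ ρ`: `ψ ρ v ≤ sq (v - b)` (since `|v - b| ≥ |v| - ρ`), and there is such a `b` with `ψ ρ v = sq (v - b)`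
    (`b = v` if `|v| ≤ ρ`, else `b = (ρ/|v|) • v`).
(c) `D2 (ψ ρ) v z ≤ 2 * sq v` for all `v, z`: take `b` for `z`; `ψ ρ (z ± v) ≤ sq (z - b ± v)` and
    `sq (z-b+v) + sq (z-b-v) = 2 sq (z-b) + 2 sq v`.
(d) `D2 (ψ ρ) v z = 0` if `|v| + |z| ≤ ρ`.
Constants: `C ≥ 1` with `G v ≤ C * sq v`, `E = 8 * C`.  For every `j` let `δ j > 0` with `G v ≤ (E/8) (1/2)^(j+1) * sq v` for `sq v ≤ (δ j)^2`.
Choose `ρ : ℕ → ℝ` positive, decreasing, tending to `0` with `2 ρ j ≤ δ j` (e.g. `ρ j = min` of the `δ i / 2`, `i ≤ j`, and `(1/2)^j`).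
`θ v = ∑' j, E * (1/2)^j * ψ (ρ j) v`.  The terms are `≤ E (1/2)^j sq v`: summable, `0 ≤ θ v ≤ 2 E sq v`, `θ 0 = 0`, even.
Continuity: on every ball `sq v ≤ R^2` uniform convergence (`continuousOn_tsum`), and balls are neighbourhoods.
`2 G ≤ θ`: `v = 0` trivial (`G 0 ≤ 0`).  `v ≠ 0`: if `|v| ≥ 2 ρ 0` then `θ v ≥ E * sq v / 4 = 2 C sq v ≥ 2 G v`.  Otherwise let `j` be the least index with
`2 ρ j ≤ |v|` (exists since `ρ j → 0`), `j ≥ 1`, `|v| < 2 ρ (j-1) ≤ δ (j-1)`: `2 G v ≤ (E/4) (1/2)^j sq v ≤ E (1/2)^j ψ (ρ j) v ≤ θ v`.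
Lower bound for `sq v ≥ r0^2`: `j` with `2 ρ j ≤ r0`, `m = E (1/2)^j / 4`.
`D2 θ v z ≤ ∑ E (1/2)^j 2 sq v = 4 E sq v`, so `M = 4 E`.
Small `v, z`: given `κ`, choose `N` with `4 E (1/2)^N ≤ κ` and `d = ρ N / 2` (so `2 d ≤ ρ j` for `j ≤ N`): the terms `j ≤ N` vanish by (d), the others
sum up to at most `∑_{j > N} E (1/2)^j 2 sq v = 2 E (1/2)^N sq v`.  In the same way `θ v ≤ ∑_{j>N} E (1/2)^j sq v ≤ κ sq v` for `|v| ≤ ρ N`.
-/

set_option autoImplicit false

open Set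

namespace Pool.Agent.MP_4eca41.T

private noncomputable def cx (v : ℝ × ℝ) : ℂ := ⟨v.1, v.2⟩

private theorem cx_add (v w : ℝ × ℝ) : cx (v + w) = cx v + cx w := by
  apply Complex.ext <;> simp [cx]

private theorem cx_sub (v w : ℝ × ℝ) : cx (v - w) = cx v - cx w := by
  apply Complex.ext <;> simp [cx]

private theorem cx_neg (v : ℝ × ℝ) : cx (-v) = -cx v := by
  apply Complex.ext <;> simp [cx]

/-- the Euclidean norm -/
private noncomputable def nr (v : ℝ × ℝ) : ℝ := ‖cx v‖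

private theorem nr_sq (v : ℝ × ℝ) : nr v ^ 2 = sq v := by
  unfold nr sq
  rw [← Complex.normSq_eq_norm_sq, Complex.normSq_apply]
  simp only [cx]
  ring

private theorem nr_nonneg (v : ℝ × ℝ) : 0 ≤ nr v := norm_nonneg _

private theorem nr_neg (v : ℝ × ℝ) : nr (-v) = nr v := by
  unfold nr
  rw [cx_neg, norm_neg]

private theorem nr_add (v w : ℝ × ℝ) : nr (v + w) ≤ nr v + nr w := by
  unfold nr
  rw [cx_add]
  exact norm_add_le _ _

private theorem nr_sub (v w : ℝ × ℝ) : nr (v - w) ≤ nr v + nr w := by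
  unfold nr
  rw [cx_sub]
  exact norm_sub_le _ _

private theorem nr_cont : Continuous nr := by
  have h : Continuous cx := by
    have h1 : cx = fun v : ℝ × ℝ => Complex.equivRealProdCLM.symm v := by
      funext v
      apply Complex.ext <;> simp [cx]
    rw [h1]
    exact Complex.equivRealProdCLM.symm.continuous
  exact h.norm

private theorem sq_nonneg' (v : ℝ × ℝ) : 0 ≤ sq v := by
  unfold sq
  positivity

private theorem nr_smul (c : ℝ) (v : ℝ × ℝ) : nr (c • v) = |c| * nr v := by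
  unfold nr
  have h : cx (c • v) = (c : ℂ) * cx v := by
    apply Complex.ext <;> simp [cx]
  rw [h, norm_mul, Complex.norm_real, Real.norm_eq_abs]

private noncomputable def ps (ρ : ℝ) (v : ℝ × ℝ) : ℝ := (max (nr v - ρ) 0) ^ 2

private theorem ps_cont (ρ : ℝ) : Continuous (ps ρ) :=
  ((nr_cont.sub continuous_const).max continuous_const).pow 2

private theorem ps_nonneg (ρ : ℝ) (v : ℝ × ℝ) : 0 ≤ ps ρ v := sq_nonneg _

private theorem ps_neg (ρ : ℝ) (v : ℝ × ℝ) : ps ρ (-v) = ps ρ v := by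
  unfold ps
  rw [nr_neg]

private theorem ps_le {ρ : ℝ} (hρ : 0 < ρ) (v : ℝ × ℝ) : ps ρ v ≤ sq v := by
  rw [← nr_sq]
  unfold ps
  have h := nr_nonneg v
  refine pow_le_pow_left₀ (le_max_right _ _) ?_ 2
  exact max_le (by linarith) h

private theorem ps_zero {ρ : ℝ} {v : ℝ × ℝ} (h : nr v ≤ ρ) : ps ρ v = 0 := by
  unfold ps
  rw [max_eq_right (by linarith)]
  norm_num

private theorem ps_ge {ρ : ℝ} {v : ℝ × ℝ} (h : 2 * ρ ≤ nr v) : sq v / 4 ≤ ps ρ v := by
  rw [← nr_sq]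
  unfold ps
  have h0 := nr_nonneg v
  have h1 : nr v / 2 ≤ max (nr v - ρ) 0 := le_trans (by linarith) (le_max_left _ _)
  have h2 := pow_le_pow_left₀ (by linarith) h1 2
  linarith [h2, show (nr v / 2) ^ 2 = nr v ^ 2 / 4 by ring]

private theorem ps_le_of {ρ : ℝ} {b v : ℝ × ℝ} (hb : nr b ≤ ρ) : ps ρ v ≤ sq (v - b) := by
  rw [← nr_sq]
  unfold ps
  refine pow_le_pow_left₀ (le_max_right _ _) ?_ 2
  refine max_le ?_ (nr_nonneg _)
  have h := nr_add (v - b) b
  rw [sub_add_cancel] at h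
  linarith

private theorem ps_eq_of {ρ : ℝ} (hρ : 0 < ρ) (v : ℝ × ℝ) :
    ∃ b, nr b ≤ ρ ∧ ps ρ v = sq (v - b) := by
  by_cases h : nr v ≤ ρ
  · refine ⟨v, h, ?_⟩
    rw [ps_zero h, sub_self]
    unfold sq
    simp
  · rw [not_le] at h
    have hv : 0 < nr v := hρ.trans h
    refine ⟨(ρ / nr v) • v, ?_, ?_⟩
    · rw [nr_smul, abs_of_pos (div_pos hρ hv), div_mul_cancel₀ _ hv.ne']
    · have h1 : v - (ρ / nr v) • v = (1 - ρ / nr v) • v := by rw [sub_smul, one_smul]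
      rw [h1, ← nr_sq, nr_smul]
      unfold ps
      have h2 : ρ / nr v < 1 := by rwa [div_lt_one hv]
      rw [abs_of_pos (by linarith), max_eq_left (by linarith), sub_mul, one_mul,
        div_mul_cancel₀ _ hv.ne']

private theorem sq_par (a v : ℝ × ℝ) : sq (a + v) + sq (a - v) = 2 * sq a + 2 * sq v := by
  unfold sq
  simp only [Prod.fst_add, Prod.snd_add, Prod.fst_sub, Prod.snd_sub]
  ring

private theorem ps_D2 {ρ : ℝ} (hρ : 0 < ρ) (v z : ℝ × ℝ) : D2 (ps ρ) v z ≤ 2 * sq v := by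
  obtain ⟨b, hb, hz⟩ := ps_eq_of hρ z
  have h1 := ps_le_of (v := z + v) hb
  have h2 := ps_le_of (v := z - v) hb
  have h3 := sq_par (z - b) v
  have e1 : z + v - b = z - b + v := by abel
  have e2 : z - v - b = z - b - v := by abel
  rw [e1] at h1
  rw [e2] at h2
  unfold D2
  rw [hz]
  linarith

private theorem ps_D2_zero {ρ : ℝ} {v z : ℝ × ℝ} (h : nr v + nr z ≤ ρ) : D2 (ps ρ) v z = 0 := by
  have h0 := nr_nonneg v
  unfold D2
  rw [ps_zero (v := z + v) ((nr_add z v).trans (by linarith)),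
    ps_zero (v := z - v) ((nr_sub z v).trans (by linarith)), ps_zero (v := z) (by linarith)]
  ring

private noncomputable def rr (δ : ℕ → ℝ) : ℕ → ℝ
  | 0 => min (δ 0 / 2) 1
  | j + 1 => min (rr δ j) (min (δ (j + 1) / 2) ((1 / 2) ^ (j + 1)))

private theorem rr_pos {δ : ℕ → ℝ} (h : ∀ j, 0 < δ j) (j : ℕ) : 0 < rr δ j := by
  induction j with
  | zero => exact lt_min (by linarith [h 0]) one_pos
  | succ j ih => exact lt_min ih (lt_min (by linarith [h (j + 1)]) (by positivity))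

private theorem rr_le (δ : ℕ → ℝ) (j : ℕ) : 2 * rr δ j ≤ δ j ∧ rr δ j ≤ (1 / 2) ^ j := by
  cases j with
  | zero =>
    have h1 := min_le_left (δ 0 / 2) (1 : ℝ)
    have h2 := min_le_right (δ 0 / 2) (1 : ℝ)
    refine ⟨?_, ?_⟩
    · change 2 * min (δ 0 / 2) 1 ≤ δ 0
      linarith
    · change min (δ 0 / 2) 1 ≤ _
      simpa using h2
  | succ j =>
    have h1 : rr δ (j + 1) ≤ δ (j + 1) / 2 := (min_le_right _ _).trans (min_le_left _ _)
    have h2 : rr δ (j + 1) ≤ (1 / 2) ^ (j + 1) := (min_le_right _ _).trans (min_le_right _ _)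
    exact ⟨by linarith, h2⟩

private theorem rr_anti (δ : ℕ → ℝ) : Antitone (rr δ) :=
  antitone_nat_of_succ_le fun _ => min_le_left _ _

private theorem geo : HasSum (fun j : ℕ => ((1 : ℝ) / 2) ^ j) 2 := hasSum_geometric_two

private theorem quarter (j N : ℕ) (h : N ≤ j) : ((1 : ℝ) / 4) ^ j ≤ (1 / 2) ^ N * (1 / 2) ^ j := by
  have e : ((1 : ℝ) / 4) ^ j = (1 / 2) ^ j * (1 / 2) ^ j := by
    rw [← mul_pow]
    norm_num
  rw [e]
  exact mul_le_mul_of_nonneg_right (pow_le_pow_of_le_one (by norm_num) (by norm_num) h)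
    (by positivity)

theorem theta_ex (G : ℝ × ℝ → ℝ) (h0 : ∀ v, 0 ≤ G v) (hC : ∃ C : ℝ, ∀ v, G v ≤ C * sq v)
    (hε : ∀ ε : ℝ, 0 < ε → ∃ δ : ℝ, 0 < δ ∧ ∀ v, sq v ≤ δ ^ 2 → G v ≤ ε * sq v) :
    ∃ θ : ℝ × ℝ → ℝ, Continuous θ ∧ θ 0 = 0 ∧ (∀ v, θ (-v) = θ v) ∧ (∀ v, 0 ≤ θ v) ∧
      (∀ v, 2 * G v ≤ θ v) ∧
      (∀ r0 : ℝ, 0 < r0 → ∃ m : ℝ, 0 < m ∧ ∀ v, r0 ^ 2 ≤ sq v → m * sq v ≤ θ v) ∧
      (∃ M : ℝ, 0 < M ∧ ∀ v z, D2 θ v z ≤ M * sq v) ∧
      (∀ κ : ℝ, 0 < κ → ∃ d : ℝ, 0 < d ∧ ∀ v z, sq v ≤ d ^ 2 → sq z ≤ d ^ 2 → D2 θ v z ≤ κ * sq v) ∧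
      ∀ κ : ℝ, 0 < κ → ∃ d : ℝ, 0 < d ∧ ∀ v, sq v ≤ d ^ 2 → θ v ≤ κ * sq v := by
  obtain ⟨C0, hC0⟩ := hC
  set C : ℝ := max C0 1 with hCdef
  have hC1 : 1 ≤ C := le_max_right _ _
  have hC : ∀ v, G v ≤ C * sq v := fun v =>
    (hC0 v).trans (mul_le_mul_of_nonneg_right (le_max_left _ _) (sq_nonneg' v))
  set E : ℝ := 8 * C with hE
  have hE0 : 0 < E := by linarith
  have hδ : ∀ j : ℕ, ∃ δ : ℝ, 0 < δ ∧ ∀ v, sq v ≤ δ ^ 2 → G v ≤ E / 8 * (1 / 4) ^ (j + 1) * sq v :=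
    fun j => hε _ (by positivity)
  choose δ hδ0 hδ1 using hδ
  set ρ : ℕ → ℝ := rr δ with hρ
  have hρ0 : ∀ j, 0 < ρ j := rr_pos hδ0
  have sq_le_nr : ∀ {v : ℝ × ℝ} {d : ℝ}, 0 ≤ d → sq v ≤ d ^ 2 → nr v ≤ d := by
    intro v d hd h
    rw [← nr_sq] at h
    exact (pow_le_pow_iff_left₀ (nr_nonneg v) hd two_ne_zero).1 h
  -- the terms
  set t : ℕ → ℝ × ℝ → ℝ := fun j v => E * (1 / 4) ^ j * ps (ρ j) v with ht
  have ht0 : ∀ j v, 0 ≤ t j v := fun j v => mul_nonneg (by positivity) (ps_nonneg _ _)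
  have ht1 : ∀ j v, t j v ≤ E * sq v * (1 / 2) ^ j := by
    intro j v
    have h1 := quarter j 0 (Nat.zero_le j)
    rw [pow_zero, one_mul] at h1
    calc t j v ≤ E * (1 / 2) ^ j * sq v :=
          mul_le_mul (mul_le_mul_of_nonneg_left h1 hE0.le) (ps_le (hρ0 j) v) (ps_nonneg _ _)
            (by positivity)
      _ = E * sq v * (1 / 2) ^ j := by ring
  have hsum : ∀ v, Summable fun j => t j v := fun v =>
    Summable.of_nonneg_of_le (fun j => ht0 j v) (fun j => ht1 j v)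
      ((geo.mul_left (E * sq v)).summable)
  have hS : ∀ v, HasSum (fun j => t j v) (∑' j, t j v) := fun v => (hsum v).hasSum
  have hle1 : ∀ j v, t j v ≤ ∑' j, t j v := fun j v =>
    (hsum v).le_tsum j fun i _ => ht0 i v
  have hD : ∀ v z, HasSum (fun j => E * (1 / 4) ^ j * D2 (ps (ρ j)) v z)
      (D2 (fun v => ∑' j, t j v) v z) := by
    intro v z
    have h1 := ((hS (z + v)).add (hS (z - v))).sub ((hS z).mul_left 2)
    refine (h1.congr_fun ?_)
    intro j
    simp only [ht]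
    unfold D2
    ring
  refine ⟨fun v => ∑' j, t j v, ?_, ?_, ?_, ?_, ?_, ?_, ?_, ?_, ?_⟩
  · -- continuity
    rw [continuous_iff_continuousAt]
    intro v0
    have hopen : IsOpen {v : ℝ × ℝ | nr v < nr v0 + 1} := isOpen_lt nr_cont continuous_const
    have hc : ContinuousOn (fun v => ∑' j, t j v) {v : ℝ × ℝ | nr v < nr v0 + 1} := by
      refine continuousOn_tsum (u := fun j => E * (nr v0 + 1) ^ 2 * (1 / 2) ^ j) (fun j => ?_)
        ((geo.mul_left (E * (nr v0 + 1) ^ 2)).summable) (fun j v hv => ?_)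
      · exact (continuous_const.mul (ps_cont _)).continuousOn
      · rw [Real.norm_of_nonneg (ht0 j v)]
        refine (ht1 j v).trans ?_
        have h1 : sq v ≤ (nr v0 + 1) ^ 2 := by
          rw [← nr_sq]
          exact pow_le_pow_left₀ (nr_nonneg v) (le_of_lt hv) 2
        exact mul_le_mul_of_nonneg_right (mul_le_mul_of_nonneg_left h1 hE0.le) (by positivity)
    exact hc.continuousAt (hopen.mem_nhds (by simp))
  · -- value at zero
    have h1 : ∀ j, t j 0 = 0 := by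
      intro j
      have h2 : ps (ρ j) 0 = 0 := ps_zero (by
        have h3 : nr 0 = 0 := by
          have h4 := nr_sq 0
          have h5 : sq (0 : ℝ × ℝ) = 0 := by
            unfold sq
            simp
          rw [h5] at h4
          exact pow_eq_zero_iff (two_ne_zero) |>.1 h4
        rw [h3]
        exact (hρ0 j).le)
      simp only [ht, h2, mul_zero]
    simp only [h1, tsum_zero]
  · intro v
    simp only [ht, ps_neg]
  · intro v
    exact tsum_nonneg fun j => ht0 j v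
  · -- `2 G ≤ θ`
    intro v
    rcases eq_or_lt_of_le (sq_nonneg' v) with h | h
    · have h1 := hC v
      rw [← h, mul_zero] at h1
      have h2 : 0 ≤ ∑' j, t j v := tsum_nonneg fun j => ht0 j v
      linarith
    · have hv : 0 < nr v := by
        rcases eq_or_lt_of_le (nr_nonneg v) with h1 | h1
        · rw [← nr_sq, ← h1] at h
          norm_num at h
        · exact h1
      have hex : ∃ j, 2 * ρ j ≤ nr v := by
        obtain ⟨j, hj⟩ := exists_pow_lt_of_lt_one (show 0 < nr v / 2 by linarith)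
          (show (1 / 2 : ℝ) < 1 by norm_num)
        exact ⟨j, by linarith [(rr_le δ j).2]⟩
      classical
      obtain ⟨hj1, hj2⟩ : 2 * ρ (Nat.find hex) ≤ nr v ∧
          ∀ m < Nat.find hex, ¬ 2 * ρ m ≤ nr v :=
        ⟨Nat.find_spec hex, fun m hm => Nat.find_min hex hm⟩
      have h3 := hle1 (Nat.find hex) v
      have h4 := ps_ge hj1
      generalize Nat.find hex = j at hj1 hj2 h3 h4
      have h5 : E * (1 / 4) ^ j * (sq v / 4) ≤ t j v :=
        mul_le_mul_of_nonneg_left h4 (by positivity)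
      cases j with
      | zero =>
        have h6 := hC v
        simp only [pow_zero, mul_one] at h5
        have h7 : E * (sq v / 4) = 2 * (C * sq v) := by
          rw [hE]
          ring
        change 2 * G v ≤ ∑' j, t j v
        linarith
      | succ j =>
        have h6 : nr v < 2 * ρ j := not_le.1 (hj2 j (Nat.lt_succ_self j))
        have h7 : nr v ≤ δ j := h6.le.trans (rr_le δ j).1
        have h8 : sq v ≤ δ j ^ 2 := by
          rw [← nr_sq]
          exact pow_le_pow_left₀ (nr_nonneg v) h7 2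
        have h9 := hδ1 j v h8
        have h10 : E * (1 / 4) ^ (j + 1) * (sq v / 4) = 2 * (E / 8 * (1 / 4) ^ (j + 1) * sq v) := by
          ring
        change 2 * G v ≤ ∑' j, t j v
        linarith
  · -- lower bound
    intro r0 hr0
    obtain ⟨j, hj⟩ := exists_pow_lt_of_lt_one (show 0 < r0 / 2 by linarith)
      (show (1 / 2 : ℝ) < 1 by norm_num)
    refine ⟨E * (1 / 4) ^ j / 4, by positivity, fun v hv => ?_⟩
    have h1 : r0 ≤ nr v := by
      rw [← nr_sq] at hv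
      exact (pow_le_pow_iff_left₀ hr0.le (nr_nonneg v) two_ne_zero).1 hv
    have h2 : 2 * ρ j ≤ nr v := by linarith [(rr_le δ j).2]
    have h3 := hle1 j v
    have h4 : E * (1 / 4) ^ j * (sq v / 4) ≤ t j v :=
      mul_le_mul_of_nonneg_left (ps_ge h2) (by positivity)
    change _ ≤ ∑' j, t j v
    linarith [show E * (1 / 4) ^ j / 4 * sq v = E * (1 / 4) ^ j * (sq v / 4) by ring]
  · -- upper bound for the second difference
    refine ⟨4 * E, by linarith, fun v z => ?_⟩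
    have h1 : ∀ j, E * (1 / 4) ^ j * D2 (ps (ρ j)) v z ≤ E * 2 * sq v * (1 / 2) ^ j := by
      intro j
      have h2 := quarter j 0 (Nat.zero_le j)
      rw [pow_zero, one_mul] at h2
      have h3 := ps_D2 (hρ0 j) v z
      have h4 : E * (1 / 4) ^ j * D2 (ps (ρ j)) v z ≤ E * (1 / 4) ^ j * (2 * sq v) :=
        mul_le_mul_of_nonneg_left h3 (by positivity)
      have h5 : E * (1 / 4) ^ j * (2 * sq v) ≤ E * (1 / 2) ^ j * (2 * sq v) :=
        mul_le_mul_of_nonneg_right (mul_le_mul_of_nonneg_left h2 hE0.le)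
          (by have := sq_nonneg' v; positivity)
      linarith [show E * (1 / 2) ^ j * (2 * sq v) = E * 2 * sq v * (1 / 2) ^ j by ring]
    have h2 := hasSum_le h1 (hD v z) (geo.mul_left (E * 2 * sq v))
    linarith
  · -- small second differences
    intro κ hκ
    obtain ⟨N, hN⟩ := exists_pow_lt_of_lt_one (show 0 < κ / (4 * E) by positivity)
      (show (1 / 2 : ℝ) < 1 by norm_num)
    have hN' : 4 * E * (1 / 2) ^ N ≤ κ := by
      rw [lt_div_iff₀ (by positivity)] at hN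
      linarith
    refine ⟨ρ N / 2, by linarith [hρ0 N], fun v z hv hz => ?_⟩
    have hv' : nr v ≤ ρ N / 2 := sq_le_nr (by linarith [hρ0 N]) hv
    have hz' : nr z ≤ ρ N / 2 := sq_le_nr (by linarith [hρ0 N]) hz
    have hsv := sq_nonneg' v
    have h1 : ∀ j, E * (1 / 4) ^ j * D2 (ps (ρ j)) v z ≤
        E * 2 * sq v * (1 / 2) ^ N * (1 / 2) ^ j := by
      intro j
      by_cases hj : N ≤ j
      · have h2 := quarter j N hj
        have h3 := ps_D2 (hρ0 j) v z
        have h4 : E * (1 / 4) ^ j * D2 (ps (ρ j)) v z ≤ E * (1 / 4) ^ j * (2 * sq v) :=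
          mul_le_mul_of_nonneg_left h3 (by positivity)
        have h5 : E * (1 / 4) ^ j * (2 * sq v) ≤ E * ((1 / 2) ^ N * (1 / 2) ^ j) * (2 * sq v) :=
          mul_le_mul_of_nonneg_right (mul_le_mul_of_nonneg_left h2 hE0.le) (by positivity)
        linarith [show E * ((1 / 2) ^ N * (1 / 2) ^ j) * (2 * sq v) =
          E * 2 * sq v * (1 / 2) ^ N * (1 / 2) ^ j by ring]
      · have h2 : ρ N ≤ ρ j := rr_anti δ (by omega)
        rw [ps_D2_zero (by linarith), mul_zero]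
        positivity
    have h2 := hasSum_le h1 (hD v z) (geo.mul_left (E * 2 * sq v * (1 / 2) ^ N))
    have h3 : E * 2 * sq v * (1 / 2) ^ N * 2 = 4 * E * (1 / 2) ^ N * sq v := by ring
    have h4 := mul_le_mul_of_nonneg_right hN' hsv
    linarith
  · -- small values
    intro κ hκ
    obtain ⟨N, hN⟩ := exists_pow_lt_of_lt_one (show 0 < κ / (4 * E) by positivity)
      (show (1 / 2 : ℝ) < 1 by norm_num)
    have hN' : 4 * E * (1 / 2) ^ N ≤ κ := by
      rw [lt_div_iff₀ (by positivity)] at hN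
      linarith
    refine ⟨ρ N, hρ0 N, fun v hv => ?_⟩
    have hv' : nr v ≤ ρ N := sq_le_nr (hρ0 N).le hv
    have hsv := sq_nonneg' v
    have h1 : ∀ j, t j v ≤ E * 2 * sq v * (1 / 2) ^ N * (1 / 2) ^ j := by
      intro j
      by_cases hj : N ≤ j
      · have h2 := quarter j N hj
        have h3 := ps_le (hρ0 j) v
        have h4 : t j v ≤ E * (1 / 4) ^ j * sq v :=
          mul_le_mul_of_nonneg_left h3 (by positivity)
        have h5 : E * (1 / 4) ^ j * sq v ≤ E * ((1 / 2) ^ N * (1 / 2) ^ j) * sq v :=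
          mul_le_mul_of_nonneg_right (mul_le_mul_of_nonneg_left h2 hE0.le) hsv
        have h6 : 0 ≤ E * ((1 / 2) ^ N * (1 / 2) ^ j) * sq v := by positivity
        linarith [show E * ((1 / 2) ^ N * (1 / 2) ^ j) * sq v * 2 =
          E * 2 * sq v * (1 / 2) ^ N * (1 / 2) ^ j by ring]
      · have h2 : ρ N ≤ ρ j := rr_anti δ (by omega)
        have h3 : t j v = 0 := by
          simp only [ht, ps_zero (hv'.trans h2), mul_zero]
        rw [h3]
        positivity
    have h2 := hasSum_le h1 (hS v) (geo.mul_left (E * 2 * sq v * (1 / 2) ^ N))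
    have h3 : E * 2 * sq v * (1 / 2) ^ N * 2 = 4 * E * (1 / 2) ^ N * sq v := by ring
    have h4 := mul_le_mul_of_nonneg_right hN' hsv
    change ∑' j, t j v ≤ _
    linarith

end Pool.Agent.MP_4eca41.T
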