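import Pool.Agent.Work.MP_4eca41_an.T.Tay

/-!
# T4': tiny radius functions

STATEMENT FIXED (helper49, form of helper30).

PROOF.  If `G = univ` take `r = 0`.  `U = Gᶜ` is open.  For every `z ∈ U` there is `ρ z > 0` with `closedBall z (2 ρ z) ⊆ U`; by Lindelöf
(second countability of the plane, `TopologicalSpace.countable_cover_nhds` on `U`, or `IsOpen.exists...`) countably many balls
`ball (z i) (ρ i)` cover `U`, `i : ℕ`.  Let `χ i : ContDiffBump (z i)` with `rIn = ρ i`, `rOut = 2 ρ i`; `χ i > 0` on `ball (z i) (2 ρ i)`, zero outside, smooth.  The compact set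
`closedBall (z i) (2 ρ i) ⊆ U` is covered by finitely many sets `cb z' ρ'` (they are neighbourhoods of `z'`) on which `μ ≥ m' > 0`, so there is `m i ∈ (0, 1]` with `m i ≤ μ` on
`closedBall (z i) (2 ρ i)`.  The functions `‖χ i‖`, `‖fderiv ℝ (χ i)‖`, `‖iteratedFDeriv ℝ n (χ i)‖`, `n ≤ 2`, are bounded by a constant `B i ≥ 1` (continuous with compact support).
`c i = (1/2)^(i+2) * m i / B i`, `r = ∑' i, c i * χ i`.
`ContDiff ℝ 2 r` by `contDiff_tsum` with the bounds `‖iteratedFDeriv ℝ n (c i • χ i) z‖ ≤ (1/2)^(i+2)`.  `r = 0` on `G`, `r > 0` on `U`.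
Let `z ∈ U`.  Only the `i` with `z ∈ ball (z i) (2 ρ i)` contribute to the value and to the derivatives at `z` (for the others `χ i` and its first two
derivatives vanish at `z`, since `z` is not in the interior of the support: `χ i ≥ 0` vanishes outside the open ball; at a point of the complement of the open ball all derivatives vanish because
`tsupport (iteratedFDeriv)`: `iteratedFDeriv ℝ n (χ i) z = 0` off the closed ball and by continuity on its boundary from outside.  It is simpler to choose `m i ≤ μ` on the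
closed ball and to use only that the derivatives vanish off the closed ball).  For all of them `m i ≤ μ z`, so `r z`, `‖fderiv ℝ r z‖` and
`‖iteratedFDeriv ℝ 2 r z‖` are `≤ ∑' i, (1/2)^(i+2) * μ z = μ z / 2` (derivatives of the series: `iteratedFDeriv_tsum_apply`, `fderiv_tsum_apply`).
Then `tay1` and `tay2` (with `η = μ z / 4`) give the two local estimates: `|r (z+v) - r z| ≤ (3/4) μ z ‖v‖`, `|D2 r v z| ≤ (3/4) μ z ‖v‖^2`, and `‖v‖^2 ≤ sq v`.
-/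

set_option autoImplicit false

open Set

namespace Pool.Agent.MP_4eca41.T

private theorem cb_nhds (z : ℝ × ℝ) (ρ : ℝ) (hρ : 0 < ρ) : cb z ρ ∈ nhds z := by
  have hc : Continuous fun z' : ℝ × ℝ => sq (z' - z) := by unfold sq; fun_prop
  have h : {z' : ℝ × ℝ | sq (z' - z) < ρ ^ 2} ∈ nhds z := by
    refine (isOpen_lt hc continuous_const).mem_nhds ?_
    have : sq (z - z) = 0 := by simp [sq]
    show sq (z - z) < ρ ^ 2
    rw [this]
    positivity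
  refine Filter.mem_of_superset h (fun z' h' => ?_)
  show sq (z' - z) ≤ ρ ^ 2
  exact le_of_lt (show sq (z' - z) < ρ ^ 2 from h')

private theorem low (G : Set (ℝ × ℝ)) (μ : ℝ × ℝ → ℝ)
    (hμ : ∀ z, z ∉ G → ∃ ρ : ℝ, 0 < ρ ∧ ∃ m : ℝ, 0 < m ∧ ∀ z' ∈ cb z ρ, m ≤ μ z')
    (K : Set (ℝ × ℝ)) (hK : IsCompact K) (hKG : ∀ z ∈ K, z ∉ G) :
    ∃ m : ℝ, 0 < m ∧ m ≤ 1 ∧ ∀ z ∈ K, m ≤ μ z := by
  refine hK.induction_on (p := fun s => ∃ m : ℝ, 0 < m ∧ m ≤ 1 ∧ ∀ z ∈ s, m ≤ μ z)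
    ⟨1, one_pos, le_rfl, by simp⟩ ?_ ?_ ?_
  · rintro s t hst ⟨m, h0, h1, h⟩
    exact ⟨m, h0, h1, fun z hz => h z (hst hz)⟩
  · rintro s t ⟨m, h0, h1, h⟩ ⟨m', h0', h1', h'⟩
    refine ⟨min m m', lt_min h0 h0', (min_le_left _ _).trans h1, ?_⟩
    rintro z (hz | hz)
    · exact (min_le_left _ _).trans (h z hz)
    · exact (min_le_right _ _).trans (h' z hz)
  · intro z hz
    obtain ⟨ρ, hρ, m, hm, h⟩ := hμ z (hKG z hz)
    exact ⟨cb z ρ, mem_nhdsWithin_of_mem_nhds (cb_nhds z ρ hρ), min m 1, lt_min hm one_pos,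
      min_le_right _ _, fun z' hz' => (min_le_left _ _).trans (h z' hz')⟩

private theorem family (U : Set (ℝ × ℝ)) (hU : IsOpen U) (hne : U.Nonempty) :
    ∃ g : ℕ → (ℝ × ℝ → ℝ), (∀ i, ContDiff ℝ 2 (g i)) ∧ (∀ i, HasCompactSupport (g i)) ∧
      (∀ i, tsupport (g i) ⊆ U) ∧ (∀ i z, 0 ≤ g i z) ∧ ∀ z ∈ U, ∃ i, 0 < g i z := by
  have hex : ∀ x : ℝ × ℝ, ∃ f : ℝ × ℝ → ℝ, x ∈ U →
      (tsupport f ⊆ U ∧ HasCompactSupport f ∧ ContDiff ℝ 2 f ∧ range f ⊆ Icc 0 1 ∧ f x = 1) := by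
    intro x
    by_cases hx : x ∈ U
    · obtain ⟨f, h1, h2, h3, h4, h5⟩ := exists_contDiff_tsupport_subset (n := 2) (hU.mem_nhds hx)
      exact ⟨f, fun _ => ⟨h1, h2, h3, h4, h5⟩⟩
    · exact ⟨0, fun h => absurd h hx⟩
  choose f hf using hex
  have hnb : ∀ x ∈ U, {z | 0 < f x z} ∈ nhdsWithin x U := by
    intro x hx
    obtain ⟨h1, h2, h3, h4, h5⟩ := hf x hx
    refine mem_nhdsWithin_of_mem_nhds ((isOpen_lt continuous_const h3.continuous).mem_nhds ?_)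
    show 0 < f x x
    rw [h5]; exact one_pos
  obtain ⟨t, htU, htc, hcov⟩ := TopologicalSpace.countable_cover_nhdsWithin hnb
  have htne : t.Nonempty := by
    obtain ⟨x, hx⟩ := hne
    have := hcov hx
    simp only [mem_iUnion] at this
    obtain ⟨y, hy, _⟩ := this
    exact ⟨y, hy⟩
  obtain ⟨e, he⟩ := htc.exists_eq_range htne
  have heU : ∀ i, e i ∈ U := fun i => htU (he ▸ mem_range_self i)
  refine ⟨fun i => f (e i), fun i => (hf _ (heU i)).2.2.1, fun i => (hf _ (heU i)).2.1,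
    fun i => (hf _ (heU i)).1, fun i z => ((hf _ (heU i)).2.2.2.1 (mem_range_self z)).1, ?_⟩
  intro z hz
  have := hcov hz
  simp only [mem_iUnion] at this
  obtain ⟨y, hy, hy'⟩ := this
  rw [he] at hy
  obtain ⟨i, rfl⟩ := hy
  exact ⟨i, hy'⟩

private theorem bnd (g : ℝ × ℝ → ℝ) (hg : ContDiff ℝ 2 g) (hc : HasCompactSupport g) :
    ∃ B : ℝ, 1 ≤ B ∧ ∀ n : ℕ, n ≤ 2 → ∀ z, ‖iteratedFDeriv ℝ n g z‖ ≤ B := by
  have h : ∀ n : ℕ, n ≤ 2 → ∃ C : ℝ, ∀ z, ‖iteratedFDeriv ℝ n g z‖ ≤ C := by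
    intro n hn
    refine Continuous.bounded_above_of_compact_support ?_ (hc.iteratedFDeriv n)
    exact hg.continuous_iteratedFDeriv (by exact_mod_cast hn)
  obtain ⟨C0, h0⟩ := h 0 (by norm_num)
  obtain ⟨C1, h1⟩ := h 1 (by norm_num)
  obtain ⟨C2, h2⟩ := h 2 le_rfl
  refine ⟨max 1 (max C0 (max C1 C2)), le_max_left _ _, ?_⟩
  intro n hn z
  interval_cases n
  · exact (h0 z).trans ((le_max_left _ _).trans (le_max_right _ _))
  · exact (h1 z).trans ((le_max_left _ _).trans ((le_max_right _ _).trans (le_max_right _ _)))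
  · exact (h2 z).trans ((le_max_right _ _).trans ((le_max_right _ _).trans (le_max_right _ _)))

private theorem build (G : Set (ℝ × ℝ)) (hG : IsClosed G) (μ : ℝ × ℝ → ℝ)
    (hμ : ∀ z, z ∉ G → ∃ ρ : ℝ, 0 < ρ ∧ ∃ m : ℝ, 0 < m ∧ ∀ z' ∈ cb z ρ, m ≤ μ z') :
    ∃ r : ℝ × ℝ → ℝ, ContDiff ℝ 2 r ∧ (∀ z ∈ G, r z = 0) ∧
      ∀ z, z ∉ G → 0 < r z ∧ ∀ n : ℕ, n ≤ 2 → ‖iteratedFDeriv ℝ n r z‖ ≤ μ z / 2 := by
  by_cases hne : (Gᶜ : Set (ℝ × ℝ)).Nonempty
  swap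
  · have hun : ∀ z, z ∈ G := by
      intro z
      by_contra h
      exact hne ⟨z, h⟩
    exact ⟨fun _ => 0, contDiff_const, fun _ _ => rfl, fun z hz => absurd (hun z) hz⟩
  obtain ⟨g, g2, gc, gs, g0, gp⟩ := family Gᶜ hG.isOpen_compl hne
  choose m m0 m1 hm using fun i => low G μ hμ (tsupport (g i)) (gc i) (fun z hz => gs i hz)
  choose B B1 hB using fun i => bnd (g i) (g2 i) (gc i)
  have hBpos : ∀ i, 0 < B i := fun i => lt_of_lt_of_le one_pos (B1 i)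
  set c : ℕ → ℝ := fun i => (1 / 2 : ℝ) ^ (i + 2) * m i / B i with hc
  have cpos : ∀ i, 0 < c i := fun i => div_pos (mul_pos (by positivity) (m0 i)) (hBpos i)
  have hder : ∀ (n : ℕ) (i : ℕ) (z : ℝ × ℝ), n ≤ 2 →
      ‖iteratedFDeriv ℝ n (c i • g i) z‖ = c i * ‖iteratedFDeriv ℝ n (g i) z‖ := by
    intro n i z hn
    rw [iteratedFDeriv_const_smul_apply, norm_smul, Real.norm_of_nonneg (cpos i).le]
    exact ((g2 i).of_le (by exact_mod_cast hn)).contDiffAt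
  have hb1 : ∀ (n : ℕ) (i : ℕ) (z : ℝ × ℝ), n ≤ 2 →
      ‖iteratedFDeriv ℝ n (c i • g i) z‖ ≤ (1 / 2 : ℝ) ^ (i + 2) * m i := by
    intro n i z hn
    rw [hder n i z hn]
    calc c i * ‖iteratedFDeriv ℝ n (g i) z‖ ≤ c i * B i :=
          mul_le_mul_of_nonneg_left (hB i n hn z) (cpos i).le
      _ = (1 / 2 : ℝ) ^ (i + 2) * m i := by
          show (1 / 2 : ℝ) ^ (i + 2) * m i / B i * B i = _
          exact div_mul_cancel₀ _ (hBpos i).ne'
  have hb2 : ∀ (n : ℕ) (i : ℕ) (z : ℝ × ℝ), n ≤ 2 →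
      ‖iteratedFDeriv ℝ n (c i • g i) z‖ ≤ (1 / 2 : ℝ) ^ (i + 2) := by
    intro n i z hn
    refine (hb1 n i z hn).trans ?_
    exact mul_le_of_le_one_right (by positivity) (m1 i)
  have hb3 : ∀ (n : ℕ) (i : ℕ) (z : ℝ × ℝ), n ≤ 2 → z ∉ G →
      ‖iteratedFDeriv ℝ n (c i • g i) z‖ ≤ (1 / 2 : ℝ) ^ (i + 2) * μ z := by
    intro n i z hn hz
    have hμz : 0 ≤ μ z := by
      obtain ⟨ρ, hρ, m', hm', h'⟩ := hμ z hz
      have := h' z (mem_of_mem_nhds (cb_nhds z ρ hρ))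
      exact hm'.le.trans this
    by_cases hzs : z ∈ tsupport (g i)
    · exact (hb1 n i z hn).trans (mul_le_mul_of_nonneg_left (hm i z hzs) (by positivity))
    · rw [hder n i z hn]
      have : iteratedFDeriv ℝ n (g i) z = 0 := by
        by_contra h
        exact hzs (support_iteratedFDeriv_subset n (Function.mem_support.2 h))
      rw [this, norm_zero, mul_zero]
      positivity
  have hsum : HasSum (fun i : ℕ => (1 / 2 : ℝ) ^ (i + 2)) (1 / 2) := by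
    have h := hasSum_geometric_two.mul_right ((1 / 2 : ℝ) ^ 2)
    have e1 : (fun i : ℕ => (1 / 2 : ℝ) ^ (i + 2)) = fun i : ℕ => (1 / 2 : ℝ) ^ i * (1 / 2) ^ 2 := by
      funext i; rw [pow_add]
    rw [e1]
    have e2 : (2 : ℝ) * (1 / 2) ^ 2 = 1 / 2 := by norm_num
    rw [e2] at h
    exact h
  have hf : ∀ i, ContDiff ℝ ((2 : ℕ∞) : WithTop ℕ∞) (c i • g i) := fun i =>
    contDiff_const.smul (g2 i)
  have hv : ∀ k : ℕ, (k : ℕ∞) ≤ 2 → Summable ((fun (_ : ℕ) (i : ℕ) => (1 / 2 : ℝ) ^ (i + 2)) k) :=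
    fun _ _ => hsum.summable
  have h'f : ∀ (k : ℕ) (i : ℕ) (x : ℝ × ℝ), (k : ℕ∞) ≤ 2 →
      ‖iteratedFDeriv ℝ k (c i • g i) x‖ ≤ (fun (_ : ℕ) (i : ℕ) => (1 / 2 : ℝ) ^ (i + 2)) k i :=
    fun k i x hk => hb2 k i x (by exact_mod_cast hk)
  refine ⟨fun z => ∑' i, (c i • g i) z, contDiff_tsum hf hv h'f, ?_, ?_⟩
  · intro z hz
    have : ∀ i, (c i • g i) z = 0 := by
      intro i
      have : g i z = 0 := by
        by_contra h
        exact gs i (subset_tsupport _ (Function.mem_support.2 h)) hz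
      simp [this]
    simp [this]
  · intro z hz
    constructor
    · have hs : Summable fun i => (c i • g i) z := by
        refine Summable.of_norm_bounded hsum.summable (fun i => ?_)
        have := hb2 0 i z (by norm_num)
        rwa [norm_iteratedFDeriv_zero] at this
      obtain ⟨i, hi⟩ := gp z hz
      refine hs.tsum_pos (fun j => ?_) i ?_
      · simp only [Pi.smul_apply, smul_eq_mul]
        exact mul_nonneg (cpos j).le (g0 j z)
      · simp only [Pi.smul_apply, smul_eq_mul]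
        exact mul_pos (cpos i) hi
    · intro n hn
      rw [iteratedFDeriv_tsum_apply hf hv h'f (by exact_mod_cast hn)]
      have hs2 := hsum.mul_right (μ z)
      have := tsum_of_norm_bounded hs2 (fun i => hb3 n i z hn hz)
      calc _ ≤ 1 / 2 * μ z := this
        _ = μ z / 2 := by ring

theorem tiny_radius (G : Set (ℝ × ℝ)) (hG : IsClosed G) (μ : ℝ × ℝ → ℝ)
    (hμ : ∀ z, z ∉ G → ∃ ρ : ℝ, 0 < ρ ∧ ∃ m : ℝ, 0 < m ∧ ∀ z' ∈ cb z ρ, m ≤ μ z') :
    ∃ r : ℝ × ℝ → ℝ, ContDiff ℝ 2 r ∧ (∀ z ∈ G, r z = 0) ∧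
      ∀ z, z ∉ G → 0 < r z ∧ r z ≤ μ z ∧ ∃ ρ : ℝ, 0 < ρ ∧ ∀ v : ℝ × ℝ, sq v ≤ ρ ^ 2 →
        (r (z + v) - r z) ^ 2 ≤ μ z ^ 2 * sq v ∧ |D2 r v z| ≤ μ z * sq v := by
  obtain ⟨r, r2, r0, hr⟩ := build G hG μ hμ
  refine ⟨r, r2, r0, ?_⟩
  intro z hz
  obtain ⟨hpos, hn⟩ := hr z hz
  have h0 := hn 0 (by norm_num)
  have h1 := hn 1 (by norm_num)
  have h2 := hn 2 le_rfl
  rw [norm_iteratedFDeriv_zero, Real.norm_of_nonneg hpos.le] at h0
  rw [norm_iteratedFDeriv_one] at h1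
  have hμz : 0 < μ z := by linarith
  refine ⟨hpos, by linarith, ?_⟩
  obtain ⟨ρ1, hρ1, t1⟩ := tay1 r z r2.contDiffAt (μ z / 4) (by linarith)
  obtain ⟨ρ2, hρ2, t2⟩ := tay2 r z r2.contDiffAt (μ z / 4) (by linarith)
  refine ⟨min ρ1 ρ2, lt_min hρ1 hρ2, ?_⟩
  intro v hv
  have hv1 : sq v ≤ ρ1 ^ 2 := hv.trans (pow_le_pow_left₀ (lt_min hρ1 hρ2).le (min_le_left _ _) 2)
  have hv2 : sq v ≤ ρ2 ^ 2 := hv.trans (pow_le_pow_left₀ (lt_min hρ1 hρ2).le (min_le_right _ _) 2)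
  have a1 := t1 v hv1
  have a2 := t2 v hv2
  have hns := norm_le_sq v
  have hnn : 0 ≤ ‖v‖ := norm_nonneg v
  constructor
  · have b1 : |r (z + v) - r z| ≤ μ z * ‖v‖ := by
      refine a1.trans (mul_le_mul_of_nonneg_right (by linarith) hnn)
    calc (r (z + v) - r z) ^ 2 = |r (z + v) - r z| ^ 2 := (sq_abs _).symm
      _ ≤ (μ z * ‖v‖) ^ 2 := pow_le_pow_left₀ (abs_nonneg _) b1 2
      _ = μ z ^ 2 * ‖v‖ ^ 2 := by ring
      _ ≤ μ z ^ 2 * sq v := mul_le_mul_of_nonneg_left hns (by positivity)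
  · have b2 : |iteratedFDeriv ℝ 2 r z ![v, v]| ≤ μ z / 2 * ‖v‖ ^ 2 := by
      have := (iteratedFDeriv ℝ 2 r z).le_opNorm ![v, v]
      rw [Real.norm_eq_abs] at this
      refine this.trans ?_
      have e : ∏ i : Fin 2, ‖(![v, v] : Fin 2 → ℝ × ℝ) i‖ = ‖v‖ ^ 2 := by
        simp [Fin.prod_univ_two, pow_two]
      rw [e]
      exact mul_le_mul_of_nonneg_right h2 (by positivity)
    have b3 : |D2 r v z| ≤ |D2 r v z - iteratedFDeriv ℝ 2 r z ![v, v]|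
        + |iteratedFDeriv ℝ 2 r z ![v, v]| := by
      have := abs_add_le (D2 r v z - iteratedFDeriv ℝ 2 r z ![v, v]) (iteratedFDeriv ℝ 2 r z ![v, v])
      simpa using this
    have b4 : 0 ≤ μ z * (sq v - ‖v‖ ^ 2) := mul_nonneg hμz.le (by linarith)
    nlinarith [mul_nonneg hμz.le (by positivity : (0 : ℝ) ≤ ‖v‖ ^ 2)]

end Pool.Agent.MP_4eca41.T
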