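import Pool.Agent.Work.MP_4eca41_an.Defs

/-!
# T3: the smooth maximum

`sabs δ s = |s|` for `|s| ≥ δ` and `= δ (3/8 + (3/4) x^2 - (1/8) x^4)`, `x = s/δ`, for `|s| < δ`.
PROOFS.  At `x = ±1` value, first derivative (`δ · (3/2 x - 1/2 x^3)/δ = ±1`) and second derivative
(`(3/2 - 3/2 x^2)/δ = 0`) match those of `|s|`: `sabs δ` is C^2 (write explicit first and second
derivatives: `sabs' s = sign s` for `|s| ≥ δ`, `= 3/2 x - 1/2 x^3` otherwise;
`sabs'' s = 0`, resp. `(3/2)(1 - x^2)/δ`, which is continuous and `≥ 0`), so it is convex with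
`|sabs'| ≤ 1`, i.e. 1-Lipschitz.  `|s| ≤ sabs δ s ≤ |s| + δ/2` (for `|x| ≤ 1`:
`3/8 + 3/4 x^2 - x^4/8 - |x|` decreases in `|x|` from `3/8` to `0`).  `smax` is convex as a function of
the pair: `(a + b)/2` is affine and `sabs δ (a - b)` convex; it is nondecreasing in `a` because
`sabs` is 1-Lipschitz: `smax δ a' b - smax δ a b = (a' - a + sabs (a'-b) - sabs (a-b))/2 ≥ 0`.
-/

set_option autoImplicit false

open Set MeasureTheory

namespace Pool.Agent.MP_4eca41

/-- Smoothed absolute value. -/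
noncomputable def sabs (δ s : ℝ) : ℝ :=
  if δ ≤ |s| then |s| else δ * (3 / 8 + 3 / 4 * (s / δ) ^ 2 - 1 / 8 * (s / δ) ^ 4)

/-- Smooth maximum. -/
noncomputable def smax (δ a b : ℝ) : ℝ := (a + b + sabs δ (a - b)) / 2

private theorem tp_deriv (n : ℕ) (s : ℝ) :
    HasDerivAt (fun s : ℝ => (max 0 s) ^ (n + 2)) (((n + 2 : ℕ) : ℝ) * (max 0 s) ^ (n + 1)) s := by
  rcases lt_trichotomy s 0 with hs | hs | hs
  · have h1 : max 0 s = 0 := max_eq_left hs.le
    rw [h1, zero_pow (Nat.succ_ne_zero n), mul_zero]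
    refine (hasDerivAt_const s (0 : ℝ)).congr_of_eventuallyEq ?_
    filter_upwards [Iio_mem_nhds hs] with x hx
    rw [max_eq_left (le_of_lt hx), zero_pow (Nat.succ_ne_zero (n + 1))]
  · subst hs
    rw [max_self, zero_pow (Nat.succ_ne_zero n), mul_zero, hasDerivAt_iff_isLittleO_nhds_zero]
    simp only [zero_add, smul_zero, sub_zero, max_self, zero_pow (Nat.succ_ne_zero (n + 1))]
    rw [Asymptotics.isLittleO_iff]
    intro c hc
    have hc1 : 0 < min c 1 := lt_min hc one_pos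
    filter_upwards [Metric.ball_mem_nhds (0 : ℝ) hc1] with x hx
    rw [Metric.mem_ball, dist_zero_right, Real.norm_eq_abs] at hx
    have hx1 : |x| < c := hx.trans_le (min_le_left _ _)
    have hx2 : |x| < 1 := hx.trans_le (min_le_right _ _)
    have h2 : 0 ≤ max 0 x := le_max_left _ _
    have h3 : max 0 x ≤ |x| := max_le (abs_nonneg x) (le_abs_self x)
    rw [Real.norm_eq_abs, Real.norm_eq_abs, abs_of_nonneg (pow_nonneg h2 _)]
    calc (max 0 x) ^ (n + 2) ≤ |x| ^ (n + 2) := pow_le_pow_left₀ h2 h3 _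
      _ = |x| ^ n * (|x| * |x|) := by ring
      _ ≤ 1 * (c * |x|) := by
          refine mul_le_mul (pow_le_one₀ (abs_nonneg x) hx2.le) ?_ (by positivity) zero_le_one
          exact mul_le_mul_of_nonneg_right hx1.le (abs_nonneg x)
      _ = c * |x| := one_mul _
  · have h1 : max 0 s = s := max_eq_right hs.le
    rw [h1]
    have h2 := hasDerivAt_pow (n + 2) s
    refine h2.congr_of_eventuallyEq ?_
    filter_upwards [Ioi_mem_nhds hs] with x hx
    rw [max_eq_right (le_of_lt hx)]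

private noncomputable def tz (δ c s : ℝ) : ℝ := max 0 ((s + c) / δ)

private theorem tz_deriv (δ c : ℝ) (n : ℕ) (s : ℝ) :
    HasDerivAt (fun s : ℝ => tz δ c s ^ (n + 2))
      (((n + 2 : ℕ) : ℝ) * tz δ c s ^ (n + 1) * (1 / δ)) s := by
  have h1 : HasDerivAt (fun s : ℝ => (s + c) / δ) (1 / δ) s :=
    ((hasDerivAt_id s).add_const c).div_const δ
  exact (tp_deriv n ((s + c) / δ)).comp s h1

private theorem tz_cont (δ c : ℝ) : Continuous (tz δ c) := by
  unfold tz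
  exact continuous_const.max ((continuous_id.add continuous_const).div_const δ)

private theorem tz_cd1 (δ c : ℝ) (n : ℕ) : ContDiff ℝ 1 fun s : ℝ => tz δ c s ^ (n + 2) := by
  rw [contDiff_one_iff_deriv]
  refine ⟨fun s => (tz_deriv δ c n s).differentiableAt, ?_⟩
  have h1 : deriv (fun s : ℝ => tz δ c s ^ (n + 2)) =
      fun s => ((n + 2 : ℕ) : ℝ) * tz δ c s ^ (n + 1) * (1 / δ) :=
    funext fun s => (tz_deriv δ c n s).deriv
  rw [h1]
  exact (continuous_const.mul ((tz_cont δ c).pow _)).mul continuous_const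

private theorem tz_cd2 (δ c : ℝ) (n : ℕ) : ContDiff ℝ 2 fun s : ℝ => tz δ c s ^ (n + 3) := by
  have e : (2 : WithTop ℕ∞) = 1 + 1 := by norm_num
  rw [e, contDiff_succ_iff_deriv]
  refine ⟨fun s => (tz_deriv δ c (n + 1) s).differentiableAt, by simp, ?_⟩
  have h1 : deriv (fun s : ℝ => tz δ c s ^ (n + 3)) =
      fun s => ((n + 1 + 2 : ℕ) : ℝ) * tz δ c s ^ (n + 2) * (1 / δ) :=
    funext fun s => (tz_deriv δ c (n + 1) s).deriv
  rw [h1]
  exact (contDiff_const.mul (tz_cd1 δ c n)).mul contDiff_const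

private theorem sabs_eq (δ : ℝ) (hδ : 0 < δ) (s : ℝ) :
    sabs δ s = -s + δ * (tz δ δ s ^ 3 / 2 - tz δ δ s ^ 4 / 8) +
      δ * (tz δ (-δ) s ^ 3 / 2 + tz δ (-δ) s ^ 4 / 8) := by
  have hd : δ ≠ 0 := hδ.ne'
  unfold sabs tz
  split_ifs with h
  · rcases le_abs.1 h with h1 | h1
    · have e1 : max 0 ((s + δ) / δ) = (s + δ) / δ := max_eq_right (div_nonneg (by linarith) hδ.le)
      have e2 : max 0 ((s + -δ) / δ) = (s + -δ) / δ := max_eq_right (div_nonneg (by linarith) hδ.le)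
      rw [e1, e2, abs_of_nonneg (by linarith)]
      field_simp
      ring
    · have e1 : max 0 ((s + δ) / δ) = 0 :=
        max_eq_left (div_nonpos_of_nonpos_of_nonneg (by linarith) hδ.le)
      have e2 : max 0 ((s + -δ) / δ) = 0 :=
        max_eq_left (div_nonpos_of_nonpos_of_nonneg (by linarith) hδ.le)
      rw [e1, e2, abs_of_nonpos (by linarith)]
      ring
  · rw [not_le] at h
    have h1 := abs_lt.1 h
    have e1 : max 0 ((s + δ) / δ) = (s + δ) / δ := max_eq_right (div_nonneg (by linarith) hδ.le)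
    have e2 : max 0 ((s + -δ) / δ) = 0 :=
      max_eq_left (div_nonpos_of_nonpos_of_nonneg (by linarith) hδ.le)
    rw [e1, e2]
    field_simp
    ring

private noncomputable def sg (δ s : ℝ) : ℝ :=
  -1 + (3 / 2 * tz δ δ s ^ 2 - tz δ δ s ^ 3 / 2) + (3 / 2 * tz δ (-δ) s ^ 2 + tz δ (-δ) s ^ 3 / 2)

private noncomputable def sh2 (δ s : ℝ) : ℝ :=
  (3 * tz δ δ s - 3 / 2 * tz δ δ s ^ 2 + (3 * tz δ (-δ) s + 3 / 2 * tz δ (-δ) s ^ 2)) * (1 / δ)

private theorem sabs_fun (δ : ℝ) (hδ : 0 < δ) :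
    sabs δ = fun s => -s + δ * (tz δ δ s ^ 3 / 2 - tz δ δ s ^ 4 / 8) +
      δ * (tz δ (-δ) s ^ 3 / 2 + tz δ (-δ) s ^ 4 / 8) :=
  funext fun s => sabs_eq δ hδ s

private theorem sabs_deriv (δ : ℝ) (hδ : 0 < δ) (s : ℝ) : HasDerivAt (sabs δ) (sg δ s) s := by
  have hd : δ ≠ 0 := hδ.ne'
  rw [sabs_fun δ hδ]
  have h1 := ((hasDerivAt_id s).neg.add
    ((((tz_deriv δ δ 1 s).div_const 2).sub ((tz_deriv δ δ 2 s).div_const 8)).const_mul δ)).add
    ((((tz_deriv δ (-δ) 1 s).div_const 2).add ((tz_deriv δ (-δ) 2 s).div_const 8)).const_mul δ)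
  convert! h1 using 1
  unfold sg
  push_cast
  field_simp
  ring

private theorem sg_deriv (δ s : ℝ) (hδ : 0 < δ) : HasDerivAt (sg δ) (sh2 δ s) s := by
  have hd : δ ≠ 0 := hδ.ne'
  have h1 := ((hasDerivAt_const s (-1 : ℝ)).add
    (((tz_deriv δ δ 0 s).const_mul (3 / 2)).sub ((tz_deriv δ δ 1 s).div_const 2))).add
    (((tz_deriv δ (-δ) 0 s).const_mul (3 / 2)).add ((tz_deriv δ (-δ) 1 s).div_const 2))
  convert! h1 using 1
  unfold sh2
  push_cast
  field_simp
  ring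

private theorem sh2_bd (δ s : ℝ) (hδ : 0 < δ) : 0 ≤ sh2 δ s ∧ sh2 δ s ≤ 3 / (2 * δ) := by
  have hd : δ ≠ 0 := hδ.ne'
  have hb : (3 : ℝ) / (2 * δ) = 3 / 2 * (1 / δ) := by field_simp
  rw [hb]
  have hp : 0 < 1 / δ := by positivity
  have key : 0 ≤ (3 * tz δ δ s - 3 / 2 * tz δ δ s ^ 2 +
      (3 * tz δ (-δ) s + 3 / 2 * tz δ (-δ) s ^ 2)) ∧
      (3 * tz δ δ s - 3 / 2 * tz δ δ s ^ 2 +
      (3 * tz δ (-δ) s + 3 / 2 * tz δ (-δ) s ^ 2)) ≤ 3 / 2 := by
    have e0 : (s + -δ) / δ = (s + δ) / δ - 2 := by field_simp; ring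
    unfold tz
    rw [e0]
    obtain ⟨z, hz⟩ : ∃ z, z = (s + δ) / δ := ⟨_, rfl⟩
    rw [← hz]
    rcases le_total z 0 with h1 | h1
    · rw [max_eq_left h1, max_eq_left (by linarith : z - 2 ≤ 0)]
      constructor <;> norm_num
    · rcases le_total z 2 with h2 | h2
      · rw [max_eq_right h1, max_eq_left (by linarith : z - 2 ≤ 0)]
        constructor <;> nlinarith [sq_nonneg (z - 1)]
      · rw [max_eq_right h1, max_eq_right (by linarith : 0 ≤ z - 2)]
        constructor <;> nlinarith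
  exact ⟨mul_nonneg key.1 hp.le, mul_le_mul_of_nonneg_right key.2 hp.le⟩

private theorem sg_bd (δ s : ℝ) (hδ : 0 < δ) : |sg δ s| ≤ 1 := by
  have hd : δ ≠ 0 := hδ.ne'
  have e0 : (s + -δ) / δ = (s + δ) / δ - 2 := by field_simp; ring
  unfold sg tz
  rw [e0]
  obtain ⟨z, hz⟩ : ∃ z, z = (s + δ) / δ := ⟨_, rfl⟩
  rw [← hz, abs_le]
  rcases le_total z 0 with h1 | h1
  · rw [max_eq_left h1, max_eq_left (by linarith : z - 2 ≤ 0)]
    constructor <;> norm_num
  · rcases le_total z 2 with h2 | h2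
    · rw [max_eq_right h1, max_eq_left (by linarith : z - 2 ≤ 0)]
      constructor
      · nlinarith [mul_nonneg (mul_nonneg h1 h1) (by linarith : 0 ≤ 3 - z)]
      · nlinarith [mul_nonneg (mul_self_nonneg (z - 2)) (by linarith : 0 ≤ z + 1)]
    · rw [max_eq_right h1, max_eq_right (by linarith : 0 ≤ z - 2)]
      constructor
      · nlinarith
      · nlinarith

private theorem sabs_ge (δ : ℝ) (hδ : 0 < δ) (s : ℝ) : |s| ≤ sabs δ s ∧ sabs δ s ≤ |s| + δ / 2 := by
  unfold sabs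
  split_ifs with h
  · exact ⟨le_rfl, by linarith⟩
  · rw [not_le] at h
    obtain ⟨x, hx⟩ : ∃ x, x = |s| / δ := ⟨_, rfl⟩
    have hx0 : 0 ≤ x := by rw [hx]; positivity
    have hx1 : x ≤ 1 := by rw [hx, div_le_one hδ]; exact h.le
    have hs : |s| = δ * x := by rw [hx]; field_simp
    have e2 : (s / δ) ^ 2 = x ^ 2 := by rw [hx, div_pow, div_pow, sq_abs]
    have e4 : (s / δ) ^ 4 = x ^ 4 := by
      have : (s / δ) ^ 4 = ((s / δ) ^ 2) ^ 2 := by ring
      rw [this, e2]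
      ring
    rw [e2, e4, hs]
    have h3 : 0 ≤ (1 - x) ^ 3 * (x + 3) := by
      have : 0 ≤ 1 - x := by linarith
      positivity
    have h4 : (1 - x) ^ 3 * (x + 3) ≤ 1 * 4 := by
      refine mul_le_mul (pow_le_one₀ (by linarith) (by linarith)) (by linarith) (by linarith)
        zero_le_one
    constructor
    · nlinarith [mul_nonneg hδ.le h3]
    · nlinarith [mul_le_mul_of_nonneg_left h4 hδ.le]

private theorem max_half (a b : ℝ) : max a b = (a + b + |a - b|) / 2 := by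
  rcases le_total a b with h | h
  · rw [max_eq_right h, abs_of_nonpos (by linarith)]
    ring
  · rw [max_eq_left h, abs_of_nonneg (by linarith)]
    ring

theorem sabs_contDiff (δ : ℝ) (hδ : 0 < δ) : ContDiff ℝ 2 (sabs δ) := by
  rw [sabs_fun δ hδ]
  exact (contDiff_id.neg.add (contDiff_const.mul
    (((tz_cd2 δ δ 0).div_const 2).sub ((tz_cd2 δ δ 1).div_const 8)))).add
    (contDiff_const.mul (((tz_cd2 δ (-δ) 0).div_const 2).add ((tz_cd2 δ (-δ) 1).div_const 8)))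

theorem sabs_convex (δ : ℝ) (hδ : 0 < δ) : ConvexOn ℝ univ (sabs δ) := by
  have hd : deriv (sabs δ) = sg δ := funext fun s => (sabs_deriv δ hδ s).deriv
  have hd2 : deriv (sg δ) = sh2 δ := funext fun s => (sg_deriv δ s hδ).deriv
  refine Monotone.convexOn_univ_of_deriv (fun s => (sabs_deriv δ hδ s).differentiableAt) ?_
  rw [hd]
  refine monotone_of_deriv_nonneg (fun s => (sg_deriv δ s hδ).differentiableAt) fun s => ?_
  rw [hd2]
  exact (sh2_bd δ s hδ).1

theorem sabs_lip (δ : ℝ) (hδ : 0 < δ) (s s' : ℝ) : |sabs δ s - sabs δ s'| ≤ |s - s'| := by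
  have h1 := Convex.norm_image_sub_le_of_norm_deriv_le (𝕜 := ℝ) (f := sabs δ) (C := 1)
    (s := univ) (x := s') (y := s) (fun x _ => (sabs_deriv δ hδ x).differentiableAt)
    (fun x _ => by
      rw [(sabs_deriv δ hδ x).deriv, Real.norm_eq_abs]
      exact sg_bd δ x hδ) convex_univ (mem_univ _) (mem_univ _)
  rw [one_mul, Real.norm_eq_abs, Real.norm_eq_abs] at h1
  exact h1

theorem sabs_d2 (δ : ℝ) (hδ : 0 < δ) (s h : ℝ) : d2 (sabs δ) h s ≤ 3 / (2 * δ) * h ^ 2 := by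
  obtain ⟨M, hM⟩ : ∃ M : ℝ, M = 3 / (2 * δ) := ⟨_, rfl⟩
  rw [← hM]
  have h1 : ∀ x : ℝ, HasDerivAt (fun x => M / 2 * x ^ 2 - sabs δ x) (M * x - sg δ x) x := by
    intro x
    have h2 := ((hasDerivAt_pow 2 x).const_mul (M / 2)).sub (sabs_deriv δ hδ x)
    convert! h2 using 1
    norm_num
    ring
  have h3 : ∀ x : ℝ, HasDerivAt (fun x => M * x - sg δ x) (M - sh2 δ x) x := by
    intro x
    have h2 := ((hasDerivAt_id x).const_mul M).sub (sg_deriv δ x hδ)
    convert! h2 using 1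
    ring
  have hd : deriv (fun x => M / 2 * x ^ 2 - sabs δ x) = fun x => M * x - sg δ x :=
    funext fun x => (h1 x).deriv
  have hc : ConvexOn ℝ univ (fun x => M / 2 * x ^ 2 - sabs δ x) := by
    refine Monotone.convexOn_univ_of_deriv (fun x => (h1 x).differentiableAt) ?_
    rw [hd]
    refine monotone_of_deriv_nonneg (fun x => (h3 x).differentiableAt) fun x => ?_
    rw [(h3 x).deriv]
    have := (sh2_bd δ x hδ).2
    rw [← hM] at this
    linarith
  have h4 := hc.2 (mem_univ (s + h)) (mem_univ (s - h)) (by norm_num : (0 : ℝ) ≤ 1 / 2)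
    (by norm_num : (0 : ℝ) ≤ 1 / 2) (by norm_num)
  have e : (1 / 2 : ℝ) • (s + h) + (1 / 2 : ℝ) • (s - h) = s := by
    simp only [smul_eq_mul]
    ring
  rw [e] at h4
  simp only [smul_eq_mul] at h4
  unfold d2
  nlinarith

theorem smax_contDiff (δ : ℝ) (hδ : 0 < δ) : ContDiff ℝ 2 fun z : ℝ × ℝ => smax δ z.1 z.2 := by
  unfold smax
  exact ((contDiff_fst.add contDiff_snd).add
    ((sabs_contDiff δ hδ).comp (contDiff_fst.sub contDiff_snd))).div_const 2

theorem smax_mono (δ : ℝ) (hδ : 0 < δ) {a a' b b' : ℝ} (ha : a ≤ a') (hb : b ≤ b') :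
    smax δ a b ≤ smax δ a' b' := by
  have h1 := sabs_lip δ hδ (a' - b') (a - b)
  have h2 : |(a' - b') - (a - b)| ≤ (a' - a) + (b' - b) := by
    rw [abs_le]
    constructor <;> linarith
  have h3 := (abs_le.1 (h1.trans h2)).1
  unfold smax
  linarith

theorem le_smax (δ : ℝ) (hδ : 0 < δ) (a b : ℝ) : max a b ≤ smax δ a b := by
  rw [max_half]
  have := (sabs_ge δ hδ (a - b)).1
  unfold smax
  linarith

theorem smax_le (δ : ℝ) (hδ : 0 < δ) (a b : ℝ) : smax δ a b ≤ max a b + δ / 4 := by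
  rw [max_half]
  have := (sabs_ge δ hδ (a - b)).2
  unfold smax
  linarith

theorem smax_eq (δ : ℝ) (hδ : 0 < δ) (a b : ℝ) (h : δ ≤ |a - b|) : smax δ a b = max a b := by
  rw [max_half, smax, sabs, if_pos h]

theorem smax_convexOn {E : Type*} [AddCommGroup E] [Module ℝ E] (δ : ℝ) (hδ : 0 < δ) (s : Set E)
    (u v : E → ℝ) (hu : ConvexOn ℝ s u) (hv : ConvexOn ℝ s v) :
    ConvexOn ℝ s fun z => smax δ (u z) (v z) := by
  refine ⟨hu.1, fun x hx y hy α β hα hβ hαβ => ?_⟩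
  have h1 := hu.2 hx hy hα hβ hαβ
  have h2 := hv.2 hx hy hα hβ hαβ
  refine (smax_mono δ hδ h1 h2).trans ?_
  have h3 := (sabs_convex δ hδ).2 (mem_univ (u x - v x)) (mem_univ (u y - v y)) hα hβ hαβ
  simp only [smul_eq_mul] at h3 ⊢
  have e : α * u x + β * u y - (α * v x + β * v y) = α * (u x - v x) + β * (u y - v y) := by ring
  unfold smax
  rw [e]
  nlinarith

end Pool.Agent.MP_4eca41
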