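import Pool.Agent.Work.MP_4eca41_an.T.Ker2

/-!
# T6 (dimension 2): smoothness of the mollification with variable radius

STATEMENTS FIXED (helper49).

PROOF.  `mol2_contDiffOn`: local question; let `z0 ∈ U`, `U' = {z ∈ U | r z < r z0 + 1} ` intersected with a small ball: open, contains `z0`.  For `z ∈ U'` substitute
`y = z + r z • s` (`MeasureTheory.Measure.integral_comp_smul` / `addHaar` scaling in dimension two, and translation; `phi2` even):
`mol2 g r z = ∫ y, g y * ((r z ^ 2)⁻¹ * phi2 ((r z)⁻¹ • (z - y)))`, i.e. `mol2 g r z = (g ⋆ k z) z` with `k z x = (r z ^ 2)⁻¹ * phi2 ((r z)⁻¹ • x)`.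
`k` is `C^2` on `U' ×ˢ univ` (`r` is `C^2` and positive), `k z x = 0` for `x` outside of the compact ball of radius `r z0 + 1`: use
`MeasureTheory.contDiffOn_convolution_right_with_param_comp` (with `L = ContinuousLinearMap.lsmul ℝ ℝ` or `mul`, `v = id`, `n = 2`), `g` locally integrable.
`mol2_continuous`: `MeasureTheory.continuous_of_dominated` locally, or `continuous_parametric_integral_of_continuous` on the compact set `closedBall 0 1` (the support of
`phi2`): `(z, s) ↦ g (z + r z • s) * phi2 s` is continuous.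
-/

set_option autoImplicit false

open Set MeasureTheory

namespace Pool.Agent.MP_4eca41.T

private theorem phi2_zero_norm (s : ℝ × ℝ) (h : 1 / 2 ≤ ‖s‖) : phi2 s = 0 := by
  apply phi2_zero
  rw [Prod.norm_def, le_max_iff] at h
  simpa [Real.norm_eq_abs] using h

private theorem mol2_eq (g r : ℝ × ℝ → ℝ) (z : ℝ × ℝ) (hz : 0 < r z) :
    mol2 g r z = ∫ y : ℝ × ℝ, g y * ((r z ^ 2)⁻¹ * phi2 ((r z)⁻¹ • (z - y))) := by
  have h1 := MeasureTheory.Measure.integral_comp_smul (volume : Measure (ℝ × ℝ))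
    (fun x : ℝ × ℝ => g (z + x) * phi2 ((r z)⁻¹ • x)) (r z)
  have h2 : Module.finrank ℝ (ℝ × ℝ) = 2 := by simp
  have h3 : (fun x : ℝ × ℝ => g (z + r z • x) * phi2 ((r z)⁻¹ • (r z • x))) =
      fun x => g (z + r z • x) * phi2 x := by
    funext x
    rw [smul_smul, inv_mul_cancel₀ hz.ne', one_smul]
  rw [h3, h2] at h1
  have h4 := integral_add_left_eq_self (μ := (volume : Measure (ℝ × ℝ)))
    (fun y : ℝ × ℝ => g y * phi2 ((r z)⁻¹ • (y - z))) z
  simp only [add_sub_cancel_left] at h4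
  have h5 : |(r z ^ 2)⁻¹| = (r z ^ 2)⁻¹ := abs_of_pos (by positivity)
  unfold mol2
  rw [h1, h4, h5, smul_eq_mul, ← integral_const_mul]
  congr 1
  funext y
  have h6 : phi2 ((r z)⁻¹ • (y - z)) = phi2 ((r z)⁻¹ • (z - y)) := by
    rw [← phi2_neg, ← smul_neg, neg_sub]
  rw [h6]
  ring

theorem mol2_contDiffOn (g r : ℝ × ℝ → ℝ) (hg : Continuous g) (U : Set (ℝ × ℝ)) (hU : IsOpen U)
    (hr : ContDiffOn ℝ 2 r U) (hp : ∀ z ∈ U, 0 < r z) : ContDiffOn ℝ 2 (mol2 g r) U := by
  intro z0 hz0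
  set U' : Set (ℝ × ℝ) := U ∩ r ⁻¹' Iio (r z0 + 1) with hU'
  have hUo : IsOpen U' := hr.continuousOn.isOpen_inter_preimage hU isOpen_Iio
  have hz' : z0 ∈ U' := ⟨hz0, by simp⟩
  have key : ContDiffOn ℝ ((2 : ℕ∞) : WithTop ℕ∞)
      (fun z : ℝ × ℝ => (convolution g ((fun z x => (r z ^ 2)⁻¹ * phi2 ((r z)⁻¹ • x)) z)
        (ContinuousLinearMap.mul ℝ ℝ) volume) (id z)) U' := by
    refine contDiffOn_convolution_right_with_param_comp (n := 2) (ContinuousLinearMap.mul ℝ ℝ)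
      (k := Metric.closedBall 0 (r z0 + 1)) contDiff_id.contDiffOn hUo
      (isCompact_closedBall _ _) ?_ hg.locallyIntegrable ?_
    · intro z x hz hx
      have h1 := hp z hz.1
      have h2 : r z < r z0 + 1 := hz.2
      rw [Metric.mem_closedBall, dist_zero_right, not_le] at hx
      have h3 : 1 / 2 ≤ ‖(r z)⁻¹ • x‖ := by
        rw [norm_smul, norm_inv, Real.norm_eq_abs, abs_of_pos h1]
        have h4 : 1 ≤ (r z)⁻¹ * ‖x‖ := by
          rw [inv_mul_eq_div, one_le_div h1]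
          linarith
        linarith
      show (r z ^ 2)⁻¹ * phi2 ((r z)⁻¹ • x) = 0
      rw [phi2_zero_norm _ h3, mul_zero]
    · have h1 : ContDiffOn ℝ ((2 : ℕ∞) : WithTop ℕ∞) (fun p : (ℝ × ℝ) × (ℝ × ℝ) => r p.1)
          (U' ×ˢ univ) := by
        have h2 : ContDiffOn ℝ ((2 : ℕ∞) : WithTop ℕ∞) r U' := (hr.mono inter_subset_left).of_le
          (by norm_cast)
        exact h2.comp contDiffOn_fst fun p hp' => hp'.1
      have h0 : ∀ p ∈ U' ×ˢ (univ : Set (ℝ × ℝ)), r p.1 ≠ 0 := fun p hp' =>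
        (hp p.1 hp'.1.1).ne'
      have h3 : ContDiffOn ℝ ((2 : ℕ∞) : WithTop ℕ∞) (fun p : (ℝ × ℝ) × (ℝ × ℝ) => (r p.1 ^ 2)⁻¹)
          (U' ×ˢ univ) := (h1.pow 2).inv fun p hp' => pow_ne_zero 2 (h0 p hp')
      have h4 : ContDiffOn ℝ ((2 : ℕ∞) : WithTop ℕ∞)
          (fun p : (ℝ × ℝ) × (ℝ × ℝ) => (r p.1)⁻¹ • p.2) (U' ×ˢ univ) :=
        (h1.inv h0).smul contDiffOn_snd
      have h5 : ContDiff ℝ ((2 : ℕ∞) : WithTop ℕ∞) phi2 := phi2_contDiff.of_le (by norm_cast)
      exact h3.mul (h5.comp_contDiffOn h4)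
  have h1 : ContDiffOn ℝ 2 (mol2 g r) U' := by
    have h2 : ContDiffOn ℝ 2 (fun z : ℝ × ℝ =>
        (convolution g ((fun z x => (r z ^ 2)⁻¹ * phi2 ((r z)⁻¹ • x)) z)
        (ContinuousLinearMap.mul ℝ ℝ) volume) (id z)) U' := key.of_le (by norm_cast)
    refine h2.congr fun z hz => ?_
    rw [mol2_eq g r z (hp z hz.1)]
    rfl
  exact (h1.contDiffAt (hUo.mem_nhds hz')).contDiffWithinAt

/-- Continuity of the mollification when the radius is allowed to vanish. -/
theorem mol2_continuous (g r : ℝ × ℝ → ℝ) (hg : Continuous g) (hr : Continuous r) :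
    Continuous (mol2 g r) := by
  have h1 : mol2 g r = fun z => ∫ s in Metric.closedBall (0 : ℝ × ℝ) 1,
      (fun (z s : ℝ × ℝ) => g (z + r z • s) * phi2 s) z s := by
    funext z
    refine (setIntegral_eq_integral_of_forall_compl_eq_zero fun s hs => ?_).symm
    rw [Metric.mem_closedBall, dist_zero_right, not_le] at hs
    show g (z + r z • s) * phi2 s = 0
    rw [phi2_zero_norm s (by linarith), mul_zero]
  rw [h1]
  refine continuous_parametric_integral_of_continuous ?_ (isCompact_closedBall _ _)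
  have h2 : Continuous phi2 := phi2_contDiff.continuous
  show Continuous fun p : (ℝ × ℝ) × (ℝ × ℝ) => g (p.1 + r p.1 • p.2) * phi2 p.2
  fun_prop

end Pool.Agent.MP_4eca41.T
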