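import Pool.Agent.Work.MP_4eca41_an.Defs

/-!
# T4 for the set `{0}` on the line: radius function with prescribed slow slope

PROOF.  Let `χ : ℝ → ℝ` be smooth, even, `0 ≤ χ ≤ 1`, `χ = 0` on `|x| ≤ 1/2`, `χ = 1` on `|x| ≥ 1` (e.g.
`χ x = Real.smoothTransition (4 (x^2 - 1/4) / 3)`; it is constant off the compact set
`1/2 ≤ |x| ≤ 1`, so `χ'`, `χ''` are bounded, say by `C`; note they vanish for `|x| ≥ 1` and `|x| ≤ 1/2`).
`ρ x = ∑' j, e j 2^(-j) χ (2^j x)`.  The series converges uniformly (`e j ≤ 1`), `ρ 0 = 0`.  For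
`2^(-k-1) ≤ |x| ≤ 2^(-k)`: `χ (2^j x) = 1` for `j ≥ k+1`, `= 0` for `j ≤ k-1`, so
`ρ x = e k 2^(-k) χ (2^k x) + ∑_{j ≥ k+1} e j 2^(-j)`; hence `ρ x ≥ e (k+1) 2^(-k-1) ≥ e (k+1) |x|/2`,
`ρ x ≤ 2 e k 2^(-k) ≤ 4 e k |x|`.  Near every `x ≠ 0` the function is a constant plus finitely many
smooth terms, so it is smooth there, and at `x` with `2^(-k-1) ≤ |x| ≤ 2^(-k)` only the term `j = k`
has nonzero derivatives: `|ρ'| ≤ e k C`, `|ρ''| ≤ e k 2^k C`, `|x| ≤ 2^(-k)`.  For `|x| ≥ 1` all `χ (2^j x) = 1`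
(also near, for `|x| > 1`; at `|x| = 1` the derivatives of `χ` vanish):
`ρ = ∑ e j 2^(-j)`, between `e 0` and `2 e 0`.
-/

set_option autoImplicit false

open Set MeasureTheory

namespace Pool.Agent.MP_4eca41

private theorem t4_chi : ∃ (χ χ1 χ2 : ℝ → ℝ) (C : ℝ), 1 ≤ C ∧ Continuous χ ∧ Continuous χ1 ∧
    Continuous χ2 ∧ (∀ x, HasDerivAt χ (χ1 x) x) ∧ (∀ x, HasDerivAt χ1 (χ2 x) x) ∧
    (∀ x, 0 ≤ χ x ∧ χ x ≤ 1) ∧
    (∀ x, |x| ≤ 1 / 2 → χ x = 0 ∧ χ1 x = 0 ∧ χ2 x = 0) ∧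
    (∀ x, 1 ≤ |x| → χ x = 1 ∧ χ1 x = 0 ∧ χ2 x = 0) ∧ (∀ x, |χ1 x| ≤ C ∧ |χ2 x| ≤ C) := by
  set χ : ℝ → ℝ := fun x => Real.smoothTransition (4 * x ^ 2 - 2) with hχ
  have hs : ContDiff ℝ (⊤ : ℕ∞) χ := by
    rw [hχ]
    exact Real.smoothTransition.contDiff.comp (by fun_prop)
  have hs1 : ContDiff ℝ (⊤ : ℕ∞) (deriv χ) := ContDiff.iterate_deriv 1 hs
  have hs2 : ContDiff ℝ (⊤ : ℕ∞) (deriv (deriv χ)) := ContDiff.iterate_deriv 2 hs
  have d0 : ∀ x, HasDerivAt χ (deriv χ x) x := fun x =>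
    (hs.differentiable (by simp) x).hasDerivAt
  have d1 : ∀ x, HasDerivAt (deriv χ) (deriv (deriv χ) x) x := fun x =>
    (hs1.differentiable (by simp) x).hasDerivAt
  have z0 : ∀ x : ℝ, |x| < 7 / 10 → χ x = 0 := by
    intro x hx
    apply Real.smoothTransition.zero_of_nonpos
    have : x ^ 2 = |x| ^ 2 := (sq_abs x).symm
    have h0 := abs_nonneg x
    nlinarith
  have z1 : ∀ x : ℝ, 9 / 10 < |x| → χ x = 1 := by
    intro x hx
    apply Real.smoothTransition.one_of_one_le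
    have : x ^ 2 = |x| ^ 2 := (sq_abs x).symm
    nlinarith
  have e0 : ∀ x : ℝ, |x| ≤ 1 / 2 → χ =ᶠ[nhds x] fun _ => (0 : ℝ) := by
    intro x hx
    have ho : IsOpen {y : ℝ | |y| < 7 / 10} := isOpen_lt continuous_abs continuous_const
    filter_upwards [ho.mem_nhds (show |x| < 7 / 10 by linarith)] with y hy
    exact z0 y hy
  have e1 : ∀ x : ℝ, 1 ≤ |x| → χ =ᶠ[nhds x] fun _ => (1 : ℝ) := by
    intro x hx
    have ho : IsOpen {y : ℝ | 9 / 10 < |y|} := isOpen_lt continuous_const continuous_abs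
    filter_upwards [ho.mem_nhds (show 9 / 10 < |x| by linarith)] with y hy
    exact z1 y hy
  have k0 : ∀ x : ℝ, |x| ≤ 1 / 2 → χ x = 0 ∧ deriv χ x = 0 ∧ deriv (deriv χ) x = 0 := by
    intro x hx
    refine ⟨z0 x (by linarith), ?_, ?_⟩
    · rw [(e0 x hx).deriv_eq]; simp
    · rw [(e0 x hx).deriv.deriv_eq]; simp
  have k1 : ∀ x : ℝ, 1 ≤ |x| → χ x = 1 ∧ deriv χ x = 0 ∧ deriv (deriv χ) x = 0 := by
    intro x hx
    refine ⟨z1 x (by linarith), ?_, ?_⟩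
    · rw [(e1 x hx).deriv_eq]; simp
    · rw [(e1 x hx).deriv.deriv_eq]; simp
  obtain ⟨C1, hC1⟩ := (isCompact_Icc (a := (-1 : ℝ)) (b := 1)).exists_bound_of_continuousOn
    hs1.continuous.continuousOn
  obtain ⟨C2, hC2⟩ := (isCompact_Icc (a := (-1 : ℝ)) (b := 1)).exists_bound_of_continuousOn
    hs2.continuous.continuousOn
  refine ⟨χ, deriv χ, deriv (deriv χ), max 1 (max C1 C2), le_max_left _ _, hs.continuous,
    hs1.continuous, hs2.continuous, d0, d1,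
    fun x => ⟨Real.smoothTransition.nonneg _, Real.smoothTransition.le_one _⟩, k0, k1, ?_⟩
  intro x
  rcases le_total |x| 1 with hx | hx
  · have hx' : x ∈ Icc (-1 : ℝ) 1 := abs_le.1 hx
    have h1 := hC1 x hx'
    have h2 := hC2 x hx'
    rw [Real.norm_eq_abs] at h1 h2
    exact ⟨h1.trans ((le_max_left _ _).trans (le_max_right _ _)),
      h2.trans ((le_max_right _ _).trans (le_max_right _ _))⟩
  · obtain ⟨-, h1, h2⟩ := k1 x hx
    rw [h1, h2, abs_zero]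
    have : (0 : ℝ) ≤ max 1 (max C1 C2) := le_trans zero_le_one (le_max_left _ _)
    exact ⟨this, this⟩

private theorem t4_scale (x : ℝ) (j : ℕ) : |2 ^ j * x| = 2 ^ j * |x| := by
  rw [abs_mul, abs_of_pos (by positivity)]

theorem t4_zero : ∃ C : ℝ, 1 ≤ C ∧ ∀ e : ℕ → ℝ, Antitone e → (∀ k, 0 < e k) → e 0 ≤ 1 →
    ∃ ρ ρ1 ρ2 : ℝ → ℝ, Continuous ρ ∧ ρ 0 = 0 ∧
      (∀ x, x ≠ 0 → 0 < ρ x ∧ HasDerivAt ρ (ρ1 x) x ∧ HasDerivAt ρ1 (ρ2 x) x) ∧
      ContinuousOn ρ2 {0}ᶜ ∧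
      (∀ (x : ℝ) (k : ℕ), (1 / 2 : ℝ) ^ (k + 1) ≤ |x| → |x| ≤ (1 / 2 : ℝ) ^ k →
        e (k + 1) / 2 * |x| ≤ ρ x ∧ ρ x ≤ 4 * e k * |x| ∧ |ρ1 x| ≤ C * e k ∧
        |x| * |ρ2 x| ≤ C * e k) ∧
      ∀ x : ℝ, 1 ≤ |x| → e 0 ≤ ρ x ∧ ρ x ≤ 2 * e 0 ∧ ρ1 x = 0 ∧ ρ2 x = 0 := by
  obtain ⟨χ, χ1, χ2, C, hC, c0, c1, c2, d0, d1, hb, k0, k1, hB⟩ := t4_chi
  refine ⟨C, hC, fun e he hpos he0 => ?_⟩
  have hele : ∀ j, e j ≤ 1 := fun j => (he (Nat.zero_le j)).trans he0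
  -- the terms
  set f : ℕ → ℝ → ℝ := fun j x => e j * (1 / 2) ^ j * χ (2 ^ j * x) with hf
  set f1 : ℕ → ℝ → ℝ := fun j x => e j * χ1 (2 ^ j * x) with hf1
  set f2 : ℕ → ℝ → ℝ := fun j x => e j * 2 ^ j * χ2 (2 ^ j * x) with hf2
  have hhalf : ∀ j : ℕ, (1 / 2 : ℝ) ^ j * 2 ^ j = 1 := by
    intro j
    rw [← mul_pow]; norm_num
  have hsum2 : Summable fun j : ℕ => (1 / 2 : ℝ) ^ j := summable_geometric_two
  have hfnn : ∀ j x, 0 ≤ f j x := fun j x =>
    mul_nonneg (mul_nonneg (hpos j).le (by positivity)) (hb _).1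
  have hfle : ∀ j x, f j x ≤ e j * (1 / 2) ^ j := by
    intro j x
    have h1 := (hb (2 ^ j * x)).2
    have h2 : 0 ≤ e j * (1 / 2 : ℝ) ^ j := mul_nonneg (hpos j).le (by positivity)
    show e j * (1 / 2) ^ j * χ (2 ^ j * x) ≤ e j * (1 / 2) ^ j
    nlinarith
  have hfle' : ∀ j x, f j x ≤ (1 / 2) ^ j := by
    intro j x
    refine (hfle j x).trans ?_
    have : (0 : ℝ) < (1 / 2) ^ j := by positivity
    nlinarith [hele j]
  have hfs : ∀ x, Summable fun j => f j x := fun x =>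
    Summable.of_nonneg_of_le (fun j => hfnn j x) (fun j => hfle' j x) hsum2
  have hd0 : ∀ j x, HasDerivAt (f j) (f1 j x) x := by
    intro j x
    have h1 : HasDerivAt (fun x : ℝ => 2 ^ j * x) (2 ^ j) x := by
      simpa using (hasDerivAt_id x).const_mul ((2 : ℝ) ^ j)
    have h2 : HasDerivAt (fun x : ℝ => χ (2 ^ j * x)) (χ1 (2 ^ j * x) * 2 ^ j) x :=
      HasDerivAt.comp x (d0 (2 ^ j * x)) h1
    have h3 := h2.const_mul (e j * (1 / 2) ^ j)
    have h4 : e j * (1 / 2) ^ j * (χ1 (2 ^ j * x) * 2 ^ j) = f1 j x := by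
      show e j * (1 / 2) ^ j * (χ1 (2 ^ j * x) * 2 ^ j) = e j * χ1 (2 ^ j * x)
      calc e j * (1 / 2) ^ j * (χ1 (2 ^ j * x) * 2 ^ j)
          = e j * χ1 (2 ^ j * x) * ((1 / 2 : ℝ) ^ j * 2 ^ j) := by ring
        _ = e j * χ1 (2 ^ j * x) := by rw [hhalf j, mul_one]
    rw [h4] at h3
    exact h3
  have hd1 : ∀ j x, HasDerivAt (f1 j) (f2 j x) x := by
    intro j x
    have h1 : HasDerivAt (fun x : ℝ => 2 ^ j * x) (2 ^ j) x := by
      simpa using (hasDerivAt_id x).const_mul ((2 : ℝ) ^ j)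
    have h2 : HasDerivAt (fun x : ℝ => χ1 (2 ^ j * x)) (χ2 (2 ^ j * x) * 2 ^ j) x :=
      HasDerivAt.comp x (d1 (2 ^ j * x)) h1
    have h3 := h2.const_mul (e j)
    have h4 : e j * (χ2 (2 ^ j * x) * 2 ^ j) = f2 j x := by
      show e j * (χ2 (2 ^ j * x) * 2 ^ j) = e j * 2 ^ j * χ2 (2 ^ j * x)
      ring
    rw [h4] at h3
    exact h3
  have hc2 : ∀ j, Continuous (f2 j) := by
    intro j
    exact continuous_const.mul (c2.comp (continuous_const.mul continuous_id))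
  -- terms beyond the scale of `x`
  have hbig : ∀ (j : ℕ) (x : ℝ), 1 ≤ 2 ^ j * |x| →
      f j x = e j * (1 / 2) ^ j ∧ f1 j x = 0 ∧ f2 j x = 0 := by
    intro j x hx
    obtain ⟨h1, h2, h3⟩ := k1 (2 ^ j * x) (by rw [t4_scale]; exact hx)
    refine ⟨?_, ?_, ?_⟩
    · show e j * (1 / 2) ^ j * χ (2 ^ j * x) = _
      rw [h1, mul_one]
    · show e j * χ1 (2 ^ j * x) = 0
      rw [h2, mul_zero]
    · show e j * 2 ^ j * χ2 (2 ^ j * x) = 0
      rw [h3, mul_zero]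
  have hsmall : ∀ (j : ℕ) (x : ℝ), 2 ^ j * |x| ≤ 1 / 2 →
      f j x = 0 ∧ f1 j x = 0 ∧ f2 j x = 0 := by
    intro j x hx
    obtain ⟨h1, h2, h3⟩ := k0 (2 ^ j * x) (by rw [t4_scale]; exact hx)
    refine ⟨?_, ?_, ?_⟩
    · show e j * (1 / 2) ^ j * χ (2 ^ j * x) = 0
      rw [h1, mul_zero]
    · show e j * χ1 (2 ^ j * x) = 0
      rw [h2, mul_zero]
    · show e j * 2 ^ j * χ2 (2 ^ j * x) = 0
      rw [h3, mul_zero]
  -- local description
  have hloc : ∀ x : ℝ, x ≠ 0 → ∃ N : ℕ, ∀ᶠ y in nhds x, ∀ j, N ≤ j → 1 ≤ 2 ^ j * |y| := by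
    intro x hx
    have hx' : 0 < |x| := abs_pos.2 hx
    obtain ⟨N, hN⟩ := pow_unbounded_of_one_lt (2 / |x|) (by norm_num : (1 : ℝ) < 2)
    refine ⟨N, ?_⟩
    have ho : IsOpen {y : ℝ | |x| / 2 < |y|} := isOpen_lt continuous_const continuous_abs
    filter_upwards [ho.mem_nhds (show |x| / 2 < |x| by linarith)] with y hy j hj
    have hy' : |x| / 2 < |y| := hy
    have h1 : (2 : ℝ) ^ N ≤ 2 ^ j := pow_le_pow_right₀ (by norm_num) hj
    have h2 : 2 / |x| ≤ 2 ^ j := hN.le.trans h1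
    have h3 : 2 ≤ 2 ^ j * |x| := by
      rwa [div_le_iff₀ hx'] at h2
    have h4 : (0 : ℝ) < 2 ^ j := by positivity
    nlinarith
  have hsumN : ∀ (N : ℕ) (y : ℝ), (∀ j, N ≤ j → 1 ≤ 2 ^ j * |y|) →
      (∑' j, f j y = ∑ j ∈ Finset.range N, f j y + ∑' j, e (j + N) * (1 / 2) ^ (j + N)) ∧
      (∑' j, f1 j y = ∑ j ∈ Finset.range N, f1 j y) ∧
      (∑' j, f2 j y = ∑ j ∈ Finset.range N, f2 j y) := by
    intro N y hy
    refine ⟨?_, ?_, ?_⟩
    · rw [← (hfs y).sum_add_tsum_nat_add N]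
      congr 1
      refine tsum_congr fun j => ?_
      exact (hbig (j + N) y (hy _ (Nat.le_add_left _ _))).1
    · refine tsum_eq_sum fun j hj => ?_
      exact (hbig j y (hy _ (by simpa using hj))).2.1
    · refine tsum_eq_sum fun j hj => ?_
      exact (hbig j y (hy _ (by simpa using hj))).2.2
  refine ⟨fun x => ∑' j, f j x, fun x => ∑' j, f1 j x, fun x => ∑' j, f2 j x, ?_, ?_, ?_, ?_, ?_, ?_⟩
  · refine continuous_tsum (u := fun j => (1 / 2 : ℝ) ^ j) ?_ hsum2 ?_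
    · intro j
      exact continuous_const.mul (c0.comp (continuous_const.mul continuous_id))
    · intro j x
      rw [Real.norm_eq_abs, abs_of_nonneg (hfnn j x)]
      exact hfle' j x
  · show ∑' j, f j 0 = 0
    have : ∀ j, f j 0 = 0 := fun j => (hsmall j 0 (by simp)).1
    simp [this]
  · intro x hx
    obtain ⟨N, hN⟩ := hloc x hx
    have hNx := hN.self_of_nhds
    refine ⟨?_, ?_, ?_⟩
    · have h1 := (hbig N x (hNx N le_rfl)).1
      have h2 : 0 < f N x := by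
        rw [h1]; exact mul_pos (hpos N) (by positivity)
      exact lt_of_lt_of_le h2 ((hfs x).le_tsum N (fun j _ => hfnn j x))
    · have h1 : HasDerivAt (fun y => ∑ j ∈ Finset.range N, f j y +
          ∑' j, e (j + N) * (1 / 2) ^ (j + N)) (∑ j ∈ Finset.range N, f1 j x) x :=
        (HasDerivAt.fun_sum fun j _ => hd0 j x).add_const _
      have h2 : (∑' j, f1 j x) = ∑ j ∈ Finset.range N, f1 j x := (hsumN N x hNx).2.1
      show HasDerivAt _ (∑' j, f1 j x) x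
      rw [h2]
      refine h1.congr_of_eventuallyEq ?_
      filter_upwards [hN] with y hy
      exact (hsumN N y hy).1
    · have h1 : HasDerivAt (fun y => ∑ j ∈ Finset.range N, f1 j y)
          (∑ j ∈ Finset.range N, f2 j x) x :=
        HasDerivAt.fun_sum fun j _ => hd1 j x
      have h2 : (∑' j, f2 j x) = ∑ j ∈ Finset.range N, f2 j x := (hsumN N x hNx).2.2
      show HasDerivAt _ (∑' j, f2 j x) x
      rw [h2]
      refine h1.congr_of_eventuallyEq ?_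
      filter_upwards [hN] with y hy
      exact (hsumN N y hy).2.1
  · intro x hx
    obtain ⟨N, hN⟩ := hloc x hx
    refine ContinuousAt.continuousWithinAt ?_
    have h1 : Continuous fun y => ∑ j ∈ Finset.range N, f2 j y :=
      continuous_finsetSum _ fun j _ => hc2 j
    refine h1.continuousAt.congr ?_
    filter_upwards [hN] with y hy
    exact ((hsumN N y hy).2.2).symm
  · intro x k hx1 hx2
    have hhk : (0 : ℝ) < (1 / 2) ^ k := by positivity
    have hhk' : (1 / 2 : ℝ) ^ (k + 1) = (1 / 2) ^ k / 2 := by rw [pow_succ]; ring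
    have hx0 : 0 ≤ |x| := abs_nonneg x
    have g1 : ∀ j, k + 1 ≤ j → 1 ≤ 2 ^ j * |x| := by
      intro j hj
      have h1 : (2 : ℝ) ^ (k + 1) ≤ 2 ^ j := pow_le_pow_right₀ (by norm_num) hj
      calc (1 : ℝ) = 2 ^ (k + 1) * (1 / 2) ^ (k + 1) := by rw [mul_comm]; exact (hhalf _).symm
        _ ≤ 2 ^ j * |x| := mul_le_mul h1 hx1 (by positivity) (by positivity)
    have g2 : ∀ j, j < k → 2 ^ j * |x| ≤ 1 / 2 := by
      intro j hj
      have h1 : (2 : ℝ) ^ (j + 1) ≤ 2 ^ k := pow_le_pow_right₀ (by norm_num) hj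
      have h2 : (2 : ℝ) ^ (j + 1) * |x| ≤ 2 ^ k * (1 / 2) ^ k :=
        mul_le_mul h1 hx2 hx0 (by positivity)
      rw [mul_comm ((2 : ℝ) ^ k), hhalf k, pow_succ] at h2
      linarith
    have hek := hpos k
    refine ⟨?_, ?_, ?_, ?_⟩
    · have h1 := (hbig (k + 1) x (g1 _ le_rfl)).1
      have h2 := (hfs x).le_tsum (k + 1) (fun j _ => hfnn j x)
      rw [h1, hhk'] at h2
      refine le_trans ?_ h2
      have := hpos (k + 1)
      nlinarith
    · show ∑' j, f j x ≤ 4 * e k * |x|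
      rw [← (hfs x).sum_add_tsum_nat_add k]
      have h1 : ∑ j ∈ Finset.range k, f j x = 0 :=
        Finset.sum_eq_zero fun j hj => (hsmall j x (g2 j (Finset.mem_range.1 hj))).1
      rw [h1, zero_add]
      have hs3 : Summable fun j : ℕ => e k * (1 / 2 : ℝ) ^ k * (1 / 2) ^ j := hsum2.mul_left _
      have h2 : ∑' j, f (j + k) x ≤ ∑' j : ℕ, e k * (1 / 2 : ℝ) ^ k * (1 / 2) ^ j := by
        refine Summable.tsum_le_tsum (fun j => ?_) ((summable_nat_add_iff k).2 (hfs x)) hs3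
        refine (hfle _ _).trans ?_
        have h3 : e (j + k) ≤ e k := he (Nat.le_add_left k j)
        have h4 : e k * (1 / 2 : ℝ) ^ k * (1 / 2) ^ j = e k * (1 / 2) ^ (j + k) := by
          rw [pow_add]; ring
        rw [h4]
        exact mul_le_mul_of_nonneg_right h3 (by positivity)
      rw [tsum_mul_left, tsum_geometric_two] at h2
      refine h2.trans ?_
      rw [hhk'] at hx1
      nlinarith
    · show |∑' j, f1 j x| ≤ C * e k
      have h1 : ∑' j, f1 j x = f1 k x := by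
        refine tsum_eq_single k fun j hj => ?_
        rcases Nat.lt_or_gt_of_ne hj with h | h
        · exact (hsmall j x (g2 j h)).2.1
        · exact (hbig j x (g1 j h)).2.1
      rw [h1]
      show |e k * χ1 (2 ^ k * x)| ≤ C * e k
      rw [abs_mul, abs_of_pos hek]
      nlinarith [(hB (2 ^ k * x)).1]
    · show |x| * |∑' j, f2 j x| ≤ C * e k
      have h1 : ∑' j, f2 j x = f2 k x := by
        refine tsum_eq_single k fun j hj => ?_
        rcases Nat.lt_or_gt_of_ne hj with h | h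
        · exact (hsmall j x (g2 j h)).2.2
        · exact (hbig j x (g1 j h)).2.2
      rw [h1]
      show |x| * |e k * 2 ^ k * χ2 (2 ^ k * x)| ≤ C * e k
      have h2 : (0 : ℝ) < e k * 2 ^ k := by positivity
      rw [abs_mul, abs_of_pos h2]
      have h3 : |x| * 2 ^ k ≤ 1 := by
        calc |x| * 2 ^ k ≤ (1 / 2) ^ k * 2 ^ k := mul_le_mul_of_nonneg_right hx2 (by positivity)
          _ = 1 := hhalf k
      have h4 := (hB (2 ^ k * x)).2
      have h5 : 0 ≤ |χ2 (2 ^ k * x)| := abs_nonneg _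
      calc |x| * (e k * 2 ^ k * |χ2 (2 ^ k * x)|) = (|x| * 2 ^ k) * (e k * |χ2 (2 ^ k * x)|) := by
            ring
        _ ≤ 1 * (e k * C) :=
            mul_le_mul h3 (mul_le_mul_of_nonneg_left h4 hek.le) (by positivity) (by norm_num)
        _ = C * e k := by ring
  · intro x hx
    have g1 : ∀ j : ℕ, 1 ≤ 2 ^ j * |x| := by
      intro j
      have h1 : (1 : ℝ) ≤ 2 ^ j := one_le_pow₀ (by norm_num)
      nlinarith
    refine ⟨?_, ?_, ?_, ?_⟩
    · have h1 := (hbig 0 x (g1 0)).1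
      have h2 := (hfs x).le_tsum 0 (fun j _ => hfnn j x)
      rw [h1] at h2
      simpa using h2
    · have hs3 : Summable fun j : ℕ => e 0 * (1 / 2 : ℝ) ^ j := hsum2.mul_left _
      have h2 : ∑' j, f j x ≤ ∑' j : ℕ, e 0 * (1 / 2 : ℝ) ^ j := by
        refine Summable.tsum_le_tsum (fun j => ?_) (hfs x) hs3
        refine (hfle _ _).trans ?_
        exact mul_le_mul_of_nonneg_right (he (Nat.zero_le j)) (by positivity)
      rw [tsum_mul_left, tsum_geometric_two] at h2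
      show ∑' j, f j x ≤ 2 * e 0
      linarith
    · show ∑' j, f1 j x = 0
      have : ∀ j, f1 j x = 0 := fun j => (hbig j x (g1 j)).2.1
      simp [this]
    · show ∑' j, f2 j x = 0
      have : ∀ j, f2 j x = 0 := fun j => (hbig j x (g1 j)).2.2
      simp [this]

end Pool.Agent.MP_4eca41
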