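import Pool.Agent.Work.MP_4eca41_an.Defs

/-!
# T7: the function theta

PROOF.  Euclidean distances; write `|v| = sqrt (sq v)`.  For `ρ ≥ 0` let `d_ρ v = (max (|v| - ρ) 0)^2`, the squared distance from `v` to the closed
ball `B(0,ρ)`.  (1) `D2 d_ρ v ζ ≤ 2 sq v`: if `π` is the projection of `ζ` to the ball, `d_ρ (ζ ± v) ≤ sq (ζ ± v - π)` and `d_ρ ζ = sq (ζ - π)`
(or: `d_ρ ≤ ` that for any point `π` of the ball, with equality at the projection `π = ζ` or `π = ρ ζ/|ζ|`).  (2) `d_ρ v ≥ sq v/4` for `|v| ≥ 2ρ`, `d_ρ v ≤ sq v`, `d_ρ v = 0` for `|v| ≤ ρ`,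
`D2 d_ρ v ζ = 0` if `|v| + |ζ| ≤ ρ`.  Let `E = 16 (C + 1)` (wlog `C ≥ 0`); choose `ρ j > 0`, decreasing (strictly), `ρ j ≤ 2^(-j)`, with
`G v ≤ (E/16) 2^(-j-1) sq v` for `|v| ≤ 2 ρ j` (from `hs`).  `θ v = ∑' j, E 2^(-j) d_{ρ j} v` (converges locally uniformly: terms `≤ E 2^(-j) sq v`; continuous).
`2 G ≤ θ`: let `v ≠ 0`; if `|v| ≥ 2 ρ 0`: `θ v ≥ E sq v/4 ≥ 2 C sq v ≥ 2 G v`.  Otherwise let `j ≥ 1` be minimal with `|v| ≥ 2 ρ j`; then `|v| < 2 ρ (j-1)`, so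
`G v ≤ (E/16) 2^(-j) sq v` and `θ v ≥ E 2^(-j) sq v/4`.  Lower bound: for `|v| ≥ r` take `j` with `2 ρ j ≤ r`: `θ v ≥ E 2^(-j) sq v/4`.  `D2 θ v ζ ≤ ∑ E 2^(-j) 2 sq v = 4 E sq v`.  Small: given `κ`, choose
`J` with `∑_{j>J} 2 E 2^(-j) ≤ κ` and `δ = ρ J/2`: for `|v|, |ζ| ≤ δ` the terms `j ≤ J` vanish.  The last item: same with `ζ = 0` (`D2 θ v 0 = 2 θ v`, `θ` even).
-/

set_option autoImplicit false

open Set MeasureTheory

namespace Pool.Agent.MP_4eca41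

/-- Euclidean length -/
private noncomputable def Nm (v : ℝ × ℝ) : ℝ := ‖(⟨v.1, v.2⟩ : ℂ)‖

private theorem Nm_nonneg (v : ℝ × ℝ) : 0 ≤ Nm v := norm_nonneg _

private theorem Nm_sq (v : ℝ × ℝ) : Nm v ^ 2 = sq v := by
  unfold Nm sq
  rw [Complex.sq_norm, Complex.normSq_apply]
  ring

private theorem Nm_add (v w : ℝ × ℝ) : Nm (v + w) ≤ Nm v + Nm w := by
  have h : (⟨(v + w).1, (v + w).2⟩ : ℂ) = ⟨v.1, v.2⟩ + ⟨w.1, w.2⟩ := by
    apply Complex.ext <;> simp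
  unfold Nm
  rw [h]
  exact norm_add_le _ _

private theorem Nm_neg (v : ℝ × ℝ) : Nm (-v) = Nm v := by
  have h : (⟨(-v).1, (-v).2⟩ : ℂ) = -⟨v.1, v.2⟩ := by
    apply Complex.ext <;> simp
  unfold Nm
  rw [h, norm_neg]

private theorem Nm_sub (v w : ℝ × ℝ) : Nm (v - w) ≤ Nm v + Nm w := by
  rw [sub_eq_add_neg]
  have := Nm_add v (-w)
  rwa [Nm_neg] at this

private theorem Nm_cont : Continuous Nm := by
  have h : Nm = fun v => Real.sqrt (sq v) := by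
    funext v
    rw [← Nm_sq, Real.sqrt_sq (Nm_nonneg v)]
  rw [h]
  unfold sq
  fun_prop

private theorem Nm_le {v : ℝ × ℝ} {r : ℝ} (hr : 0 ≤ r) : Nm v ≤ r ↔ sq v ≤ r ^ 2 := by
  rw [← Nm_sq]
  exact (pow_le_pow_iff_left₀ (Nm_nonneg v) hr two_ne_zero).symm

private theorem le_Nm {v : ℝ × ℝ} {r : ℝ} (hr : 0 ≤ r) : r ≤ Nm v ↔ r ^ 2 ≤ sq v := by
  rw [← Nm_sq]
  exact (pow_le_pow_iff_left₀ hr (Nm_nonneg v) two_ne_zero).symm

/-- squared distance to the ball -/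
private noncomputable def dq (ρ : ℝ) (v : ℝ × ℝ) : ℝ := max (Nm v - ρ) 0 ^ 2

private theorem dq_nonneg (ρ : ℝ) (v : ℝ × ℝ) : 0 ≤ dq ρ v := sq_nonneg _

private theorem dq_cont (ρ : ℝ) : Continuous (dq ρ) := by
  unfold dq
  exact ((Nm_cont.sub continuous_const).max continuous_const).pow 2

private theorem dq_le {ρ : ℝ} {π : ℝ × ℝ} (hπ : Nm π ≤ ρ) (v : ℝ × ℝ) : dq ρ v ≤ sq (v - π) := by
  have h1 : Nm v ≤ Nm (v - π) + Nm π := by
    have := Nm_add (v - π) π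
    rwa [sub_add_cancel] at this
  have h2 : max (Nm v - ρ) 0 ≤ Nm (v - π) := max_le (by linarith) (Nm_nonneg _)
  rw [← Nm_sq]
  exact pow_le_pow_left₀ (le_max_right _ _) h2 2

private theorem dq_proj {ρ : ℝ} (hρ : 0 ≤ ρ) (v : ℝ × ℝ) :
    ∃ π, Nm π ≤ ρ ∧ dq ρ v = sq (v - π) := by
  by_cases h : Nm v ≤ ρ
  · refine ⟨v, h, ?_⟩
    unfold dq
    rw [max_eq_right (by linarith), sub_self]
    simp [sq]
  · have h' : ρ < Nm v := not_le.1 h
    have hpos : 0 < Nm v := lt_of_le_of_lt hρ h'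
    have hs := Nm_sq v
    refine ⟨(ρ / Nm v) • v, ?_, ?_⟩
    · rw [Nm_le hρ]
      have : sq ((ρ / Nm v) • v) = (ρ / Nm v) ^ 2 * sq v := by
        simp only [sq, Prod.smul_fst, Prod.smul_snd, smul_eq_mul]
        ring
      rw [this, ← hs, div_pow, div_mul_cancel₀ _ (by positivity)]
    · have : sq (v - (ρ / Nm v) • v) = (1 - ρ / Nm v) ^ 2 * sq v := by
        simp only [sq, Prod.fst_sub, Prod.snd_sub, Prod.smul_fst, Prod.smul_snd, smul_eq_mul]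
        ring
      rw [this, ← hs]
      unfold dq
      rw [max_eq_left (by linarith), ← mul_pow]
      congr 1
      field_simp

private theorem dq_D2 {ρ : ℝ} (hρ : 0 ≤ ρ) (v ζ : ℝ × ℝ) : D2 (dq ρ) v ζ ≤ 2 * sq v := by
  obtain ⟨π, hπ, he⟩ := dq_proj hρ ζ
  have h1 := dq_le hπ (ζ + v)
  have h2 := dq_le hπ (ζ - v)
  have h3 : sq (ζ + v - π) + sq (ζ - v - π) - 2 * sq (ζ - π) = 2 * sq v := by
    simp only [sq, Prod.fst_sub, Prod.snd_sub, Prod.fst_add, Prod.snd_add]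
    ring
  unfold D2
  rw [he]
  linarith

private theorem dq_zero {ρ : ℝ} {v : ℝ × ℝ} (h : Nm v ≤ ρ) : dq ρ v = 0 := by
  unfold dq
  rw [max_eq_right (by linarith)]
  norm_num

private theorem dq_D2_zero {ρ : ℝ} {v ζ : ℝ × ℝ} (h : Nm v + Nm ζ ≤ ρ) : D2 (dq ρ) v ζ = 0 := by
  unfold D2
  rw [dq_zero (by linarith [Nm_add ζ v]), dq_zero (by linarith [Nm_sub ζ v]),
    dq_zero (by linarith [Nm_nonneg v])]
  norm_num

private theorem dq_ge {ρ : ℝ} {v : ℝ × ℝ} (h : 2 * ρ ≤ Nm v) : sq v / 4 ≤ dq ρ v := by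
  have h1 : Nm v / 2 ≤ max (Nm v - ρ) 0 := le_trans (by linarith) (le_max_left _ _)
  have h2 := pow_le_pow_left₀ (by linarith [Nm_nonneg v]) h1 2
  unfold dq
  rw [← Nm_sq]
  calc Nm v ^ 2 / 4 = (Nm v / 2) ^ 2 := by ring
    _ ≤ _ := h2

private theorem dq_le_sq {ρ : ℝ} (hρ : 0 ≤ ρ) (v : ℝ × ℝ) : dq ρ v ≤ sq v := by
  have h := dq_le (ρ := ρ) (π := 0) (by rw [Nm_le hρ]; simp [sq]; positivity) v
  rwa [sub_zero] at h

private theorem dq_neg (ρ : ℝ) (v : ℝ × ℝ) : dq ρ (-v) = dq ρ v := by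
  unfold dq
  rw [Nm_neg]

private theorem sqnn (v : ℝ × ℝ) : 0 ≤ sq v := by
  unfold sq
  positivity

theorem t7 (G : ℝ × ℝ → ℝ) (h0 : ∀ v, 0 ≤ G v) (C : ℝ) (hC : ∀ v, G v ≤ C * sq v)
    (hs : ∀ ε : ℝ, 0 < ε → ∃ δ : ℝ, 0 < δ ∧ ∀ v, sq v ≤ δ ^ 2 → G v ≤ ε * sq v) :
    ∃ θ : ℝ × ℝ → ℝ, Continuous θ ∧ θ 0 = 0 ∧ (∀ v, 2 * G v ≤ θ v) ∧ (∀ v, 0 ≤ θ v) ∧
      (∀ r : ℝ, 0 < r → ∃ m : ℝ, 0 < m ∧ ∀ v, r ^ 2 ≤ sq v → m * sq v ≤ θ v) ∧
      (∃ M : ℝ, 0 < M ∧ ∀ v ζ, D2 θ v ζ ≤ M * sq v) ∧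
      (∀ κ : ℝ, 0 < κ → ∃ δ : ℝ, 0 < δ ∧ ∀ v ζ, sq v ≤ δ ^ 2 → sq ζ ≤ δ ^ 2 →
        D2 θ v ζ ≤ κ * sq v) ∧
      ∀ κ : ℝ, 0 < κ → ∃ δ : ℝ, 0 < δ ∧ ∀ v, sq v ≤ δ ^ 2 → θ v ≤ κ * sq v := by
  -- wlog `0 ≤ C`
  set C' : ℝ := max C 0 with hC'
  have hC0 : 0 ≤ C' := le_max_right _ _
  have hCC : C ≤ C' := le_max_left _ _
  have hC1 : ∀ v, G v ≤ C' * sq v := fun v =>
    le_trans (hC v) (mul_le_mul_of_nonneg_right hCC (sqnn v))
  set E : ℝ := 16 * (C' + 1) with hE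
  have hEpos : 0 < E := by positivity
  -- the radii
  have hex : ∀ j : ℕ, ∃ ρ : ℝ, 0 < ρ ∧ ρ ≤ (1 / 2) ^ j ∧ ∀ v, Nm v ≤ 2 * ρ →
      G v ≤ E / 16 * (1 / 2) ^ (j + 1) * sq v := by
    intro j
    obtain ⟨δ, hδ, hv⟩ := hs (E / 16 * (1 / 2) ^ (j + 1)) (by positivity)
    refine ⟨min (δ / 2) ((1 / 2) ^ j), lt_min (by positivity) (by positivity), min_le_right _ _, ?_⟩
    intro v h
    apply hv v
    rw [← Nm_le hδ.le]
    have := min_le_left (δ / 2) ((1 / 2 : ℝ) ^ j)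
    linarith
  choose ρ hρpos hρle hρG using hex
  have hρmin : ∀ J : ℕ, ∃ δ : ℝ, 0 < δ ∧ ∀ j, j < J → δ ≤ ρ j := by
    intro J
    induction J with
    | zero => exact ⟨1, one_pos, fun j hj => absurd hj (Nat.not_lt_zero j)⟩
    | succ J ih =>
      obtain ⟨δ, hδ, h⟩ := ih
      refine ⟨min δ (ρ J), lt_min hδ (hρpos J), fun j hj => ?_⟩
      rcases Nat.lt_succ_iff_lt_or_eq.1 hj with h1 | h1
      · exact le_trans (min_le_left _ _) (h j h1)
      · rw [h1]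
        exact min_le_right _ _
  -- the terms
  set f : ℕ → ℝ × ℝ → ℝ := fun j v => E * (1 / 2) ^ j * dq (ρ j) v with hf
  have hf0 : ∀ j v, 0 ≤ f j v := fun j v => mul_nonneg (by positivity) (dq_nonneg _ _)
  have hfle : ∀ j v, f j v ≤ E * sq v * (1 / 2) ^ j := by
    intro j v
    have h1 := dq_le_sq (hρpos j).le v
    have h2 : 0 ≤ E * (1 / 2 : ℝ) ^ j := by positivity
    calc f j v ≤ E * (1 / 2) ^ j * sq v := mul_le_mul_of_nonneg_left h1 h2
      _ = _ := by ring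
  have hgeo : Summable fun j : ℕ => (1 / 2 : ℝ) ^ j := summable_geometric_two
  have hsum : ∀ v, Summable fun j => f j v := fun v =>
    Summable.of_nonneg_of_le (fun j => hf0 j v) (fun j => hfle j v) (hgeo.mul_left _)
  set θ : ℝ × ℝ → ℝ := fun v => ∑' j, f j v with hθ
  have hhs : ∀ v, HasSum (fun j => f j v) (θ v) := fun v => (hsum v).hasSum
  have hterm : ∀ j v, f j v ≤ θ v := fun j v => le_hasSum (hhs v) j fun i _ => hf0 i v
  have hθ0 : ∀ v, 0 ≤ θ v := fun v => le_trans (hf0 0 v) (hterm 0 v)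
  have hD2 : ∀ v ζ, HasSum (fun j => E * (1 / 2) ^ j * D2 (dq (ρ j)) v ζ) (D2 θ v ζ) := by
    intro v ζ
    have h1 := ((hhs (ζ + v)).add (hhs (ζ - v))).sub ((hhs ζ).mul_left 2)
    have h2 : (fun j => E * (1 / 2) ^ j * D2 (dq (ρ j)) v ζ) =
        fun j => f j (ζ + v) + f j (ζ - v) - 2 * f j ζ := by
      funext j
      simp only [hf, D2]
      ring
    rw [h2]
    exact h1
  have hθz : θ 0 = 0 := by
    have h1 : ∀ j, f j 0 = 0 := by
      intro j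
      simp only [hf]
      rw [dq_zero (by rw [Nm_le (hρpos j).le]; simp only [sq, Prod.fst_zero, Prod.snd_zero]; have := sq_nonneg (ρ j); norm_num; positivity), mul_zero]
    simp only [hθ, h1, tsum_zero]
  have hθn : ∀ v, θ (-v) = θ v := by
    intro v
    simp only [hθ, hf, dq_neg]
  have hsmall : ∀ κ : ℝ, 0 < κ → ∃ δ : ℝ, 0 < δ ∧ ∀ v ζ, sq v ≤ δ ^ 2 → sq ζ ≤ δ ^ 2 →
      D2 θ v ζ ≤ κ * sq v := by
    intro κ hκ
    obtain ⟨J, hJ⟩ := exists_pow_lt_of_lt_one (show (0 : ℝ) < κ / (8 * E) by positivity)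
      (show (2 / 3 : ℝ) < 1 by norm_num)
    obtain ⟨δ, hδ, hδJ⟩ := hρmin J
    refine ⟨δ / 2, by positivity, fun v ζ hv hζ => ?_⟩
    rw [← Nm_le (by positivity)] at hv hζ
    have hg : HasSum (fun j : ℕ => (3 / 4 : ℝ) ^ j) 4 := by
      have := hasSum_geometric_of_lt_one (show (0 : ℝ) ≤ 3 / 4 by norm_num) (by norm_num)
      convert this using 1
      norm_num
    have hg2 := hg.mul_left (2 * E * sq v * (2 / 3) ^ J)
    have hle : ∀ j, E * (1 / 2) ^ j * D2 (dq (ρ j)) v ζ ≤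
        2 * E * sq v * (2 / 3) ^ J * (3 / 4) ^ j := by
      intro j
      by_cases hj : j < J
      · rw [dq_D2_zero (by linarith [hδJ j hj]), mul_zero]
        have := sqnn v
        positivity
      · have hj' : J ≤ j := not_lt.1 hj
        have h1 := dq_D2 (hρpos j).le v ζ
        have h2 : (1 / 2 : ℝ) ^ j ≤ (2 / 3) ^ J * (3 / 4) ^ j := by
          have h3 : (1 / 2 : ℝ) ^ j = (2 / 3) ^ j * (3 / 4) ^ j := by
            rw [← mul_pow]
            norm_num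
          rw [h3]
          exact mul_le_mul_of_nonneg_right
            (pow_le_pow_of_le_one (by norm_num) (by norm_num) hj') (by positivity)
        have h4 : 0 ≤ E * (1 / 2 : ℝ) ^ j := by positivity
        have h5 : 0 ≤ 2 * E * sq v := by
          have := sqnn v
          positivity
        calc E * (1 / 2) ^ j * D2 (dq (ρ j)) v ζ ≤ E * (1 / 2) ^ j * (2 * sq v) :=
              mul_le_mul_of_nonneg_left h1 h4
          _ = 2 * E * sq v * (1 / 2) ^ j := by ring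
          _ ≤ 2 * E * sq v * ((2 / 3) ^ J * (3 / 4) ^ j) := mul_le_mul_of_nonneg_left h2 h5
          _ = _ := by ring
    have h6 := hasSum_le hle (hD2 v ζ) hg2
    have h7 : (2 / 3 : ℝ) ^ J * (8 * E) ≤ κ := by
      have := (lt_div_iff₀ (by positivity : 0 < 8 * E)).1 hJ
      exact this.le
    calc D2 θ v ζ ≤ 2 * E * sq v * (2 / 3) ^ J * 4 := h6
      _ = (2 / 3) ^ J * (8 * E) * sq v := by ring
      _ ≤ κ * sq v := mul_le_mul_of_nonneg_right h7 (sqnn v)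
  refine ⟨θ, ?_, hθz, ?_, hθ0, ?_, ?_, hsmall, ?_⟩
  · -- continuity
    rw [continuous_iff_continuousAt]
    intro v
    have hopen : IsOpen {w : ℝ × ℝ | Nm w < Nm v + 1} :=
      isOpen_lt Nm_cont continuous_const
    have hmem : v ∈ {w : ℝ × ℝ | Nm w < Nm v + 1} := by
      show Nm v < Nm v + 1
      linarith
    have hon : ContinuousOn θ {w : ℝ × ℝ | Nm w < Nm v + 1} := by
      apply continuousOn_tsum (u := fun j => E * (Nm v + 1) ^ 2 * (1 / 2) ^ j)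
      · intro j
        exact (continuous_const.mul (dq_cont (ρ j))).continuousOn
      · exact hgeo.mul_left _
      · intro j w hw
        have hw' : Nm w < Nm v + 1 := hw
        rw [Real.norm_of_nonneg (hf0 j w)]
        refine le_trans (hfle j w) ?_
        have h1 : sq w ≤ (Nm v + 1) ^ 2 := by
          rw [← Nm_le (by linarith [Nm_nonneg v])]
          exact hw'.le
        exact mul_le_mul_of_nonneg_right (mul_le_mul_of_nonneg_left h1 hEpos.le) (by positivity)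
    exact hon.continuousAt (hopen.mem_nhds hmem)
  · -- `2 G ≤ θ`
    intro v
    by_cases hv0 : Nm v = 0
    · have h1 : sq v = 0 := by rw [← Nm_sq, hv0]; norm_num
      have h2 := hC1 v
      rw [h1, mul_zero] at h2
      have h3 := hθ0 v
      linarith
    · have hvpos : 0 < Nm v := lt_of_le_of_ne (Nm_nonneg v) (Ne.symm hv0)
      have hexj : ∃ j, 2 * ρ j ≤ Nm v := by
        obtain ⟨j, hj⟩ := exists_pow_lt_of_lt_one (show (0 : ℝ) < Nm v / 2 by positivity)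
          (show (1 / 2 : ℝ) < 1 by norm_num)
        exact ⟨j, by linarith [hρle j]⟩
      classical
      obtain ⟨j, hj, hmin⟩ : ∃ j, 2 * ρ j ≤ Nm v ∧ ∀ i, i < j → ¬ 2 * ρ i ≤ Nm v :=
        ⟨Nat.find hexj, Nat.find_spec hexj, fun i hi => Nat.find_min hexj hi⟩
      have h1 := dq_ge hj
      have h2 := hterm j v
      have h3 : E * (1 / 2) ^ j * (sq v / 4) ≤ θ v :=
        le_trans (mul_le_mul_of_nonneg_left h1 (by positivity)) h2
      have hsv := sqnn v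
      rcases Nat.eq_zero_or_pos j with hj0 | hj0
      · subst hj0
        have h4 := hC1 v
        rw [pow_zero, mul_one, hE] at h3
        nlinarith [mul_nonneg hC0 hsv]
      · obtain ⟨i, rfl⟩ : ∃ i, j = i + 1 := ⟨j - 1, by omega⟩
        have h4 := hmin i (Nat.lt_succ_self i)
        have h5 := hρG i v (le_of_lt (not_le.1 h4))
        have h6 : 0 ≤ E * (1 / 2) ^ (i + 1) * sq v := by positivity
        nlinarith
  · -- lower bound
    intro r hr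
    obtain ⟨j, hj⟩ := exists_pow_lt_of_lt_one (show (0 : ℝ) < r / 2 by positivity)
      (show (1 / 2 : ℝ) < 1 by norm_num)
    refine ⟨E * (1 / 2) ^ j / 4, by positivity, fun v hv => ?_⟩
    rw [← le_Nm hr.le] at hv
    have h1 := dq_ge (ρ := ρ j) (v := v) (by linarith [hρle j])
    have h2 := hterm j v
    calc E * (1 / 2) ^ j / 4 * sq v = E * (1 / 2) ^ j * (sq v / 4) := by ring
      _ ≤ E * (1 / 2) ^ j * dq (ρ j) v := mul_le_mul_of_nonneg_left h1 (by positivity)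
      _ ≤ θ v := h2
  · refine ⟨4 * E, by positivity, fun v ζ => ?_⟩
    have hg : HasSum (fun j : ℕ => (1 / 2 : ℝ) ^ j) 2 := hasSum_geometric_two
    have hg2 := hg.mul_left (2 * E * sq v)
    have hle : ∀ j, E * (1 / 2) ^ j * D2 (dq (ρ j)) v ζ ≤ 2 * E * sq v * (1 / 2) ^ j := by
      intro j
      have h1 := dq_D2 (hρpos j).le v ζ
      calc E * (1 / 2) ^ j * D2 (dq (ρ j)) v ζ ≤ E * (1 / 2) ^ j * (2 * sq v) :=
            mul_le_mul_of_nonneg_left h1 (by positivity)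
        _ = _ := by ring
    have h6 := hasSum_le hle (hD2 v ζ) hg2
    linarith
  · intro κ hκ
    obtain ⟨δ, hδ, h⟩ := hsmall κ hκ
    refine ⟨δ, hδ, fun v hv => ?_⟩
    have h1 := h v 0 hv (by simp only [sq, Prod.fst_zero, Prod.snd_zero]; norm_num; positivity)
    unfold D2 at h1
    rw [zero_add, zero_sub, hθn, hθz] at h1
    have := mul_nonneg hκ.le (sqnn v)
    linarith

end Pool.Agent.MP_4eca41
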