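import Pool.Agent.Work.MP_4eca41_an.Defs

/-!
# Facts about the kernel `ker s = (35/32) (1 - s^2)^3` on `[-1, 1]`

PROOFS.  Polynomial integrals: `∫ (1-s^2)^3 = 32/35`, `∫ s^2 (1-s^2)^3 = 32/315` over `[-1,1]`; odd
functions integrate to zero.  `ker` is C^2: write `ker s = (35/32) (max (1 - s^2) 0)^3`, and `x ↦ (max x 0)^3`
is C^2 (derivatives `3 (max x 0)^2`, `6 max x 0`).  `psi` is C^1 with derivative `- s ker s`:
`(35/256) · 4 (1-s^2)^3 · (-2 s) = -(35/32) s (1-s^2)^3`.  `psi ≤ ker / 8` as `1 - s^2 ≤ 1`.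
-/

set_option autoImplicit false

open Set MeasureTheory

namespace Pool.Agent.MP_4eca41

/-- `Ψ s = ∫_s^1 σ ker σ dσ = (35/256) (1 - s^2)^4` on `[-1, 1]`. -/
noncomputable def psi (s : ℝ) : ℝ := if |s| ≤ 1 then (35 / 256) * (1 - s ^ 2) ^ 4 else 0

private theorem hd_conv {f g : ℝ → ℝ} {a b x : ℝ} (h : HasDerivAt f a x) (hfg : ∀ y, f y = g y)
    (hab : a = b) : HasDerivAt g b x := by
  have : f = g := funext hfg
  subst this
  subst hab
  exact h

private theorem mp_hasDerivAt (n : ℕ) (x : ℝ) :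
    HasDerivAt (fun y : ℝ => (max y 0) ^ (n + 2)) ((n + 2 : ℝ) * (max x 0) ^ (n + 1)) x := by
  have key : ∀ y : ℝ, y ≠ 0 →
      HasDerivAt (fun y : ℝ => (max y 0) ^ (n + 2)) ((n + 2 : ℝ) * (max y 0) ^ (n + 1)) y := by
    intro y hy
    rcases lt_or_gt_of_ne hy with h | h
    · have h1 : (fun y : ℝ => (max y 0) ^ (n + 2)) =ᶠ[nhds y] fun _ => (0 : ℝ) := by
        filter_upwards [Iio_mem_nhds h] with z hz
        rw [max_eq_right (le_of_lt hz)]; simp
      have h2 : (n + 2 : ℝ) * (max y 0) ^ (n + 1) = 0 := by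
        rw [max_eq_right h.le]; simp
      rw [h2]
      exact (hasDerivAt_const y (0 : ℝ)).congr_of_eventuallyEq h1
    · have h1 : (fun y : ℝ => (max y 0) ^ (n + 2)) =ᶠ[nhds y] fun y => y ^ (n + 2) := by
        filter_upwards [Ioi_mem_nhds h] with z hz
        rw [max_eq_left (le_of_lt hz)]
      rw [max_eq_left h.le]
      have h3 := hasDerivAt_pow (n + 2) y
      have h4 : ((n + 2 : ℕ) : ℝ) * y ^ (n + 2 - 1) = (n + 2 : ℝ) * y ^ (n + 1) := by
        push_cast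
        rfl
      rw [h4] at h3
      exact h3.congr_of_eventuallyEq h1
  by_cases hx : x = 0
  · subst hx
    have hf : ContinuousAt (fun y : ℝ => (max y 0) ^ (n + 2)) 0 :=
      (by fun_prop : Continuous (fun y : ℝ => (max y 0) ^ (n + 2))).continuousAt
    have hg : ContinuousAt (fun y : ℝ => (n + 2 : ℝ) * (max y 0) ^ (n + 1)) 0 :=
      (by fun_prop : Continuous (fun y : ℝ => (n + 2 : ℝ) * (max y 0) ^ (n + 1))).continuousAt
    exact hasDerivAt_of_hasDerivAt_of_ne key hf hg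
  · exact key x hx

private theorem mp_contDiff (n : ℕ) : ContDiff ℝ n (fun y : ℝ => (max y 0) ^ (n + 1)) := by
  induction n with
  | zero =>
    have h0 : Continuous (fun y : ℝ => (max y 0) ^ (0 + 1)) := by fun_prop
    have h1 : ContDiff ℝ 0 (fun y : ℝ => (max y 0) ^ (0 + 1)) := contDiff_zero.2 h0
    exact_mod_cast h1
  | succ n ih =>
    have h1 : ((n + 1 : ℕ) : WithTop ℕ∞) = (n : WithTop ℕ∞) + 1 := by push_cast; rfl
    rw [h1, contDiff_succ_iff_deriv]
    refine ⟨fun x => (mp_hasDerivAt n x).differentiableAt, ?_, ?_⟩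
    · intro h; simp at h
    · have h2 : deriv (fun y : ℝ => (max y 0) ^ (n + 1 + 1)) =
          fun x => (n + 2 : ℝ) * (max x 0) ^ (n + 1) := by
        funext x
        exact (mp_hasDerivAt n x).deriv
      rw [h2]
      exact contDiff_const.mul ih

private theorem ker_eq (s : ℝ) : ker s = (35 / 32) * (max (1 - s ^ 2) 0) ^ 3 := by
  unfold ker
  split_ifs with h
  · have : s ^ 2 ≤ 1 := (sq_le_one_iff_abs_le_one s).2 h
    rw [max_eq_left (by linarith)]
  · have : 1 < s ^ 2 := by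
      by_contra h2
      exact h ((sq_le_one_iff_abs_le_one s).1 (not_lt.1 h2))
    rw [max_eq_right (by linarith)]; simp

private theorem psi_eq (s : ℝ) : psi s = (35 / 256) * (max (1 - s ^ 2) 0) ^ 4 := by
  unfold psi
  split_ifs with h
  · have : s ^ 2 ≤ 1 := (sq_le_one_iff_abs_le_one s).2 h
    rw [max_eq_left (by linarith)]
  · have : 1 < s ^ 2 := by
      by_contra h2
      exact h ((sq_le_one_iff_abs_le_one s).1 (not_lt.1 h2))
    rw [max_eq_right (by linarith)]; simp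

private theorem m_le (s : ℝ) : max (1 - s ^ 2) 0 ≤ 1 := max_le (by nlinarith [sq_nonneg s]) (by norm_num)

private theorem m_nonneg (s : ℝ) : 0 ≤ max (1 - s ^ 2) 0 := le_max_right _ _

theorem ker_contDiff : ContDiff ℝ 2 ker := by
  have h : ker = fun s => (35 / 32) * (fun y : ℝ => (max y 0) ^ (2 + 1)) (1 - s ^ 2) := by
    funext s
    rw [ker_eq]
  rw [h]
  have h1 : ContDiff ℝ 2 (fun s : ℝ => 1 - s ^ 2) := by fun_prop
  have h2 : ContDiff ℝ 2 (fun y : ℝ => (max y 0) ^ (2 + 1)) := mp_contDiff 2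
  exact contDiff_const.mul (h2.comp h1)

theorem ker_continuous : Continuous ker := ker_contDiff.continuous

theorem ker_nonneg (s : ℝ) : 0 ≤ ker s := by
  rw [ker_eq]
  have := m_nonneg s
  positivity

theorem ker_le (s : ℝ) : ker s ≤ 35 / 32 := by
  rw [ker_eq]
  have := pow_le_one₀ (n := 3) (m_nonneg s) (m_le s)
  linarith

theorem ker_pos (s : ℝ) (hs : |s| < 1) : 0 < ker s := by
  unfold ker
  rw [if_pos hs.le]
  have : s ^ 2 < 1 := (sq_lt_one_iff_abs_lt_one s).2 hs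
  have h2 : 0 < 1 - s ^ 2 := by linarith
  positivity

theorem ker_even (s : ℝ) : ker (-s) = ker s := by
  unfold ker
  simp

theorem ker_zero (s : ℝ) (hs : 1 ≤ |s|) : ker s = 0 := by
  rw [ker_eq]
  have : 1 ≤ s ^ 2 := by
    have := sq_abs s
    nlinarith
  rw [max_eq_right (by linarith)]; simp

private theorem ker_poly {s : ℝ} (hs : s ∈ uIcc (-1 : ℝ) 1) : ker s = (35 / 32) * (1 - s ^ 2) ^ 3 := by
  rw [uIcc_of_le (by norm_num)] at hs
  unfold ker
  rw [if_pos (abs_le.2 ⟨by linarith [hs.1], hs.2⟩)]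

theorem ker_int : ∫ s in (-1 : ℝ)..1, ker s = 1 := by
  have h1 : ∫ s in (-1 : ℝ)..1, ker s = ∫ s in (-1 : ℝ)..1, (35 / 32) * (1 - s ^ 2) ^ 3 :=
    intervalIntegral.integral_congr fun s hs => ker_poly hs
  rw [h1, intervalIntegral.integral_eq_sub_of_hasDerivAt
    (f := fun s : ℝ => (35 / 32) * (s - s ^ 3 + 3 / 5 * s ^ 5 - s ^ 7 / 7))]
  · norm_num
  · intro x _
    have h := (((hasDerivAt_id x).sub (hasDerivAt_pow 3 x)).add ((hasDerivAt_pow 5 x).const_mul (3 / 5))).sub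
      ((hasDerivAt_pow 7 x).div_const 7) |>.const_mul (35 / 32)
    refine hd_conv h (fun y => by simp) ?_
    norm_num
    ring
  · exact (by fun_prop : Continuous fun s : ℝ => (35 / 32 : ℝ) * (1 - s ^ 2) ^ 3).intervalIntegrable _ _

theorem ker_int1 : ∫ s in (-1 : ℝ)..1, s * ker s = 0 := by
  have h1 : ∫ s in (-1 : ℝ)..1, s * ker s = ∫ s in (-1 : ℝ)..1, s * ((35 / 32) * (1 - s ^ 2) ^ 3) :=
    intervalIntegral.integral_congr fun s hs => by simp only [ker_poly hs]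
  rw [h1, intervalIntegral.integral_eq_sub_of_hasDerivAt
    (f := fun s : ℝ => (35 / 32) * (s ^ 2 / 2 - 3 / 4 * s ^ 4 + 1 / 2 * s ^ 6 - s ^ 8 / 8))]
  · norm_num
  · intro x _
    have h := ((((hasDerivAt_pow 2 x).div_const 2).sub ((hasDerivAt_pow 4 x).const_mul (3 / 4))).add
      ((hasDerivAt_pow 6 x).const_mul (1 / 2))).sub
      ((hasDerivAt_pow 8 x).div_const 8) |>.const_mul (35 / 32)
    refine hd_conv h (fun y => by simp) ?_
    norm_num
    ring
  · exact (by fun_prop : Continuous fun s : ℝ => s * ((35 / 32 : ℝ) * (1 - s ^ 2) ^ 3)).intervalIntegrable _ _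

theorem ker_int2 : ∫ s in (-1 : ℝ)..1, s ^ 2 * ker s = 1 / 9 := by
  have h1 : ∫ s in (-1 : ℝ)..1, s ^ 2 * ker s =
      ∫ s in (-1 : ℝ)..1, s ^ 2 * ((35 / 32) * (1 - s ^ 2) ^ 3) :=
    intervalIntegral.integral_congr fun s hs => by simp only [ker_poly hs]
  rw [h1, intervalIntegral.integral_eq_sub_of_hasDerivAt
    (f := fun s : ℝ => (35 / 32) * (s ^ 3 / 3 - 3 / 5 * s ^ 5 + 3 / 7 * s ^ 7 - s ^ 9 / 9))]
  · norm_num
  · intro x _
    have h := ((((hasDerivAt_pow 3 x).div_const 3).sub ((hasDerivAt_pow 5 x).const_mul (3 / 5))).add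
      ((hasDerivAt_pow 7 x).const_mul (3 / 7))).sub
      ((hasDerivAt_pow 9 x).div_const 9) |>.const_mul (35 / 32)
    refine hd_conv h (fun y => by simp) ?_
    norm_num
    ring
  · exact (by fun_prop : Continuous fun s : ℝ => s ^ 2 * ((35 / 32 : ℝ) * (1 - s ^ 2) ^ 3)).intervalIntegrable _ _

private theorem inner_hasDerivAt (s : ℝ) : HasDerivAt (fun s : ℝ => 1 - s ^ 2) (-(2 * s)) s := by
  have h := (hasDerivAt_const s (1 : ℝ)).sub (hasDerivAt_pow 2 s)
  exact hd_conv h (fun y => by simp) (by norm_num)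

private theorem mc_hasDerivAt (n : ℕ) (s : ℝ) :
    HasDerivAt (fun s : ℝ => (max (1 - s ^ 2) 0) ^ (n + 2))
      ((n + 2 : ℝ) * (max (1 - s ^ 2) 0) ^ (n + 1) * (-(2 * s))) s :=
  hd_conv ((mp_hasDerivAt n (1 - s ^ 2)).comp s (inner_hasDerivAt s)) (fun _ => rfl) rfl

theorem psi_hasDerivAt (s : ℝ) : HasDerivAt psi (-(s * ker s)) s := by
  have h : psi = fun s => (35 / 256) * (max (1 - s ^ 2) 0) ^ (2 + 2) := by
    funext s
    rw [psi_eq]
  rw [h]
  have h1 := (mc_hasDerivAt 2 s).const_mul (35 / 256)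
  refine hd_conv h1 (fun _ => rfl) ?_
  rw [ker_eq]
  push_cast
  ring

theorem psi_nonneg (s : ℝ) : 0 ≤ psi s := by
  rw [psi_eq]
  have := m_nonneg s
  positivity

theorem psi_le (s : ℝ) : psi s ≤ ker s / 8 := by
  rw [psi_eq, ker_eq]
  have h1 := m_nonneg s
  have h2 := m_le s
  have h3 : (max (1 - s ^ 2) 0) ^ 4 ≤ (max (1 - s ^ 2) 0) ^ 3 :=
    pow_le_pow_of_le_one h1 h2 (by norm_num)
  linarith

theorem psi_zero (s : ℝ) (hs : 1 ≤ |s|) : psi s = 0 := by
  rw [psi_eq]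
  have : 1 ≤ s ^ 2 := by
    have := sq_abs s
    nlinarith
  rw [max_eq_right (by linarith)]; simp

theorem psi_even (s : ℝ) : psi (-s) = psi s := by
  unfold psi
  simp

/-- Bounds for the first two derivatives of the kernel. -/
theorem ker_deriv_bound : ∃ C : ℝ, 0 < C ∧ ∀ s, |deriv ker s| ≤ C ∧ |deriv (deriv ker) s| ≤ C := by
  have hk : ker = fun s => (35 / 32) * (max (1 - s ^ 2) 0) ^ (1 + 2) := by
    funext s
    rw [ker_eq]
  have hd : deriv ker = fun s => -(105 / 16) * (s * (max (1 - s ^ 2) 0) ^ (0 + 2)) := by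
    funext s
    rw [hk]
    have h1 := (mc_hasDerivAt 1 s).const_mul (35 / 32)
    rw [h1.deriv]
    push_cast
    ring
  have hdd : ∀ s, deriv (deriv ker) s =
      -(105 / 16) * ((max (1 - s ^ 2) 0) ^ 2 - 4 * s ^ 2 * (max (1 - s ^ 2) 0)) := by
    intro s
    rw [hd]
    have h1 := ((hasDerivAt_id s).mul (mc_hasDerivAt 0 s)).const_mul (-(105 / 16))
    have h2 : HasDerivAt (fun s : ℝ => -(105 / 16) * (s * (max (1 - s ^ 2) 0) ^ (0 + 2)))
        (-(105 / 16) * ((max (1 - s ^ 2) 0) ^ 2 - 4 * s ^ 2 * (max (1 - s ^ 2) 0))) s := by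
      refine hd_conv h1 (fun _ => rfl) ?_
      simp only [id]
      push_cast
      ring
    exact h2.deriv
  refine ⟨50, by norm_num, fun s => ?_⟩
  have h1 := m_nonneg s
  have h2 := m_le s
  by_cases hs : |s| ≤ 1
  · have h3 : s ^ 2 ≤ 1 := (sq_le_one_iff_abs_le_one s).2 hs
    have h4 : 0 ≤ s ^ 2 := sq_nonneg s
    have h5 : (max (1 - s ^ 2) 0) ^ 2 ≤ 1 := pow_le_one₀ h1 h2
    have h6 : 0 ≤ (max (1 - s ^ 2) 0) ^ 2 := by positivity
    have h7 : s ^ 2 * max (1 - s ^ 2) 0 ≤ 1 := by nlinarith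
    have h8 : 0 ≤ s ^ 2 * max (1 - s ^ 2) 0 := by positivity
    constructor
    · rw [hd]
      simp only [abs_mul]
      have h9 : |(-(105 / 16) : ℝ)| = 105 / 16 := by rw [abs_neg]; exact abs_of_pos (by norm_num)
      rw [h9, abs_of_nonneg (by positivity : (0 : ℝ) ≤ (max (1 - s ^ 2) 0) ^ (0 + 2))]
      have h10 : |s| * (max (1 - s ^ 2) 0) ^ (0 + 2) ≤ 1 * 1 :=
        mul_le_mul hs h5 h6 (by norm_num)
      have h11 : (105 / 16 : ℝ) * (|s| * (max (1 - s ^ 2) 0) ^ (0 + 2)) ≤ 105 / 16 * (1 * 1) :=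
        mul_le_mul_of_nonneg_left h10 (by norm_num)
      calc (105 / 16 : ℝ) * (|s| * (max (1 - s ^ 2) 0) ^ (0 + 2)) ≤ 105 / 16 * (1 * 1) := h11
        _ ≤ 50 := by norm_num
    · rw [hdd, abs_le]
      constructor <;> nlinarith
  · have h3 : max (1 - s ^ 2) 0 = 0 := by
      have : 1 < s ^ 2 := by
        by_contra h2
        exact hs ((sq_le_one_iff_abs_le_one s).1 (not_lt.1 h2))
      exact max_eq_right (by linarith)
    constructor
    · rw [hd]; simp only [h3]; norm_num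
    · rw [hdd]; simp only [h3]; norm_num

end Pool.Agent.MP_4eca41
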