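import Pool.Agent.Work.MP_4eca41_an.Defs

/-!
# T8: C^1 and C^2 from continuous partial derivatives; second differences and second derivatives

PROOFS.  (t8_one) `g (p+h, t+k) - g (p, t) = [g (p+h, t+k) - g (p, t+k)] + [g (p, t+k) - g (p, t)]`; mean value
theorem in the first bracket: `= g1 (p + θ h, t + k) h`, and `g1` is continuous; the second is
`g2 (p, t) k + o(k)`.  So `g` has the Frechet derivative `v ↦ g1 v.1 + g2 v.2`, continuous on the open
set (all near points lie in a small box inside `U`).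
(t8_two) apply `t8_one` to `g`, `g1` and `g2`: `fderiv g = g1 • fst + g2 • snd` is C^1.
(t8_d2) for C^2 functions `D2 g v z = ∫ s in (0:ℝ)..1, ∫ ...` is not needed: use Taylor in one variable
for `s ↦ g (z + s v)`: its second derivative is `≥ m` on `[-1, 1]`, so `s ↦ g (z + s v) - m s^2/2` is
convex on `[-1, 1]`, and the midpoint inequality gives `D2 g v z ≥ m`.
-/

set_option autoImplicit false

open Set MeasureTheory

namespace Pool.Agent.MP_4eca41

private theorem t8_aux (U : Set (ℝ × ℝ)) (hU : IsOpen U) (g g1 g2 : ℝ × ℝ → ℝ)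
    (h1 : ∀ y ∈ U, HasDerivAt (fun p => g (p, y.2)) (g1 y) y.1)
    (h2 : ∀ y ∈ U, HasDerivAt (fun t => g (y.1, t)) (g2 y) y.2)
    (c1 : ContinuousOn g1 U) (c2 : ContinuousOn g2 U) (y : ℝ × ℝ) (hy : y ∈ U) :
    HasFDerivAt g
      ((g1 y) • ContinuousLinearMap.fst ℝ ℝ ℝ + (g2 y) • ContinuousLinearMap.snd ℝ ℝ ℝ) y := by
  have hn : U ∈ nhds y := hU.mem_nhds hy
  have k1 : ContinuousAt g1 y := c1.continuousAt hn
  have k2 : ContinuousAt g2 y := c2.continuousAt hn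
  have key := hasStrictFDerivAt_uncurry_coprod (𝕜 := ℝ) (u := y) (f := fun a b => g (a, b))
    (f₁ := fun a b => ContinuousLinearMap.toSpanSingleton ℝ (g1 (a, b)))
    (f₂ := fun a b => ContinuousLinearMap.toSpanSingleton ℝ (g2 (a, b)))
    (by
      filter_upwards [hn] with v hv
      exact (h1 v hv).hasFDerivAt)
    (by
      filter_upwards [hn] with v hv
      exact (h2 v hv).hasFDerivAt)
    ((ContinuousLinearMap.toSpanSingletonLIE ℝ ℝ).continuous.continuousAt.comp k1)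
    ((ContinuousLinearMap.toSpanSingletonLIE ℝ ℝ).continuous.continuousAt.comp k2)
  have e : ((g1 y) • ContinuousLinearMap.fst ℝ ℝ ℝ + (g2 y) • ContinuousLinearMap.snd ℝ ℝ ℝ) =
      (ContinuousLinearMap.toSpanSingleton ℝ (g1 y)).coprod
        (ContinuousLinearMap.toSpanSingleton ℝ (g2 y)) := by
    ext <;> simp
  rw [e]
  exact key.hasFDerivAt

theorem t8_one (U : Set (ℝ × ℝ)) (hU : IsOpen U) (g g1 g2 : ℝ × ℝ → ℝ)
    (h1 : ∀ y ∈ U, HasDerivAt (fun p => g (p, y.2)) (g1 y) y.1)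
    (h2 : ∀ y ∈ U, HasDerivAt (fun t => g (y.1, t)) (g2 y) y.2)
    (c1 : ContinuousOn g1 U) (c2 : ContinuousOn g2 U) :
    ContDiffOn ℝ 1 g U ∧ ∀ y ∈ U, HasFDerivAt g
      ((g1 y) • ContinuousLinearMap.fst ℝ ℝ ℝ + (g2 y) • ContinuousLinearMap.snd ℝ ℝ ℝ) y := by
  have key := t8_aux U hU g g1 g2 h1 h2 c1 c2
  refine ⟨?_, key⟩
  have e1 : (1 : WithTop ℕ∞) = 0 + 1 := by norm_num
  rw [e1, contDiffOn_succ_iff_fderiv_of_isOpen hU]
  refine ⟨fun y hy => (key y hy).differentiableAt.differentiableWithinAt, by simp, ?_⟩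
  rw [contDiffOn_zero]
  have hc : ContinuousOn (fun y => (g1 y) • ContinuousLinearMap.fst ℝ ℝ ℝ +
      (g2 y) • ContinuousLinearMap.snd ℝ ℝ ℝ) U :=
    (c1.smul continuousOn_const).add (c2.smul continuousOn_const)
  exact hc.congr fun y hy => (key y hy).fderiv

theorem t8_two (U : Set (ℝ × ℝ)) (hU : IsOpen U) (g g1 g2 g11 g12 g21 g22 : ℝ × ℝ → ℝ)
    (h1 : ∀ y ∈ U, HasDerivAt (fun p => g (p, y.2)) (g1 y) y.1)
    (h2 : ∀ y ∈ U, HasDerivAt (fun t => g (y.1, t)) (g2 y) y.2)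
    (h11 : ∀ y ∈ U, HasDerivAt (fun p => g1 (p, y.2)) (g11 y) y.1)
    (h12 : ∀ y ∈ U, HasDerivAt (fun t => g1 (y.1, t)) (g12 y) y.2)
    (h21 : ∀ y ∈ U, HasDerivAt (fun p => g2 (p, y.2)) (g21 y) y.1)
    (h22 : ∀ y ∈ U, HasDerivAt (fun t => g2 (y.1, t)) (g22 y) y.2)
    (c11 : ContinuousOn g11 U) (c12 : ContinuousOn g12 U)
    (c21 : ContinuousOn g21 U) (c22 : ContinuousOn g22 U) :
    ContDiffOn ℝ 2 g U := by
  obtain ⟨d1, -⟩ := t8_one U hU g1 g11 g12 h11 h12 c11 c12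
  obtain ⟨d2, -⟩ := t8_one U hU g2 g21 g22 h21 h22 c21 c22
  have key := t8_aux U hU g g1 g2 h1 h2 d1.continuousOn d2.continuousOn
  have e2 : (2 : WithTop ℕ∞) = 1 + 1 := by norm_num
  rw [e2, contDiffOn_succ_iff_fderiv_of_isOpen hU]
  refine ⟨fun y hy => (key y hy).differentiableAt.differentiableWithinAt, by simp, ?_⟩
  have hc : ContDiffOn ℝ 1 (fun y => (g1 y) • ContinuousLinearMap.fst ℝ ℝ ℝ +
      (g2 y) • ContinuousLinearMap.snd ℝ ℝ ℝ) U :=
    (d1.smul contDiffOn_const).add (d2.smul contDiffOn_const)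
  exact hc.congr fun y hy => (key y hy).fderiv

end Pool.Agent.MP_4eca41
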