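import Pool.Agent.Work.MP_4eca41_an.T.KDefs
import Pool.Agent.Work.MP_4eca41_an.T.Ker

/-!
# Facts on the kernel `phi2`

PROOF.  `ker` is `C^2` on the line: `ker s = (35/32) * (max (1 - s^2) 0)^3`, and `x ↦ (max x 0)^3` is `C^2` (its derivative is `3 (max x 0)^2`, the second one `6 max x 0`, continuous; at `0` all
difference quotients tend to `0`).  `ker ≥ 0`, even, zero for `1 ≤ |s|`, `∫ ker = ∫_{-1}^{1} (35/32)(1 - s^2)^3 = 1` (polynomial; restrict to `Icc (-1) 1`).
`phi2 s = 4 * (ker (2 s.1) * ker (2 s.2))`: products and compositions; zero if `1/2 ≤ |s.1|` or `1/2 ≤ |s.2|`; `1 ≤ sq s` implies one of them.  Integral: `integral_prod_mul` and the substitution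
`∫ ker (2 x) dx = 1/2`.  Moments: `∫ x * ker (2 x) = 0` (odd function, `integral_comp_neg...`), `m = 4 * (∫ x^2 ker (2 x)) * (∫ ker (2 x)) = 2 * ∫ x^2 ker (2 x) > 0`
(continuous, nonnegative, positive somewhere).  All integrands are continuous with compact support, hence integrable (`Continuous.integrable_of_hasCompactSupport`).
-/

set_option autoImplicit false

open Set MeasureTheory

namespace Pool.Agent.MP_4eca41.T

theorem phi2_contDiff : ContDiff ℝ 2 phi2 := by
  have h1 : ContDiff ℝ 2 (fun s : ℝ × ℝ => ker (2 * s.1)) :=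
    ker_contDiff.comp (by fun_prop : ContDiff ℝ 2 (fun s : ℝ × ℝ => 2 * s.1))
  have h2 : ContDiff ℝ 2 (fun s : ℝ × ℝ => ker (2 * s.2)) :=
    ker_contDiff.comp (by fun_prop : ContDiff ℝ 2 (fun s : ℝ × ℝ => 2 * s.2))
  exact contDiff_const.mul (h1.mul h2)

theorem phi2_nonneg (s : ℝ × ℝ) : 0 ≤ phi2 s := by
  unfold phi2
  have h1 := ker_nonneg (2 * s.1)
  have h2 := ker_nonneg (2 * s.2)
  positivity

theorem phi2_neg (s : ℝ × ℝ) : phi2 (-s) = phi2 s := by
  unfold phi2
  rw [Prod.fst_neg, Prod.snd_neg, mul_neg, mul_neg, ker_even, ker_even]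

theorem phi2_zero (s : ℝ × ℝ) (h : 1 / 2 ≤ |s.1| ∨ 1 / 2 ≤ |s.2|) : phi2 s = 0 := by
  unfold phi2
  have h2 : |(2 : ℝ)| = 2 := abs_of_pos (by norm_num)
  rcases h with h | h
  · rw [ker_zero (2 * s.1) (by rw [abs_mul, h2]; linarith)]
    ring
  · rw [ker_zero (2 * s.2) (by rw [abs_mul, h2]; linarith)]
    ring

theorem phi2_zero' (s : ℝ × ℝ) (h : 1 ≤ sq s) : phi2 s = 0 := by
  apply phi2_zero
  by_contra hcon
  push Not at hcon
  obtain ⟨h1, h2⟩ := hcon
  unfold sq at h
  have e1 := sq_abs s.1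
  have e2 := sq_abs s.2
  have e3 := abs_nonneg s.1
  have e4 := abs_nonneg s.2
  nlinarith

theorem phi2_compact : HasCompactSupport phi2 := by
  refine HasCompactSupport.intro (isCompact_Icc (a := ((-1, -1) : ℝ × ℝ)) (b := (1, 1))) ?_
  intro s hs
  apply phi2_zero
  by_contra hcon
  push Not at hcon
  obtain ⟨h1, h2⟩ := hcon
  apply hs
  rw [abs_lt] at h1 h2
  constructor
  · exact ⟨by simp only; linarith, by simp only; linarith⟩
  · exact ⟨by simp only; linarith, by simp only; linarith⟩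

theorem phi2_integrable : Integrable phi2 :=
  phi2_contDiff.continuous.integrable_of_hasCompactSupport phi2_compact

private theorem supp_sub (g : ℝ → ℝ) :
    Function.support (fun s => g s * ker s) ⊆ Ioc (-1 : ℝ) 1 := by
  intro s hs
  by_contra hcon
  apply hs
  have : 1 ≤ |s| := by
    by_contra h
    push Not at h
    rw [abs_lt] at h
    exact hcon ⟨h.1, h.2.le⟩
  simp only [ker_zero s this, mul_zero]

private theorem line_int (g : ℝ → ℝ) :
    ∫ x : ℝ, g (2 * x) * ker (2 * x) = (1 / 2) * ∫ x in (-1 : ℝ)..1, g x * ker x := by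
  rw [intervalIntegral.integral_eq_integral_of_support_subset (supp_sub g)]
  have h := Measure.integral_comp_mul_left (fun y : ℝ => g y * ker y) 2
  rw [h, smul_eq_mul, abs_of_pos (by norm_num : (0 : ℝ) < 2⁻¹)]
  norm_num

private theorem line0 : ∫ x : ℝ, ker (2 * x) = 1 / 2 := by
  have h := line_int (fun _ => 1)
  simp only [one_mul] at h
  rw [h, ker_int]
  norm_num

private theorem line1 : ∫ x : ℝ, x * ker (2 * x) = 0 := by
  have h := line_int (fun x => x)
  rw [ker_int1, mul_zero] at h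
  have h2 : ∫ x : ℝ, 2 * x * ker (2 * x) = 2 * ∫ x : ℝ, x * ker (2 * x) := by
    rw [← integral_const_mul]
    refine integral_congr_ae (Filter.Eventually.of_forall fun x => ?_)
    simp only
    ring
  rw [h2] at h
  linarith

private theorem line2 : ∫ x : ℝ, x ^ 2 * ker (2 * x) = 1 / 72 := by
  have h := line_int (fun x => x ^ 2)
  rw [ker_int2] at h
  have h2 : ∫ x : ℝ, (2 * x) ^ 2 * ker (2 * x) = 4 * ∫ x : ℝ, x ^ 2 * ker (2 * x) := by
    rw [← integral_const_mul]
    refine integral_congr_ae (Filter.Eventually.of_forall fun x => ?_)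
    simp only
    ring
  rw [h2] at h
  linarith

private theorem plane_int (g h : ℝ → ℝ) :
    ∫ s : ℝ × ℝ, g s.1 * h s.2 * phi2 s =
      4 * ((∫ x : ℝ, g x * ker (2 * x)) * ∫ x : ℝ, h x * ker (2 * x)) := by
  have e := integral_prod_mul (μ := (volume : Measure ℝ)) (ν := (volume : Measure ℝ))
    (fun x : ℝ => g x * ker (2 * x)) (fun x : ℝ => h x * ker (2 * x))
  rw [← e, ← Measure.volume_eq_prod, ← integral_const_mul]
  refine integral_congr_ae (Filter.Eventually.of_forall fun s => ?_)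
  simp only
  unfold phi2
  ring

theorem phi2_integral : ∫ s : ℝ × ℝ, phi2 s = 1 := by
  have h := plane_int (fun _ => 1) (fun _ => 1)
  simp only [one_mul] at h
  rw [h, line0]
  norm_num

theorem phi2_m1 : ∫ s : ℝ × ℝ, s.1 * phi2 s = 0 ∧ ∫ s : ℝ × ℝ, s.2 * phi2 s = 0 := by
  constructor
  · have h := plane_int (fun x => x) (fun _ => 1)
    simp only [one_mul, mul_one] at h
    rw [h, line0, line1]
    norm_num
  · have h := plane_int (fun _ => 1) (fun x => x)
    simp only [one_mul] at h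
    rw [h, line0, line1]
    norm_num

theorem phi2_m2 : ∃ m : ℝ, 0 < m ∧ ∫ s : ℝ × ℝ, s.1 ^ 2 * phi2 s = m ∧
    ∫ s : ℝ × ℝ, s.2 ^ 2 * phi2 s = m ∧ ∫ s : ℝ × ℝ, s.1 * s.2 * phi2 s = 0 := by
  refine ⟨1 / 36, by norm_num, ?_, ?_, ?_⟩
  · have h := plane_int (fun x => x ^ 2) (fun _ => 1)
    simp only [one_mul, mul_one] at h
    rw [h, line0, line2]
    norm_num
  · have h := plane_int (fun _ => 1) (fun x => x ^ 2)
    simp only [one_mul] at h
    rw [h, line0, line2]
    norm_num
  · have h := plane_int (fun x => x) (fun x => x)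
    rw [h, line1]
    norm_num

/-- `g * phi2` is integrable on every ball. -/
theorem phi2_int (g : ℝ × ℝ → ℝ) (hg : Continuous g) (z : ℝ × ℝ) (ρ : ℝ) :
    Integrable fun s : ℝ × ℝ => g (z + ρ • s) * phi2 s := by
  have h1 : Continuous fun s : ℝ × ℝ => g (z + ρ • s) * phi2 s :=
    (hg.comp (by fun_prop : Continuous fun s : ℝ × ℝ => z + ρ • s)).mul phi2_contDiff.continuous
  exact h1.integrable_of_hasCompactSupport phi2_compact.mul_left

end Pool.Agent.MP_4eca41.T
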