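import Pool.Agent.Work.MP_4eca41_an.T.MolC
import Pool.Agent.Work.MP_4eca41_an.T.Tay

/-!
# T6 (dimension 2): the second derivative estimate

STATEMENT FIXED (helper49).

PROOF.  Step 1 (scaling).  Let `r0 = r z`, `g' s = g (z + r0 • s)`, `r' u = r (z + r0 • u) / r0`.  Then `mol2 g r (z + r0 • u) = mol2 g' r' u`, `r' 0 = 1`, `‖fderiv r' 0‖ ≤ 1`,
`‖iteratedFDeriv ℝ 2 r' 0‖ = r0 ‖iteratedFDeriv ℝ 2 r z‖ ≤ 1`, `|g'| ≤ B` on the unit ball, and `‖iteratedFDeriv ℝ 2 (mol2 g r) z‖ = r0⁻² ‖iteratedFDeriv ℝ 2 (mol2 g' r') 0‖`.  So let `z = 0`, `r 0 = 1`.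
Step 2.  `Ψ (ρ, ζ) = (ρ^2)⁻¹ * phi2 (ρ⁻¹ • ζ)` is `C^2` on `{ρ > 0} × ℝ²` and vanishes for `ρ ≤ 2`, `‖ζ‖ ≥ 1`.  On the compact set `[1/2, 2] × closedBall 0 2` its first and second derivatives are bounded by a
constant `C₁` (depends on `phi2` only); so for `X, Y` in the convex set `[1/2, 2] × ℝ²`: `|Ψ X - Ψ Y| ≤ C₁ ‖X - Y‖` and `|Ψ (X + h) + Ψ (X - h) - 2 Ψ X| ≤ C₁ ‖h‖^2` (if `X ± h` are in the set).
Step 3.  For small `v`: `mol2 g r (±v) = ∫ y, g y * Ψ (r (±v), y ∓ v)` (substitution as in MolC, `phi2` even), `mol2 g r 0 = ∫ y, g y * Ψ (1, y)`; all integrands vanish for `‖y‖ ≥ 1` when `v` is small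
(support in `‖y ∓ v‖ ≤ r (±v) / 2 < 3/4`).  Put `X = (1, y)`, `h = ((r v - r (-v)) / 2, -v)`, `β = ((r v + r (-v)) / 2 - 1, 0) = (D2 r v 0 / 2, 0)`: `(r (±v), y ∓ v) = X ± h + β`.  By `tay1`, `tay2` (with `η = 1`): `‖h‖ ≤ 2 ‖v‖`
and `‖β‖ ≤ ‖v‖^2` for small `v`.  So `|Ψ (X+h+β) + Ψ (X-h+β) - 2 Ψ X| ≤ C₁ ‖h‖^2 + 2 C₁ ‖β‖ ≤ 6 C₁ ‖v‖^2`, and integrating over the unit ball (area 4): `|D2 (mol2 g r) v 0| ≤ 24 C₁ B ‖v‖^2` for small `v`.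
Step 4.  By `tay3` (with `m = 0`): `|iteratedFDeriv ℝ 2 F 0 ![v, v]| ≤ 24 C₁ B ‖v‖^2` for all `v` (`F = mol2 g r` is `C^2` at `0` by MolC); the bilinear form `A v w = iteratedFDeriv ℝ 2 F 0 ![v, w]` is symmetric
(`ContDiffAt.isSymmSndFDerivAt`), `4 A v w = A (v+w) (v+w) - A (v-w) (v-w)`, so `|A v w| ≤ 2 * 24 C₁ B` for `‖v‖, ‖w‖ ≤ 1`: `C = 48 C₁`.
-/

set_option autoImplicit false

open Set MeasureTheory

namespace Pool.Agent.MP_4eca41.T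

private theorem phi2_zero_norm (s : ℝ × ℝ) (h : 1 / 2 ≤ ‖s‖) : phi2 s = 0 := by
  apply phi2_zero
  rw [Prod.norm_def, le_max_iff] at h
  simpa [Real.norm_eq_abs] using h

/-- The kernel with its radius as a variable. -/
private noncomputable def Psi (X : ℝ × (ℝ × ℝ)) : ℝ := (X.1 ^ 2)⁻¹ * phi2 (X.1⁻¹ • X.2)

private theorem mol2_eq (g r : ℝ × ℝ → ℝ) (z : ℝ × ℝ) (hz : 0 < r z) :
    mol2 g r z = ∫ y : ℝ × ℝ, g y * Psi (r z, z - y) := by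
  have h1 := MeasureTheory.Measure.integral_comp_smul (volume : Measure (ℝ × ℝ))
    (fun x : ℝ × ℝ => g (z + x) * phi2 ((r z)⁻¹ • x)) (r z)
  have h2 : Module.finrank ℝ (ℝ × ℝ) = 2 := by simp
  have h3 : (fun x : ℝ × ℝ => g (z + r z • x) * phi2 ((r z)⁻¹ • (r z • x))) =
      fun x => g (z + r z • x) * phi2 x := by
    funext x
    rw [smul_smul, inv_mul_cancel₀ hz.ne', one_smul]
  rw [h3, h2] at h1
  have h4 := integral_add_left_eq_self (μ := (volume : Measure (ℝ × ℝ)))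
    (fun y : ℝ × ℝ => g y * phi2 ((r z)⁻¹ • (y - z))) z
  simp only [add_sub_cancel_left] at h4
  have h5 : |(r z ^ 2)⁻¹| = (r z ^ 2)⁻¹ := abs_of_pos (by positivity)
  unfold mol2
  rw [h1, h4, h5, smul_eq_mul, ← integral_const_mul]
  congr 1
  funext y
  have h6 : phi2 ((r z)⁻¹ • (y - z)) = phi2 ((r z)⁻¹ • (z - y)) := by
    rw [← phi2_neg, ← smul_neg, neg_sub]
  show (r z ^ 2)⁻¹ * (g y * phi2 ((r z)⁻¹ • (y - z))) =
    g y * ((r z ^ 2)⁻¹ * phi2 ((r z)⁻¹ • (z - y)))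
  rw [h6]
  ring

private theorem psi_zero (X : ℝ × (ℝ × ℝ)) (h0 : 0 < X.1) (h : X.1 / 2 ≤ ‖X.2‖) : Psi X = 0 := by
  have h1 : 1 / 2 ≤ ‖X.1⁻¹ • X.2‖ := by
    rw [norm_smul, norm_inv, Real.norm_eq_abs, abs_of_pos h0, inv_mul_eq_div, le_div_iff₀ h0]
    linarith
  show (X.1 ^ 2)⁻¹ * phi2 (X.1⁻¹ • X.2) = 0
  rw [phi2_zero_norm _ h1, mul_zero]

private theorem omega_open : IsOpen {X : ℝ × (ℝ × ℝ) | 0 < X.1} :=
  isOpen_lt continuous_const continuous_fst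

private theorem psi_contDiffOn : ContDiffOn ℝ 2 Psi {X : ℝ × (ℝ × ℝ) | 0 < X.1} := by
  have h1 : ContDiffOn ℝ 2 (fun X : ℝ × (ℝ × ℝ) => X.1) {X : ℝ × (ℝ × ℝ) | 0 < X.1} :=
    contDiffOn_fst
  have h0 : ∀ X ∈ {X : ℝ × (ℝ × ℝ) | 0 < X.1}, X.1 ≠ 0 := fun X hX => ne_of_gt hX
  have h3 : ContDiffOn ℝ 2 (fun X : ℝ × (ℝ × ℝ) => (X.1 ^ 2)⁻¹) {X : ℝ × (ℝ × ℝ) | 0 < X.1} :=
    (h1.pow 2).inv fun p hp' => pow_ne_zero 2 (h0 p hp')
  have h4 : ContDiffOn ℝ 2 (fun X : ℝ × (ℝ × ℝ) => X.1⁻¹ • X.2) {X : ℝ × (ℝ × ℝ) | 0 < X.1} :=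
    (h1.inv h0).smul contDiffOn_snd
  exact h3.mul (phi2_contDiff.comp_contDiffOn h4)

private theorem psi_d1 : ContDiffOn ℝ 1 (fderiv ℝ Psi) {X : ℝ × (ℝ × ℝ) | 0 < X.1} :=
  psi_contDiffOn.fderiv_of_isOpen omega_open (by norm_num)

private theorem psi_d2 :
    ContinuousOn (fderiv ℝ (fderiv ℝ Psi)) {X : ℝ × (ℝ × ℝ) | 0 < X.1} :=
  (psi_d1.fderiv_of_isOpen (m := 0) omega_open (by norm_num)).continuousOn

private theorem psi_bd : ∃ C : ℝ, 0 < C ∧ ∀ X : ℝ × (ℝ × ℝ), 1 / 2 ≤ X.1 → X.1 ≤ 2 →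
    ‖fderiv ℝ Psi X‖ ≤ C ∧ ‖fderiv ℝ (fderiv ℝ Psi) X‖ ≤ C := by
  have hK : IsCompact (Icc (1 / 2 : ℝ) 2 ×ˢ Metric.closedBall (0 : ℝ × ℝ) 2) :=
    isCompact_Icc.prod (isCompact_closedBall _ _)
  have hsub : Icc (1 / 2 : ℝ) 2 ×ˢ Metric.closedBall (0 : ℝ × ℝ) 2 ⊆
      {X : ℝ × (ℝ × ℝ) | 0 < X.1} := by
    rintro X ⟨h1, -⟩
    have h2 : (1 / 2 : ℝ) ≤ X.1 := h1.1
    show 0 < X.1
    linarith
  obtain ⟨C1, hC1⟩ := hK.exists_bound_of_continuousOn (psi_d1.continuousOn.mono hsub)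
  obtain ⟨C2, hC2⟩ := hK.exists_bound_of_continuousOn
    (f := fderiv ℝ (fderiv ℝ Psi)) (by exact psi_d2.mono hsub)
  refine ⟨max (max C1 C2) 1, by positivity, fun X h1 h2 => ?_⟩
  by_cases hX : ‖X.2‖ ≤ 2
  · have hXK : X ∈ Icc (1 / 2 : ℝ) 2 ×ˢ Metric.closedBall (0 : ℝ × ℝ) 2 :=
      ⟨⟨h1, h2⟩, by rw [Metric.mem_closedBall, dist_zero_right]; exact hX⟩
    exact ⟨(hC1 X hXK).trans ((le_max_left _ _).trans (le_max_left _ _)),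
      (hC2 X hXK).trans ((le_max_right _ _).trans (le_max_left _ _))⟩
  · have hopen : IsOpen {Y : ℝ × (ℝ × ℝ) | 0 < Y.1 ∧ Y.1 / 2 < ‖Y.2‖} :=
      omega_open.inter (isOpen_lt (continuous_fst.div_const 2) continuous_snd.norm)
    have hmem : X ∈ {Y : ℝ × (ℝ × ℝ) | 0 < Y.1 ∧ Y.1 / 2 < ‖Y.2‖} := by
      refine ⟨by linarith, ?_⟩
      push Not at hX
      linarith
    have e1 : Psi =ᶠ[nhds X] fun _ => (0 : ℝ) :=
      Filter.eventuallyEq_of_mem (hopen.mem_nhds hmem) fun Y hY => psi_zero Y hY.1 hY.2.le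
    have e2 : fderiv ℝ Psi =ᶠ[nhds X] fun _ => (0 : ℝ × (ℝ × ℝ) →L[ℝ] ℝ) := by
      refine e1.fderiv.trans (Filter.Eventually.of_forall fun Y => ?_)
      simp
    have e3 : fderiv ℝ (fderiv ℝ Psi) X = 0 := by
      rw [e2.fderiv_eq]
      simp
    have z1 : ‖fderiv ℝ Psi X‖ = 0 := by
      rw [e2.eq_of_nhds]
      exact norm_zero (E := ℝ × (ℝ × ℝ) →L[ℝ] ℝ)
    have z2 : ‖fderiv ℝ (fderiv ℝ Psi) X‖ = 0 := by
      rw [e3]
      exact norm_zero (E := ℝ × (ℝ × ℝ) →L[ℝ] (ℝ × (ℝ × ℝ) →L[ℝ] ℝ))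
    have z3 : (0 : ℝ) ≤ max (max C1 C2) 1 := zero_le_one.trans (le_max_right _ _)
    exact ⟨z1.le.trans z3, z2.le.trans z3⟩

private theorem strip_convex : Convex ℝ {X : ℝ × (ℝ × ℝ) | 1 / 2 ≤ X.1 ∧ X.1 ≤ 2} := by
  have h1 : {X : ℝ × (ℝ × ℝ) | 1 / 2 ≤ X.1 ∧ X.1 ≤ 2} =
      Icc (1 / 2 : ℝ) 2 ×ˢ (univ : Set (ℝ × ℝ)) := by
    ext X
    simp
  rw [h1]
  exact (convex_Icc _ _).prod convex_univ

private theorem psi_diff {X : ℝ × (ℝ × ℝ)} (h : 1 / 2 ≤ X.1 ∧ X.1 ≤ 2) :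
    DifferentiableAt ℝ Psi X ∧ DifferentiableAt ℝ (fderiv ℝ Psi) X := by
  have h0 : X ∈ {X : ℝ × (ℝ × ℝ) | 0 < X.1} := by
    show 0 < X.1
    linarith [h.1]
  exact ⟨(psi_contDiffOn.contDiffAt (omega_open.mem_nhds h0)).differentiableAt (by norm_num),
    (psi_d1.contDiffAt (omega_open.mem_nhds h0)).differentiableAt (by norm_num)⟩

/-- Bounds of the differences in the strip. -/
private theorem psi_strip : ∃ C : ℝ, 0 < C ∧
    (∀ X Y : ℝ × (ℝ × ℝ), (1 / 2 ≤ X.1 ∧ X.1 ≤ 2) → (1 / 2 ≤ Y.1 ∧ Y.1 ≤ 2) →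
      |Psi Y - Psi X| ≤ C * ‖Y - X‖) ∧
    ∀ X h : ℝ × (ℝ × ℝ), (1 / 2 ≤ X.1 ∧ X.1 ≤ 2) → (1 / 2 ≤ (X + h).1 ∧ (X + h).1 ≤ 2) →
      (1 / 2 ≤ (X - h).1 ∧ (X - h).1 ≤ 2) →
      |Psi (X + h) + Psi (X - h) - 2 * Psi X| ≤ C * ‖h‖ ^ 2 := by
  obtain ⟨C, hC, hb⟩ := psi_bd
  refine ⟨C, hC, fun X Y hX hY => ?_, fun X h hX hp hm => ?_⟩
  · have h1 := strip_convex.norm_image_sub_le_of_norm_fderiv_le (𝕜 := ℝ) (f := Psi) (C := C)
      (fun Z hZ => (psi_diff hZ).1) (fun Z hZ => (hb Z hZ.1 hZ.2).1) hX hY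
    simpa [Real.norm_eq_abs] using h1
  · -- the difference with step `h`
    set G : ℝ × (ℝ × ℝ) → ℝ := fun Y => Psi (Y + h) - Psi Y with hG
    set S : Set (ℝ × (ℝ × ℝ)) := {Y | (1 / 2 ≤ Y.1 ∧ Y.1 ≤ 2) ∧
      (1 / 2 ≤ (Y + h).1 ∧ (Y + h).1 ≤ 2)} with hS
    have hSc : Convex ℝ S := by
      have h1 : S = {X : ℝ × (ℝ × ℝ) | 1 / 2 ≤ X.1 ∧ X.1 ≤ 2} ∩
          (fun Y => Y + h) ⁻¹' {X : ℝ × (ℝ × ℝ) | 1 / 2 ≤ X.1 ∧ X.1 ≤ 2} := rfl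
      rw [h1]
      exact strip_convex.inter (strip_convex.translate_preimage_left h)
    have hd : ∀ Y ∈ S, HasFDerivAt G (fderiv ℝ Psi (Y + h) - fderiv ℝ Psi Y) Y := by
      intro Y hY
      have h1 : HasFDerivAt Psi (fderiv ℝ Psi (Y + h)) (Y + h) :=
        (psi_diff hY.2).1.hasFDerivAt
      have h2 : HasFDerivAt (fun Y => Psi (Y + h)) (fderiv ℝ Psi (Y + h)) Y := by
        have h30 : HasFDerivAt (fun Y : ℝ × (ℝ × ℝ) => Y + h)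
            (ContinuousLinearMap.id ℝ (ℝ × (ℝ × ℝ))) Y := (hasFDerivAt_id Y).add_const h
        have h3 := HasFDerivAt.comp (g := Psi) (f := fun Y : ℝ × (ℝ × ℝ) => Y + h) Y h1 h30
        rwa [ContinuousLinearMap.comp_id] at h3
      exact h2.sub (psi_diff hY.1).1.hasFDerivAt
    have hbd : ∀ Y ∈ S, ‖fderiv ℝ Psi (Y + h) - fderiv ℝ Psi Y‖ ≤ C * ‖h‖ := by
      intro Y hY
      have h1 := strip_convex.norm_image_sub_le_of_norm_fderiv_le (𝕜 := ℝ) (f := fderiv ℝ Psi)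
        (C := C) (fun Z hZ => (psi_diff hZ).2) (fun Z hZ => (hb Z hZ.1 hZ.2).2) hY.1 hY.2
      simpa using h1
    have hXS : X ∈ S := ⟨hX, hp⟩
    have hYS : X - h ∈ S := ⟨hm, by rw [sub_add_cancel]; exact hX⟩
    have h2 := hSc.norm_image_sub_le_of_norm_hasFDerivWithin_le
      (fun Y hY => (hd Y hY).hasFDerivWithinAt) hbd hYS hXS
    have h3 : G X - G (X - h) = Psi (X + h) + Psi (X - h) - 2 * Psi X := by
      simp only [hG, sub_add_cancel]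
      ring
    rw [h3, sub_sub_cancel, Real.norm_eq_abs] at h2
    calc |Psi (X + h) + Psi (X - h) - 2 * Psi X| ≤ C * ‖h‖ * ‖h‖ := h2
      _ = C * ‖h‖ ^ 2 := by ring

private theorem psi_scale (ρ : ℝ) (hρ : 0 < ρ) (X : ℝ × (ℝ × ℝ)) :
    Psi X = (ρ ^ 2)⁻¹ * Psi (ρ⁻¹ • X) := by
  show (X.1 ^ 2)⁻¹ * phi2 (X.1⁻¹ • X.2) =
    (ρ ^ 2)⁻¹ * (((ρ⁻¹ * X.1) ^ 2)⁻¹ * phi2 ((ρ⁻¹ * X.1)⁻¹ • (ρ⁻¹ • X.2)))
  have h1 : (ρ⁻¹ * X.1)⁻¹ • (ρ⁻¹ • X.2) = X.1⁻¹ • X.2 := by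
    rw [smul_smul]
    congr 1
    rw [mul_inv, inv_inv]
    field_simp
  have h2 : (X.1 ^ 2)⁻¹ = (ρ ^ 2)⁻¹ * ((ρ⁻¹ * X.1) ^ 2)⁻¹ := by
    rw [mul_pow, mul_inv, inv_pow, inv_inv]
    field_simp
  rw [h1, h2]
  ring

/-- The second difference which occurs in the mollification. -/
private theorem psi_second : ∃ C : ℝ, 0 < C ∧ ∀ (ρ b k : ℝ) (ζ v : ℝ × ℝ), 0 < ρ → |b| ≤ ρ / 4 →
    |k| ≤ ρ / 4 →
    |Psi (ρ + b + k, ζ + v) + Psi (ρ + b - k, ζ - v) - 2 * Psi (ρ, ζ)| ≤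
      C * (max |k| ‖v‖ ^ 2 / ρ ^ 4 + 2 * |b| / ρ ^ 3) := by
  obtain ⟨C, hC, h1, h2⟩ := psi_strip
  refine ⟨C, hC, fun ρ b k ζ v hρ hb hk => ?_⟩
  obtain ⟨hb1, hb2⟩ := abs_le.1 hb
  obtain ⟨hk1, hk2⟩ := abs_le.1 hk
  set X : ℝ × (ℝ × ℝ) := ρ⁻¹ • (ρ + b, ζ) with hX
  set X0 : ℝ × (ℝ × ℝ) := ρ⁻¹ • (ρ, ζ) with hX0
  set h : ℝ × (ℝ × ℝ) := ρ⁻¹ • (k, v) with hh
  have eX : X.1 = ρ⁻¹ * (ρ + b) := rfl
  have eX0 : X0.1 = ρ⁻¹ * ρ := rfl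
  have ep : (X + h).1 = ρ⁻¹ * (ρ + b) + ρ⁻¹ * k := rfl
  have em : (X - h).1 = ρ⁻¹ * (ρ + b) - ρ⁻¹ * k := rfl
  have hst : ∀ t : ℝ, ρ / 2 ≤ t → t ≤ 2 * ρ → 1 / 2 ≤ ρ⁻¹ * t ∧ ρ⁻¹ * t ≤ 2 := by
    intro t ht1 ht2
    rw [inv_mul_eq_div]
    constructor
    · rw [le_div_iff₀ hρ]
      linarith
    · rw [div_le_iff₀ hρ]
      linarith
  have sX : 1 / 2 ≤ X.1 ∧ X.1 ≤ 2 := by
    rw [eX]
    exact hst _ (by linarith) (by linarith)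
  have sX0 : 1 / 2 ≤ X0.1 ∧ X0.1 ≤ 2 := by
    rw [eX0]
    exact hst _ (by linarith) (by linarith)
  have sp : 1 / 2 ≤ (X + h).1 ∧ (X + h).1 ≤ 2 := by
    rw [ep, ← mul_add]
    exact hst _ (by linarith) (by linarith)
  have sm : 1 / 2 ≤ (X - h).1 ∧ (X - h).1 ≤ 2 := by
    rw [em, ← mul_sub]
    exact hst _ (by linarith) (by linarith)
  have h3 := h2 X h sX sp sm
  have h4 := h1 X0 X sX0 sX
  have g1 : Psi (ρ + b + k, ζ + v) = (ρ ^ 2)⁻¹ * Psi (X + h) := by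
    rw [psi_scale ρ hρ, hX, hh, ← smul_add]
    rfl
  have g2 : Psi (ρ + b - k, ζ - v) = (ρ ^ 2)⁻¹ * Psi (X - h) := by
    rw [psi_scale ρ hρ, hX, hh, ← smul_sub]
    rfl
  have g3 : Psi (ρ, ζ) = (ρ ^ 2)⁻¹ * Psi X0 := psi_scale ρ hρ _
  have n1 : ‖h‖ = ρ⁻¹ * max |k| ‖v‖ := by
    rw [hh, norm_smul, Real.norm_eq_abs, abs_of_pos (inv_pos.2 hρ), Prod.norm_def,
      Real.norm_eq_abs]
  have n2 : ‖X - X0‖ = ρ⁻¹ * |b| := by
    have e : X - X0 = ρ⁻¹ • ((b, 0) : ℝ × (ℝ × ℝ)) := by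
      rw [hX, hX0, ← smul_sub]
      congr 1
      ext <;> simp
    rw [e, norm_smul, Real.norm_eq_abs, abs_of_pos (inv_pos.2 hρ), Prod.norm_def]
    simp
  rw [n1] at h3
  rw [n2] at h4
  have e5 : Psi (ρ + b + k, ζ + v) + Psi (ρ + b - k, ζ - v) - 2 * Psi (ρ, ζ) =
      (ρ ^ 2)⁻¹ * ((Psi (X + h) + Psi (X - h) - 2 * Psi X) + 2 * (Psi X - Psi X0)) := by
    rw [g1, g2, g3]
    ring
  have hρ2 : 0 < (ρ ^ 2)⁻¹ := by positivity
  rw [e5, abs_mul, abs_of_pos hρ2]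
  have e6 : |(Psi (X + h) + Psi (X - h) - 2 * Psi X) + 2 * (Psi X - Psi X0)| ≤
      C * (ρ⁻¹ * max |k| ‖v‖) ^ 2 + 2 * (C * (ρ⁻¹ * |b|)) := by
    have e7 := abs_add_le (Psi (X + h) + Psi (X - h) - 2 * Psi X) (2 * (Psi X - Psi X0))
    rw [abs_mul 2, abs_of_pos (by norm_num : (0 : ℝ) < 2)] at e7
    linarith
  calc (ρ ^ 2)⁻¹ * |(Psi (X + h) + Psi (X - h) - 2 * Psi X) + 2 * (Psi X - Psi X0)|
      ≤ (ρ ^ 2)⁻¹ * (C * (ρ⁻¹ * max |k| ‖v‖) ^ 2 + 2 * (C * (ρ⁻¹ * |b|))) :=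
        mul_le_mul_of_nonneg_left e6 hρ2.le
    _ = C * (max |k| ‖v‖ ^ 2 / ρ ^ 4 + 2 * |b| / ρ ^ 3) := by
        field_simp

/-- The mollification as an integral over a fixed ball. -/
private theorem mol2_ball (g r : ℝ × ℝ → ℝ) (z v : ℝ × ℝ) (hz : 0 < r z)
    (h1 : |r (z + v) - r z| ≤ r z / 4) (h2 : ‖v‖ ≤ r z / 8) :
    mol2 g r (z + v) =
      ∫ y in Metric.closedBall z (r z), g y * Psi (r (z + v), z + v - y) := by
  obtain ⟨h3, h4⟩ := abs_le.1 h1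
  rw [mol2_eq g r (z + v) (by linarith)]
  refine (setIntegral_eq_integral_of_forall_compl_eq_zero fun y hy => ?_).symm
  rw [Metric.mem_closedBall, not_le, dist_eq_norm] at hy
  have h5 : ‖y - z‖ ≤ ‖z + v - y‖ + ‖v‖ := by
    have h6 : y - z = -(z + v - y) + v := by
      abel
    rw [h6]
    refine (norm_add_le _ _).trans ?_
    rw [norm_neg]
  rw [psi_zero (r (z + v), z + v - y) (by show 0 < r (z + v); linarith)
    (by show r (z + v) / 2 ≤ ‖z + v - y‖; linarith), mul_zero]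

private theorem psi_int (g : ℝ × ℝ → ℝ) (hg : Continuous g) (z w : ℝ × ℝ) (ρ R : ℝ) :
    IntegrableOn (fun y => g y * Psi (ρ, w - y)) (Metric.closedBall z R) := by
  have h1 : Continuous fun y : ℝ × ℝ => Psi (ρ, w - y) := by
    have h2 : Continuous phi2 := phi2_contDiff.continuous
    show Continuous fun y : ℝ × ℝ => (ρ ^ 2)⁻¹ * phi2 (ρ⁻¹ • (w - y))
    fun_prop
  exact (hg.mul h1).continuousOn.integrableOn_compact (isCompact_closedBall _ _)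

private theorem ball_vol (z : ℝ × ℝ) (R : ℝ) (hR : 0 < R) :
    (volume : Measure (ℝ × ℝ)).real (Metric.closedBall z R) = 4 * R ^ 2 := by
  have h1 : Metric.closedBall z R = Metric.closedBall z.1 R ×ˢ Metric.closedBall z.2 R := by
    rw [closedBall_prod_same]
  rw [h1, Measure.real, Measure.volume_eq_prod, Measure.prod_prod, Real.volume_closedBall,
    Real.volume_closedBall, ← ENNReal.ofReal_mul (by positivity), ENNReal.toReal_ofReal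
      (by positivity)]
  ring

private theorem bilin_bound (A : ℝ × ℝ →L[ℝ] ℝ × ℝ →L[ℝ] ℝ) (κ : ℝ)
    (hs : ∀ v w, A v w = A w v) (h : ∀ v, |A v v| ≤ κ * ‖v‖ ^ 2) (v w : ℝ × ℝ) :
    |A v w| ≤ 2 * κ * ‖v‖ * ‖w‖ := by
  have hκ : 0 ≤ κ := by
    have h1 := (abs_nonneg _).trans (h (1, 1))
    have h2 : ‖((1 : ℝ), (1 : ℝ))‖ = 1 := by simp [Prod.norm_def]
    rw [h2] at h1
    linarith
  rcases eq_or_ne v 0 with rfl | hv
  · simp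
  rcases eq_or_ne w 0 with rfl | hw
  · simp
  have hv' : 0 < ‖v‖ := norm_pos_iff.2 hv
  have hw' : 0 < ‖w‖ := norm_pos_iff.2 hw
  set a := ‖w‖ • v with ha
  set b := ‖v‖ • w with hb
  have na : ‖a‖ = ‖v‖ * ‖w‖ := by
    rw [ha, norm_smul, norm_norm]
    ring
  have nb : ‖b‖ = ‖v‖ * ‖w‖ := by
    rw [hb, norm_smul, norm_norm]
  have e1 : 4 * A a b = A (a + b) (a + b) - A (a - b) (a - b) := by
    simp only [map_add, map_sub, add_apply, sub_apply]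
    rw [hs b a]
    ring
  have e2 : A a b = ‖v‖ * ‖w‖ * A v w := by
    rw [ha, hb]
    simp only [map_smul, smul_apply, smul_eq_mul]
    ring
  have e3 : ‖a + b‖ ≤ 2 * (‖v‖ * ‖w‖) := by
    refine (norm_add_le _ _).trans ?_
    rw [na, nb]
    linarith
  have e4 : ‖a - b‖ ≤ 2 * (‖v‖ * ‖w‖) := by
    refine (norm_sub_le _ _).trans ?_
    rw [na, nb]
    linarith
  have e5 : |4 * A a b| ≤ 8 * κ * (‖v‖ * ‖w‖) ^ 2 := by
    rw [e1]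
    have f1 := h (a + b)
    have f2 := h (a - b)
    have f3 : ‖a + b‖ ^ 2 ≤ (2 * (‖v‖ * ‖w‖)) ^ 2 := pow_le_pow_left₀ (norm_nonneg _) e3 2
    have f4 : ‖a - b‖ ^ 2 ≤ (2 * (‖v‖ * ‖w‖)) ^ 2 := pow_le_pow_left₀ (norm_nonneg _) e4 2
    have f5 := abs_sub (A (a + b) (a + b)) (A (a - b) (a - b))
    have f6 := mul_le_mul_of_nonneg_left f3 hκ
    have f7 := mul_le_mul_of_nonneg_left f4 hκ
    nlinarith
  rw [e2, abs_mul, abs_mul, abs_of_pos (by norm_num : (0 : ℝ) < 4), abs_of_pos (mul_pos hv' hw')] at e5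
  have e6 : 0 < ‖v‖ * ‖w‖ := mul_pos hv' hw'
  have e7 : 4 * (‖v‖ * ‖w‖) * |A v w| ≤ 4 * (‖v‖ * ‖w‖) * (2 * κ * ‖v‖ * ‖w‖) := by
    calc 4 * (‖v‖ * ‖w‖) * |A v w| = 4 * (‖v‖ * ‖w‖ * |A v w|) := by ring
      _ ≤ 8 * κ * (‖v‖ * ‖w‖) ^ 2 := e5
      _ = 4 * (‖v‖ * ‖w‖) * (2 * κ * ‖v‖ * ‖w‖) := by ring
  exact le_of_mul_le_mul_left e7 (by positivity)

theorem mol2_bound : ∃ C : ℝ, 0 < C ∧ ∀ (g r : ℝ × ℝ → ℝ) (z : ℝ × ℝ) (B : ℝ), Continuous g →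
    ContDiffAt ℝ 2 r z → 0 < r z → ‖fderiv ℝ r z‖ ≤ 1 → r z * ‖iteratedFDeriv ℝ 2 r z‖ ≤ 1 →
    (∀ z' : ℝ × ℝ, ‖z' - z‖ ≤ r z → |g z'| ≤ B) →
    ‖iteratedFDeriv ℝ 2 (mol2 g r) z‖ ≤ C * B / r z ^ 2 := by
  obtain ⟨C, hC, hpsi⟩ := psi_second
  refine ⟨48 * C, by positivity, fun g r z B hg hr hz hd1 hd2 hB => ?_⟩
  set ρ := r z with hρ
  have hB0 : 0 ≤ B := (abs_nonneg _).trans (hB z (by simp [hz.le]))
  -- smoothness at the point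
  have hF : ContDiffAt ℝ 2 (mol2 g r) z := by
    have h1 : ∀ᶠ y in nhds z, ContDiffAt ℝ 2 r y ∧ 0 < r y :=
      (hr.eventually (by simp)).and (hr.continuousAt.eventually (lt_mem_nhds hz))
    obtain ⟨U, hU1, hU2, hU3⟩ := mem_nhds_iff.1 h1
    exact (mol2_contDiffOn g r hg U hU2 (fun y hy => (hU1 hy).1.contDiffWithinAt)
      fun y hy => (hU1 hy).2).contDiffAt (hU2.mem_nhds hU3)
  obtain ⟨ρ1, hρ1, ht1⟩ := tay1 r z hr 1 one_pos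
  obtain ⟨ρ2, hρ2, ht2⟩ := tay2 r z hr (1 / ρ) (by positivity)
  -- the second differences
  set δ := min (min ρ1 ρ2) (ρ / 16) with hδ
  have hδ0 : 0 < δ := lt_min (lt_min hρ1 hρ2) (by positivity)
  have hsec : ∀ v : ℝ × ℝ, 2 * ‖v‖ ^ 2 ≤ δ ^ 2 → ‖v‖ ≤ δ →
      |D2 (mol2 g r) v z| ≤ 24 * C * B / ρ ^ 2 * ‖v‖ ^ 2 := by
    intro v hv2 hv1
    have d1 : δ ≤ ρ1 := (min_le_left _ _).trans (min_le_left _ _)
    have d2 : δ ≤ ρ2 := (min_le_left _ _).trans (min_le_right _ _)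
    have d3 : δ ≤ ρ / 16 := min_le_right _ _
    have sqv : sq v ≤ δ ^ 2 := (sq_le_norm v).trans hv2
    have sqv' : sq (-v) ≤ δ ^ 2 := (sq_le_norm (-v)).trans (by rw [norm_neg]; exact hv2)
    have p1 : δ ^ 2 ≤ ρ1 ^ 2 := pow_le_pow_left₀ hδ0.le d1 2
    have p2 : δ ^ 2 ≤ ρ2 ^ 2 := pow_le_pow_left₀ hδ0.le d2 2
    have a1 : |r (z + v) - r z| ≤ 2 * ‖v‖ := by
      refine (ht1 v (sqv.trans p1)).trans ?_
      nlinarith [norm_nonneg v]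
    have a2 : |r (z + -v) - r z| ≤ 2 * ‖v‖ := by
      have := ht1 (-v) (sqv'.trans p1)
      rw [norm_neg] at this
      nlinarith [norm_nonneg v]
    have a3 : |D2 r v z| ≤ 2 / ρ * ‖v‖ ^ 2 := by
      have b1 := ht2 v (sqv.trans p2)
      have b2 : |iteratedFDeriv ℝ 2 r z ![v, v]| ≤ 1 / ρ * ‖v‖ ^ 2 := by
        have b3 := (iteratedFDeriv ℝ 2 r z).le_opNorm ![v, v]
        rw [Fin.prod_univ_two] at b3
        have b4 : ‖iteratedFDeriv ℝ 2 r z‖ ≤ 1 / ρ := by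
          rw [le_div_iff₀ hz, mul_comm]
          exact hd2
        rw [← Real.norm_eq_abs]
        refine b3.trans ?_
        show ‖iteratedFDeriv ℝ 2 r z‖ * (‖v‖ * ‖v‖) ≤ 1 / ρ * ‖v‖ ^ 2
        rw [← pow_two]
        exact mul_le_mul_of_nonneg_right b4 (by positivity)
      have b5 : D2 r v z = (D2 r v z - iteratedFDeriv ℝ 2 r z ![v, v]) +
        iteratedFDeriv ℝ 2 r z ![v, v] := by ring
      rw [b5]
      refine (abs_add_le _ _).trans ?_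
      calc |D2 r v z - iteratedFDeriv ℝ 2 r z ![v, v]| + |iteratedFDeriv ℝ 2 r z ![v, v]|
          ≤ 1 / ρ * ‖v‖ ^ 2 + 1 / ρ * ‖v‖ ^ 2 := add_le_add b1 b2
        _ = 2 / ρ * ‖v‖ ^ 2 := by ring
    set k := (r (z + v) - r (z + -v)) / 2 with hk
    set b := D2 r v z / 2 with hb
    have hD2 : D2 r v z = r (z + v) + r (z + -v) - 2 * r z := by
      unfold D2
      rw [sub_eq_add_neg z v]
    have ek : |k| ≤ 2 * ‖v‖ := by
      rw [hk, abs_div, abs_of_pos (by norm_num : (0 : ℝ) < 2), div_le_iff₀ (by norm_num)]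
      have c1 : r (z + v) - r (z + -v) = (r (z + v) - r z) - (r (z + -v) - r z) := by ring
      rw [c1]
      refine (abs_sub _ _).trans ?_
      linarith
    have eb : |b| ≤ ‖v‖ ^ 2 / ρ := by
      rw [hb, abs_div, abs_of_pos (by norm_num : (0 : ℝ) < 2), div_le_iff₀ (by norm_num)]
      calc |D2 r v z| ≤ 2 / ρ * ‖v‖ ^ 2 := a3
        _ = ‖v‖ ^ 2 / ρ * 2 := by ring
    have hvρ : ‖v‖ ≤ ρ / 16 := hv1.trans d3
    have hk4 : |k| ≤ ρ / 4 := by linarith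
    have hb4 : |b| ≤ ρ / 4 := by
      refine eb.trans ?_
      rw [div_le_iff₀ hz]
      nlinarith [norm_nonneg v]
    have r1 : r (z + v) = ρ + b + k := by
      rw [hb, hk, hD2, hρ]
      ring
    have r2 : r (z + -v) = ρ + b - k := by
      rw [hb, hk, hD2, hρ]
      ring
    have m1 := mol2_ball g r z v hz (by linarith) (by linarith)
    have m2 := mol2_ball g r z (-v) hz (by linarith) (by rw [norm_neg]; linarith)
    have m0 := mol2_ball g r z 0 hz (by simp; linarith) (by simp; linarith)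
    rw [add_zero] at m0
    have i1 := psi_int g hg z (z + v) (r (z + v)) (r z)
    have i2 := psi_int g hg z (z + -v) (r (z + -v)) (r z)
    have i0 := psi_int g hg z z (r z) (r z)
    have hD : D2 (mol2 g r) v z = ∫ y in Metric.closedBall z (r z),
        g y * (Psi (ρ + b + k, (z - y) + v) + Psi (ρ + b - k, (z - y) - v) -
          2 * Psi (ρ, z - y)) := by
      have e0 : D2 (mol2 g r) v z = mol2 g r (z + v) + mol2 g r (z + -v) - 2 * mol2 g r z := by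
        unfold D2
        rw [sub_eq_add_neg z v]
      have j1 : IntegrableOn (fun y => g y * Psi (r (z + v), z + v - y) +
          g y * Psi (r (z + -v), z + -v - y)) (Metric.closedBall z (r z)) := i1.add i2
      have j0 : IntegrableOn (fun y => 2 * (g y * Psi (r z, z - y)))
          (Metric.closedBall z (r z)) := i0.const_mul 2
      rw [e0, m1, m2, m0, ← integral_const_mul, ← integral_add i1 i2, ← integral_sub j1 j0]
      congr 1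
      funext y
      rw [r1, r2, ← hρ]
      have s1 : z + v - y = z - y + v := by abel
      have s2 : z + -v - y = z - y - v := by abel
      rw [s1, s2]
      ring
    have hfin : (volume : Measure (ℝ × ℝ)) (Metric.closedBall z (r z)) < ⊤ :=
      (isCompact_closedBall z (r z)).measure_lt_top
    have hbound : ∀ y ∈ Metric.closedBall z (r z),
        ‖g y * (Psi (ρ + b + k, (z - y) + v) + Psi (ρ + b - k, (z - y) - v) -
          2 * Psi (ρ, z - y))‖ ≤ B * (C * (6 * ‖v‖ ^ 2 / ρ ^ 4)) := by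
      intro y hy
      rw [Metric.mem_closedBall, dist_eq_norm] at hy
      rw [norm_mul, Real.norm_eq_abs, Real.norm_eq_abs]
      have f1 := hpsi ρ b k (z - y) v hz hb4 hk4
      have f2 : max |k| ‖v‖ ≤ 2 * ‖v‖ := max_le ek (by linarith [norm_nonneg v])
      have f3 : max |k| ‖v‖ ^ 2 ≤ 4 * ‖v‖ ^ 2 := by
        have f4 : 0 ≤ max |k| ‖v‖ := (norm_nonneg v).trans (le_max_right _ _)
        nlinarith
      have f5 : max |k| ‖v‖ ^ 2 / ρ ^ 4 + 2 * |b| / ρ ^ 3 ≤ 6 * ‖v‖ ^ 2 / ρ ^ 4 := by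
        have f6 : max |k| ‖v‖ ^ 2 / ρ ^ 4 ≤ 4 * ‖v‖ ^ 2 / ρ ^ 4 :=
          div_le_div_of_nonneg_right f3 (by positivity)
        have f7 : 2 * |b| / ρ ^ 3 ≤ 2 * (‖v‖ ^ 2 / ρ) / ρ ^ 3 :=
          div_le_div_of_nonneg_right (by linarith) (by positivity)
        have f8 : 2 * (‖v‖ ^ 2 / ρ) / ρ ^ 3 = 2 * ‖v‖ ^ 2 / ρ ^ 4 := by
          field_simp
        calc max |k| ‖v‖ ^ 2 / ρ ^ 4 + 2 * |b| / ρ ^ 3
            ≤ 4 * ‖v‖ ^ 2 / ρ ^ 4 + 2 * ‖v‖ ^ 2 / ρ ^ 4 := by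
              rw [f8] at f7
              exact add_le_add f6 f7
          _ = 6 * ‖v‖ ^ 2 / ρ ^ 4 := by ring
      exact mul_le_mul (hB y hy) (f1.trans (mul_le_mul_of_nonneg_left f5 hC.le)) (abs_nonneg _) hB0
    have hres := norm_setIntegral_le_of_norm_le_const hfin hbound
    rw [← hD, Real.norm_eq_abs, ball_vol z (r z) hz] at hres
    refine hres.trans (le_of_eq ?_)
    rw [← hρ]
    field_simp
    ring
  -- the quadratic form of the second derivative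
  have hquad : ∀ v : ℝ × ℝ, |iteratedFDeriv ℝ 2 (mol2 g r) z ![v, v]| ≤
      24 * C * B / ρ ^ 2 * ‖v‖ ^ 2 := by
    intro v
    have h1 := tay3 (mol2 g r) z v hF 0 (24 * C * B / ρ ^ 2 * ‖v‖ ^ 2)
      ⟨δ / (2 * (‖v‖ + 1)), by positivity, fun t ht0 ht => ?_⟩
    · simpa using h1
    · have h2 : t * (2 * (‖v‖ + 1)) ≤ δ := by
        rwa [le_div_iff₀ (by positivity)] at ht
      have h3 : ‖t • v‖ = t * ‖v‖ := by
        rw [norm_smul, Real.norm_eq_abs, abs_of_pos ht0]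
      have h4 : t * ‖v‖ ≤ δ / 2 := by nlinarith [norm_nonneg v]
      have h5 : 0 ≤ t * ‖v‖ := by positivity
      have h6 := hsec (t • v) (by rw [h3]; nlinarith) (by rw [h3]; linarith)
      rw [h3] at h6
      have h7 : D2 (mol2 g r) (t • v) z - 0 * t ^ 2 = D2 (mol2 g r) (t • v) z := by ring
      rw [h7]
      refine h6.trans (le_of_eq ?_)
      ring
  have hsymm : ∀ v w : ℝ × ℝ, fderiv ℝ (fderiv ℝ (mol2 g r)) z v w =
      fderiv ℝ (fderiv ℝ (mol2 g r)) z w v := fun v w =>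
    (hF.isSymmSndFDerivAt (by simp)) v w
  have hqA : ∀ v : ℝ × ℝ, |fderiv ℝ (fderiv ℝ (mol2 g r)) z v v| ≤
      24 * C * B / ρ ^ 2 * ‖v‖ ^ 2 := by
    intro v
    have h1 := hquad v
    rw [iteratedFDeriv_two_apply] at h1
    exact h1
  have hbil := bilin_bound _ _ hsymm hqA
  refine ContinuousMultilinearMap.opNorm_le_bound (by positivity) fun m => ?_
  rw [iteratedFDeriv_two_apply, Fin.prod_univ_two, Real.norm_eq_abs]
  refine (hbil (m 0) (m 1)).trans (le_of_eq ?_)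
  ring

end Pool.Agent.MP_4eca41.T
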