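import Mathlib

/-!
# T5, part A: class C^2 from partial derivatives

PROOF.  `contDiff_succ_iff_fderiv` / `contDiff_succ_iff_hasFDerivAt` twice.  `fderiv ℝ g = fun z => P z • fst + S z • snd`, which is `C^1` because `P`, `S` are `C^1`: each of them is differentiable with the
continuous derivative `fun z => a z • fst + b z • snd` (`contDiff_one_iff_fderiv`), and `z ↦ P z • L` is `C^1` for a fixed continuous linear map `L`.
-/

set_option autoImplicit false

open Set

namespace Pool.Agent.MP_4eca41.T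

private theorem c1_of_partials (g P S : ℝ × ℝ → ℝ)
    (h1 : ∀ z, HasFDerivAt g
      (P z • ContinuousLinearMap.fst ℝ ℝ ℝ + S z • ContinuousLinearMap.snd ℝ ℝ ℝ) z)
    (hP : Continuous P) (hS : Continuous S) : ContDiff ℝ 1 g := by
  rw [contDiff_one_iff_fderiv]
  refine ⟨fun z => (h1 z).differentiableAt, ?_⟩
  have : fderiv ℝ g = fun z =>
      P z • ContinuousLinearMap.fst ℝ ℝ ℝ + S z • ContinuousLinearMap.snd ℝ ℝ ℝ :=
    funext fun z => (h1 z).fderiv
  rw [this]
  exact (hP.smul continuous_const).add (hS.smul continuous_const)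

theorem c2_of_partials (g P S a b c : ℝ × ℝ → ℝ)
    (h1 : ∀ z, HasFDerivAt g
      (P z • ContinuousLinearMap.fst ℝ ℝ ℝ + S z • ContinuousLinearMap.snd ℝ ℝ ℝ) z)
    (h2 : ∀ z, HasFDerivAt P
      (a z • ContinuousLinearMap.fst ℝ ℝ ℝ + b z • ContinuousLinearMap.snd ℝ ℝ ℝ) z)
    (h3 : ∀ z, HasFDerivAt S
      (b z • ContinuousLinearMap.fst ℝ ℝ ℝ + c z • ContinuousLinearMap.snd ℝ ℝ ℝ) z)
    (ha : Continuous a) (hb : Continuous b) (hc : Continuous c) : ContDiff ℝ 2 g := by
  have hP : ContDiff ℝ 1 P := c1_of_partials P a b h2 ha hb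
  have hS : ContDiff ℝ 1 S := c1_of_partials S b c h3 hb hc
  have h : ContDiff ℝ (1 + 1) g := by
    rw [contDiff_succ_iff_fderiv]
    refine ⟨fun z => (h1 z).differentiableAt, by simp, ?_⟩
    have : fderiv ℝ g = fun z =>
        P z • ContinuousLinearMap.fst ℝ ℝ ℝ + S z • ContinuousLinearMap.snd ℝ ℝ ℝ :=
      funext fun z => (h1 z).fderiv
    rw [this]
    exact (hP.smul contDiff_const).add (hS.smul contDiff_const)
  rwa [one_add_one_eq_two] at h

end Pool.Agent.MP_4eca41.T
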