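import Mathlib

/-!
# T4, first part: smooth cut-off functions with derivative bounds

PROOF.  It is enough to treat `δ = 1`: if `χ'` is the function for `δ = 1` and the set `{z | δ • z ∈ S}` (closed), put
`χ z = χ' (δ⁻¹ • z)`; `fderiv χ z = δ⁻¹ • fderiv χ' (δ⁻¹ • z)`, `‖iteratedFDeriv ℝ 2 χ z‖ = δ⁻² ‖iteratedFDeriv ℝ 2 χ' (δ⁻¹ • z)‖`
(composition with the linear map `δ⁻¹ • id`), and `ball (δ⁻¹ • z) 1 = δ⁻¹ • ball z δ`.
`δ = 1`: `borelize E`, `μ = MeasureTheory.Measure.addHaar`; `φ : ContDiffBump (0 : E)` with `rIn = 1/2`, `rOut = 1`, `φ.normed μ` is smooth, nonnegative, has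
support `ball 0 1` and integral one.  Put `χ' = (S.indicator 1) ⋆[lsmul ℝ ℝ, μ] (φ.normed μ)`.  It is smooth
(`HasCompactSupport.contDiff_convolution_right`), `χ' z = ∫ t, S.indicator 1 t * φ.normed μ (z - t)` is between `0` and `1`, is `1`
if `ball z 1 ⊆ S` and `0` if `ball z 1` is disjoint from `S`.  Its derivative is the convolution of `S.indicator 1` with
`fderiv ℝ (φ.normed μ)` (`HasCompactSupport.hasFDerivAt_convolution_right`), so it is bounded by
`∫ ‖fderiv ℝ (φ.normed μ)‖`; once more: the second derivative is the convolution with the second derivative of the bump, bounded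
by `∫ ‖fderiv ℝ (fderiv ℝ (φ.normed μ))‖`.  `C` = the maximum of `1` and the two integrals (do not depend on `S`).
(Alternative for the second derivative: `‖fderiv χ' z - fderiv χ' z'‖ ≤ C ‖z - z'‖` from the formula of the first derivative, because
`fderiv (φ.normed μ)` is Lipschitz with compact support; then `‖fderiv (fderiv χ') z‖ ≤ C` by `norm_fderiv_le_of_lip`.)
-/

set_option autoImplicit false

open Set Metric
open scoped ContDiff

namespace Pool.Agent.MP_4eca41.T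

open MeasureTheory in
private theorem ind_conv_bd {E F F' : Type*} [NormedAddCommGroup E] [NormedSpace ℝ E]
    [FiniteDimensional ℝ E] [MeasurableSpace E] [BorelSpace E] (μ : Measure E)
    [μ.IsAddHaarMeasure] [NormedAddCommGroup F] [NormedSpace ℝ F] [NormedAddCommGroup F']
    [NormedSpace ℝ F'] (L : ℝ →L[ℝ] F →L[ℝ] F') {g : E → F}
    (hg : Continuous g) (hc : HasCompactSupport g) :
    ∃ c : ℝ, 0 ≤ c ∧ ∀ f : E → ℝ, (∀ t, |f t| ≤ 1) → ∀ x, ‖(convolution f g L μ) x‖ ≤ c := by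
  have hi : Integrable (fun t => ‖g t‖) μ := (hg.integrable_of_hasCompactSupport hc).norm
  refine ⟨‖L‖ * ∫ t, ‖g t‖ ∂μ, mul_nonneg (norm_nonneg L)
    (integral_nonneg fun t => norm_nonneg (g t)), fun f hf x => ?_⟩
  have h1 : ∫ t, ‖g (x - t)‖ ∂μ = ∫ t, ‖g t‖ ∂μ :=
    integral_sub_left_eq_self (fun t => ‖g t‖) μ x
  rw [← h1, ← integral_const_mul]
  unfold convolution
  refine norm_integral_le_of_norm_le ((hi.comp_sub_left x).const_mul ‖L‖) (ae_of_all _ fun t => ?_)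
  calc ‖L (f t) (g (x - t))‖ ≤ ‖L (f t)‖ * ‖g (x - t)‖ := (L (f t)).le_opNorm _
    _ ≤ (‖L‖ * ‖f t‖) * ‖g (x - t)‖ :=
        mul_le_mul_of_nonneg_right (L.le_opNorm _) (norm_nonneg _)
    _ ≤ (‖L‖ * 1) * ‖g (x - t)‖ := by
        apply mul_le_mul_of_nonneg_right _ (norm_nonneg _)
        exact mul_le_mul_of_nonneg_left (hf t) (norm_nonneg L)
    _ = ‖L‖ * ‖g (x - t)‖ := by ring

open MeasureTheory in
private theorem ind_step {E F F' : Type*} [NormedAddCommGroup E] [NormedSpace ℝ E]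
    [FiniteDimensional ℝ E] [MeasurableSpace E] [BorelSpace E] (μ : Measure E)
    [μ.IsAddHaarMeasure] [NormedAddCommGroup F] [NormedSpace ℝ F] [NormedAddCommGroup F']
    [NormedSpace ℝ F'] (L : ℝ →L[ℝ] F →L[ℝ] F') {g : E → F}
    (hg : ContDiff ℝ 1 g) (hc : HasCompactSupport g) :
    ∃ c : ℝ, 0 ≤ c ∧ ∀ f : E → ℝ, (∀ t, |f t| ≤ 1) → LocallyIntegrable f μ →
      fderiv ℝ (convolution f g L μ) = convolution f (fderiv ℝ g) (L.precompR E) μ ∧
        ∀ x, ‖fderiv ℝ (convolution f g L μ) x‖ ≤ c := by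
  obtain ⟨c, hc0, hb⟩ := ind_conv_bd μ (L.precompR E) (hg.continuous_fderiv one_ne_zero)
    (hc.fderiv ℝ)
  refine ⟨c, hc0, fun f hf hfl => ?_⟩
  have h1 : fderiv ℝ (convolution f g L μ) = convolution f (fderiv ℝ g) (L.precompR E) μ := by
    funext z
    exact (hc.hasFDerivAt_convolution_right L hfl hg z).fderiv
  refine ⟨h1, fun x => ?_⟩
  rw [h1]
  exact hb f hf x

open MeasureTheory in
private theorem ind_one (E : Type*) [NormedAddCommGroup E] [NormedSpace ℝ E]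
    [FiniteDimensional ℝ E] :
    ∃ C : ℝ, 0 < C ∧ ∀ S : Set E, IsClosed S →
      ∃ χ : E → ℝ, ContDiff ℝ ∞ χ ∧ (∀ z, 0 ≤ χ z ∧ χ z ≤ 1) ∧ (∀ z, ball z 1 ⊆ S → χ z = 1) ∧
        (∀ z, Disjoint (ball z 1) S → χ z = 0) ∧ (∀ z, ‖fderiv ℝ χ z‖ ≤ C) ∧
        ∀ z, ‖iteratedFDeriv ℝ 2 χ z‖ ≤ C := by
  borelize E
  set μ : Measure E := Measure.addHaar with hμ
  let φ : ContDiffBump (0 : E) := ⟨1 / 2, 1, by norm_num, by norm_num⟩
  set K : E → ℝ := φ.normed μ with hK
  have hK0 : ∀ x, 0 ≤ K x := φ.nonneg_normed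
  have hKs : ∀ x, x ∉ ball (0 : E) 1 → K x = 0 := by
    intro x hx
    by_contra h
    have : x ∈ Function.support K := h
    rw [hK, φ.support_normed_eq] at this
    exact hx this
  have hKc : HasCompactSupport K := φ.hasCompactSupport_normed
  have hKd : ∀ n : ℕ∞, ContDiff ℝ n K := fun n => φ.contDiff_normed
  have hKi : ∫ x, K x ∂μ = 1 := φ.integral_normed
  have hKint : Integrable K μ := φ.integrable_normed
  have hdd : ContDiff ℝ 1 (fderiv ℝ K) := (hKd 2).fderiv_right (by norm_num)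
  have hc1 : HasCompactSupport (fderiv ℝ K) := hKc.fderiv ℝ
  obtain ⟨c1, hc1n, hb1⟩ := ind_step μ (ContinuousLinearMap.lsmul ℝ ℝ) (hKd 1) hKc
  obtain ⟨c2, hc2n, hb2⟩ := ind_step μ
    ((ContinuousLinearMap.lsmul ℝ ℝ : ℝ →L[ℝ] ℝ →L[ℝ] ℝ).precompR E) hdd hc1
  refine ⟨1 + c1 + c2, by linarith, fun S hS => ?_⟩
  set f : E → ℝ := S.indicator (fun _ => (1 : ℝ)) with hf
  have hfl : LocallyIntegrable f μ := (locallyIntegrable_const (1 : ℝ)).indicator hS.measurableSet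
  have hf1 : ∀ t ∈ S, f t = 1 := fun t ht => by rw [hf, indicator_of_mem ht]
  have hf0 : ∀ t, t ∉ S → f t = 0 := fun t ht => by rw [hf, indicator_of_notMem ht]
  have hfn : ∀ t, 0 ≤ f t ∧ f t ≤ 1 := by
    intro t
    by_cases ht : t ∈ S
    · rw [hf1 t ht]
      norm_num
    · rw [hf0 t ht]
      norm_num
  have hfa : ∀ t, |f t| ≤ 1 := fun t => abs_le.2 ⟨by linarith [(hfn t).1], (hfn t).2⟩
  have hval : ∀ z, (convolution f K (ContinuousLinearMap.lsmul ℝ ℝ) μ) z = ∫ t, f t * K (z - t) ∂μ := fun z => rfl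
  have hKz : ∀ z, ∫ t, K (z - t) ∂μ = 1 := by
    intro z
    rw [← hKi]
    exact integral_sub_left_eq_self K μ z
  have hKzi : ∀ z, Integrable (fun t => K (z - t)) μ := fun z => hKint.comp_sub_left z
  have hout : ∀ z t, t ∉ ball z 1 → K (z - t) = 0 := by
    intro z t ht
    apply hKs
    intro h
    apply ht
    rw [mem_ball_zero_iff] at h
    rw [mem_ball, dist_comm, dist_eq_norm]
    exact h
  obtain ⟨hfd, hfb⟩ := hb1 f hfa hfl
  have hfb2 := (hb2 f hfa hfl).2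
  refine ⟨convolution f K (ContinuousLinearMap.lsmul ℝ ℝ) μ, ?_, ?_, ?_, ?_, ?_, ?_⟩
  · rw [contDiff_infty]
    intro n
    exact hKc.contDiff_convolution_right (n := n) _ hfl (hKd n)
  · intro z
    rw [hval]
    constructor
    · exact integral_nonneg fun t => mul_nonneg (hfn t).1 (hK0 _)
    · rw [← hKz z]
      apply integral_mono_of_nonneg (ae_of_all _ fun t => mul_nonneg (hfn t).1 (hK0 _)) (hKzi z)
      refine ae_of_all _ fun t => ?_
      calc f t * K (z - t) ≤ 1 * K (z - t) := mul_le_mul_of_nonneg_right (hfn t).2 (hK0 _)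
        _ = K (z - t) := one_mul _
  · intro z hz
    rw [hval, ← hKz z]
    congr 1
    funext t
    by_cases ht : t ∈ ball z 1
    · rw [hf1 t (hz ht), one_mul]
    · rw [hout z t ht, mul_zero]
  · intro z hz
    rw [hval]
    have : ∀ t, f t * K (z - t) = 0 := by
      intro t
      by_cases ht : t ∈ ball z 1
      · rw [hf0 t (disjoint_left.1 hz ht), zero_mul]
      · rw [hout z t ht, mul_zero]
    simp only [this, integral_zero]
  · intro z
    have := hfb z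
    linarith
  · intro z
    rw [← norm_iteratedFDeriv_fderiv (n := 1), norm_iteratedFDeriv_one, hfd]
    have := hfb2 z
    linarith

theorem ind (E : Type*) [NormedAddCommGroup E] [NormedSpace ℝ E] [FiniteDimensional ℝ E] :
    ∃ C : ℝ, 0 < C ∧ ∀ (δ : ℝ), 0 < δ → ∀ S : Set E, IsClosed S →
      ∃ χ : E → ℝ, ContDiff ℝ ∞ χ ∧ (∀ z, 0 ≤ χ z ∧ χ z ≤ 1) ∧ (∀ z, ball z δ ⊆ S → χ z = 1) ∧
        (∀ z, Disjoint (ball z δ) S → χ z = 0) ∧ (∀ z, ‖fderiv ℝ χ z‖ ≤ C / δ) ∧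
        ∀ z, ‖iteratedFDeriv ℝ 2 χ z‖ ≤ C / δ ^ 2 := by
  obtain ⟨C, hC, h⟩ := ind_one E
  refine ⟨C, hC, fun δ hδ S hS => ?_⟩
  have hS' : IsClosed ((fun z : E => δ • z) ⁻¹' S) := hS.preimage (continuous_const_smul δ)
  obtain ⟨χ, h1, h2, h3, h4, h5, h6⟩ := h _ hS'
  have hball : ∀ z w : E, w ∈ ball (δ⁻¹ • z) 1 → δ • w ∈ ball z δ := by
    intro z w hw
    rw [mem_ball, dist_eq_norm] at hw ⊢
    have : δ • w - z = δ • (w - δ⁻¹ • z) := by
      rw [smul_sub, smul_smul, mul_inv_cancel₀ hδ.ne', one_smul]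
    rw [this, norm_smul, Real.norm_eq_abs, abs_of_pos hδ]
    nlinarith
  refine ⟨fun z => χ (δ⁻¹ • z), ?_, ?_, ?_, ?_, ?_, ?_⟩
  · exact h1.comp (contDiff_const_smul δ⁻¹)
  · intro z
    exact h2 _
  · intro z hz
    exact h3 _ fun w hw => hz (hball z w hw)
  · intro z hz
    exact h4 _ (disjoint_left.2 fun w hw hw' => disjoint_left.1 hz (hball z w hw) hw')
  · intro z
    have e : fderiv ℝ (fun z => χ (δ⁻¹ • z)) z = δ⁻¹ • fderiv ℝ χ (δ⁻¹ • z) :=
      fderiv_comp_smul δ⁻¹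
    rw [e, norm_smul, norm_inv, Real.norm_eq_abs, abs_of_pos hδ, div_eq_inv_mul]
    exact mul_le_mul_of_nonneg_left (h5 _) (by positivity)
  · intro z
    have e := iteratedFDeriv_comp_const_smul (i := 2) δ⁻¹ (h1.of_le (WithTop.coe_le_coe.2 le_top))
    rw [e]
    simp only
    rw [norm_smul, norm_pow, norm_inv, Real.norm_eq_abs, abs_of_pos hδ, div_eq_inv_mul, inv_pow]
    exact mul_le_mul_of_nonneg_left (h6 _) (by positivity)

end Pool.Agent.MP_4eca41.T
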