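import Pool.Agent.Work.MP_4eca41_an.Defs

/-!
# The kernel and the mollification with variable radius in the plane.  FIXED definitions.
-/

set_option autoImplicit false

open Set MeasureTheory

namespace Pool.Agent.MP_4eca41.T

/-- The kernel in the plane, supported in the square `|s.1| ≤ 1/2`, `|s.2| ≤ 1/2`: of class `C^2`, nonnegative, even in
each variable, integral one. -/
noncomputable def phi2 (s : ℝ × ℝ) : ℝ := 4 * (ker (2 * s.1) * ker (2 * s.2))

/-- Mollification of `g` with variable radius `r`. -/
noncomputable def mol2 (g r : ℝ × ℝ → ℝ) (z : ℝ × ℝ) : ℝ := ∫ s : ℝ × ℝ, g (z + r z • s) * phi2 s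

end Pool.Agent.MP_4eca41.T
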