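import Pool.Agent.Work.MP_4eca41_an.T.Ker

/-!
# One-dimensional mollification with variable radius

PROOF of `mol_second`.  Let `k (r, v) = ker (v / r) / r` for `r > 0`: C^2 on `{r > 0}`, `k (r, v) = 0` for
`|v| ≥ r`.  By the substitution `u = x + ρ s`: `mol ρ g x = ∫ u, g u * k (ρ x, u - x)` (over the line).
Differentiate under the integral sign (the integrand is C^2 in `x`, supported in a fixed compact
interval for `x` near `x0`): `m1 x = ∫ g u (k_r ρ1 x - k_v)`, `m2 x = ∫ g u (k_rr ρ1^2 - 2 k_rv ρ1 + k_vv + k_r ρ2)` at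
`(ρ x, u - x)`.  By homogeneity `|k_r|, |k_v| ≤ C r^(-2)`, `|k_rr|, |k_rv|, |k_vv| ≤ C r^(-3)` (with `|v| ≤ r`),
so with `|ρ1| ≤ 1`, `ρ |ρ2| ≤ 1` and the length `2 ρ` of the domain of integration
`|m1 x| ≤ 2ρ B · 2C ρ^(-2)`, `|m2 x| ≤ 2ρ B (4C ρ^(-3) + C ρ^(-2) |ρ2|) ≤ 10 C B ρ^(-2)`.
(`mol_poly`): `∫ (α + β (x+ρ s) + γ (x + ρ s)^2) ker = α + β x + γ x^2 + γ ρ^2/9`.
(`mol_le`): Jensen for the even kernel: `g (x + r s) + g (x - r s) ≤ 2 g x` for concave `g`.
-/

set_option autoImplicit false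

open Set MeasureTheory

namespace Pool.Agent.MP_4eca41

/-- Average of `g` around `x` with radius `ρ x`. -/
noncomputable def mol (ρ g : ℝ → ℝ) (x : ℝ) : ℝ := ∫ s in (-1 : ℝ)..1, g (x + ρ x * s) * ker s

private noncomputable def am (ρ g φ : ℝ → ℝ) (x : ℝ) : ℝ :=
  ∫ s in (-1 : ℝ)..1, g (x + ρ x * s) * φ s

private theorem am_contOn {ρ g φ : ℝ → ℝ} {U : Set ℝ} (hg : Continuous g) (hφ : Continuous φ)
    (hρ : ContinuousOn ρ U) : ContinuousOn (am ρ g φ) U := by
  rw [continuousOn_iff_continuous_domRestrict] at hρ ⊢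
  have hρ' : Continuous fun x : U => ρ x := hρ
  show Continuous fun x : U => ∫ s in (-1 : ℝ)..1, g ((x : ℝ) + ρ x * s) * φ s
  apply intervalIntegral.continuous_parametric_intervalIntegral_of_continuous'
  show Continuous fun p : U × ℝ => g ((p.1 : ℝ) + ρ p.1 * p.2) * φ p.2
  have e1 : Continuous fun p : U × ℝ => ρ p.1 := hρ'.comp continuous_fst
  have e2 : Continuous fun p : U × ℝ => (p.1 : ℝ) := continuous_subtype_val.comp continuous_fst
  exact (hg.comp (e2.add (e1.mul continuous_snd))).mul (hφ.comp continuous_snd)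

private theorem am_bound {ρ g φ : ℝ → ℝ} {x B C : ℝ} (hρ : 0 < ρ x) (_hC : 0 ≤ C)
    (hφ : ∀ s, |s| ≤ 1 → |φ s| ≤ C) (hB : ∀ u, |u - x| ≤ ρ x → |g u| ≤ B) :
    |am ρ g φ x| ≤ 2 * B * C := by
  have h1 : ∀ s ∈ Set.uIoc (-1 : ℝ) 1, ‖g (x + ρ x * s) * φ s‖ ≤ B * C := by
    intro s hs
    rw [Set.uIoc_of_le (by norm_num)] at hs
    have hs1 : |s| ≤ 1 := abs_le.mpr ⟨hs.1.le, hs.2⟩
    have h2 : |g (x + ρ x * s)| ≤ B := by
      apply hB
      have h3 : x + ρ x * s - x = ρ x * s := by ring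
      rw [h3, abs_mul, abs_of_pos hρ]
      nlinarith
    rw [Real.norm_eq_abs, abs_mul]
    exact mul_le_mul h2 (hφ s hs1) (abs_nonneg _) ((abs_nonneg _).trans h2)
  have h2 := intervalIntegral.norm_integral_le_of_norm_le_const h1
  rw [Real.norm_eq_abs] at h2
  have h3 : |(1 : ℝ) - (-1)| = 2 := by norm_num
  rw [h3] at h2
  show |∫ s in (-1 : ℝ)..1, g (x + ρ x * s) * φ s| ≤ 2 * B * C
  linarith

private theorem am_hasDerivAt {ρ g φ φ' ρ1 : ℝ → ℝ} {U : Set ℝ} (hU : IsOpen U)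
    (hg : Continuous g) (hφ : ∀ s, HasDerivAt φ (φ' s) s) (hφ' : Continuous φ') (h1 : φ 1 = 0)
    (h2 : φ (-1) = 0) (hpos : ∀ x ∈ U, 0 < ρ x) (hρ : ∀ x ∈ U, HasDerivAt ρ (ρ1 x) x)
    (hρ1 : ∀ x ∈ U, |ρ1 x| ≤ 1) {x : ℝ} (hx : x ∈ U) :
    HasDerivAt (am ρ g φ)
      (-(am ρ g φ' x + ρ1 x * (am ρ g (fun s => s * φ' s) x + am ρ g φ x)) / ρ x) x := by
  set G : ℝ → ℝ := fun y => ∫ u in (0 : ℝ)..y, g u with hGdef
  have hG : ∀ y, HasDerivAt G (g y) y := fun y =>
    intervalIntegral.integral_hasDerivAt_right (hg.intervalIntegrable _ _)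
      (hg.stronglyMeasurableAtFilter _ _) hg.continuousAt
  have hGc : Continuous G := by
    rw [continuous_iff_continuousAt]
    exact fun y => (hG y).continuousAt
  have hφc : Continuous φ := by
    rw [continuous_iff_continuousAt]
    exact fun y => (hφ y).continuousAt
  -- integration by parts
  have hparts : ∀ y ∈ U, am ρ g φ y = -((∫ s in (-1 : ℝ)..1, G (y + ρ y * s) * φ' s) / ρ y) := by
    intro y hy
    have hr := hpos y hy
    have hv : ∀ s ∈ Set.uIcc (-1 : ℝ) 1,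
        HasDerivAt (fun s => G (y + ρ y * s) / ρ y) (g (y + ρ y * s)) s := by
      intro s _
      have e1 : HasDerivAt (fun s : ℝ => y + ρ y * s) (ρ y) s := by
        simpa using ((hasDerivAt_id s).const_mul (ρ y)).const_add y
      have e2 := ((hG (y + ρ y * s)).comp s e1).div_const (ρ y)
      have e3 : g (y + ρ y * s) * ρ y / ρ y = g (y + ρ y * s) := by field_simp
      rw [e3] at e2
      exact e2
    have hp := intervalIntegral.integral_mul_deriv_eq_deriv_mul (a := (-1 : ℝ)) (b := 1)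
      (u := φ) (u' := φ') (v := fun s => G (y + ρ y * s) / ρ y) (v' := fun s => g (y + ρ y * s))
      (fun s _ => hφ s) hv (hφ'.intervalIntegrable _ _)
      ((by fun_prop : Continuous fun s => g (y + ρ y * s)).intervalIntegrable _ _)
    rw [h1, h2] at hp
    have e4 : am ρ g φ y = ∫ s in (-1 : ℝ)..1, φ s * g (y + ρ y * s) := by
      unfold am
      congr 1
      funext s
      ring
    rw [e4, hp]
    have e5 : (∫ s in (-1 : ℝ)..1, φ' s * (G (y + ρ y * s) / ρ y)) =
        (∫ s in (-1 : ℝ)..1, G (y + ρ y * s) * φ' s) / ρ y := by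
      rw [← intervalIntegral.integral_div]
      congr 1
      funext s
      ring
    rw [e5]
    ring
  -- differentiation under the integral sign
  obtain ⟨ε, hε, hball⟩ := Metric.isOpen_iff.mp hU x hx
  have hε2 : 0 < ε / 2 := by positivity
  have hsub : Metric.closedBall x (ε / 2) ⊆ U :=
    (Metric.closedBall_subset_ball (by linarith)).trans hball
  have hK : IsCompact (Metric.closedBall x (ε / 2) ×ˢ Set.Icc (-1 : ℝ) 1) :=
    (isCompact_closedBall x (ε / 2)).prod isCompact_Icc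
  have hρcont : ContinuousOn ρ (Metric.closedBall x (ε / 2)) :=
    fun y hy => (hρ y (hsub hy)).continuousAt.continuousWithinAt
  have hcont : ContinuousOn (fun p : ℝ × ℝ => g (p.1 + ρ p.1 * p.2) * φ' p.2)
      (Metric.closedBall x (ε / 2) ×ˢ Set.Icc (-1 : ℝ) 1) := by
    have e1 : ContinuousOn (fun p : ℝ × ℝ => ρ p.1)
        (Metric.closedBall x (ε / 2) ×ˢ Set.Icc (-1 : ℝ) 1) :=
      hρcont.comp continuousOn_fst (fun p hp => hp.1)
    have e2 : ContinuousOn (fun p : ℝ × ℝ => p.1 + ρ p.1 * p.2)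
        (Metric.closedBall x (ε / 2) ×ˢ Set.Icc (-1 : ℝ) 1) :=
      continuousOn_fst.add (e1.mul continuousOn_snd)
    exact (hg.comp_continuousOn e2).mul (hφ'.comp_continuousOn continuousOn_snd)
  obtain ⟨M, hM⟩ := hK.exists_bound_of_continuousOn hcont
  have hJ := intervalIntegral.hasDerivAt_integral_of_dominated_loc_of_deriv_le
    (μ := volume) (a := (-1 : ℝ)) (b := 1) (bound := fun _ => 2 * M)
    (F := fun y s => G (y + ρ y * s) * φ' s)
    (F' := fun y s => g (y + ρ y * s) * (1 + ρ1 y * s) * φ' s) (x₀ := x)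
    (s := Metric.ball x (ε / 2)) (Metric.ball_mem_nhds x hε2)
    (Filter.Eventually.of_forall fun y => by
      exact (by fun_prop : Continuous fun s => G (y + ρ y * s) * φ' s).aestronglyMeasurable)
    ((by fun_prop : Continuous fun s => G (x + ρ x * s) * φ' s).intervalIntegrable _ _)
    ((by fun_prop : Continuous fun s =>
      g (x + ρ x * s) * (1 + ρ1 x * s) * φ' s).aestronglyMeasurable)
    (Filter.Eventually.of_forall fun s hs y hy => by
      rw [Set.uIoc_of_le (by norm_num)] at hs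
      have hs1 : |s| ≤ 1 := abs_le.mpr ⟨hs.1.le, hs.2⟩
      have hy' : y ∈ Metric.closedBall x (ε / 2) := Metric.ball_subset_closedBall hy
      have e1 := hM (y, s) ⟨hy', hs.1.le, hs.2⟩
      have e2 : |1 + ρ1 y * s| ≤ 2 := by
        have e3 := hρ1 y (hsub hy')
        have e4 : |ρ1 y * s| ≤ 1 := by
          rw [abs_mul]
          nlinarith [abs_nonneg (ρ1 y), abs_nonneg s]
        have e5 := abs_add_le 1 (ρ1 y * s)
        have e6 : |(1 : ℝ)| = 1 := abs_one
        linarith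
      rw [Real.norm_eq_abs] at e1 ⊢
      have e7 : g (y + ρ y * s) * (1 + ρ1 y * s) * φ' s =
          (g (y + ρ y * s) * φ' s) * (1 + ρ1 y * s) := by ring
      rw [e7, abs_mul]
      have e8 : |g (y + ρ y * s) * φ' s| * |1 + ρ1 y * s| ≤ M * 2 :=
        mul_le_mul e1 e2 (abs_nonneg _) ((abs_nonneg _).trans e1)
      linarith)
    (by simp)
    (Filter.Eventually.of_forall fun s _ y hy => by
      have hyU := hsub (Metric.ball_subset_closedBall hy)
      have e1 : HasDerivAt (fun y : ℝ => y + ρ y * s) (1 + ρ1 y * s) y :=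
        (hasDerivAt_id y).add ((hρ y hyU).mul_const s)
      exact ((hG (y + ρ y * s)).comp y e1).mul_const (φ' s))
  have hJ2 := hJ.2
  have hval : (∫ s in (-1 : ℝ)..1, g (x + ρ x * s) * (1 + ρ1 x * s) * φ' s) =
      am ρ g φ' x + ρ1 x * am ρ g (fun s => s * φ' s) x := by
    unfold am
    rw [← intervalIntegral.integral_const_mul, ← intervalIntegral.integral_add]
    · congr 1
      funext s
      ring
    · exact (by fun_prop : Continuous fun s => g (x + ρ x * s) * φ' s).intervalIntegrable _ _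
    · exact (by fun_prop : Continuous fun s =>
        ρ1 x * (g (x + ρ x * s) * (s * φ' s))).intervalIntegrable _ _
  rw [hval] at hJ2
  have hr := hpos x hx
  have hD := (hJ2.div (hρ x hx) hr.ne').neg
  have hev : am ρ g φ =ᶠ[nhds x]
      fun y => -((∫ s in (-1 : ℝ)..1, G (y + ρ y * s) * φ' s) / ρ y) := by
    filter_upwards [hU.mem_nhds hx] with y hy
    exact hparts y hy
  have hD2 := hD.congr_of_eventuallyEq hev
  have hfin : -(((am ρ g φ' x + ρ1 x * am ρ g (fun s => s * φ' s) x) * ρ x -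
      (∫ s in (-1 : ℝ)..1, G (x + ρ x * s) * φ' s) * ρ1 x) / ρ x ^ 2) =
      -(am ρ g φ' x + ρ1 x * (am ρ g (fun s => s * φ' s) x + am ρ g φ x)) / ρ x := by
    have e1 := hparts x hx
    rw [e1]
    field_simp
    ring
  rw [← hfin]
  exact hD2

theorem mol_second : ∃ C0 : ℝ, 0 < C0 ∧ ∀ (g ρ ρ1 ρ2 : ℝ → ℝ) (U : Set ℝ), IsOpen U → Continuous g →
    (∀ x ∈ U, 0 < ρ x) → (∀ x ∈ U, HasDerivAt ρ (ρ1 x) x) → (∀ x ∈ U, HasDerivAt ρ1 (ρ2 x) x) →
    ContinuousOn ρ2 U → (∀ x ∈ U, |ρ1 x| ≤ 1) → (∀ x ∈ U, ρ x * |ρ2 x| ≤ 1) →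
    ∃ m1 m2 : ℝ → ℝ, (∀ x ∈ U, HasDerivAt (mol ρ g) (m1 x) x ∧ HasDerivAt m1 (m2 x) x) ∧
      ContinuousOn m2 U ∧ ∀ x ∈ U, ∀ B : ℝ, (∀ u, |u - x| ≤ ρ x → |g u| ≤ B) →
        |m1 x| ≤ C0 * B / ρ x ∧ |m2 x| ≤ C0 * B / ρ x ^ 2 := by
  obtain ⟨C, hC, hCb⟩ := ker_deriv_bound
  set D : ℝ := C + 2 with hDdef
  have hD : 0 < D := by positivity
  -- facts on the kernel
  set k1 : ℝ → ℝ := deriv ker with hk1
  set k2 : ℝ → ℝ := deriv (deriv ker) with hk2
  have hkd : ContDiff ℝ (1 + 1) ker := by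
    have := ker_contDiff
    norm_num
    exact this
  have hk1d : ContDiff ℝ 1 k1 := (contDiff_succ_iff_deriv.mp hkd).2.2
  have hk : ∀ s, HasDerivAt ker (k1 s) s := fun s =>
    ((contDiff_succ_iff_deriv.mp hkd).1 s).hasDerivAt
  have hk1' : ∀ s, HasDerivAt k1 (k2 s) s := fun s =>
    (hk1d.differentiable (by norm_num) s).hasDerivAt
  have hk1c : Continuous k1 := hk1d.continuous
  have hk2c : Continuous k2 := hk1d.continuous_deriv (by norm_num)
  have hkc : Continuous ker := ker_continuous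
  have kz : ∀ s : ℝ, |s| = 1 → ker s = 0 := fun s hs => ker_zero s hs.ge
  have k1z1 : k1 1 = 0 := by
    -- `ker` has a minimum at `1`
    have hmin : IsLocalMin ker 1 := by
      apply Filter.Eventually.of_forall
      intro s
      rw [ker_zero 1 (by norm_num)]
      exact ker_nonneg s
    exact hmin.deriv_eq_zero
  have k1z2 : k1 (-1) = 0 := by
    have hmin : IsLocalMin ker (-1) := by
      apply Filter.Eventually.of_forall
      intro s
      rw [ker_zero (-1) (by norm_num)]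
      exact ker_nonneg s
    exact hmin.deriv_eq_zero
  have k0z1 : ker 1 = 0 := ker_zero 1 (by norm_num)
  have k0z2 : ker (-1) = 0 := ker_zero (-1) (by norm_num)
  have bk : ∀ s, |s| ≤ 1 → |ker s| ≤ D := by
    intro s _
    rw [abs_of_nonneg (ker_nonneg s)]
    have := ker_le s
    linarith
  have bk1 : ∀ s, |s| ≤ 1 → |k1 s| ≤ D := by
    intro s _
    have := (hCb s).1
    linarith
  have bk2 : ∀ s, |s| ≤ 1 → |k2 s| ≤ D := by
    intro s _
    have := (hCb s).2
    linarith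
  have bmul : ∀ (f : ℝ → ℝ), (∀ s, |s| ≤ 1 → |f s| ≤ D) → ∀ s, |s| ≤ 1 → |s * f s| ≤ D := by
    intro f hf s hs
    rw [abs_mul]
    have h1 := hf s hs
    nlinarith [abs_nonneg s, abs_nonneg (f s)]
  refine ⟨200 * D, by positivity, ?_⟩
  intro g ρ ρ1 ρ2 U hU hg hpos hρ hρ1 hρ2 hb1 hb2
  -- the auxiliary averages
  -- P1 = am k1, P2 = am (s k1), P3 = am ker
  have dP3 : ∀ x ∈ U, HasDerivAt (am ρ g ker)
      (-(am ρ g k1 x + ρ1 x * (am ρ g (fun s => s * k1 s) x + am ρ g ker x)) / ρ x) x :=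
    fun x hx => am_hasDerivAt hU hg hk hk1c k0z1 k0z2 hpos hρ hb1 hx
  have dP1 : ∀ x ∈ U, HasDerivAt (am ρ g k1)
      (-(am ρ g k2 x + ρ1 x * (am ρ g (fun s => s * k2 s) x + am ρ g k1 x)) / ρ x) x :=
    fun x hx => am_hasDerivAt hU hg hk1' hk2c k1z1 k1z2 hpos hρ hb1 hx
  have hsk : ∀ s, HasDerivAt (fun s => s * k1 s) (k1 s + s * k2 s) s := by
    intro s
    have h1 := (hasDerivAt_id s).mul (hk1' s)
    have h2 : (1 : ℝ) * k1 s + id s * k2 s = k1 s + s * k2 s := by simp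
    rw [h2] at h1
    exact h1
  have dP2 : ∀ x ∈ U, HasDerivAt (am ρ g (fun s => s * k1 s))
      (-(am ρ g (fun s => k1 s + s * k2 s) x + ρ1 x *
        (am ρ g (fun s => s * (k1 s + s * k2 s)) x + am ρ g (fun s => s * k1 s) x)) / ρ x) x :=
    fun x hx => am_hasDerivAt hU hg hsk (by fun_prop) (by simp [k1z1]) (by simp [k1z2]) hpos hρ
      hb1 hx
  set d1 : ℝ → ℝ := fun x =>
    -(am ρ g k2 x + ρ1 x * (am ρ g (fun s => s * k2 s) x + am ρ g k1 x)) / ρ x with hd1
  set d2' : ℝ → ℝ := fun x => -(am ρ g (fun s => k1 s + s * k2 s) x + ρ1 x *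
        (am ρ g (fun s => s * (k1 s + s * k2 s)) x + am ρ g (fun s => s * k1 s) x)) / ρ x with hd2
  set d3 : ℝ → ℝ := fun x =>
    -(am ρ g k1 x + ρ1 x * (am ρ g (fun s => s * k1 s) x + am ρ g ker x)) / ρ x with hd3
  set m1 : ℝ → ℝ := fun x =>
    -(am ρ g k1 x + ρ1 x * (am ρ g (fun s => s * k1 s) x + am ρ g ker x)) / ρ x with hm1
  set m2 : ℝ → ℝ := fun x =>
    (-(d1 x + (ρ2 x * (am ρ g (fun s => s * k1 s) x + am ρ g ker x) +
      ρ1 x * (d2' x + d3 x))) * ρ x -
      -(am ρ g k1 x + ρ1 x * (am ρ g (fun s => s * k1 s) x + am ρ g ker x)) * ρ1 x) / ρ x ^ 2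
    with hm2
  have hρc : ContinuousOn ρ U := fun y hy => (hρ y hy).continuousAt.continuousWithinAt
  have hρ1c : ContinuousOn ρ1 U := fun y hy => (hρ1 y hy).continuousAt.continuousWithinAt
  have hne : ∀ x ∈ U, ρ x ≠ 0 := fun x hx => (hpos x hx).ne'
  have cA : ∀ φ : ℝ → ℝ, Continuous φ → ContinuousOn (am ρ g φ) U :=
    fun φ hφ => am_contOn hg hφ hρc
  have cP1 := cA k1 hk1c
  have cP2 := cA (fun s => s * k1 s) (by fun_prop)
  have cP3 := cA ker hkc
  have cd1 : ContinuousOn d1 U :=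
    (((cA k2 hk2c).add (hρ1c.mul ((cA (fun s => s * k2 s) (by fun_prop)).add cP1))).neg).div hρc
      hne
  have cd2 : ContinuousOn d2' U :=
    (((cA (fun s => k1 s + s * k2 s) (by fun_prop)).add
      (hρ1c.mul ((cA (fun s => s * (k1 s + s * k2 s)) (by fun_prop)).add cP2))).neg).div hρc hne
  have cd3 : ContinuousOn d3 U := ((cP1.add (hρ1c.mul (cP2.add cP3))).neg).div hρc hne
  refine ⟨m1, m2, ?_, ?_, ?_⟩
  · intro x hx
    refine ⟨dP3 x hx, ?_⟩
    have h1 := ((dP1 x hx).add ((hρ1 x hx).mul ((dP2 x hx).add (dP3 x hx)))).neg.div (hρ x hx)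
      (hne x hx)
    exact h1
  · have h1 := (((cd1.add ((hρ2.mul (cP2.add cP3)).add (hρ1c.mul (cd2.add cd3)))).neg.mul hρc).sub
      (((cP1.add (hρ1c.mul (cP2.add cP3))).neg).mul hρ1c)).div (hρc.pow 2)
      (fun x hx => pow_ne_zero 2 (hne x hx))
    exact h1
  · intro x hx B hB
    have hr := hpos x hx
    have hB0 : 0 ≤ B := (abs_nonneg _).trans (hB x (by simp [hr.le]))
    have b1 := hb1 x hx
    have b2 := hb2 x hx
    have A : ∀ (φ : ℝ → ℝ), (∀ s, |s| ≤ 1 → |φ s| ≤ D) → |am ρ g φ x| ≤ 2 * B * D :=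
      fun φ hφ => am_bound hr hD.le hφ hB
    have A2 : ∀ (φ : ℝ → ℝ), (∀ s, |s| ≤ 1 → |φ s| ≤ 2 * D) → |am ρ g φ x| ≤ 2 * B * (2 * D) :=
      fun φ hφ => am_bound hr (by positivity) hφ hB
    set E : ℝ := 2 * B * D with hE
    have hE0 : 0 ≤ E := by positivity
    have aP1 : |am ρ g k1 x| ≤ E := A k1 bk1
    have aP2 : |am ρ g (fun s => s * k1 s) x| ≤ E := A _ (bmul k1 bk1)
    have aP3 : |am ρ g ker x| ≤ E := A ker bk
    have aQ1 : |am ρ g k2 x| ≤ E := A k2 bk2
    have aQ2 : |am ρ g (fun s => s * k2 s) x| ≤ E := A _ (bmul k2 bk2)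
    have bsum : ∀ s, |s| ≤ 1 → |k1 s + s * k2 s| ≤ 2 * D := by
      intro s hs
      have e1 := abs_add_le (k1 s) (s * k2 s)
      have e2 := bk1 s hs
      have e3 := bmul k2 bk2 s hs
      linarith
    have aR1 : |am ρ g (fun s => k1 s + s * k2 s) x| ≤ 2 * E := by
      have := A2 _ bsum
      linarith
    have aR2 : |am ρ g (fun s => s * (k1 s + s * k2 s)) x| ≤ 2 * E := by
      have e1 : ∀ s, |s| ≤ 1 → |s * (k1 s + s * k2 s)| ≤ 2 * D := by
        intro s hs
        rw [abs_mul]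
        have := bsum s hs
        nlinarith [abs_nonneg s, abs_nonneg (k1 s + s * k2 s)]
      have := A2 _ e1
      linarith
    -- general bound
    have tri : ∀ (u v w : ℝ) (a b c : ℝ), |u| ≤ a → |v| ≤ b → |w| ≤ c →
        |-(u + ρ1 x * (v + w)) / ρ x| ≤ (a + b + c) / ρ x := by
      intro u v w a b c hu hv hw
      rw [abs_div, abs_of_pos hr, abs_neg]
      apply div_le_div_of_nonneg_right _ hr.le
      have e1 := abs_add_le u (ρ1 x * (v + w))
      have e2 := abs_add_le v w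
      have e3 : |ρ1 x * (v + w)| ≤ |v + w| := by
        rw [abs_mul]
        nlinarith [abs_nonneg (v + w), abs_nonneg (ρ1 x)]
      linarith
    have bd1 : |d1 x| ≤ 3 * E / ρ x := by
      have := tri _ _ _ _ _ _ aQ1 aQ2 aP1
      have e : E + E + E = 3 * E := by ring
      rw [e] at this
      exact this
    have bd2 : |d2' x| ≤ 5 * E / ρ x := by
      have := tri _ _ _ _ _ _ aR1 aR2 aP2
      have e : 2 * E + 2 * E + E = 5 * E := by ring
      rw [e] at this
      exact this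
    have bd3 : |d3 x| ≤ 3 * E / ρ x := by
      have := tri _ _ _ _ _ _ aP1 aP2 aP3
      have e : E + E + E = 3 * E := by ring
      rw [e] at this
      exact this
    have bm1 : |m1 x| ≤ 3 * E / ρ x := bd3
    have hEB : 3 * E ≤ 200 * D * B := by
      rw [hE]
      nlinarith [mul_nonneg hB0 hD.le]
    refine ⟨bm1.trans (div_le_div_of_nonneg_right hEB hr.le), ?_⟩
    have e0 : m2 x = (-(d1 x + (ρ2 x * (am ρ g (fun s => s * k1 s) x + am ρ g ker x) +
      ρ1 x * (d2' x + d3 x))) * ρ x -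
      -(am ρ g k1 x + ρ1 x * (am ρ g (fun s => s * k1 s) x + am ρ g ker x)) * ρ1 x) / ρ x ^ 2 :=
      rfl
    rw [e0, abs_div, abs_of_pos (by positivity : (0 : ℝ) < ρ x ^ 2)]
    apply div_le_div_of_nonneg_right _ (by positivity)
    -- numerators
    have f1 : |d1 x * ρ x| ≤ 3 * E := by
      rw [abs_mul, abs_of_pos hr]
      calc |d1 x| * ρ x ≤ 3 * E / ρ x * ρ x := mul_le_mul_of_nonneg_right bd1 hr.le
        _ = 3 * E := by field_simp
    have f2 : |(d2' x + d3 x) * ρ x| ≤ 8 * E := by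
      rw [abs_mul, abs_of_pos hr]
      have e1 := abs_add_le (d2' x) (d3 x)
      calc |d2' x + d3 x| * ρ x ≤ (5 * E / ρ x + 3 * E / ρ x) * ρ x :=
            mul_le_mul_of_nonneg_right (by linarith) hr.le
        _ = 8 * E := by field_simp; ring
    have f3 : |ρ x * ρ2 x| ≤ 1 := by
      rw [abs_mul, abs_of_pos hr]
      exact b2
    set V : ℝ := am ρ g (fun s => s * k1 s) x + am ρ g ker x with hV
    have fV : |V| ≤ 2 * E := by
      have := abs_add_le (am ρ g (fun s => s * k1 s) x) (am ρ g ker x)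
      linarith
    have f4 : |(ρ x * ρ2 x) * V| ≤ 2 * E := by
      rw [abs_mul]
      nlinarith [abs_nonneg (ρ x * ρ2 x), abs_nonneg V]
    have f5 : |ρ1 x * ((d2' x + d3 x) * ρ x)| ≤ 8 * E := by
      rw [abs_mul]
      nlinarith [abs_nonneg (ρ1 x), abs_nonneg ((d2' x + d3 x) * ρ x)]
    have f6 : |(am ρ g k1 x + ρ1 x * V)| ≤ 3 * E := by
      have e1 := abs_add_le (am ρ g k1 x) (ρ1 x * V)
      have e3 : |ρ1 x * V| ≤ |V| := by
        rw [abs_mul]
        nlinarith [abs_nonneg V, abs_nonneg (ρ1 x)]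
      linarith
    have f7 : |(am ρ g k1 x + ρ1 x * V) * ρ1 x| ≤ 3 * E := by
      rw [abs_mul]
      nlinarith [abs_nonneg (am ρ g k1 x + ρ1 x * V), abs_nonneg (ρ1 x)]
    have e9 : -(d1 x + (ρ2 x * V + ρ1 x * (d2' x + d3 x))) * ρ x -
        -(am ρ g k1 x + ρ1 x * V) * ρ1 x =
        -(d1 x * ρ x) - (ρ x * ρ2 x) * V - ρ1 x * ((d2' x + d3 x) * ρ x) +
          (am ρ g k1 x + ρ1 x * V) * ρ1 x := by ring
    rw [e9]
    have hfin : 16 * E ≤ 200 * D * B := by
      rw [hE]
      nlinarith [mul_nonneg hB0 hD.le]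
    rw [abs_le] at f1 f4 f5 f7 ⊢
    constructor <;> linarith [f1.1, f1.2, f4.1, f4.2, f5.1, f5.2, f7.1, f7.2]

theorem mol_poly (ρ : ℝ → ℝ) (α β γ x : ℝ) :
    mol ρ (fun u => α + β * u + γ * u ^ 2) x = α + β * x + γ * x ^ 2 + γ * ρ x ^ 2 / 9 := by
  have hkc : Continuous ker := ker_continuous
  unfold mol
  have e1 : (fun s : ℝ => (α + β * (x + ρ x * s) + γ * (x + ρ x * s) ^ 2) * ker s) =
      fun s => ((α + β * x + γ * x ^ 2) * ker s + (β * ρ x + 2 * γ * x * ρ x) * (s * ker s)) +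
        (γ * ρ x ^ 2) * (s ^ 2 * ker s) := by
    funext s
    ring
  show (∫ s in (-1 : ℝ)..1, (α + β * (x + ρ x * s) + γ * (x + ρ x * s) ^ 2) * ker s) = _
  rw [e1]
  have i1 : IntervalIntegrable (fun s => (α + β * x + γ * x ^ 2) * ker s) volume (-1 : ℝ) 1 :=
    (by fun_prop : Continuous fun s => (α + β * x + γ * x ^ 2) * ker s).intervalIntegrable _ _
  have i2 : IntervalIntegrable (fun s => (β * ρ x + 2 * γ * x * ρ x) * (s * ker s)) volume
      (-1 : ℝ) 1 :=
    (by fun_prop : Continuous fun s =>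
      (β * ρ x + 2 * γ * x * ρ x) * (s * ker s)).intervalIntegrable _ _
  have i3 : IntervalIntegrable (fun s => (γ * ρ x ^ 2) * (s ^ 2 * ker s)) volume (-1 : ℝ) 1 :=
    (by fun_prop : Continuous fun s => (γ * ρ x ^ 2) * (s ^ 2 * ker s)).intervalIntegrable _ _
  rw [intervalIntegral.integral_add (i1.add i2) i3, intervalIntegral.integral_add i1 i2,
    intervalIntegral.integral_const_mul, intervalIntegral.integral_const_mul,
    intervalIntegral.integral_const_mul, ker_int, ker_int1, ker_int2]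
  ring

theorem mol_continuous (ρ g : ℝ → ℝ) (hρ : Continuous ρ) (hg : Continuous g) :
    Continuous (mol ρ g) := by
  have hkc : Continuous ker := ker_continuous
  show Continuous fun x => ∫ s in (-1 : ℝ)..1, g (x + ρ x * s) * ker s
  apply intervalIntegral.continuous_parametric_intervalIntegral_of_continuous'
  show Continuous fun p : ℝ × ℝ => g (p.1 + ρ p.1 * p.2) * ker p.2
  fun_prop

private theorem mol_sym (ρ g : ℝ → ℝ) (hg : Continuous g) (x : ℝ) :
    2 * g x - 2 * mol ρ g x =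
      ∫ s in (-1 : ℝ)..1, (2 * g x - g (x + ρ x * s) - g (x - ρ x * s)) * ker s := by
  have hkc : Continuous ker := ker_continuous
  have e1 : mol ρ g x = ∫ s in (-1 : ℝ)..1, g (x - ρ x * s) * ker s := by
    have h1 := intervalIntegral.integral_comp_neg (a := (-1 : ℝ)) (b := 1)
      (fun s => g (x + ρ x * s) * ker s)
    rw [neg_neg] at h1
    unfold mol
    rw [← h1]
    congr 1
    funext s
    rw [ker_even]
    congr 2
    ring
  have i1 : IntervalIntegrable (fun s => 2 * g x * ker s) volume (-1 : ℝ) 1 :=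
    (by fun_prop : Continuous fun s => 2 * g x * ker s).intervalIntegrable _ _
  have i2 : IntervalIntegrable (fun s => g (x + ρ x * s) * ker s) volume (-1 : ℝ) 1 :=
    (by fun_prop : Continuous fun s => g (x + ρ x * s) * ker s).intervalIntegrable _ _
  have i3 : IntervalIntegrable (fun s => g (x - ρ x * s) * ker s) volume (-1 : ℝ) 1 :=
    (by fun_prop : Continuous fun s => g (x - ρ x * s) * ker s).intervalIntegrable _ _
  have e2 : (fun s => (2 * g x - g (x + ρ x * s) - g (x - ρ x * s)) * ker s) =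
      fun s => (2 * g x * ker s - g (x + ρ x * s) * ker s) - g (x - ρ x * s) * ker s := by
    funext s
    ring
  rw [e2, intervalIntegral.integral_sub (i1.sub i2) i3, intervalIntegral.integral_sub i1 i2,
    intervalIntegral.integral_const_mul, ker_int, ← e1]
  have e3 : (∫ s in (-1 : ℝ)..1, g (x + ρ x * s) * ker s) = mol ρ g x := rfl
  rw [e3]
  ring

private theorem conc_two {g : ℝ → ℝ} (hc : ConcaveOn ℝ univ g) (x r : ℝ) :
    g (x + r) + g (x - r) ≤ 2 * g x := by
  have h := hc.2 (mem_univ (x + r)) (mem_univ (x - r)) (by norm_num : (0 : ℝ) ≤ 1 / 2)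
    (by norm_num : (0 : ℝ) ≤ 1 / 2) (by norm_num)
  simp only [smul_eq_mul] at h
  have e1 : 1 / 2 * (x + r) + 1 / 2 * (x - r) = x := by ring
  rw [e1] at h
  linarith

theorem mol_le (ρ g : ℝ → ℝ) (hg : Continuous g) (hc : ConcaveOn ℝ univ g) (x : ℝ) :
    mol ρ g x ≤ g x := by
  have h1 := mol_sym ρ g hg x
  have h2 : 0 ≤ ∫ s in (-1 : ℝ)..1, (2 * g x - g (x + ρ x * s) - g (x - ρ x * s)) * ker s := by
    apply intervalIntegral.integral_nonneg (by norm_num)
    intro s _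
    apply mul_nonneg _ (ker_nonneg s)
    have := conc_two hc x (ρ x * s)
    linarith
  linarith

theorem mol_lt (ρ g : ℝ → ℝ) (hg : Continuous g) (hc : ConcaveOn ℝ univ g) (x : ℝ) (hρ : 0 < ρ x)
    (hs : ∀ r : ℝ, 0 < r → g (x + r) + g (x - r) < 2 * g x) : mol ρ g x < g x := by
  have hkc : Continuous ker := ker_continuous
  have h1 := mol_sym ρ g hg x
  have h2 : 0 < ∫ s in (-1 : ℝ)..1, (2 * g x - g (x + ρ x * s) - g (x - ρ x * s)) * ker s := by
    apply intervalIntegral.integral_pos (by norm_num)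
    · exact (by fun_prop : Continuous fun s =>
        (2 * g x - g (x + ρ x * s) - g (x - ρ x * s)) * ker s).continuousOn
    · intro s _
      apply mul_nonneg _ (ker_nonneg s)
      have := conc_two hc x (ρ x * s)
      linarith
    · refine ⟨1 / 2, ⟨by norm_num, by norm_num⟩, ?_⟩
      apply mul_pos
      · have := hs (ρ x * (1 / 2)) (by positivity)
        linarith
      · apply ker_pos
        rw [abs_of_pos (by norm_num)]
        norm_num
  linarith

end Pool.Agent.MP_4eca41
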